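import Pool.Agent.Lib.MP_dfd018_pr.Cheb

/-!
Polynomial approximations of the absolute value and of the sign.
-/

namespace Pool.Agent.Lib.MP_dfd018_pr

open Finset Polynomial Real intervalIntegral

lemma mono_of_deriv {f f' : ℝ → ℝ} {x y : ℝ} (hxy : x ≤ y)
    (h : ∀ t ∈ Set.Icc x y, HasDerivAt f (f' t) t) (h0 : ∀ t ∈ Set.Icc x y, 0 ≤ f' t) :
    f x ≤ f y := by
  have := monotoneOn_of_deriv_nonneg (convex_Icc x y) (f := f)
    (fun t ht => (h t ht).continuousAt.continuousWithinAt)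
    (fun t ht => (h t (interior_subset ht)).differentiableAt.differentiableWithinAt)
    (fun t ht => by rw [(h t (interior_subset ht)).deriv]; exact h0 t (interior_subset ht))
  exact this (Set.left_mem_Icc.2 hxy) (Set.right_mem_Icc.2 hxy) hxy

lemma exists_antideriv (P : ℝ[X]) :
    ∃ Q : ℝ[X], Q.derivative = P ∧ Q.eval 0 = 0 ∧ Q.natDegree ≤ P.natDegree + 1 := by
  refine ⟨∑ i ∈ range (P.natDegree + 1), monomial (i + 1) (P.coeff i / (i + 1)), ?_, ?_, ?_⟩
  · rw [derivative_sum]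
    conv_rhs => rw [P.as_sum_range]
    refine sum_congr rfl fun i _ => ?_
    rw [derivative_monomial, add_tsub_cancel_right]
    congr 1
    push_cast
    field_simp
  · simp [eval_finsetSum]
  · refine natDegree_sum_le_of_forall_le _ _ fun i hi => (natDegree_monomial_le _).trans ?_
    have := mem_range.1 hi; omega

lemma parity_antideriv {Q : ℝ[X]} {σ : ℝ} (h : ∀ y, Q.derivative.eval (-y) = σ * Q.derivative.eval y)
    (h0 : Q.eval 0 = 0) (y : ℝ) : Q.eval (-y) = -σ * Q.eval y := by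
  have h1 : ∀ y, HasDerivAt (fun y => Q.eval (-y) + σ * Q.eval y) 0 y := fun y =>
    (((Q.hasDerivAt (-y)).comp y (hasDerivAt_neg y)).fun_add
      ((Q.hasDerivAt y).const_mul σ)).congr_deriv (by rw [h]; ring)
  have h2 := is_const_of_deriv_eq_zero (fun y => (h1 y).differentiableAt) (fun y => (h1 y).deriv) y 0
  simp only [neg_zero, h0] at h2
  linarith

lemma T_lower (x : ℝ) (hx : 0 ≤ x) (k : ℕ) :
    1 + k ^ 2 * x ≤ (Chebyshev.T ℝ k).eval (1 + x) := by
  have key : ∀ k : ℕ, 1 + k ^ 2 * x ≤ (Chebyshev.T ℝ k).eval (1 + x) ∧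
      (2 * k + 1) * x ≤ (Chebyshev.T ℝ (k + 1)).eval (1 + x) - (Chebyshev.T ℝ k).eval (1 + x) := by
    intro k
    induction k with
    | zero => simp
    | succ k ih =>
      have h1 := Chebyshev.T_add_two ℝ k
      have h2 := congrArg (eval (1 + x)) h1
      simp only [eval_sub, eval_mul, eval_X, eval_ofNat] at h2
      push_cast
      rw [add_assoc (k : ℤ), one_add_one_eq_two, h2]
      have h3 : 0 ≤ (k : ℝ) ^ 2 * x := by positivity
      have h4 : 0 ≤ (2 * (k : ℝ) + 1) * x := by positivity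
      constructor <;> nlinarith [ih.1, ih.2]
  exact (key k).1

lemma exists_r (k : ℕ) (hk : 1 ≤ k) : ∃ r : ℝ[X], r.natDegree ≤ 2 * k ∧
    (∀ y, r.eval (-y) = r.eval y) ∧ ∀ y, |y| ≤ 3 →
      2 / 3 ≤ r.eval y * (y ^ 2 + (3 / k) ^ 2) ∧ r.eval y * (y ^ 2 + (3 / k) ^ 2) ≤ 4 / 3 := by
  have hk' : (0 : ℝ) < k := by exact_mod_cast hk
  set τ := (Chebyshev.T ℝ k).eval (1 + 2 / (k : ℝ) ^ 2) with hτ
  have h3 : 3 ≤ τ := by
    have := T_lower (2 / (k : ℝ) ^ 2) (by positivity) k
    have e : (k : ℝ) ^ 2 * (2 / (k : ℝ) ^ 2) = 2 := by field_simp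
    linarith
  set Nz : ℝ[X] := 1 - C (1 / τ) * (Chebyshev.T ℝ k).comp (1 - C (2 / 9) * X) with hN
  have hroot : Nz.IsRoot (-(3 / k) ^ 2) := by
    have e : 1 - 2 / 9 * (-(3 / (k : ℝ)) ^ 2) = 1 + 2 / (k : ℝ) ^ 2 := by field_simp; ring
    simp only [hN, IsRoot, eval_sub, eval_one, eval_mul, eval_C, eval_comp, eval_X, e, ← hτ]
    field_simp; ring
  have hdiv := mul_divByMonic_eq_iff_isRoot.2 hroot
  have hdeg : Nz.natDegree ≤ k := by
    refine (natDegree_sub_le _ _).trans (max_le (by simp) ((natDegree_C_mul_le _ _).trans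
      (natDegree_comp_le.trans ?_)))
    rw [Chebyshev.natDegree_T, Int.natAbs_natCast]
    have : (1 - C (2 / 9 : ℝ) * X).natDegree ≤ 1 := by compute_degree
    nlinarith
  refine ⟨(Nz /ₘ (X - C (-(3 / (k : ℝ)) ^ 2))).comp (X ^ 2), ?_, fun y => by simp [eval_comp], ?_⟩
  · refine natDegree_comp_le.trans ?_
    have := (natDegree_divByMonic Nz (monic_X_sub_C (-(3 / (k : ℝ)) ^ 2))).le
    rw [natDegree_X_pow]; omega
  · intro y hy
    have h1 := congrArg (eval (y ^ 2)) hdiv
    simp only [eval_mul, eval_sub, eval_X, eval_C, sub_neg_eq_add] at h1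
    rw [eval_comp, eval_pow, eval_X, mul_comm, h1]
    have h2 : y ^ 2 ≤ 9 := by nlinarith [abs_le.1 hy]
    have h4 := abs_le.1 (Chebyshev.abs_eval_T_real_le_one k (x := 1 - 2 / 9 * y ^ 2) (by
      rw [abs_le]; constructor <;> nlinarith [sq_nonneg y]))
    simp only [hN, eval_sub, eval_one, eval_mul, eval_C, eval_comp, eval_X]
    have h5 : 1 / τ ≤ 1 / 3 := one_div_le_one_div_of_le (by norm_num) h3
    have h6 : 0 < 1 / τ := by positivity
    constructor <;> nlinarith

lemma exists_p {η : ℝ} (hη : 0 < η) (hη3 : η ≤ 3) (r : ℝ[X]) (hr0 : ∀ y, r.eval (-y) = r.eval y)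
    (hr : ∀ y, |y| ≤ 3 → 2 / 3 ≤ r.eval y * (y ^ 2 + η ^ 2) ∧ r.eval y * (y ^ 2 + η ^ 2) ≤ 4 / 3) :
    ∃ p : ℝ[X], p.natDegree ≤ 2 * r.natDegree + 2 ∧ (∀ y, p.eval (-y) = p.eval y) ∧
      (∀ y, p.derivative.eval (-y) = -p.derivative.eval y) ∧
      (∀ y, 0 ≤ p.derivative.derivative.eval y) ∧
      (∀ y, |y| ≤ 3 → |p.derivative.eval y| ≤ 1) ∧
      (∀ y, 0 ≤ y → y ≤ 3 → 1 - 22 * η ^ 3 / (y + η) ^ 3 ≤ p.derivative.eval y) ∧
      (∀ y, |y| ≤ 3 → |y| ≤ p.eval y ∧ p.eval y ≤ |y| + 11 * η ^ 3 / (y ^ 2 + η ^ 2)) := by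
  obtain ⟨H, hH, hH0, hHd⟩ := exists_antideriv (r ^ 2)
  have hH' : ∀ t, HasDerivAt (fun y => H.eval y) (r.eval t ^ 2) t := fun t => by
    simpa [hH] using H.hasDerivAt t
  have hZ : 1 / (9 * η ^ 3) ≤ H.eval 3 := by
    have h1 := mono_of_deriv (f := fun y => H.eval y - 1 / (9 * η ^ 4) * y) hη.le
      (fun t _ => (hH' t).fun_sub ((hasDerivAt_id' t).const_mul _)) (fun t ht => by
        have h2 := (hr t (by rw [abs_of_nonneg ht.1]; linarith [ht.2])).1
        have h3 : t ^ 2 ≤ η ^ 2 := pow_le_pow_left₀ ht.1 ht.2 2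
        have h4 : 0 < r.eval t := by
          by_contra h; push Not at h
          have := mul_nonpos_of_nonpos_of_nonneg h (show 0 ≤ t ^ 2 + η ^ 2 by positivity)
          linarith
        have h5 : 1 / (3 * η ^ 2) ≤ r.eval t := by
          rw [div_le_iff₀ (by positivity)]; nlinarith
        have h6 := pow_le_pow_left₀ (by positivity) h5 2
        have e : (1 / (3 * η ^ 2)) ^ 2 = 1 / (9 * η ^ 4) * 1 := by field_simp; norm_num
        linarith)
    have h2 := mono_of_deriv hη3 (fun t _ => hH' t) (fun t _ => sq_nonneg _)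
    have e : 1 / (9 * η ^ 4) * η = 1 / (9 * η ^ 3) := by field_simp
    simp only [hH0, e] at h1
    linarith
  have hZ0 : 0 < H.eval 3 := lt_of_lt_of_le (by positivity) hZ
  set h : ℝ[X] := C (1 / H.eval 3) * H with hh
  have hd : ∀ t, h.derivative.eval t = 1 / H.eval 3 * r.eval t ^ 2 := fun t => by
    simp [hh, hH]
  have hd0 : ∀ t, 0 ≤ h.derivative.eval t := fun t => by rw [hd]; positivity
  have h3 : h.eval 3 = 1 := by simp [hh, hZ0.ne']
  have h0 : h.eval 0 = 0 := by simp [hh, hH0]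
  have hodd : ∀ y, h.eval (-y) = -h.eval y := fun y => by
    simpa using parity_antideriv (σ := 1) (fun y => by rw [hd, hd, hr0, one_mul]) h0 y
  have hm : ∀ {x y}, x ≤ y → h.eval x ≤ h.eval y := fun hxy =>
    mono_of_deriv hxy (fun t _ => h.hasDerivAt t) (fun t _ => hd0 t)
  have hb : ∀ y, |y| ≤ 3 → |h.eval y| ≤ 1 := fun y hy => by
    have h1 := hm (abs_le.1 hy).1
    have h2 := hm (abs_le.1 hy).2
    rw [hodd, h3] at h1
    rw [h3] at h2
    exact abs_le.2 ⟨h1, h2⟩
  have ht : ∀ y, 0 ≤ y → y ≤ 3 → 1 - 22 * η ^ 3 / (y + η) ^ 3 ≤ h.eval y := by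
    intro y hy hy3
    have h1 := mono_of_deriv (f := fun t => -h.eval t - 22 * η ^ 3 / (t + η) ^ 3)
      (f' := fun t => -h.derivative.eval t + 66 * η ^ 3 / (t + η) ^ 4) hy3
      (fun t ht => by
        have h2 : t + η ≠ 0 := by linarith [ht.1]
        refine ((h.hasDerivAt t).fun_neg.fun_sub ((hasDerivAt_const t (22 * η ^ 3)).fun_div
          (((hasDerivAt_id' t).add_const η).fun_pow 3) (pow_ne_zero 3 h2))).congr_deriv ?_
        field_simp; ring)
      (fun t ht => by
        have h2 : 0 ≤ t := hy.trans ht.1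
        have h4 := hr t (by rw [abs_of_nonneg h2]; exact ht.2)
        have h5 : 1 / H.eval 3 ≤ 9 * η ^ 3 := by
          rw [div_le_iff₀ hZ0]
          rw [div_le_iff₀ (by positivity)] at hZ
          linarith
        have h6 : 0 ≤ r.eval t := by
          by_contra h; push Not at h
          have := mul_nonpos_of_nonpos_of_nonneg h.le (show 0 ≤ t ^ 2 + η ^ 2 by positivity)
          linarith
        have h7 : r.eval t ≤ 8 / 3 / (t + η) ^ 2 := by
          rw [le_div_iff₀ (by positivity)]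
          have := mul_le_mul_of_nonneg_left (show (t + η) ^ 2 ≤ 2 * (t ^ 2 + η ^ 2) by
            nlinarith [sq_nonneg (t - η)]) h6
          linarith
        have h8 := mul_le_mul h5 (pow_le_pow_left₀ h6 h7 2) (by positivity) (by positivity)
        have e : 9 * η ^ 3 * (8 / 3 / (t + η) ^ 2) ^ 2 = 64 * (η ^ 3 / (t + η) ^ 4) := by
          field_simp; norm_num
        have h9 : 0 ≤ η ^ 3 / (t + η) ^ 4 := by positivity
        rw [hd, mul_div_assoc]
        linarith)
    have h2 : 0 ≤ 22 * η ^ 3 / (3 + η) ^ 3 := by positivity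
    simp only [h3] at h1
    linarith
  obtain ⟨P0, hP, hP0, hPd⟩ := exists_antideriv h
  have hpd : (P0 + C (3 - P0.eval 3)).derivative = h := by simp [hP]
  have heven : ∀ y, (P0 + C (3 - P0.eval 3)).eval (-y) = (P0 + C (3 - P0.eval 3)).eval y := by
    intro y
    have := parity_antideriv (σ := -1) (fun y => by rw [hP, hodd]; ring) hP0 y
    simp [this]
  refine ⟨P0 + C (3 - P0.eval 3), ?_, heven, by rw [hpd]; exact hodd, by rw [hpd]; exact hd0,
    by rw [hpd]; exact hb, by rw [hpd]; exact ht, ?_⟩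
  · rw [natDegree_add_C]
    have h1 : h.natDegree ≤ H.natDegree := natDegree_C_mul_le _ _
    have h2 : (r ^ 2).natDegree ≤ 2 * r.natDegree := natDegree_pow_le
    omega
  · set p := P0 + C (3 - P0.eval 3) with hp
    have hp3 : p.eval 3 = 3 := by simp [hp]
    have hp' : ∀ t, HasDerivAt (fun y => p.eval y) (h.eval t) t := fun t => by
      simpa [hpd] using p.hasDerivAt t
    have key : ∀ y, 0 ≤ y → y ≤ 3 → y ≤ p.eval y ∧ p.eval y ≤ y + 11 * η ^ 3 / (y ^ 2 + η ^ 2) := by
      intro y hy hy3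
      have h1 := mono_of_deriv (f := fun t => t - p.eval t) hy3
        (fun t _ => (hasDerivAt_id' t).fun_sub (hp' t)) (fun t ht => by
          have := abs_le.1 (hb t (by rw [abs_of_nonneg (hy.trans ht.1)]; exact ht.2))
          linarith)
      have h2 := mono_of_deriv (f := fun t => p.eval t - t - 11 * η ^ 3 / (t + η) ^ 2)
        (f' := fun t => h.eval t - 1 + 22 * η ^ 3 / (t + η) ^ 3) hy3
        (fun t ht => by
          have h2 : t + η ≠ 0 := by linarith [ht.1]
          refine (((hp' t).fun_sub (hasDerivAt_id' t)).fun_sub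
            ((hasDerivAt_const t (11 * η ^ 3)).fun_div
            (((hasDerivAt_id' t).add_const η).fun_pow 2) (pow_ne_zero 2 h2))).congr_deriv ?_
          field_simp; ring)
        (fun t h4 => by linarith [ht t (hy.trans h4.1) h4.2])
      have h4 : 0 ≤ 11 * η ^ 3 / (3 + η) ^ 2 := by positivity
      have h5 : 11 * η ^ 3 / (y + η) ^ 2 ≤ 11 * η ^ 3 / (y ^ 2 + η ^ 2) :=
        div_le_div_of_nonneg_left (by positivity) (by positivity) (by nlinarith)
      simp only [hp3] at h1 h2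
      constructor <;> linarith
    intro y hy
    have h1 := key |y| (abs_nonneg y) hy
    have h2 : p.eval |y| = p.eval y := by
      rcases abs_choice y with h | h <;> rw [h]
      exact heven y
    rwa [h2, sq_abs] at h1

lemma cf_r_le {η : ℝ} (hη : 0 < η) {f : ℝ → ℝ}
    (hr : ∀ y, |y| ≤ 2 → |f y| ≤ 4 / 3 / (y ^ 2 + η ^ 2)) (j : ℕ) : |cf f j| ≤ 2 / η := by
  have hc : Continuous fun θ => 4 / 3 / ((2 * cos θ) ^ 2 + η ^ 2) * sin θ :=
    (continuous_const.div (by fun_prop) fun θ => by positivity).mul continuous_sin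
  refine (abs_cf_le hc j fun θ hθ => mul_le_mul_of_nonneg_right (hr _ (two_cos_mem θ))
    (sin_nonneg_of_mem_Icc hθ)).trans ?_
  rw [integral_eq_sub_of_hasDerivAt (f := fun θ => -(2 / (3 * η)) * arctan (2 * cos θ / η))
    (fun θ _ => by
      refine ((((hasDerivAt_cos θ).const_mul 2).div_const η).arctan.const_mul _).congr_deriv ?_
      field_simp; ring) (hc.intervalIntegrable _ _)]
  have h1 := arctan_lt_pi_div_two (2 * cos 0 / η)
  have h2 := neg_pi_div_two_lt_arctan (2 * cos π / η)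
  calc _ = 2 / π * (2 / (3 * η) * (arctan (2 * cos 0 / η) - arctan (2 * cos π / η))) := by ring
    _ ≤ 2 / π * (2 / (3 * η) * π) := by gcongr; linarith
    _ = 4 / 3 / η := by field_simp; norm_num
    _ ≤ _ := by gcongr; norm_num

lemma cf_bump {g : ℝ → ℝ} (hg : Continuous g) {a : ℝ} (ha : 0 ≤ a) (ha1 : a ≤ 1)
    (h0 : ∀ y, |y| ≤ 2 → 0 ≤ g y) (h1 : ∀ y, |y| ≤ a → 1 ≤ g y) : a / π ≤ cf g 0 := by
  unfold cf
  have hc : Continuous fun θ => g (2 * cos θ) * sin θ * sin (((0 : ℕ) + 1) * θ) := by fun_prop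
  have h2 := integral_mono_interval (μ := MeasureTheory.volume) (c := 0) (d := π)
    (a := π / 2 - a / 2) (b := π / 2 + a / 2) (by linarith [pi_gt_three]) (by linarith)
    (by linarith [pi_gt_three]) (MeasureTheory.ae_of_all _ fun θ => by
      simp only [Nat.cast_zero, zero_add, one_mul, mul_assoc, Pi.zero_apply]
      exact mul_nonneg (h0 _ (two_cos_mem θ)) (mul_self_nonneg _)) (hc.intervalIntegrable _ _)
  have h3 := integral_mono_on (μ := MeasureTheory.volume) (a := π / 2 - a / 2) (b := π / 2 + a / 2)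
    (f := fun _ => (1 / 2 : ℝ)) (by linarith) (by simp) (hc.intervalIntegrable _ _) (fun θ hθ => by
      have h4 : |cos θ| ≤ a / 2 := by
        rw [← sin_pi_div_two_sub]
        refine abs_sin_le_abs.trans (abs_le.2 ⟨by linarith [hθ.2], by linarith [hθ.1]⟩)
      have h5 := h1 (2 * cos θ) (by rw [abs_mul, abs_two]; linarith)
      have h6 : cos θ ^ 2 ≤ (a / 2) ^ 2 := by rw [← sq_abs]; gcongr
      have h7 := sin_sq_add_cos_sq θ
      simp only [Nat.cast_zero, zero_add, one_mul, mul_assoc]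
      nlinarith)
  simp only [intervalIntegral.integral_const, smul_eq_mul] at h3
  calc a / π = 2 / π * ((π / 2 + a / 2 - (π / 2 - a / 2)) * (1 / 2)) := by ring
    _ ≤ _ := mul_le_mul_of_nonneg_left (h3.trans h2) (by positivity)

structure Apx (d : ℕ) (η : ℝ) where
  r : ℝ[X]
  p : ℝ[X]
  F : ℝ[X]
  dr : r.natDegree ≤ d
  dp : p.natDegree ≤ d
  dF : F.natDegree ≤ d
  r_ge : ∀ y, |y| ≤ 3 → 2 / 3 ≤ r.eval y * (y ^ 2 + η ^ 2)
  r_cf : ∀ j, |cf (fun y => r.eval y) j| ≤ 2 / η
  r_even : ∀ y, r.eval (-y) = r.eval y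
  p_ge : ∀ y, |y| ≤ 3 → |y| ≤ p.eval y
  p_le : ∀ y, |y| ≤ 3 → p.eval y ≤ |y| + 11 * η ^ 3 / (y ^ 2 + η ^ 2)
  p_cf : ∀ j, |cf (fun y => p.eval y) j| ≤ 22 / (j + 1) ^ 2
  p_one : cf (fun y => p.eval y) 1 = 0
  F_cf : ∀ j, |cf (fun y => F.eval y) j| ≤ 4 / (j + 1)
  F_zero : cf (fun y => F.eval y) 0 ≤ -(7 * η)
  F_ge : ∀ y, |y| ≤ 5 / 2 → -1 ≤ F.eval y
  F_big : ∀ y, 200 * η ≤ y → y ≤ 5 / 2 → 1 - 2 * η ^ 2 * r.eval y ≤ F.eval y

theorem exists_apx (k : ℕ) (hk : 600 ≤ k) : Nonempty (Apx (4 * k + 2) (3 / k)) := by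
  have hk' : (600 : ℝ) ≤ k := by exact_mod_cast hk
  obtain ⟨r, hrd, hr0, hr⟩ := exists_r k (by omega)
  set η : ℝ := 3 / k with hηd
  have hη : 0 < η := by positivity
  have hη1 : η ≤ 1 / 200 := by rw [hηd, div_le_iff₀ (by linarith)]; linarith
  obtain ⟨p, hpd, hp0, hp1, hp2, hp3, hp4, hp5⟩ := exists_p hη (by linarith) r hr0 hr
  have hgap : ∀ y : ℝ, 11 * η ^ 3 / (y ^ 2 + η ^ 2) ≤ 11 * η := fun y => by
    rw [div_le_iff₀ (by positivity)]
    nlinarith [mul_nonneg hη.le (sq_nonneg y)]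
  have hF : ∀ y, (p.derivative.comp (X - C (100 * η))).eval y = p.derivative.eval (y - 100 * η) :=
    fun y => by simp [eval_comp]
  have hm : ∀ {x y}, x ≤ y → p.derivative.eval x ≤ p.derivative.eval y := fun hxy =>
    mono_of_deriv hxy (fun t _ => p.derivative.hasDerivAt t) (fun t _ => hp2 t)
  have hsh : ∀ y, |y| ≤ 5 / 2 → |y - 100 * η| ≤ 3 := fun y hy => by
    rw [abs_le] at hy ⊢; constructor <;> linarith
  refine ⟨⟨r, p, p.derivative.comp (X - C (100 * η)), by omega, by omega, ?_,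
    fun y hy => (hr y hy).1, cf_r_le hη fun y hy => ?_, hr0, fun y hy => (hp5 y hy).1,
    fun y hy => (hp5 y hy).2, cf_le_conv p (fun y _ => hp2 y) (fun y hy => hp3 y (by linarith))
      fun y hy => ?_, ?_, cf_le_mono _ (fun y _ => ?_) fun y hy => ?_, ?_, fun y hy => ?_,
    fun y hy hy' => ?_⟩⟩
  · refine natDegree_comp_le.trans ?_
    have := natDegree_derivative_le p
    rw [natDegree_X_sub_C]; omega
  · have h1 := hr y (by linarith)
    have h2 : 0 < y ^ 2 + η ^ 2 := by positivity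
    rw [le_div_iff₀ h2, ← abs_of_pos h2, ← abs_mul, abs_of_nonneg (by linarith)]
    exact h1.2
  · have h1 := hp5 y (by linarith)
    rw [abs_of_nonneg ((abs_nonneg y).trans h1.1)]
    linarith [hgap y]
  · have := cf_neg (fun y => p.eval y) 1
    simp only [hp0] at this
    linarith
  · simp [derivative_comp, eval_comp, hp2]
  · rw [hF]; exact hp3 _ (hsh y (by linarith))
  · have h1 := cf_neg (fun y => p.derivative.eval (y - 100 * η)) 0
    have h2 := cf_add (f := fun y => p.derivative.eval (y - 100 * η))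
      (g := fun y => p.derivative.eval (-y - 100 * η)) (by fun_prop) (by fun_prop) 0
    have h3 := cf_smul (-1) (fun y => p.derivative.eval (y - 100 * η) +
      p.derivative.eval (-y - 100 * η)) 0
    have e : ∀ y, p.derivative.eval (-y - 100 * η) = -p.derivative.eval (y + 100 * η) := fun y => by
      rw [← hp1]; congr 1; ring
    have h4 := cf_bump (g := fun y => -1 * (p.derivative.eval (y - 100 * η) +
      p.derivative.eval (-y - 100 * η))) (by fun_prop) (a := 50 * η) (by positivity) (by linarith)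
      (fun y _ => by
        have := hm (show y - 100 * η ≤ y + 100 * η by linarith)
        rw [e]; linarith)
      (fun y hy => by
        have h5 := abs_le.1 hy
        have h6 := hm (show 50 * η ≤ y + 100 * η by linarith)
        have h7 := hm (show y - 100 * η ≤ -(50 * η) by linarith)
        have h8 := hp4 (50 * η) (by positivity) (by linarith)
        have h9 : 22 * η ^ 3 / (50 * η + η) ^ 3 ≤ 1 / 2 := by
          rw [div_le_iff₀ (by positivity)]
          nlinarith [pow_pos hη 3]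
        rw [hp1] at h7
        rw [e]; linarith)
    have h5 : 14 * η ≤ 50 * η / π := by
      rw [le_div_iff₀ pi_pos]; nlinarith [pi_lt_d2]
    simp only [hF]
    rw [pow_zero, one_mul] at h1
    linarith
  · rw [hF]; exact (abs_le.1 (hp3 _ (hsh y hy))).1
  · rw [hF]
    refine le_trans ?_ (hp4 _ (by linarith) (by linarith))
    have h1 := (hr y (by rw [abs_of_nonneg (by linarith)]; linarith)).1
    have h2 : 22 * η ^ 3 / (y - 100 * η + η) ^ 3 ≤ 4 / 3 * η ^ 2 / (y ^ 2 + η ^ 2) := by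
      have h3 : 0 < y - 100 * η + η := by linarith
      rw [div_le_div_iff₀ (by positivity) (by positivity)]
      have h4 : (y + η) / 2 ≤ y - 100 * η + η := by linarith
      have h5 := pow_le_pow_left₀ (by linarith) h4 3
      have h6 : 200 * η * (y ^ 2 + η ^ 2) ≤ (y + η) ^ 3 := by
        have h7 : y ^ 2 + η ^ 2 ≤ (y + η) ^ 2 := by nlinarith
        calc _ ≤ (y + η) * (y + η) ^ 2 := mul_le_mul (by linarith) h7 (by positivity) (by linarith)
          _ = _ := by ring
      have h7 : 0 < η ^ 2 := by positivity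
      have h8 : 0 ≤ η * (y ^ 2 + η ^ 2) := by positivity
      nlinarith
    have h3 : 4 / 3 * η ^ 2 / (y ^ 2 + η ^ 2) ≤ 2 * η ^ 2 * r.eval y := by
      rw [div_le_iff₀ (by positivity)]
      nlinarith [sq_nonneg η]
    linarith

end Pool.Agent.Lib.MP_dfd018_pr
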