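import Pool.Agent.Lib.MP_dfd018_pr.Det

/-!
Counts of exceptional graphs.
-/

namespace Pool.Agent.Lib.MP_dfd018_pr

open Finset Matrix Polynomial

variable {n : ℕ}

open Classical in
/-- The property holds outside a fraction `b` of all graphs. -/
def Most (Q : SimpleGraph (Fin n) → Prop) (b : ℝ) : Prop :=
  ((univ.filter (fun G => ¬ Q G)).card : ℝ) ≤ (Fintype.card (SimpleGraph (Fin n)) : ℝ) * b

lemma Most.mono {Q Q' : SimpleGraph (Fin n) → Prop} {b b' : ℝ} (h : Most Q b)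
    (hQ : ∀ G, Q G → Q' G) (hb : b ≤ b') : Most Q' b' := by
  classical
  unfold Most at *
  refine le_trans ?_ (h.trans (mul_le_mul_of_nonneg_left hb (by positivity)))
  rw [Nat.cast_le]
  refine card_le_card fun G hG => ?_
  simp only [mem_filter, mem_univ, true_and] at hG ⊢
  exact fun h1 => hG (hQ G h1)

lemma Most.and {Q Q' : SimpleGraph (Fin n) → Prop} {b b' : ℝ} (h : Most Q b) (h' : Most Q' b') :
    Most (fun G => Q G ∧ Q' G) (b + b') := by
  classical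
  unfold Most at *
  rw [mul_add]
  refine le_trans ?_ (add_le_add h h')
  rw [← Nat.cast_add, Nat.cast_le]
  refine le_trans (card_le_card fun G hG => ?_) (card_union_le _ _)
  simp only [mem_union, mem_filter, mem_univ, true_and] at hG ⊢
  tauto

lemma Most.forall {Q : ℕ → SimpleGraph (Fin n) → Prop} {b : ℝ} (m : ℕ)
    (h : ∀ j < m, Most (Q j) b) : Most (fun G => ∀ j < m, Q j G) (m * b) := by
  induction m with
  | zero => simp [Most]
  | succ m ih =>
    refine ((ih fun j hj => h j (by omega)).and (h m (by omega))).mono (fun G hG j hj => ?_)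
      (le_of_eq (by push_cast; ring))
    rcases Nat.lt_succ_iff_lt_or_eq.1 hj with h1 | h1
    exacts [hG.1 j h1, h1 ▸ hG.2]

lemma most_quad {K : Matrix (St n) (St n) ℝ} {M} (hrep : Rep K M) (hK : K.IsSymm)
    (hM : ∀ G, (M G).IsSymm) {d : ℕ} (hg : GrowE d K) {L : ℝ} (hL : 0 < L) (k : ℕ)
    (hq : ∀ z, LowE (d * k) z → |z ⬝ᵥ K *ᵥ z| ≤ L * (z ⬝ᵥ z)) {θ : ℝ} (hθ : 0 < θ) :
    Most (fun G => ∀ x, |x ⬝ᵥ M G *ᵥ x| ≤ θ * (x ⬝ᵥ x)) (n * (L / θ) ^ (2 * k)) := by
  unfold Most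
  convert card_bad_leE hrep hK hM hg hL hq k le_rfl hθ

lemma QM_eq {N : ℝ} (hN : N ^ 2 = n - 2) (j : ℕ) (G : SimpleGraph (Fin n)) :
    QM N (pmAdj G) j = N⁻¹ ^ j • MB j G := by rw [QM, hN, MB]

lemma most_had (P : Par n) (hg : P.g = 1) (hN : P.N ^ 2 = n - 2) (j m : ℕ)
    (hR : (j + 3) * m + (j + 3) ≤ P.R) {e2 L θ : ℝ}
    (he : 4 * (2 * (P.R : ℝ) + 1) ^ 2 ≤ e2 * P.N)
    (hL : (1 + 5 * P.ε) ^ (j + 2) * (4 + 3 * e2) + 8 ≤ L) (hθ : 0 < θ) :
    Most (fun G : SimpleGraph (Fin n) => ∀ x, |x ⬝ᵥ hadamard (QM P.N (pmAdj G) (j + 2)) (pmAdj G) *ᵥ x|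
      ≤ θ * (x ⬝ᵥ x)) (n * (L / θ) ^ (2 * m)) := by
  have h1 := P.one_le_N
  have h2 := e2_nonneg P he
  have h3 := P.hε
  simp only [QM_eq hN, smul_hadamard]
  refine most_quad ((rep_KB (j + 2)).had.smul _) ((Had_KB_symm _).smul _)
    (fun G => (hadamard_isSymm (MB_symm _ G) (pmAdj_isSymm' G)).smul _)
    ((growE_KB _).had.smul _) (lt_of_lt_of_le (by positivity) hL) m (fun z hz => ?_) hθ
  rw [smul_mulVec, dotProduct_smul, smul_eq_mul, abs_mul, abs_of_pos (by positivity), inv_pow,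
    inv_mul_le_iff₀ (by positivity), ← mul_assoc]
  exact (had_quad P hg j hz hR he).trans (mul_le_mul_of_nonneg_right
    (mul_le_mul_of_nonneg_left hL (by positivity)) (dot_self_nonneg z))

lemma most_dg (P : Par n) (hN : P.N ^ 2 = n - 2) (j m : ℕ)
    (hR : (j + 2) * m + (j + 2) ≤ P.R) {e2 L θ : ℝ}
    (he : 4 * (2 * (P.R : ℝ) + 1) ^ 2 ≤ e2 * P.N)
    (hL : P.g ^ (j + 2) * (1 + 5 * P.ε) ^ (j + 2) * (1 + e2) + P.R / P.g ^ (j + 1) ≤ L * P.N)
    (hθ : 0 < θ) :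
    Most (fun G : SimpleGraph (Fin n) => ∀ i, |QM P.N (pmAdj G) (j + 2) i i| ≤ θ)
      (n * (L / θ) ^ (2 * m)) := by
  have h1 := P.one_le_N
  have h2 := e2_nonneg P he
  have h3 := P.hε
  have h4 := P.hg
  have hL0 : 0 < L := by
    by_contra h; push Not at h
    have : 0 < P.g ^ (j + 2) * (1 + 5 * P.ε) ^ (j + 2) * (1 + e2) + P.R / P.g ^ (j + 1) := by
      positivity
    nlinarith
  refine (most_quad ((rep_KB (j + 2)).dg.smul (P.N⁻¹ ^ (j + 2))) ((Dg_symm (KB_symm _)).smul _)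
    (fun G => (isSymm_diagonal _).smul _) ((growE_KB _).dg.smul _) hL0 m (fun z hz => ?_)
    hθ).mono (fun G hG i => ?_) le_rfl
  · rw [smul_mulVec, dotProduct_smul, smul_eq_mul, abs_mul, abs_of_pos (by positivity), inv_pow,
      inv_mul_le_iff₀ (by positivity), ← mul_assoc]
    refine (schurW_symm _ (Dg_KB_nonneg _) (Dg_symm (KB_symm _)) _ (wV_pos P.ha) z fun t ht =>
      dg_row P j t (by have := (hz t ht).2; omega) he).trans
      (mul_le_mul_of_nonneg_right ?_ (dot_self_nonneg z))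
    have ha : P.a = P.N / P.g := by rw [← P.hN]; field_simp
    have e : P.B (j + 2) * (1 + e2) + P.R * P.a ^ (j + 1) = P.N ^ (j + 1) *
        (P.g ^ (j + 2) * (1 + 5 * P.ε) ^ (j + 2) * (1 + e2) + P.R / P.g ^ (j + 1)) := by
      rw [Par.B, ha, mul_pow, mul_pow, div_pow]; field_simp; ring
    rw [e]
    exact (mul_le_mul_of_nonneg_left hL (by positivity)).trans (le_of_eq (by ring))
  · have := hG (Pi.single i 1)
    simpa [QM_eq hN, smul_mulVec, mulVec_diagonal] using this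

lemma most_A (P : Par n) (hn : P.N ^ 2 ≤ n) (m : ℕ) (hR : m ≤ P.R) (hε : P.ε ≤ 1 / 3000) :
    Most (fun G : SimpleGraph (Fin n) => ∀ x, |x ⬝ᵥ pmAdj G *ᵥ x| ≤ 1001 / 500 * P.N * (x ⬝ᵥ x))
      (n * (2001 / 2002) ^ (2 * m)) := by
  have h1 := P.one_le_N
  refine (most_quad rep_KA KA_symm pmAdj_isSymm' growE_KA (L := 2001 / 1000 * P.N) (by positivity)
    m (fun z hz => ?_) (by positivity)).mono (fun G h => h) (le_of_eq ?_)
  · have hz' : (sys P hn).Lo (sys P hn).R z := hz.mono (by change 1 * m ≤ P.R; omega)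
    have h2 : nrm ((sys P hn).a *ᵥ z) ≤ 2001 / 1000 * nrm z := by
      unfold Sys.a
      rw [add_mulVec, add_mulVec]
      have a1 := nrm_add_le ((sys P hn).c *ᵥ z + (sys P hn).cᵀ *ᵥ z) ((sys P hn).e *ᵥ z)
      have a2 := nrm_add_le ((sys P hn).c *ᵥ z) ((sys P hn).cᵀ *ᵥ z)
      have a3 := (sys P hn).hc z
      have a4 := (sys P hn).hct z
      have a5 := (sys P hn).hee z hz'
      have a6 : (sys P hn).δ * nrm z ≤ 1 / 3000 * nrm z :=
        mul_le_mul_of_nonneg_right hε (nrm_nonneg z)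
      linarith
    rw [sys_a, smul_mulVec, nrm_smul, abs_of_pos (by positivity), inv_mul_le_iff₀ (by linarith)] at h2
    refine (abs_dot_le _ _).trans ((mul_le_mul_of_nonneg_left h2 (nrm_nonneg z)).trans (le_of_eq ?_))
    rw [← nrm_sq]; ring
  · congr 2; field_simp; norm_num

lemma had_self_le (G : SimpleGraph (Fin n)) (x : Fin n → ℝ) :
    |x ⬝ᵥ hadamard (pmAdj G) (pmAdj G) *ᵥ x| ≤ n * (x ⬝ᵥ x) := by
  have h : ∀ i j, 0 ≤ hadamard (pmAdj G) (pmAdj G) i j ∧ hadamard (pmAdj G) (pmAdj G) i j ≤ 1 := by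
    intro i j
    simp only [hadamard_apply, pmAdj]
    split_ifs <;> norm_num
  refine schurW_symm _ (fun i j => (h i j).1) (hadamard_isSymm (pmAdj_isSymm' G) (pmAdj_isSymm' G))
    (fun _ => 1) (fun _ => one_pos) x fun i _ => ?_
  simpa [mulVec, dotProduct] using sum_le_card_nsmul univ _ (1 : ℝ) fun j _ => (h i j).2

noncomputable def mkPar (N g ε : ℝ) (R : ℕ) (hN : N ^ 2 = n - 2) (hg : 1 ≤ g) (hgN : g ≤ N)
    (hε : ε ≤ 1) (hR : 6 * (R : ℝ) + 4 ≤ ε * N) : Par n where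
  N := N
  g := g
  a := N / g
  ε := ε
  R := R
  ha := by rw [le_div_iff₀ (by linarith)]; linarith
  hg := hg
  hN := by field_simp
  hε := by
    by_contra h; push Not at h
    have : (0 : ℝ) ≤ R := by positivity
    nlinarith
  hε1 := hε
  hn := by
    have h1 : (0 : ℝ) ≤ R := by positivity
    have h2 : 4 ≤ ε * N := by linarith
    nlinarith
  hR := hR

lemma pow_le_one_add {x : ℝ} (hx : 0 ≤ x) {m : ℕ} (h : m * x ≤ 1 / 2) :
    (1 + x) ^ m ≤ 1 + 2 * (m * x) := by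
  rcases Nat.eq_zero_or_pos m with rfl | hm
  · simp
  have hm' : (1 : ℝ) ≤ m := by exact_mod_cast hm
  have hx1 : x ≤ 1 / 2 := by nlinarith
  have h1 := one_add_mul_le_pow (a := -x) (by linarith) m
  have h2 : (1 + x) ^ m * (1 + -x) ^ m ≤ 1 := by
    rw [← mul_pow]; exact pow_le_one₀ (by nlinarith) (by nlinarith)
  have h3 : 0 ≤ (1 + x) ^ m := by positivity
  have h4 := mul_le_mul_of_nonneg_left h1 h3
  have h5 : 0 ≤ m * x := by positivity
  by_contra h6
  push Not at h6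
  nlinarith

lemma pow_le_exp {x : ℝ} (hx : 0 ≤ x) (m : ℕ) : (1 + x) ^ m ≤ Real.exp (m * x) := by
  rw [Real.exp_nat_mul]
  exact pow_le_pow_left₀ (by linarith) (by linarith [Real.add_one_le_exp x]) m

lemma harm_le (m : ℕ) : ∑ j ∈ range m, 4 / (((j + 1 : ℕ) : ℝ) + 1) ≤ 4 * Real.log (m + 1) := by
  induction m with
  | zero => simp
  | succ m ih =>
    rw [sum_range_succ]
    have h1 : (0 : ℝ) < m + 1 := by positivity
    have h2 := Real.log_le_sub_one_of_pos (x := (m + 1) / (m + 1 + 1)) (by positivity)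
    rw [Real.log_div h1.ne' (by positivity)] at h2
    have e : ((m : ℝ) + 1) / (m + 1 + 1) - 1 = -(1 / (m + 1 + 1)) := by field_simp; ring
    have e2 : (4 : ℝ) / (m + 1 + 1) = 4 * (1 / (m + 1 + 1)) := by ring
    push_cast at ih ⊢
    linarith

lemma tail_le (a b : ℕ) : ∑ j ∈ Ico a b, (1 : ℝ) / (((j + 2 : ℕ) : ℝ) + 1) ^ 2 ≤ 1 / ((a : ℝ) + 2) := by
  rcases le_or_gt a b with h | h
  · have : ∑ j ∈ Ico a b, (1 : ℝ) / (((j + 2 : ℕ) : ℝ) + 1) ^ 2 ≤
        1 / ((a : ℝ) + 2) - 1 / ((b : ℝ) + 2) := by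
      induction b, h using Nat.le_induction with
      | base => simp
      | succ b hb ih =>
        rw [sum_Ico_succ_top hb]
        have h : (1 : ℝ) / (((b + 2 : ℕ) : ℝ) + 1) ^ 2 ≤ 1 / (b + 2) - 1 / ((b + 1 : ℕ) + 2) := by
          push_cast
          rw [div_sub_div _ _ (by positivity) (by positivity), div_le_div_iff₀ (by positivity)
            (by positivity)]
          have : (0 : ℝ) ≤ b := by positivity
          nlinarith
        linarith
    have h : (0 : ℝ) ≤ 1 / (b + 2) := by positivity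
    linarith
  · rw [Ico_eq_empty_of_le h.le, sum_empty]; positivity

lemma Apx.coef {e : ℕ} {η : ℝ} (X : Apx (e + 2) η) (hη : 0 < η) (hη1 : η ≤ 1 / 10 ^ 7) :
    cf (fun y => X.p.eval y) 0 ≤ 84884 / 10 ^ 5 ∧
    (∀ k ≤ e, |cf (fun y => X.p.eval y) (k + 2)| ≤ 2) ∧
    ∀ J ≤ e + 1, ∑ k ∈ range J, cf (fun y => X.p.eval y) (k + 2) ^ 2 / 4 ≤ 6988 / 10 ^ 5 ∧
      ∑ k ∈ range J, (if 2 ≤ k then cf (fun y => X.p.eval y) (k + 2) ^ 2 / 4 else 0) ≤ 1 / 100 := by
  have hgap : ∀ y, |y| ≤ 2 → |y| ≤ X.p.eval y ∧ X.p.eval y ≤ |y| + 11 * η := fun y hy => by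
    refine ⟨X.p_ge y (by linarith), (X.p_le y (by linarith)).trans (add_le_add le_rfl ?_)⟩
    rw [div_le_iff₀ (by positivity)]
    nlinarith [mul_nonneg hη.le (sq_nonneg y)]
  have hc : ∀ j, |cf (fun y => X.p.eval y) j - cf (fun y => |y|) j| ≤ 2 * (11 * η) := fun j => by
    have h1 := cf_add (f := fun y => X.p.eval y) (g := fun y => -1 * |y|) (by fun_prop) (by fun_prop) j
    rw [cf_smul] at h1
    rw [show ∀ a b : ℝ, a - b = a + -1 * b from fun a b => by ring, ← h1]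
    refine abs_cf_le_sup j fun y hy => ?_
    have := hgap y hy
    rw [abs_le]; constructor <;> linarith
  have h0 := abs_le.1 (hc 0)
  have h2 := abs_le.1 (hc 2)
  rw [cf_abs_zero] at h0
  rw [cf_abs_two] at h2
  have p1 := Real.pi_gt_d6
  have p2 := Real.pi_lt_d6
  have a1 : 8 / (3 * Real.pi) ≤ 848827 / 10 ^ 6 := by rw [div_le_iff₀ (by positivity)]; linarith
  have a2 : 848826 / 10 ^ 6 ≤ 8 / (3 * Real.pi) := by rw [le_div_iff₀ (by positivity)]; linarith
  have a3 : 509 / 10 ^ 3 ≤ 8 / (5 * Real.pi) := by rw [le_div_iff₀ (by positivity)]; linarith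
  have hp : ∑ j ∈ range (e + 2 + 1), cf (fun y => X.p.eval y) j ^ 2 ≤ 1 + 55 * η := by
    rw [parseval X.dp]
    refine (cf_mono (g := fun y => y ^ 2 + 55 * η) (by fun_prop) (by fun_prop) fun y hy => ?_).trans ?_
    · have h3 := hgap y hy
      have h4 := pow_le_pow_left₀ ((abs_nonneg y).trans h3.1) h3.2 2
      rw [add_sq, sq_abs] at h4
      nlinarith
    · rw [cf_add (by fun_prop) (by fun_prop), cf_sq, cf_const]
  set c := cf (fun y => X.p.eval y) with hcd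
  rw [sum_range_succ', sum_range_succ'] at hp
  simp only [add_assoc, one_add_one_eq_two, zero_add] at hp
  have b0 : (848823 / 10 ^ 6) ^ 2 ≤ c 0 ^ 2 := pow_le_pow_left₀ (by norm_num) (by linarith) 2
  have b2 : (1 / 2) ^ 2 ≤ c 2 ^ 2 := pow_le_pow_left₀ (by norm_num) (by linarith) 2
  have b1 := sq_nonneg (c 1)
  have hs : ∑ k ∈ range (e + 1), c (k + 2) ^ 2 ≤ 27952 / 10 ^ 5 := by linarith
  refine ⟨by linarith, fun k hk => ?_, fun J hJ => ⟨?_, ?_⟩⟩
  · have := single_le_sum (f := fun k => c (k + 2) ^ 2) (fun _ _ => sq_nonneg _)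
      (mem_range.2 (Nat.lt_succ_of_le hk))
    exact abs_le_of_sq_le_sq' (by linarith) (by norm_num) |> abs_le.2
  · rw [← sum_div]
    have := sum_le_sum_of_subset_of_nonneg (f := fun k => c (k + 2) ^ 2) (range_subset_range.2 hJ)
      fun _ _ _ => sq_nonneg _
    linarith
  · have h3 := sum_le_sum_of_subset_of_nonneg
      (f := fun k => if 2 ≤ k then c (k + 2) ^ 2 / 4 else 0) (range_subset_range.2 hJ)
      fun _ _ _ => by split_ifs <;> positivity
    refine h3.trans ?_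
    rw [sum_range_succ'] at hs ⊢
    have h4 : ∑ k ∈ range e, (if 2 ≤ k + 1 then c (k + 1 + 2) ^ 2 / 4 else 0) ≤
        (∑ k ∈ range e, c (k + 1 + 2) ^ 2) / 4 := by
      rw [sum_div]
      exact sum_le_sum fun k _ => by split_ifs; exacts [le_rfl, by positivity]
    simp only [zero_add] at hs
    rw [if_neg (by norm_num)]
    linarith

end Pool.Agent.Lib.MP_dfd018_pr
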