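import Pool.Agent.Lib.MP_dfd018_pr.Vac

/-!
The numerical certificate.
-/

namespace Pool.Agent.Lib.MP_dfd018_pr

open Finset Matrix Polynomial

lemma LP_add (l m : List ℚ) : LP (ladd l m) = LP l + LP m := by
  induction l generalizing m with
  | nil => simp [ladd, LP]
  | cons a l ih => cases m with
    | nil => simp [ladd, LP]
    | cons b m => simp only [ladd, LP, ih]; push_cast; rw [C_add]; ring

lemma LP_smul (q : ℚ) (l : List ℚ) : LP (lsm q l) = C (q : ℝ) * LP l := by
  induction l with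
  | nil => simp [lsm, LP]
  | cons a l ih =>
    unfold lsm at ih ⊢
    simp only [List.map_cons, LP, ih]; push_cast; rw [C_mul]; ring

def lmul : List ℚ → List ℚ → List ℚ
  | [], _ => []
  | a :: l, m => ladd (lsm a m) (0 :: lmul l m)

lemma LP_mul (l m : List ℚ) : LP (lmul l m) = LP l * LP m := by
  induction l with
  | nil => simp [lmul, LP]
  | cons a l ih => simp only [lmul, LP_add, LP_smul, LP, ih]; simp; ring

def lsh (m : ℚ) : List ℚ → List ℚ
  | [] => []
  | a :: l => ladd [a] (ladd (lsm m (lsh m l)) (0 :: lsh m l))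

lemma eval_lsh (m : ℚ) (l : List ℚ) (t : ℝ) : (LP (lsh m l)).eval t = (LP l).eval (m + t) := by
  induction l with
  | nil => simp [lsh, LP]
  | cons a l ih => simp [lsh, LP_add, LP_smul, LP, ih]; ring

def lab (h : ℚ) : List ℚ → ℚ
  | [] => 0
  | a :: l => |a| + h * lab h l

lemma abs_eval_le {h : ℚ} (l : List ℚ) {t : ℝ} (ht : |t| ≤ h) : |(LP l).eval t| ≤ lab h l := by
  induction l with
  | nil => simp [lab, LP]
  | cons a l ih =>
    simp only [lab, LP, eval_add, eval_C, eval_mul, eval_X]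
    push_cast
    refine (abs_add_le _ _).trans (add_le_add le_rfl ?_)
    rw [abs_mul]
    exact mul_le_mul ht ih (abs_nonneg _) ((abs_nonneg t).trans ht)

def test (h : ℚ) : List ℚ → Bool
  | [] => true
  | a :: l => decide (h * lab h l ≤ a)

lemma test_spec {h : ℚ} {l : List ℚ} (hl : test h l = true) {t : ℝ} (ht : |t| ≤ h) :
    0 ≤ (LP l).eval t := by
  cases l with
  | nil => simp [LP]
  | cons a l =>
    have h1 : (h : ℝ) * lab h l ≤ a := by exact_mod_cast of_decide_eq_true hl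
    have h2 : |t * (LP l).eval t| ≤ h * lab h l := by
      rw [abs_mul]
      exact mul_le_mul ht (abs_eval_le l ht) (abs_nonneg _) ((abs_nonneg t).trans ht)
    simp only [LP, eval_add, eval_C, eval_mul, eval_X]
    linarith [(abs_le.1 h2).1]

def chk (l : List ℚ) : ℕ → ℚ → ℚ → Bool
  | 0, _, _ => false
  | d + 1, a, b => test ((b - a) / 2) (lsh ((a + b) / 2) l) ||
      (chk l d a ((a + b) / 2) && chk l d ((a + b) / 2) b)

lemma chk_spec {l : List ℚ} {d : ℕ} {a b : ℚ} (h : chk l d a b = true) {y : ℝ} (ha : a ≤ y)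
    (hb : y ≤ b) : 0 ≤ (LP l).eval y := by
  induction d generalizing a b with
  | zero => simp [chk] at h
  | succ d ih =>
    simp only [chk, Bool.or_eq_true, Bool.and_eq_true] at h
    rcases h with h | h
    · have := test_spec h (t := y - ((a + b) / 2 : ℚ)) (by
        push_cast; rw [abs_le]; constructor <;> linarith)
      rw [eval_lsh] at this
      simpa using this
    · rcases le_total y ((a + b) / 2 : ℚ) with h1 | h1
      · exact ih h.1 ha h1
      · exact ih h.2 h1 hb

def cu : List ℚ := lsm (1 / 10 ^ 9) [999799983, -163453655, 466022586, -86300222, -694725694,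
  273105378, 559992388, -258533835, -236252299, 115649931, 49399338, -24809057, -4037973, 2052437]

def cb : List ℚ := lsm (1 / 10 ^ 8) [102546065, 6531508, -4148271, -308123, 1868796, -249860,
  -993304, 263426, 641964, -270807, -355776, 175154, 242677, -146098, -68229, 6191, 24221, -6485,
  -10179, 3346, 5790, -2919, -2140, 1132, 1322, -891, -275, 172, 206, -92, -73, 36, 42, -27, -12,
  9, 8, -6, -2, 1, 1, -1]

def cg : List ℚ := lU cu (ladd cb (lsm (-(8 / 9)) cb.tail))

lemma cg_eq : lU cu (ladd cb (lsm (-(8 / 9)) cb.tail)) = cg.headD 0 :: cg.tail := by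
  decide +kernel

lemma cg_tail : ssq cg.tail ≤ 1 / 10 ^ 6 * (1 / 10 ^ 6) := by decide +kernel

lemma cg_head : 595 / 1000 * (16 / 9) ≤ 2 * cg.headD 0 - ssq cb := by decide +kernel

lemma cu_length : cu.length = 14 := by decide +kernel

lemma cb_length : cb.length = 42 := by decide +kernel

lemma chk_one : chk (ladd [1] (lsm (-1) cu)) 12 0 (1001 / 500) = true := by decide +kernel

lemma chk_two : chk (ladd [1] cu) 12 0 (1001 / 500) = true := by decide +kernel

lemma chk_three : chk (ladd [145 / 144, -3 / 2] (lsm (-1) (lmul [145 / 144, -1 / 2] (lmul cu cu))))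
    12 (-1001 / 500) 0 = true := by decide +kernel

lemma cert_poly {y : ℝ} (hy : |y| ≤ 1001 / 500) :
    (145 / 144 - y / 2) * (LP cu).eval y ^ 2 ≤ 145 / 144 - y + |y| / 2 := by
  have hy' := abs_le.1 hy
  rcases le_total 0 y with h | h
  · have h1 := chk_spec chk_one (y := y) (by simpa using h) (by push_cast; exact hy'.2)
    have h2 := chk_spec chk_two (y := y) (by simpa using h) (by push_cast; exact hy'.2)
    simp [LP_add, LP_smul, LP] at h1 h2
    rw [abs_of_nonneg h]
    have h3 : (LP cu).eval y ^ 2 ≤ 1 := by nlinarith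
    have h4 : 0 ≤ 145 / 144 - y / 2 := by linarith
    nlinarith
  · have h1 := chk_spec chk_three (y := y) (by push_cast; linarith) (by simpa using h)
    simp [LP_add, LP_smul, LP_mul, LP] at h1
    rw [abs_of_nonpos h]
    nlinarith

theorem vac_cert :
    ∃ K : ℝ, 0 ≤ K ∧ ∀ (ι : Type) [Fintype ι] [DecidableEq ι] (S : Sys ι) (r : ℕ) (w x : ι → ℝ),
      S.Lo r w → S.Lo r x → S.cᵀ *ᵥ x = 0 → x ⬝ᵥ w = x ⬝ᵥ x → r + 56 ≤ S.R →
      595 / 1000 * (x ⬝ᵥ x) - (2 / 10 ^ 6 + K * S.δ) * (w ⬝ᵥ w) ≤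
        w ⬝ᵥ aeval S.a (LP cu * (C (145 / 144) - C (1 / 2) * X) * LP cu) *ᵥ w := by
  obtain ⟨K, hK, h⟩ := vac (8 / 9) (1 / 10 ^ 6) _ cu cb _ (by norm_num) (by norm_num) (by norm_num)
    cg_eq cg_tail
  refine ⟨K, hK, fun ι _ _ S r w x hw hx hc hxw hr => ?_⟩
  have h1 := h ι S r w x hw hx hc hxw (by rw [cu_length, cb_length]; omega)
  have h2 : (595 / 1000 * (16 / 9) : ℝ) ≤ ((2 * cg.headD 0 - ssq cb : ℚ) : ℝ) := by
    have := (Rat.cast_le (K := ℝ)).2 cg_head
    push_cast at this ⊢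
    exact this
  have h3 := mul_le_mul_of_nonneg_right h2 (dot_self_nonneg x)
  have h4 : w ⬝ᵥ aeval S.a (LP cu * (C (145 / 144) - C (1 / 2) * X) * LP cu) *ᵥ w =
      145 / 144 * ((aeval S.a (LP cu) *ᵥ w) ⬝ᵥ (aeval S.a (LP cu) *ᵥ w)) -
        1 / 2 * ((aeval S.a (LP cu) *ᵥ w) ⬝ᵥ S.a *ᵥ (aeval S.a (LP cu) *ᵥ w)) := by
    rw [map_mul, map_mul, ← mulVec_mulVec, ← mulVec_mulVec, dot_symm (isSymm_aeval S.a_symm _),
      dotProduct_comm]
    simp only [map_sub, map_mul, aeval_C, aeval_X, Algebra.algebraMap_eq_smul_one, sub_mulVec,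
      smul_mul_assoc, one_mul, smul_mulVec, one_mulVec, dotProduct_sub, dotProduct_smul,
      smul_eq_mul]
  have h5 := dot_self_nonneg w
  have h6 : 0 ≤ K * S.δ * (w ⬝ᵥ w) := mul_nonneg (mul_nonneg hK S.δ0) h5
  rw [h4]
  push_cast at h1 h3
  nlinarith

end Pool.Agent.Lib.MP_dfd018_pr
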