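import Pool.Agent.Lib.MP_dfd018_pr.Rows

/-!
Chains of fresh steps.
-/

namespace Pool.Agent.Lib.MP_dfd018_pr

open Finset Matrix
open scoped symmDiff

variable {n : ℕ}

def Ch : ℕ → St n → St n → Prop
  | 0, t, s => t = s
  | j + 1, t, s => ∃ c, c ∉ V t ∧ Ch j (nx t c) s

lemma crRel_nx {t : St n} {c : Fin n} (h : c ∉ V t) : CrRel (nx t c) t := ⟨h, by simp [nx]⟩

lemma nx_fresh {t : St n} {c : Fin n} (h : c ∉ V t) : (nx t c).2 = insert s(c, t.1) t.2 :=
  symmDiff_single_of_not_mem (not_mem_of_fresh h _)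

lemma V_nx {t : St n} {c : Fin n} (h : c ∉ V t) : V (nx t c) = insert c (V t) := by
  refine Subset.antisymm (V_edge (crRel_nx h).2) (insert_subset (self_mem_V (nx t c)) ?_)
  intro w hw
  by_cases h1 : w = t.1
  · exact mem_V.2 (Or.inr ⟨s(c, t.1), by rw [nx_fresh h]; simp, by simp [h1]⟩)
  · exact mem_V_nx hw h1

lemma Ch.det {j : ℕ} {t t' s : St n} (h : Ch j t s) (h' : Ch j t' s) : t = t' := by
  induction j generalizing t t' with
  | zero => exact h.trans h'.symm
  | succ j ih =>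
    obtain ⟨c, h1, h2⟩ := h
    obtain ⟨c', h1', h2'⟩ := h'
    have h3 := ih h2 h2'
    exact (crRel_nx h1).unique (h3 ▸ crRel_nx h1')

lemma Ch.split {a b : ℕ} {t s : St n} (h : Ch (b + a) t s) : ∃ m, Ch a t m ∧ Ch b m s := by
  induction a generalizing t with
  | zero => exact ⟨t, rfl, h⟩
  | succ a ih =>
    obtain ⟨c, h1, h2⟩ := h
    obtain ⟨m, h3, h4⟩ := ih h2
    exact ⟨m, ⟨c, h1, h3⟩, h4⟩

lemma Ch.V_sub {j : ℕ} {t s : St n} (h : Ch j t s) : V t ⊆ V s ∧ (V s).card ≤ (V t).card + j := by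
  induction j generalizing t with
  | zero => obtain rfl : t = s := h; simp
  | succ j ih =>
    obtain ⟨c, h1, h2⟩ := h
    have h3 := ih h2
    rw [V_nx h1, card_insert_of_notMem h1] at h3
    exact ⟨(subset_insert _ _).trans h3.1, by omega⟩

lemma Ch.fresh {j : ℕ} {t s : St n} (h : Ch (j + 1) t s) : s.1 ∉ V t := by
  induction j generalizing t with
  | zero => obtain ⟨c, h1, h2⟩ := h; obtain rfl : nx t c = s := h2; exact h1
  | succ j ih =>
    obtain ⟨c, h1, h2⟩ := h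
    have h3 := ih h2
    rw [V_nx h1] at h3
    exact fun h4 => h3 (mem_insert_of_mem h4)

lemma Ch.len {j j' : ℕ} {t t' s : St n} (h : Ch j t s) (h' : Ch j' t' s) (he : t.1 = t'.1) :
    j = j' ∧ t = t' := by
  have key : ∀ {j j' : ℕ} {t t' : St n}, Ch j t s → Ch j' t' s → t.1 = t'.1 → ¬ j < j' := by
    intro j j' t t' h h' he hlt
    obtain ⟨a, rfl⟩ := Nat.exists_eq_add_of_lt hlt
    rw [add_assoc] at h'
    obtain ⟨m, h1, h2⟩ := h'.split
    obtain rfl := h.det h2
    exact h1.fresh (he ▸ self_mem_V t')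
  obtain rfl : j = j' := le_antisymm (not_lt.1 (key h' h he.symm)) (not_lt.1 (key h h' he))
  exact ⟨rfl, h.det h'⟩

lemma Ch.edges {j : ℕ} {t s : St n} (h : Ch j t s) : t.2 ⊆ s.2 ∧ s.2.card = t.2.card + j := by
  induction j generalizing t with
  | zero => obtain rfl : t = s := h; simp
  | succ j ih =>
    obtain ⟨c, h1, h2⟩ := h
    have h3 := ih h2
    rw [nx_fresh h1, card_insert_of_notMem (not_mem_of_fresh h1 _)] at h3
    exact ⟨(subset_insert _ _).trans h3.1, by omega⟩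

lemma deg_nx_fresh {t : St n} {c : Fin n} (h : c ∉ V t) (y : Fin n) :
    deg (nx t c).2 y = deg t.2 y + if y = c ∨ y = t.1 then 1 else 0 := by
  rw [nx_fresh h, deg_insert (not_mem_of_fresh h _)]; simp

lemma Ch.degs {j : ℕ} {t s : St n} (h : Ch j t s) (y : Fin n) :
    (y ∈ V t → deg s.2 y = deg t.2 y + if y = t.1 ∧ j ≠ 0 then 1 else 0) ∧
      (y ∉ V t → deg s.2 y ≤ 2) := by
  induction j generalizing t with
  | zero =>
    obtain rfl : t = s := h
    exact ⟨fun _ => by simp, fun h1 => by rw [deg_of_not_mem_V h1]; omega⟩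
  | succ j ih =>
    obtain ⟨c, h1, h2⟩ := h
    have h3 := ih h2
    rw [V_nx h1, deg_nx_fresh h1, nx_fst] at h3
    constructor
    · intro h4
      have h5 : y ≠ c := fun h6 => h1 (h6 ▸ h4)
      rw [h3.1 (mem_insert_of_mem h4)]
      simp [h5]
    · intro h4
      by_cases h5 : y = c
      · rw [h3.1 (by simp [h5]), deg_of_not_mem_V h4]
        split_ifs <;> omega
      · exact h3.2 (by simp [h4, h5])

lemma Ch.last {j : ℕ} {t s : St n} (h : Ch (j + 1) t s) : deg s.2 s.1 = 1 := by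
  induction j generalizing t with
  | zero =>
    obtain ⟨c, h1, h2⟩ := h; obtain rfl : nx t c = s := h2
    rw [deg_nx_fresh h1, nx_fst, deg_of_not_mem_V h1]; simp
  | succ j ih => obtain ⟨c, -, h2⟩ := h; exact ih h2

lemma Ch.last_nbr {j : ℕ} {t s : St n} (h : Ch (j + 2) t s) {y : Fin n} (hy : s(y, s.1) ∈ s.2) :
    y ∉ V t := by
  induction j generalizing t with
  | zero =>
    obtain ⟨c, h1, d, h2, h3⟩ := h; obtain rfl : nx (nx t c) d = s := h3
    rw [nx_fresh h2, mem_insert, nx_fst, nx_fst, Sym2.eq_swap] at hy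
    rcases hy with hy | hy
    · rw [Sym2.congr_right.1 hy]; exact h1
    · exact absurd hy (not_mem_of_fresh h2 _)
  | succ j ih =>
    obtain ⟨c, h1, h2⟩ := h
    have h3 := ih h2
    rw [V_nx h1] at h3
    exact fun h4 => h3 (mem_insert_of_mem h4)

lemma Ch.new {j : ℕ} {t s : St n} (h : Ch j t s) {e : Sym2 (Fin n)} (he : e ∈ s.2) :
    e ∈ t.2 ∨ ∃ y ∈ e, y ∉ V t := by
  induction j generalizing t with
  | zero => obtain rfl : t = s := h; exact Or.inl he
  | succ j ih =>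
    obtain ⟨c, h1, h2⟩ := h
    rcases ih h2 with h3 | ⟨y, h3, h4⟩
    · rw [nx_fresh h1, mem_insert] at h3
      rcases h3 with h3 | h3
      · exact Or.inr ⟨c, by simp [h3], h1⟩
      · exact Or.inl h3
    · rw [V_nx h1] at h4
      exact Or.inr ⟨y, h3, fun h5 => h4 (mem_insert_of_mem h5)⟩

open Classical in
noncomputable def CI (j : ℕ) : Matrix (St n) (St n) ℝ := fun t s => if Ch j t s then 1 else 0

lemma CI_nonneg (j : ℕ) (t s : St n) : 0 ≤ CI j t s := by unfold CI; split_ifs <;> norm_num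

lemma CI_zero (f : St n → ℝ) (t : St n) : (CI 0 *ᵥ f) t = f t := by
  simp only [mulVec, dotProduct, CI, Ch]
  rw [sum_eq_single t (fun b _ hb => by simp [Ne.symm hb]) (by simp)]; simp

lemma CI_succ (j : ℕ) (f : St n → ℝ) (t : St n) :
    (CI (j + 1) *ᵥ f) t = ∑ c ∈ (V t)ᶜ, (CI j *ᵥ f) (nx t c) := by
  simp only [mulVec, dotProduct]
  rw [sum_comm]
  refine sum_congr rfl fun s _ => ?_
  rw [← sum_mul]
  congr 1
  unfold CI
  by_cases h : Ch (j + 1) t s
  · obtain ⟨c, h1, h2⟩ := id h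
    rw [if_pos h, sum_eq_single_of_mem c (mem_compl.2 h1), if_pos h2]
    intro d _ hd
    exact if_neg fun h3 => hd (congrArg Prod.fst (h3.det h2))
  · rw [if_neg h, sum_eq_zero]
    intro c hc
    exact if_neg fun h3 => h ⟨c, mem_compl.1 hc, h3⟩

lemma compl_V_subset {p : Fin n} {t : St n} (hp : p ∈ V t) :
    (V t)ᶜ ⊆ univ.filter (fun c => c ≠ t.1 ∧ c ≠ p) := by
  intro c hc
  have := mem_compl.1 hc
  exact mem_filter.2 ⟨mem_univ _, fun h => this (h ▸ self_mem_V t), fun h => this (h ▸ hp)⟩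

lemma CI_le_W {f : St n → ℝ} (hf : ∀ s, 0 ≤ f s) (j : ℕ) {p : Fin n} {t : St n} (hp : p ∈ V t) :
    (CI j *ᵥ f) t ≤ W f j p t := by
  induction j generalizing p t with
  | zero => rw [CI_zero]; rfl
  | succ j ih =>
    rw [CI_succ, W]
    refine (sum_le_sum fun c hc => ih ?_).trans (sum_le_sum_of_subset_of_nonneg
      (compl_V_subset hp) fun c _ _ => W_nonneg hf _ _ _)
    rw [V_nx (mem_compl.1 hc)]; exact mem_insert_of_mem (self_mem_V t)

lemma CI_le_W_close {f : St n → ℝ} (hf : ∀ s, 0 ≤ f s) (u : Fin n) (j : ℕ) {p : Fin n} {t : St n}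
    (hp : p ∈ V t) (hu : u ∈ V t) (h0 : j = 0 → u ≠ t.1) :
    (CI (j + 1) *ᵥ fun s => f (nx s u)) t ≤ W f (j + 2) p t := by
  induction j generalizing p t with
  | zero =>
    rw [CI_succ, W]
    refine (sum_le_sum fun c hc => ?_).trans (sum_le_sum_of_subset_of_nonneg
      (compl_V_subset hp) fun c _ _ => W_nonneg hf _ _ _)
    rw [CI_zero, W]
    refine single_le_sum (f := fun d => W f 0 (nx t c).1 (nx (nx t c) d)) (fun d _ => hf _)
      (mem_filter.2 ⟨mem_univ u, ?_, h0 rfl⟩)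
    exact fun h => mem_compl.1 hc (by rw [nx_fst] at h; exact h ▸ hu)
  | succ j ih =>
    rw [CI_succ, W]
    refine (sum_le_sum fun c hc => ih ?_ ?_ fun _ => ?_).trans (sum_le_sum_of_subset_of_nonneg
      (compl_V_subset hp) fun c _ _ => W_nonneg hf _ _ _)
    · rw [V_nx (mem_compl.1 hc)]; exact mem_insert_of_mem (self_mem_V t)
    · rw [V_nx (mem_compl.1 hc)]; exact mem_insert_of_mem hu
    · exact fun h => mem_compl.1 hc (by rw [nx_fst] at h; exact h ▸ hu)

lemma card_compl_V (t : St n) : (((V t)ᶜ).card : ℝ) = n - (V t).card := by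
  rw [card_compl, Nat.cast_sub (card_le_univ _)]; simp

lemma CI_count_le (j : ℕ) (t : St n) : (CI j *ᵥ fun _ => (1 : ℝ)) t ≤ (n : ℝ) ^ j := by
  induction j generalizing t with
  | zero => rw [CI_zero]; simp
  | succ j ih =>
    rw [CI_succ]
    refine (sum_le_card_nsmul _ _ _ fun c _ => ih _).trans ?_
    rw [nsmul_eq_mul, card_compl_V, pow_succ']
    refine mul_le_mul_of_nonneg_right ?_ (by positivity)
    have : (0 : ℝ) ≤ (V t).card := by positivity
    linarith

lemma CI_count_ge (j : ℕ) (t : St n) {m : ℝ} (hm : 0 ≤ m) (h : m + (V t).card + j ≤ n) :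
    m ^ j ≤ (CI j *ᵥ fun _ => (1 : ℝ)) t := by
  induction j generalizing t with
  | zero => rw [CI_zero]; simp
  | succ j ih =>
    rw [CI_succ]
    refine le_trans ?_ (card_nsmul_le_sum _ _ (m ^ j) fun c hc => ih _ ?_)
    · rw [nsmul_eq_mul, card_compl_V, pow_succ']
      refine mul_le_mul_of_nonneg_right ?_ (by positivity)
      push_cast at h
      have : (0 : ℝ) ≤ j := by positivity
      linarith
    · rw [V_nx (mem_compl.1 hc), card_insert_of_notMem (mem_compl.1 hc)]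
      push_cast at h ⊢
      linarith

lemma CI_mono {f g : St n → ℝ} (j : ℕ) (t : St n) (h : ∀ s, Ch j t s → f s ≤ g s) :
    (CI j *ᵥ f) t ≤ (CI j *ᵥ g) t := by
  refine sum_le_sum fun s _ => ?_
  unfold CI
  dsimp only
  split_ifs with h1
  · simpa using h s h1
  · simp

/-- A new cycle through the starting vertex. -/
def R1 (j : ℕ) (t s : St n) : Prop := t.1 ≠ s.1 ∧ Ch j t (s.1, s.2 ∆ {s(t.1, s.1)})

def TN (s : St n) : Prop := ∃ y, s(y, s.1) ∈ s.2 ∧ 3 ≤ deg s.2 y

lemma R1.facts {k : ℕ} {t s : St n} (h : R1 (k + 2) t s) :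
    s(t.1, s.1) ∈ s.2 ∧ deg s.2 s.1 = 2 ∧ deg s.2 t.1 = deg t.2 t.1 + 2 ∧
      (∀ y, y ≠ t.1 → s(y, s.1) ∈ s.2 → deg s.2 y ≤ 2) ∧ s.2.card = t.2.card + (k + 3) ∧
      (V s).card ≤ (V t).card + (k + 2) := by
  obtain ⟨h1, h2⟩ := h
  set s' : St n := (s.1, s.2 ∆ {s(t.1, s.1)}) with hs'
  have h3 : s(t.1, s.1) ∉ s'.2 := fun h => h2.last_nbr h (self_mem_V t)
  have h4 : s.2 = insert s(t.1, s.1) s'.2 := by
    rw [← symmDiff_single_of_not_mem h3]; simp [hs']
  have h5 : deg s.2 s.1 = 2 := by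
    have : deg s'.2 s.1 = 1 := h2.last
    rw [h4, deg_insert h3, this]; simp
  refine ⟨by rw [h4]; simp, h5, ?_, fun y hy he => ?_, ?_, ?_⟩
  · rw [h4, deg_insert h3, (h2.degs t.1).1 (self_mem_V t)]; simp
  · by_cases h6 : y = s.1
    · rw [h6, h5]
    rw [h4, mem_insert] at he
    rcases he with he | he
    · exact absurd (Sym2.congr_left.1 he) hy
    · rw [h4, deg_insert h3, if_neg (by simp [hy, h6])]
      exact (h2.degs y).2 (h2.last_nbr he)
  · rw [h4, card_insert_of_notMem h3, h2.edges.2]; ring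
  · refine le_trans (card_le_card fun w hw => ?_) h2.V_sub.2
    rcases mem_V.1 hw with h6 | ⟨e, he, h6⟩
    · exact mem_V.2 (Or.inl h6)
    · rw [h4, mem_insert] at he
      rcases he with rfl | he
      · rcases Sym2.mem_iff.1 h6 with h7 | h7
        · exact h2.V_sub.1 (h7 ▸ self_mem_V t)
        · exact mem_V.2 (Or.inl h7)
      · exact mem_V.2 (Or.inr ⟨e, he, h6⟩)

/-- A jump from an isolated vertex followed by a new cycle. -/
def R3 (k : ℕ) (t m s : St n) : Prop :=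
  deg t.2 t.1 = 0 ∧ s.1 ∉ V t ∧ Ch (k + 2) (nx t s.1) m ∧ (nx m s.1).2 = s.2 ∆ {s(t.1, s.1)}

lemma R3.facts {k : ℕ} {t m s : St n} (h : R3 k t m s) :
    s(m.1, s.1) ∈ s.2 ∧ deg s.2 s.1 = 2 ∧ ¬ TN s ∧ s.2.card = t.2.card + (k + 3) ∧
      (V s).card ≤ (V t).card + (k + 2) := by
  obtain ⟨h0, h1, h2, h3⟩ := h
  have hu : s.1 ∈ V (nx t s.1) := self_mem_V (nx t s.1)
  have hv : t.1 ∈ V (nx t s.1) := by rw [V_nx h1]; exact mem_insert_of_mem (self_mem_V t)
  have huv : s.1 ≠ t.1 := fun h => h1 (h ▸ self_mem_V t)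
  have ha := h2.fresh
  have hau : m.1 ≠ s.1 := fun h => ha (h ▸ hu)
  have hav : m.1 ≠ t.1 := fun h => ha (h ▸ hv)
  have e1 : s(s.1, m.1) ∉ m.2 := fun h => h2.last_nbr h hu
  have e0 : s(t.1, s.1) ∈ m.2 := h2.edges.1 (by rw [nx_fresh h1, Sym2.eq_swap]; simp)
  have e2 : s(t.1, s.1) ∈ insert s(s.1, m.1) m.2 := mem_insert_of_mem e0
  have h4 : s.2 = (insert s(s.1, m.1) m.2).erase s(t.1, s.1) := by
    rw [← symmDiff_single_of_mem e2, ← symmDiff_single_of_not_mem e1]
    exact eq_symmDiff_comm.1 h3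
  have hd : ∀ y, deg s.2 y + (if y = t.1 ∨ y = s.1 then 1 else 0) =
      deg m.2 y + if y = s.1 ∨ y = m.1 then 1 else 0 := by
    intro y
    have h5 := deg_erase e2 y
    rw [← h4, deg_insert e1] at h5
    simpa using h5.symm
  have h5 : deg s.2 s.1 = 2 := by
    have h6 := hd s.1
    have h7 := (h2.degs s.1).1 hu
    rw [deg_nx_fresh h1, deg_of_not_mem_V h1] at h7
    simp at h6 h7
    omega
  have h6 : deg s.2 t.1 = 0 := by
    have h6 := hd t.1
    have h7 := (h2.degs t.1).1 hv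
    rw [deg_nx_fresh h1, h0] at h7
    simp [huv.symm, hav.symm] at h6 h7
    omega
  refine ⟨?_, h5, ?_, ?_, ?_⟩
  · rw [h4]
    exact mem_erase.2 ⟨fun h => hav (Sym2.congr_left.1 h), mem_insert.2 (Or.inl Sym2.eq_swap)⟩
  · rintro ⟨y, hy, hy3⟩
    have h7 := hd y
    by_cases h8 : y = s.1
    · rw [h8, h5] at hy3; omega
    by_cases h9 : y = m.1
    · have h10 : deg m.2 m.1 = 1 := h2.last
      rw [h9] at h7 hy3
      simp [hau, hav] at h7
      omega
    have h10 : deg m.2 y ≤ 2 := by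
      rw [h4, mem_erase, mem_insert] at hy
      rcases hy.2 with h11 | h11
      · rw [Sym2.eq_swap] at h11; exact absurd (Sym2.congr_right.1 h11) h9
      · rcases h2.new h11 with h12 | ⟨z, h12, h13⟩
        · rw [nx_fresh h1, mem_insert] at h12
          rcases h12 with h12 | h12
          · exact absurd (h12.trans Sym2.eq_swap) hy.1
          · rw [Sym2.eq_swap] at h12; exact absurd h12 (not_mem_of_fresh h1 _)
        · rcases Sym2.mem_iff.1 h12 with h14 | h14
          · exact (h2.degs y).2 (h14 ▸ h13)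
          · exact absurd (h14 ▸ hu) h13
    rw [if_neg (show ¬ (y = s.1 ∨ y = m.1) by simp [h8, h9])] at h7
    omega
  · rw [h4, card_erase_of_mem e2, card_insert_of_notMem e1, h2.edges.2, nx_fresh h1,
      card_insert_of_notMem (not_mem_of_fresh h1 _)]
    omega
  · have h7 : V s ⊆ (V m).erase t.1 := by
      intro w hw
      rcases mem_V.1 hw with h8 | ⟨e, he, h8⟩
      · exact mem_erase.2 ⟨h8 ▸ huv, h2.V_sub.1 (h8 ▸ hu)⟩
      · refine mem_erase.2 ⟨fun h9 => deg_eq_zero.1 h6 e he (h9 ▸ h8), ?_⟩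
        rw [h4] at he
        rcases mem_insert.1 (mem_of_mem_erase he) with rfl | he
        · rcases Sym2.mem_iff.1 h8 with h9 | h9
          · exact h2.V_sub.1 (h9 ▸ hu)
          · exact h9 ▸ self_mem_V m
        · exact mem_V.2 (Or.inr ⟨e, he, h8⟩)
    have h8 := card_le_card h7
    have h9 := h2.V_sub.2
    rw [card_erase_of_mem (h2.V_sub.1 hv)] at h8
    rw [V_nx h1, card_insert_of_notMem h1] at h9
    omega

end Pool.Agent.Lib.MP_dfd018_pr
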