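import Mathlib

/-!
Expansions in the Chebyshev polynomials of the second kind.
-/

namespace Pool.Agent.Lib.MP_dfd018_pr

open Finset Polynomial Real intervalIntegral

noncomputable def Sp (j : ℕ) : ℝ[X] := Chebyshev.S ℝ j

lemma Sp_zero : Sp 0 = 1 := by simp [Sp]
lemma Sp_one : Sp 1 = X := by simp [Sp]
lemma Sp_add_two (j : ℕ) : Sp (j + 2) = X * Sp (j + 1) - Sp j := by
  unfold Sp; push_cast; exact Chebyshev.S_add_two ℝ j

lemma Sp_eval (j : ℕ) (θ : ℝ) : (Sp j).eval (2 * cos θ) * sin θ = sin ((j + 1) * θ) := by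
  simp [Sp]

lemma Sp_monic (j : ℕ) : (Sp j).Monic ∧ (Sp j).natDegree = j := by
  have key : ∀ j, ((Sp j).Monic ∧ (Sp j).natDegree = j) ∧
      ((Sp (j + 1)).Monic ∧ (Sp (j + 1)).natDegree = j + 1) := by
    intro j
    induction j with
    | zero => simp [Sp_zero, Sp_one]
    | succ j ih =>
      refine ⟨ih.2, ?_⟩
      have h1 : (X * Sp (j + 1)).Monic := monic_X.mul ih.2.1
      have h2 : (X * Sp (j + 1)).natDegree = j + 2 := by
        rw [monic_X.natDegree_mul ih.2.1, ih.2.2, natDegree_X]; ring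
      have h3 : (Sp j).natDegree < (X * Sp (j + 1)).natDegree := by rw [h2, ih.1.2]; omega
      rw [Sp_add_two]
      exact ⟨h1.sub_of_left (degree_lt_degree h3), by rw [natDegree_sub_eq_left_of_natDegree_lt h3, h2]⟩
  exact (key j).1

lemma exists_expand (d : ℕ) : ∀ P : ℝ[X], P.natDegree ≤ d →
    ∃ c : ℕ → ℝ, P = ∑ j ∈ range (d + 1), C (c j) * Sp j := by
  induction d with
  | zero =>
    intro P hP
    exact ⟨fun _ => P.coeff 0, by simpa [Sp_zero] using eq_C_of_natDegree_le_zero hP⟩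
  | succ d ih =>
    intro P hP
    have h1 := Sp_monic (d + 1)
    obtain ⟨c, hc⟩ := ih (P - C (P.coeff (d + 1)) * Sp (d + 1)) (by
      rw [natDegree_le_iff_coeff_eq_zero]
      intro m hm
      rw [coeff_sub, coeff_C_mul]
      rcases (Nat.succ_le_of_lt hm).eq_or_lt with h | h
      · have h2 := h1.1.coeff_natDegree
        rw [h1.2] at h2
        rw [← h, h2]; ring
      · rw [coeff_eq_zero_of_natDegree_lt (p := P) (by omega),
          coeff_eq_zero_of_natDegree_lt (p := Sp (d + 1)) (by omega)]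
        ring)
    refine ⟨fun j => if j = d + 1 then P.coeff (d + 1) else c j, ?_⟩
    beta_reduce
    rw [sum_range_succ, if_pos rfl, sum_congr rfl (g := fun j => C (c j) * Sp j)
      (fun j hj => by rw [if_neg (mem_range.1 hj).ne]), ← hc]
    ring

lemma int_cos (m : ℤ) (hm : m ≠ 0) : ∫ θ in (0 : ℝ)..π, cos (m * θ) = 0 := by
  have hm' : (m : ℝ) ≠ 0 := by exact_mod_cast hm
  rw [integral_comp_mul_left (fun x => cos x) hm', integral_cos]
  simp

lemma orth (i j : ℕ) : ∫ θ in (0 : ℝ)..π, sin ((i + 1) * θ) * sin ((j + 1) * θ) =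
    if i = j then π / 2 else 0 := by
  have h : ∀ θ : ℝ, sin ((i + 1) * θ) * sin ((j + 1) * θ) =
      cos (((i : ℤ) - j : ℤ) * θ) / 2 - cos (((i : ℤ) + j + 2 : ℤ) * θ) / 2 := by
    intro θ
    have h1 : (((i : ℤ) - j : ℤ) : ℝ) * θ = (i + 1) * θ - (j + 1) * θ := by push_cast; ring
    have h2 : (((i : ℤ) + j + 2 : ℤ) : ℝ) * θ = (i + 1) * θ + (j + 1) * θ := by push_cast; ring
    rw [h1, h2, cos_sub, cos_add]; ring
  simp only [h]
  rw [integral_sub (by apply Continuous.intervalIntegrable; fun_prop)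
    (by apply Continuous.intervalIntegrable; fun_prop), integral_div, integral_div,
    int_cos ((i : ℤ) + j + 2) (by omega)]
  split_ifs with h1
  · simp [h1]
  · rw [int_cos _ (by omega)]; simp

/-- The coefficient of a function with respect to the semicircle orthonormal polynomials. -/
noncomputable def cf (f : ℝ → ℝ) (j : ℕ) : ℝ :=
  2 / π * ∫ θ in (0 : ℝ)..π, f (2 * cos θ) * sin θ * sin ((j + 1) * θ)

lemma eval_expand (d : ℕ) (c : ℕ → ℝ) (θ : ℝ) :
    (∑ j ∈ range d, C (c j) * Sp j).eval (2 * cos θ) * sin θ =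
      ∑ j ∈ range d, c j * sin ((j + 1) * θ) := by
  rw [eval_finsetSum, sum_mul]
  exact sum_congr rfl fun j _ => by rw [eval_mul, eval_C, mul_assoc, Sp_eval]

lemma cf_expand (d : ℕ) (c : ℕ → ℝ) {i : ℕ} (hi : i < d) :
    cf (fun y => (∑ j ∈ range d, C (c j) * Sp j).eval y) i = c i := by
  unfold cf
  simp only [eval_expand, sum_mul, mul_assoc]
  rw [integral_finsetSum (fun j _ => by apply Continuous.intervalIntegrable; fun_prop)]
  simp only [integral_const_mul, orth]
  rw [sum_eq_single i (fun b _ hb => by simp [hb]) (by simp [hi])]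
  simp only [if_true]
  field_simp

lemma expand {d : ℕ} {P : ℝ[X]} (hP : P.natDegree ≤ d) :
    P = ∑ j ∈ range (d + 1), C (cf (fun y => P.eval y) j) * Sp j := by
  obtain ⟨c, hc⟩ := exists_expand d P hP
  conv_lhs => rw [hc]
  refine sum_congr rfl fun j hj => ?_
  rw [hc, cf_expand _ _ (mem_range.1 hj)]

lemma parseval {d : ℕ} {P : ℝ[X]} (hP : P.natDegree ≤ d) :
    ∑ j ∈ range (d + 1), cf (fun y => P.eval y) j ^ 2 = cf (fun y => P.eval y ^ 2) 0 := by
  set c := cf (fun y => P.eval y) with hc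
  have h1 : ∀ θ, P.eval (2 * cos θ) ^ 2 * sin θ * sin (((0 : ℕ) + 1) * θ) =
      ∑ j ∈ range (d + 1), c j * (P.eval (2 * cos θ) * sin θ * sin ((j + 1) * θ)) := by
    intro θ
    have h2 := eval_expand (d + 1) c θ
    rw [← expand hP] at h2
    calc _ = (P.eval (2 * cos θ) * sin θ) * (P.eval (2 * cos θ) * sin θ) := by simp; ring
      _ = _ := by
        nth_rewrite 1 [h2]
        rw [sum_mul]; exact sum_congr rfl fun j _ => by ring
  conv_rhs => unfold cf
  simp only [h1]
  rw [integral_finsetSum (fun j _ => by apply Continuous.intervalIntegrable; fun_prop), mul_sum]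
  refine sum_congr rfl fun j _ => ?_
  rw [integral_const_mul, sq]
  nth_rewrite 2 [hc]
  unfold cf; ring

lemma two_cos_mem (θ : ℝ) : |2 * cos θ| ≤ 2 := by
  rw [abs_mul, abs_two]; linarith [abs_cos_le_one θ]

lemma cf_mono {f g : ℝ → ℝ} (hf : Continuous f) (hg : Continuous g)
    (h : ∀ y, |y| ≤ 2 → f y ≤ g y) : cf f 0 ≤ cf g 0 := by
  unfold cf
  refine mul_le_mul_of_nonneg_left (integral_mono_on pi_pos.le
    (by apply Continuous.intervalIntegrable; fun_prop)
    (by apply Continuous.intervalIntegrable; fun_prop) fun θ _ => ?_) (by positivity)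
  simp only [Nat.cast_zero, zero_add, one_mul, mul_assoc]
  exact mul_le_mul_of_nonneg_right (h _ (two_cos_mem θ)) (mul_self_nonneg _)

lemma cf_add {f g : ℝ → ℝ} (hf : Continuous f) (hg : Continuous g) (j : ℕ) :
    cf (fun y => f y + g y) j = cf f j + cf g j := by
  unfold cf
  rw [← mul_add, ← integral_add (by apply Continuous.intervalIntegrable; fun_prop)
    (by apply Continuous.intervalIntegrable; fun_prop)]
  simp only [add_mul]

lemma cf_smul (a : ℝ) (f : ℝ → ℝ) (j : ℕ) : cf (fun y => a * f y) j = a * cf f j := by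
  unfold cf
  simp only [mul_assoc, integral_const_mul]; ring

lemma cf_const (a : ℝ) : cf (fun _ => a) 0 = a := by
  have := cf_expand 1 (fun _ => a) (i := 0) one_pos
  simpa [Sp_zero] using this

lemma cf_sq : cf (fun y => y ^ 2) 0 = 1 := by
  have h := cf_expand 3 (fun j => if j = 1 then 0 else 1) (i := 0) (by norm_num)
  simp [sum_range_succ, Sp_zero, Sp_add_two 0, Sp_one] at h
  simpa [sq] using h

lemma cf_neg (f : ℝ → ℝ) (j : ℕ) : cf (fun y => f (-y)) j = (-1) ^ j * cf f j := by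
  unfold cf
  have h := integral_comp_sub_left (a := 0) (b := π)
    (fun θ => f (2 * cos θ) * sin θ * sin ((j + 1) * θ)) π
  simp only [sub_self, sub_zero, cos_pi_sub, sin_pi_sub] at h
  rw [← h, mul_left_comm, ← integral_const_mul ((-1) ^ j : ℝ)]
  congr 2
  funext θ
  have h1 : ((j : ℝ) + 1) * (π - θ) = ((j + 1 : ℕ) : ℝ) * π - (j + 1) * θ := by push_cast; ring
  rw [h1, sin_nat_mul_pi_sub, pow_succ, mul_neg 2]
  have : ((-1 : ℝ) ^ j) * (-1) ^ j = 1 := by rw [← mul_pow]; simp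
  linear_combination (-(f (-(2 * cos θ)) * sin θ * sin ((j + 1) * θ))) * this

lemma abs_int_le {f g : ℝ → ℝ} (hg : Continuous g) (h : ∀ θ ∈ Set.Icc 0 π, |f θ| ≤ g θ) :
    |∫ θ in (0 : ℝ)..π, f θ| ≤ ∫ θ in (0 : ℝ)..π, g θ := by
  rw [← norm_eq_abs]
  exact norm_integral_le_of_norm_le pi_pos.le (MeasureTheory.ae_of_all _ fun θ hθ =>
    h θ (Set.Ioc_subset_Icc_self hθ)) (hg.intervalIntegrable _ _)

lemma abs_cf_le {f : ℝ → ℝ} {g : ℝ → ℝ} (hg : Continuous g) (j : ℕ)
    (h : ∀ θ ∈ Set.Icc 0 π, |f (2 * cos θ)| * sin θ ≤ g θ) :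
    |cf f j| ≤ 2 / π * ∫ θ in (0 : ℝ)..π, g θ := by
  unfold cf
  rw [abs_mul, abs_of_pos (show 0 < 2 / π by positivity)]
  refine mul_le_mul_of_nonneg_left ?_ (by positivity)
  refine abs_int_le hg fun θ hθ => ?_
  have h1 := sin_nonneg_of_mem_Icc hθ
  rw [abs_mul, abs_mul, abs_of_nonneg h1]
  exact (mul_le_of_le_one_right (by positivity) (abs_sin_le_one _)).trans (h θ hθ)

lemma abs_cf_le_sup {f : ℝ → ℝ} {γ : ℝ} (j : ℕ) (h : ∀ y, |y| ≤ 2 → |f y| ≤ γ) :
    |cf f j| ≤ 2 * γ := by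
  refine (abs_cf_le (g := fun _ => γ) continuous_const j fun θ _ => ?_).trans (le_of_eq ?_)
  · exact (mul_le_of_le_one_right (abs_nonneg _) (sin_le_one θ)).trans (h _ (two_cos_mem θ))
  · simp; field_simp

lemma int_abs (F f : ℝ → ℝ) (j : ℕ) (hF : ∀ θ, HasDerivAt F (f θ) θ)
    (hf : ∀ θ, f θ = 2 * cos θ * sin θ * sin ((j + 1) * θ)) :
    cf (fun y => |y|) j = 2 / π * (2 * F (π / 2) - F 0 - F π) := by
  unfold cf
  congr 1
  have hc : Continuous f := by
    rw [show f = fun θ => 2 * cos θ * sin θ * sin ((j + 1) * θ) from funext hf]; fun_prop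
  rw [← integral_add_adjacent_intervals (b := π / 2)
    (by apply Continuous.intervalIntegrable; fun_prop)
    (by apply Continuous.intervalIntegrable; fun_prop)]
  have h1 : ∫ θ in (0 : ℝ)..π / 2, |2 * cos θ| * sin θ * sin ((j + 1) * θ) =
      ∫ θ in (0 : ℝ)..π / 2, f θ := by
    refine integral_congr fun θ hθ => ?_
    rw [Set.uIcc_of_le (by positivity)] at hθ
    have := cos_nonneg_of_mem_Icc (x := θ) ⟨by linarith [hθ.1, pi_pos], hθ.2⟩
    simp only [hf]
    rw [abs_of_nonneg (by positivity)]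
  have h2 : ∫ θ in π / 2..π, |2 * cos θ| * sin θ * sin ((j + 1) * θ) =
      ∫ θ in π / 2..π, - f θ := by
    refine integral_congr fun θ hθ => ?_
    rw [Set.uIcc_of_le (by linarith [pi_pos])] at hθ
    have := cos_nonpos_of_pi_div_two_le_of_le hθ.1 (by linarith [hθ.2, pi_pos])
    simp only [hf]
    rw [abs_of_nonpos (by linarith)]; ring
  rw [h1, h2, integral_neg, integral_eq_sub_of_hasDerivAt (fun θ _ => hF θ)
    (hc.intervalIntegrable _ _), integral_eq_sub_of_hasDerivAt (fun θ _ => hF θ)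
    (hc.intervalIntegrable _ _)]
  ring

lemma cf_abs_zero : cf (fun y => |y|) 0 = 8 / (3 * π) := by
  rw [int_abs (fun θ => 2 / 3 * sin θ ^ 3) _ 0 (fun θ =>
    ((hasDerivAt_sin θ).pow 3).const_mul (2 / 3)) (fun θ => by simp; ring)]
  simp; field_simp; norm_num

lemma cf_abs_two : cf (fun y => |y|) 2 = 8 / (5 * π) := by
  rw [int_abs (fun θ => 2 * sin θ ^ 3 - 8 / 5 * sin θ ^ 5) _ 2 (fun θ =>
    (((hasDerivAt_sin θ).pow 3).const_mul 2).sub (((hasDerivAt_sin θ).pow 5).const_mul (8 / 5)))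
    (fun θ => by
      have : ((2 : ℕ) : ℝ) + 1 = 3 := by norm_num
      rw [this, sin_three_mul]; simp; ring)]
  simp; field_simp; norm_num

lemma ibp_sin {φ φ' : ℝ → ℝ} (h : ∀ θ, HasDerivAt φ (φ' θ) θ) (hc : Continuous φ') {m : ℝ}
    (hm : m ≠ 0) (h0 : φ 0 = 0) (hπ : φ π = 0) :
    ∫ θ in (0 : ℝ)..π, φ θ * sin (m * θ) = 1 / m * ∫ θ in (0 : ℝ)..π, φ' θ * cos (m * θ) := by
  have h1 := integral_mul_deriv_eq_deriv_mul (a := 0) (b := π) (u := φ) (u' := φ')
    (v := fun θ => -cos (m * θ) / m) (v' := fun θ => sin (m * θ)) (fun θ _ => h θ)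
    (fun θ _ => by
      have := (((hasDerivAt_id' θ).const_mul m).cos.fun_neg).div_const m
      convert this using 1
      field_simp)
    (hc.intervalIntegrable _ _) (by apply Continuous.intervalIntegrable; fun_prop)
  rw [h1, h0, hπ, ← integral_const_mul, zero_mul, zero_mul, sub_zero, zero_sub, ← integral_neg]
  congr 1; funext θ; ring

lemma ibp_cos {φ φ' : ℝ → ℝ} (h : ∀ θ, HasDerivAt φ (φ' θ) θ) (hc : Continuous φ') (j : ℕ) :
    ∫ θ in (0 : ℝ)..π, φ θ * cos ((j + 1) * θ) =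
      -(1 / (j + 1)) * ∫ θ in (0 : ℝ)..π, φ' θ * sin ((j + 1) * θ) := by
  have hm : (j : ℝ) + 1 ≠ 0 := by positivity
  have h1 := integral_mul_deriv_eq_deriv_mul (a := 0) (b := π) (u := φ) (u' := φ')
    (v := fun θ => sin ((j + 1) * θ) / (j + 1)) (v' := fun θ => cos ((j + 1) * θ)) (fun θ _ => h θ)
    (fun θ _ => by
      have := (((hasDerivAt_id' θ).const_mul ((j : ℝ) + 1)).sin).div_const ((j : ℝ) + 1)
      convert this using 1
      field_simp)
    (hc.intervalIntegrable _ _) (by apply Continuous.intervalIntegrable; fun_prop)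
  have h2 : sin (((j : ℝ) + 1) * π) = 0 := by exact_mod_cast sin_nat_mul_pi (j + 1)
  rw [h1, h2, ← integral_const_mul]
  simp only [mul_zero, sin_zero, zero_div, sub_zero, zero_sub]
  rw [← integral_neg]
  congr 1; funext θ; ring

lemma hasDerivAt_eval_cos (P : ℝ[X]) (θ : ℝ) : HasDerivAt (fun θ => P.eval (2 * cos θ))
    (P.derivative.eval (2 * cos θ) * (2 * -sin θ)) θ :=
  (P.hasDerivAt _).comp θ ((hasDerivAt_cos θ).const_mul 2)

lemma int_deriv (P : ℝ[X]) : ∫ θ in (0 : ℝ)..π, 2 * P.derivative.eval (2 * cos θ) * sin θ =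
    P.eval 2 - P.eval (-2) := by
  rw [integral_eq_sub_of_hasDerivAt (f := fun θ => -P.eval (2 * cos θ)) (fun θ _ => by
    convert (hasDerivAt_eval_cos P θ).fun_neg using 1; ring)
    (by apply Continuous.intervalIntegrable; fun_prop)]
  simp; ring

lemma cf_le_mono (P : ℝ[X]) (h1 : ∀ y, |y| ≤ 2 → 0 ≤ P.derivative.eval y)
    (h0 : ∀ y, |y| ≤ 2 → |P.eval y| ≤ 1) (j : ℕ) : |cf (fun y => P.eval y) j| ≤ 4 / (j + 1) := by
  have hm : (0 : ℝ) < j + 1 := by positivity
  unfold cf
  beta_reduce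
  rw [ibp_sin (fun θ => (hasDerivAt_eval_cos P θ).fun_mul (hasDerivAt_sin θ)) (by fun_prop) hm.ne'
    (by simp) (by simp), abs_mul, abs_mul, abs_of_pos (show 0 < 2 / π by positivity),
    abs_of_pos (show 0 < 1 / ((j : ℝ) + 1) by positivity)]
  have h2 := abs_int_le (f := fun θ => (P.derivative.eval (2 * cos θ) * (2 * -sin θ) * sin θ +
      P.eval (2 * cos θ) * cos θ) * cos ((j + 1) * θ))
      (g := fun θ => 2 * P.derivative.eval (2 * cos θ) * sin θ + 1) (by fun_prop) (fun θ hθ => by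
    have a1 := sin_nonneg_of_mem_Icc hθ
    have a2 := h1 _ (two_cos_mem θ)
    have a3 := h0 _ (two_cos_mem θ)
    have a4 := sin_le_one θ
    rw [abs_mul]
    refine (mul_le_of_le_one_right (abs_nonneg _) (abs_cos_le_one _)).trans
      ((abs_add_le _ _).trans (add_le_add ?_ ?_))
    · have a5 := mul_nonneg a2 a1
      rw [abs_le]; constructor <;> nlinarith
    · rw [abs_mul]
      exact mul_le_one₀ a3 (abs_nonneg _) (abs_cos_le_one _))
  rw [integral_add (by apply Continuous.intervalIntegrable; fun_prop) (by simp), int_deriv] at h2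
  simp only [intervalIntegral.integral_const, sub_zero, smul_eq_mul, mul_one] at h2
  have a1 := abs_le.1 (h0 2 (by simp))
  have a2 := abs_le.1 (h0 (-2) (by simp))
  calc _ ≤ 2 / π * (1 / (j + 1) * (2 * π)) := by
        gcongr; linarith [pi_gt_three]
    _ = _ := by field_simp; norm_num

lemma cf_le_conv (P : ℝ[X]) (h2 : ∀ y, |y| ≤ 2 → 0 ≤ P.derivative.derivative.eval y)
    (h1 : ∀ y, |y| ≤ 2 → |P.derivative.eval y| ≤ 1)
    (h0 : ∀ y, |y| ≤ 2 → |P.eval y| ≤ 3) (j : ℕ) :
    |cf (fun y => P.eval y) j| ≤ 22 / (j + 1) ^ 2 := by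
  have hm : (0 : ℝ) < j + 1 := by positivity
  unfold cf
  beta_reduce
  rw [ibp_sin (fun θ => (hasDerivAt_eval_cos P θ).fun_mul (hasDerivAt_sin θ)) (by fun_prop) hm.ne'
    (by simp) (by simp), ibp_cos (φ' := fun θ =>
      4 * P.derivative.derivative.eval (2 * cos θ) * sin θ ^ 3
      - 6 * P.derivative.eval (2 * cos θ) * sin θ * cos θ - P.eval (2 * cos θ) * sin θ)
      (fun θ => by
        refine ((((hasDerivAt_eval_cos P.derivative θ).fun_mul
          ((hasDerivAt_sin θ).fun_neg.const_mul 2)).fun_mul (hasDerivAt_sin θ)).fun_add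
          ((hasDerivAt_eval_cos P θ).fun_mul (hasDerivAt_cos θ))).congr_deriv ?_
        ring) (by fun_prop), abs_mul, abs_mul, abs_mul, abs_neg,
    abs_of_pos (show 0 < 2 / π by positivity),
    abs_of_pos (show 0 < 1 / ((j : ℝ) + 1) by positivity)]
  have h3 := abs_int_le (f := fun θ => (4 * P.derivative.derivative.eval (2 * cos θ) * sin θ ^ 3
      - 6 * P.derivative.eval (2 * cos θ) * sin θ * cos θ - P.eval (2 * cos θ) * sin θ)
        * sin ((j + 1) * θ))
      (g := fun θ => 2 * (2 * P.derivative.derivative.eval (2 * cos θ) * sin θ) + 9) (by fun_prop)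
      (fun θ hθ => by
    have a1 := sin_nonneg_of_mem_Icc hθ
    have a2 := h2 _ (two_cos_mem θ)
    have a3 := h1 _ (two_cos_mem θ)
    have a4 := h0 _ (two_cos_mem θ)
    have a5 := sin_le_one θ
    have b1 : |4 * P.derivative.derivative.eval (2 * cos θ) * sin θ ^ 3| ≤
        2 * (2 * P.derivative.derivative.eval (2 * cos θ) * sin θ) := by
      rw [abs_of_nonneg (by positivity)]
      have : sin θ ^ 3 ≤ sin θ := pow_le_of_le_one a1 a5 (by norm_num)
      nlinarith
    have b2 : |6 * P.derivative.eval (2 * cos θ) * sin θ * cos θ| ≤ 6 := by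
      rw [abs_mul, abs_mul, abs_mul, abs_of_nonneg a1, abs_of_pos (show (0 : ℝ) < 6 by norm_num)]
      calc _ ≤ (6 : ℝ) * 1 * 1 * 1 := by gcongr; exact abs_cos_le_one θ
        _ = _ := by norm_num
    have b3 : |P.eval (2 * cos θ) * sin θ| ≤ 3 := by
      rw [abs_mul, abs_of_nonneg a1]
      exact (mul_le_of_le_one_right (abs_nonneg _) a5).trans a4
    rw [abs_mul]
    refine (mul_le_of_le_one_right (abs_nonneg _) (abs_sin_le_one _)).trans ?_
    have b4 := abs_le.1 b1
    have b5 := abs_le.1 b2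
    have b6 := abs_le.1 b3
    rw [abs_le]; constructor <;> linarith)
  rw [integral_add (by apply Continuous.intervalIntegrable; fun_prop) (by simp),
    integral_const_mul, int_deriv] at h3
  simp only [intervalIntegral.integral_const, sub_zero, smul_eq_mul] at h3
  have a1 := abs_le.1 (h1 2 (by simp))
  have a2 := abs_le.1 (h1 (-2) (by simp))
  calc _ ≤ 2 / π * (1 / (j + 1) * (1 / (j + 1) * (11 * π))) := by
        gcongr; linarith [pi_gt_three]
    _ = _ := by field_simp; norm_num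

end Pool.Agent.Lib.MP_dfd018_pr
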