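import Pool.Agent.Lib.MP_dfd018_pr.Chain

/-!
The cycle creation kernels.
-/

namespace Pool.Agent.Lib.MP_dfd018_pr

open Finset Matrix
open scoped symmDiff

variable {n : ℕ}

open Classical in
noncomputable def G1 (j : ℕ) : Matrix (St n) (St n) ℝ := fun t s => if R1 j t s then 1 else 0

open Classical in
noncomputable def G3 (j : ℕ) : Matrix (St n) (St n) ℝ :=
  fun t s => ∑ m, if 4 ≤ j ∧ R3 (j - 4) t m s then 1 else 0

noncomputable def GG (j : ℕ) : Matrix (St n) (St n) ℝ := G1 j + G3 j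

lemma GG_apply (j : ℕ) (t s : St n) : GG j t s = G1 j t s + G3 j t s := rfl

lemma G1_eq (j : ℕ) : G1 (n := n) j = Had (CI j) := by
  ext t s
  unfold G1 Had CI
  by_cases h : R1 j t s
  · rw [if_pos h, if_pos h.1, if_pos h.2]
  · rw [if_neg h]
    split_ifs with h1 h2
    exacts [absurd ⟨h1, h2⟩ h, rfl, rfl]

lemma G1_nonneg (j : ℕ) (t s : St n) : 0 ≤ G1 j t s := by unfold G1; split_ifs <;> norm_num

lemma G3_nonneg (j : ℕ) (t s : St n) : 0 ≤ G3 j t s :=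
  sum_nonneg fun _ _ => by split_ifs <;> norm_num

lemma single_nonneg' (s x : St n) : 0 ≤ (Pi.single s (1 : ℝ) : St n → ℝ) x := by
  by_cases h : x = s <;> simp [h]

lemma G1_le (j : ℕ) (t s : St n) : G1 j t s ≤ Had (KB n j) t s := by
  rw [G1_eq]
  unfold Had
  split_ifs
  · rw [KB_apply]
    refine le_trans (le_of_eq ?_) (CI_le_W (single_nonneg' _) j (self_mem_V t))
    simp
  · exact le_rfl

lemma G3_eq_zero {j : ℕ} {t s : St n} (h : ∀ m, ¬ (4 ≤ j ∧ R3 (j - 4) t m s)) : G3 j t s = 0 :=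
  sum_eq_zero fun m _ => if_neg (h m)

lemma G3_le (j : ℕ) (t s : St n) : G3 j t s ≤ Had (KB n j) t s := by
  classical
  by_cases h : ∃ m, 4 ≤ j ∧ R3 (j - 4) t m s
  swap
  · rw [G3_eq_zero (fun m hm => h ⟨m, hm⟩)]; exact Had_KB_nonneg _ _ _
  obtain ⟨m0, h4, h0⟩ := h
  obtain ⟨k, rfl⟩ := Nat.exists_eq_add_of_le' h4
  have hu := h0.2.1
  have hne : t.1 ≠ s.1 := fun h => hu (h ▸ self_mem_V t)
  unfold Had
  rw [if_pos hne, KB_apply, W_self]
  refine le_trans ?_ (single_le_sum (f := fun c => W _ (k + 3) t.1 (nx t c))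
    (fun c _ => W_nonneg (single_nonneg' _) _ _ _) (mem_erase.2 ⟨hne.symm, mem_univ s.1⟩))
  refine le_trans ?_ (CI_le_W_close (single_nonneg' _) s.1 (k + 1)
    (by rw [V_nx hu]; exact mem_insert_of_mem (self_mem_V t)) (self_mem_V (nx t s.1)) (by omega))
  refine sum_le_sum fun m _ => ?_
  dsimp only
  split_ifs with h1
  · have h2 : nx m s.1 = (s.1, s.2 ∆ {s(t.1, s.1)}) := Prod.ext rfl h1.2.2.2.2
    have h3 : Ch (k + 1 + 1) (nx t s.1) m := h1.2.2.2.1
    simp [CI, h2, h3]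
  · exact mul_nonneg (CI_nonneg _ _ _) (single_nonneg' _ _)

lemma GG_le (k : ℕ) (t s : St n) : GG (k + 2) t s ≤ Had (KB n (k + 2)) t s := by
  rw [GG_apply]
  by_cases h : R1 (k + 2) t s
  · rw [G3_eq_zero, add_zero]
    · exact G1_le _ _ _
    · intro m hm
      have h1 := h.facts.2.2.2.2.1
      have h2 := hm.2.facts.2.2.2.1
      omega
  · have : G1 (k + 2) t s = 0 := if_neg h
    rw [this, zero_add]; exact G3_le _ _ _

lemma GG_supp {k : ℕ} {t s : St n} (h : GG (k + 2) t s ≠ 0) :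
    t.2.card < s.2.card ∧ deg s.2 s.1 = 2 := by
  by_cases h1 : R1 (k + 2) t s
  · exact ⟨by have := h1.facts.2.2.2.2.1; omega, h1.facts.2.1⟩
  by_cases h2 : ∃ m, 4 ≤ k + 2 ∧ R3 (k + 2 - 4) t m s
  · obtain ⟨m, -, h3⟩ := h2
    exact ⟨by have := h3.facts.2.2.2.1; omega, h3.facts.2.1⟩
  · have h3 : G1 (k + 2) t s = 0 := if_neg h1
    rw [GG_apply, h3, G3_eq_zero (fun m hm => h2 ⟨m, hm⟩)] at h
    simp at h

lemma Had_mulVec (K : Matrix (St n) (St n) ℝ) (F : St n → ℝ) (t : St n) :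
    (Had K *ᵥ F) t =
      (K *ᵥ fun s => if t.1 ≠ s.1 then F (s.1, s.2 ∆ {s(t.1, s.1)}) else 0) t := by
  simp only [mulVec, dotProduct, Had, Fintype.sum_prod_type]
  refine sum_congr rfl fun v _ => ?_
  by_cases h : t.1 = v
  · simp [h]
  · simp only [ne_eq, h, not_false_eq_true, if_true]
    rw [← sum_symmDiff_shift {s(t.1, v)}]
    simp

lemma G3_mulVec (k : ℕ) (F : St n → ℝ) (t : St n) (h : deg t.2 t.1 = 0) :
    (G3 (k + 4) *ᵥ F) t = ∑ u ∈ (V t)ᶜ,
      (CI (k + 2) *ᵥ fun m => F (u, (nx m u).2 ∆ {s(t.1, u)})) (nx t u) := by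
  classical
  simp only [mulVec, dotProduct, G3]
  rw [Fintype.sum_prod_type, ← sum_compl_add_sum (V t)]
  rw [sum_eq_zero (s := V t), add_zero]
  · refine sum_congr rfl fun u hu => ?_
    simp only [sum_mul]
    rw [sum_comm]
    refine sum_congr rfl fun m _ => ?_
    rw [sum_eq_single ((nx m u).2 ∆ {s(t.1, u)})]
    · unfold CI R3
      simp [h, mem_compl.1 hu]
    · intro O _ hO
      rw [if_neg, zero_mul]
      exact fun h1 => hO (eq_symmDiff_comm.1 h1.2.2.2.2)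
    · simp
  · intro u hu
    refine sum_eq_zero fun O _ => ?_
    rw [sum_eq_zero, zero_mul]
    exact fun m _ => if_neg fun h1 => h1.2.2.1 hu

lemma G1_row_le (j : ℕ) (t : St n) : ∑ s, G1 j t s ≤ (n : ℝ) ^ j := by
  have h : ∑ s, G1 j t s = (G1 j *ᵥ fun _ => (1 : ℝ)) t := by simp [mulVec, dotProduct]
  rw [h, G1_eq, Had_mulVec]
  refine (CI_mono j t fun s _ => ?_).trans (CI_count_le j t)
  split_ifs <;> norm_num

lemma G3_row_le (k : ℕ) (t : St n) :
    ∑ s, G3 (k + 2) t s ≤ if deg t.2 t.1 = 0 ∧ 2 ≤ k then (n : ℝ) ^ (k + 1) else 0 := by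
  split_ifs with h0
  · obtain ⟨k, rfl⟩ := Nat.exists_eq_add_of_le' h0.2
    have h : ∑ s, G3 (k + 2 + 2) t s = (G3 (k + 4) *ᵥ fun _ => (1 : ℝ)) t := by
      simp [mulVec, dotProduct]
    rw [h, G3_mulVec _ _ _ h0.1]
    refine (sum_le_card_nsmul _ _ _ fun c _ => CI_count_le _ _).trans ?_
    rw [nsmul_eq_mul, card_compl_V, pow_succ' _ (k + 2)]
    refine mul_le_mul_of_nonneg_right ?_ (by positivity)
    have : (0 : ℝ) ≤ (V t).card := by positivity
    linarith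
  · exact le_of_eq (sum_eq_zero fun s _ => G3_eq_zero fun m hm => h0 ⟨hm.2.1, by omega⟩)

lemma wV_ge {N : ℝ} (hN : 1 ≤ N) {t s : St n} {j : ℕ} (h : (V s).card ≤ (V t).card + j) :
    wV N t / N ^ j ≤ wV N s := by
  refine le_trans (le_of_eq ?_) (inv_pow_anti hN h)
  rw [pow_add, wV, div_eq_mul_inv, inv_pow N j]

lemma CI_const (j : ℕ) (t : St n) (c : ℝ) :
    (CI j *ᵥ fun _ => c) t = c * (CI j *ᵥ fun _ => (1 : ℝ)) t := by
  simp [mulVec, dotProduct, mul_sum, mul_comm]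

lemma G1_row_ge {N m : ℝ} (hN : 1 ≤ N) (hm : 0 ≤ m) (k : ℕ) (t : St n)
    (h : m + (V t).card + (k + 2 : ℕ) ≤ n) :
    wV N t / N ^ (k + 2) * m ^ (k + 2) ≤ (G1 (k + 2) *ᵥ wV N) t := by
  rw [G1_eq, Had_mulVec]
  have hw := wV_pos hN t
  refine le_trans ?_ (CI_mono (f := fun _ => wV N t / N ^ (k + 2)) _ t fun s hs => ?_)
  · rw [CI_const]
    exact mul_le_mul_of_nonneg_left (CI_count_ge _ _ hm h) (by positivity)
  · have h1 : t.1 ≠ s.1 := fun h2 => hs.fresh (h2 ▸ self_mem_V t)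
    rw [if_pos h1]
    have h2 : R1 (k + 2) t (s.1, s.2 ∆ {s(t.1, s.1)}) := ⟨h1, by simpa using hs⟩
    exact wV_ge hN h2.facts.2.2.2.2.2

lemma G3_row_ge {N m : ℝ} (hN : 1 ≤ N) (hm : 0 ≤ m) (k : ℕ) (t : St n)
    (h : m + (V t).card + (k + 4 : ℕ) ≤ n) (h0 : deg t.2 t.1 = 0) :
    wV N t / N ^ (k + 2) * m ^ (k + 3) ≤ (G3 (k + 4) *ᵥ wV N) t := by
  rw [G3_mulVec _ _ _ h0]
  have hw := wV_pos hN t
  refine le_trans ?_ (card_nsmul_le_sum _ _ (wV N t / N ^ (k + 2) * m ^ (k + 2)) fun u hu => ?_)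
  · rw [nsmul_eq_mul, card_compl_V]
    have h1 : m ≤ n - (V t).card := by
      have : (0 : ℝ) ≤ (k + 4 : ℕ) := by positivity
      linarith
    calc _ = m * (wV N t / N ^ (k + 2) * m ^ (k + 2)) := by ring
      _ ≤ _ := mul_le_mul_of_nonneg_right h1 (by positivity)
  · have hu' := mem_compl.1 hu
    refine le_trans ?_ (CI_mono (f := fun _ => wV N t / N ^ (k + 2)) _ _ fun s hs => ?_)
    · rw [CI_const]
      refine mul_le_mul_of_nonneg_left (CI_count_ge _ _ hm ?_) (by positivity)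
      rw [V_nx hu', card_insert_of_notMem hu']
      push_cast at h ⊢
      linarith
    · have h2 : R3 k t s (u, (nx s u).2 ∆ {s(t.1, u)}) := ⟨h0, hu', hs, by simp⟩
      exact wV_ge hN h2.facts.2.2.2.2

open Classical in
lemma sum_ind_le' {ι κ : Type*} (I : Finset ι) (R : ι → Prop) (S : Finset κ) (f : ι → κ)
    (hf : ∀ i, R i → f i ∈ S) (hinj : ∀ i j, R i → R j → f i = f j → i = j) :
    ∑ i ∈ I, (if R i then (1 : ℝ) else 0) ≤ S.card := by
  rw [sum_boole]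
  exact_mod_cast card_le_card_of_injOn f (fun i hi => hf i (mem_filter.1 hi).2)
    (fun i hi j hj h => hinj i j (mem_filter.1 hi).2 (mem_filter.1 hj).2 h)

lemma R1.inj {k k' : ℕ} {t t' s : St n} (h : R1 (k + 2) t s) (h' : R1 (k' + 2) t' s)
    (he : t.1 = t'.1) : (k, t) = (k', t') := by
  have h1 := h.2
  have h2 := h'.2
  rw [← he] at h2
  have := h1.len h2 he
  exact Prod.ext (by have := this.1; simp only; omega) this.2

def nbr (s : St n) : Finset (Fin n) := univ.filter (fun y => s(y, s.1) ∈ s.2)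

lemma card_nbr (s : St n) : (nbr s).card ≤ deg s.2 s.1 :=
  card_nbr_le _ _ _ fun _ h => (mem_filter.1 h).2

lemma col_one (I : Finset (ℕ × St n)) (s : St n) : ∑ i ∈ I, G1 (i.1 + 2) i.2 s ≤ 2 := by
  classical
  by_cases h : deg s.2 s.1 = 2
  · refine le_trans (le_of_eq ?_) ((sum_ind_le' I (fun i => R1 (i.1 + 2) i.2 s) (nbr s)
      (fun i => i.2.1) (fun i hi => mem_filter.2 ⟨mem_univ _, hi.facts.1⟩)
      (fun i j hi hj he => hi.inj hj he)).trans (by exact_mod_cast h ▸ card_nbr s))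
    rfl
  · have : ∀ i ∈ I, G1 (i.1 + 2) i.2 s = 0 := fun i _ => if_neg fun hi => h (R1.facts hi).2.1
    rw [sum_eq_zero this]; norm_num

lemma col_N (I : Finset (ℕ × St n)) (s : St n) :
    ∑ i ∈ I, (if deg i.2.2 i.2.1 = 0 then 0 else G1 (i.1 + 2) i.2 s) ≤ 1 := by
  classical
  refine le_trans (le_of_eq ?_) ((sum_ind_le' I (fun i => deg i.2.2 i.2.1 ≠ 0 ∧ R1 (i.1 + 2) i.2 s)
    {()} (fun _ => ()) (fun i hi => by simp) (fun i j hi hj _ => hi.2.inj hj.2 ?_)).trans (by simp))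
  · refine sum_congr rfl fun i _ => ?_
    unfold G1
    by_cases h : deg i.2.2 i.2.1 = 0 <;> simp [h]
  · by_contra h
    have h1 := hj.2.facts.2.2.2.1 _ h hi.2.facts.1
    have h2 := hi.2.facts.2.2.1
    have h3 := hi.1
    omega

lemma col_three (I : Finset (ℕ × St n)) (s : St n) : ∑ i ∈ I, G3 (i.1 + 2) i.2 s ≤ 2 * n := by
  classical
  by_cases h : deg s.2 s.1 = 2
  swap
  · rw [sum_eq_zero fun i _ => G3_eq_zero fun m hm => h hm.2.facts.2.1]; positivity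
  unfold G3
  rw [← sum_product' (f := fun (i : ℕ × St n) (m : St n) =>
    if 4 ≤ i.1 + 2 ∧ R3 (i.1 + 2 - 4) i.2 m s then (1 : ℝ) else 0)]
  refine le_trans (le_of_eq ?_) ((sum_ind_le' (I ×ˢ univ)
    (fun i : (ℕ × St n) × St n => 4 ≤ i.1.1 + 2 ∧ R3 (i.1.1 + 2 - 4) i.1.2 i.2 s)
    (nbr s ×ˢ (univ : Finset (Fin n))) (fun i => (i.2.1, i.1.2.1))
    (fun i hi => mem_product.2 ⟨mem_filter.2 ⟨mem_univ _, hi.2.facts.1⟩, mem_univ _⟩) ?_).trans ?_)
  · exact sum_congr rfl fun i _ => by congr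
  · rintro ⟨⟨k, t⟩, m⟩ ⟨⟨k', t'⟩, m'⟩ ⟨h1, h2⟩ ⟨h1', h2'⟩ he
    simp only [Prod.mk.injEq] at he h1 h2 h1' h2' ⊢
    have h3 : m = m' := by
      refine Prod.ext he.1 ?_
      have h4 := h2.2.2.2
      have h5 := h2'.2.2.2
      rw [← he.2, ← h4, nx_snd, nx_snd, ← he.1] at h5
      exact (symmDiff_left_injective _ h5).symm
    subst h3
    have h4 := h2.2.2.1.len h2'.2.2.1 rfl
    exact ⟨⟨by have := h4.1; omega,
      (crRel_nx h2.2.1).unique (h4.2 ▸ crRel_nx h2'.2.1)⟩, rfl⟩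
  · rw [card_product, card_univ, Fintype.card_fin]
    have : (nbr s).card ≤ 2 := h ▸ card_nbr s
    exact_mod_cast Nat.mul_le_mul_right n this

lemma part_bound (J : ℕ) (g : ℕ × St n → St n → ℝ) (hg : ∀ i s, 0 ≤ g i s) (b : ℕ × St n → ℝ)
    {m : ℝ} (hm : 0 ≤ m) (ρ : ℕ × St n → ℝ) (hc : ∀ s, ∑ i ∈ range J ×ˢ univ, g i s ≤ m)
    (hr : ∀ i, ∑ s, g i s ≤ ρ i) :
    ∑ s, (∑ i ∈ range J ×ˢ univ, g i s * b i) ^ 2 ≤ m * ∑ i ∈ range J ×ˢ univ, ρ i * b i ^ 2 := by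
  have h1 : ∀ s, (∑ i ∈ range J ×ˢ univ, g i s * b i) ^ 2 ≤
      m * ∑ i ∈ range J ×ˢ univ, g i s * b i ^ 2 := by
    intro s
    refine (sum_sq_le_sum_mul_sum_of_sq_le_mul _ (f := fun i => g i s)
      (g := fun i => g i s * b i ^ 2) (fun i _ => hg i s)
      (fun i _ => mul_nonneg (hg i s) (sq_nonneg _)) (fun i _ => le_of_eq (by ring))).trans ?_
    exact mul_le_mul_of_nonneg_right (hc s) (sum_nonneg fun i _ => mul_nonneg (hg i s) (sq_nonneg _))
  refine (sum_le_sum fun s _ => h1 s).trans ?_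
  rw [← mul_sum, sum_comm]
  refine mul_le_mul_of_nonneg_left (sum_le_sum fun i _ => ?_) hm
  rw [← sum_mul]
  exact mul_le_mul_of_nonneg_right (hr i) (sq_nonneg _)

lemma ell_norm (J : ℕ) (γ : ℕ → ℝ) (z : St n → ℝ) {S S3 : ℝ}
    (hS : ∑ k ∈ range J, γ k ^ 2 * (n : ℝ) ^ (k + 2) ≤ S)
    (hS3 : ∑ k ∈ range J, (if 2 ≤ k then γ k ^ 2 * (n : ℝ) ^ (k + 2) else 0) ≤ S3) :
    ∑ s, (∑ i ∈ range J ×ˢ univ, GG (i.1 + 2) i.2 s * (γ i.1 * z i.2)) ^ 2 ≤
      S * ∑ t, (if deg t.2 t.1 = 0 then 0 else z t ^ 2) +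
        (4 * S + 4 * S3) * ∑ t, (if deg t.2 t.1 = 0 then z t ^ 2 else 0) := by
  set b : ℕ × St n → ℝ := fun i => γ i.1 * z i.2 with hb
  set gN : ℕ × St n → St n → ℝ :=
    fun i s => if deg i.2.2 i.2.1 = 0 then 0 else G1 (i.1 + 2) i.2 s with hgN
  set g1 : ℕ × St n → St n → ℝ :=
    fun i s => if deg i.2.2 i.2.1 = 0 then G1 (i.1 + 2) i.2 s else 0 with hg1
  set g3 : ℕ × St n → St n → ℝ := fun i s => G3 (i.1 + 2) i.2 s with hg3
  have hN := part_bound J gN (fun i s => by simp only [hgN]; split_ifs; exacts [le_rfl, G1_nonneg _ _ _])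
    b zero_le_one (fun i => if deg i.2.2 i.2.1 = 0 then 0 else (n : ℝ) ^ (i.1 + 2))
    (fun s => col_N _ s) (fun i => by
      simp only [hgN]; split_ifs; exacts [by simp, G1_row_le _ _])
  have h1 := part_bound J g1 (fun i s => by simp only [hg1]; split_ifs; exacts [G1_nonneg _ _ _, le_rfl])
    b zero_le_two (fun i => if deg i.2.2 i.2.1 = 0 then (n : ℝ) ^ (i.1 + 2) else 0)
    (fun s => le_trans (sum_le_sum fun i _ => by
      simp only [hg1]; split_ifs; exacts [le_rfl, G1_nonneg _ _ _]) (col_one _ s)) (fun i => by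
      simp only [hg1]; split_ifs; exacts [G1_row_le _ _, by simp])
  have h3 := part_bound J g3 (fun i s => G3_nonneg _ _ _) b (m := 2 * n) (by positivity)
    (fun i => if deg i.2.2 i.2.1 = 0 ∧ 2 ≤ i.1 then (n : ℝ) ^ (i.1 + 1) else 0)
    (fun s => col_three _ s) (fun i => G3_row_le _ _)
  have hs : ∀ s, (∑ i ∈ range J ×ˢ univ, GG (i.1 + 2) i.2 s * b i) ^ 2 ≤
      (∑ i ∈ range J ×ˢ univ, gN i s * b i) ^ 2 + (2 * (∑ i ∈ range J ×ˢ univ, g1 i s * b i) ^ 2 +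
        2 * (∑ i ∈ range J ×ˢ univ, g3 i s * b i) ^ 2) := by
    intro s
    have h4 : ∑ i ∈ range J ×ˢ univ, GG (i.1 + 2) i.2 s * b i =
        ∑ i ∈ range J ×ˢ univ, gN i s * b i + (∑ i ∈ range J ×ˢ univ, g1 i s * b i +
          ∑ i ∈ range J ×ˢ univ, g3 i s * b i) := by
      rw [← sum_add_distrib, ← sum_add_distrib]
      refine sum_congr rfl fun i _ => ?_
      simp only [hgN, hg1, hg3, GG_apply]
      split_ifs <;> ring
    rw [h4]
    by_cases h : TN s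
    · have h5 : ∑ i ∈ range J ×ˢ univ, g1 i s * b i = 0 := by
        refine sum_eq_zero fun i _ => ?_
        simp only [hg1]
        split_ifs with h6
        · have : G1 (i.1 + 2) i.2 s = 0 := by
            refine if_neg fun h7 => ?_
            obtain ⟨y, h8, h9⟩ := h
            by_cases h10 : y = i.2.1
            · have := h7.facts.2.2.1; rw [h10] at h9; omega
            · have := h7.facts.2.2.2.1 y h10 h8; omega
          rw [this, zero_mul]
        · simp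
      have h6 : ∑ i ∈ range J ×ˢ univ, g3 i s * b i = 0 := by
        refine sum_eq_zero fun i _ => ?_
        simp only [hg3]
        rw [G3_eq_zero fun m hm => hm.2.facts.2.2.1 h, zero_mul]
      rw [h5, h6]; simp
    · have h5 : ∑ i ∈ range J ×ˢ univ, gN i s * b i = 0 := by
        refine sum_eq_zero fun i _ => ?_
        simp only [hgN]
        split_ifs with h6
        · simp
        · have : G1 (i.1 + 2) i.2 s = 0 := if_neg fun h7 =>
            h ⟨i.2.1, h7.facts.1, by have := h7.facts.2.2.1; omega⟩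
          rw [this, zero_mul]
      rw [h5]
      nlinarith [sq_nonneg (∑ i ∈ range J ×ˢ univ, g1 i s * b i -
        ∑ i ∈ range J ×ˢ univ, g3 i s * b i)]
  refine (sum_le_sum fun s _ => hs s).trans ?_
  rw [sum_add_distrib, sum_add_distrib, ← mul_sum, ← mul_sum]
  have zN : 0 ≤ ∑ t, (if deg t.2 t.1 = 0 then 0 else z t ^ 2) :=
    sum_nonneg fun t _ => by split_ifs <;> positivity
  have zI : 0 ≤ ∑ t, (if deg t.2 t.1 = 0 then z t ^ 2 else 0) :=
    sum_nonneg fun t _ => by split_ifs <;> positivity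
  have eN : ∑ i ∈ range J ×ˢ univ, (if deg i.2.2 i.2.1 = 0 then 0 else (n : ℝ) ^ (i.1 + 2)) * b i ^ 2
      = (∑ k ∈ range J, γ k ^ 2 * (n : ℝ) ^ (k + 2)) *
        ∑ t, (if deg t.2 t.1 = 0 then 0 else z t ^ 2) := by
    rw [sum_mul_sum, sum_product]
    refine sum_congr rfl fun k _ => sum_congr rfl fun t _ => ?_
    simp only [hb]; split_ifs <;> ring
  have e1 : ∑ i ∈ range J ×ˢ univ, (if deg i.2.2 i.2.1 = 0 then (n : ℝ) ^ (i.1 + 2) else 0) * b i ^ 2
      = (∑ k ∈ range J, γ k ^ 2 * (n : ℝ) ^ (k + 2)) *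
        ∑ t, (if deg t.2 t.1 = 0 then z t ^ 2 else 0) := by
    rw [sum_mul_sum, sum_product]
    refine sum_congr rfl fun k _ => sum_congr rfl fun t _ => ?_
    simp only [hb]; split_ifs <;> ring
  have e3 : 2 * (n : ℝ) * ∑ i ∈ range J ×ˢ univ,
      (if deg i.2.2 i.2.1 = 0 ∧ 2 ≤ i.1 then (n : ℝ) ^ (i.1 + 1) else 0) * b i ^ 2
      = 2 * ((∑ k ∈ range J, (if 2 ≤ k then γ k ^ 2 * (n : ℝ) ^ (k + 2) else 0)) *
        ∑ t, (if deg t.2 t.1 = 0 then z t ^ 2 else 0)) := by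
    rw [mul_assoc, sum_mul_sum, sum_product, mul_sum]
    congr 1
    refine sum_congr rfl fun k _ => ?_
    rw [mul_sum]
    refine sum_congr rfl fun t _ => ?_
    simp only [hb]
    by_cases h4 : deg t.2 t.1 = 0 <;> by_cases h5 : 2 ≤ k <;> simp [h4, h5]
    ring
  rw [eN] at hN
  rw [e1] at h1
  rw [e3] at h3
  have a1 := mul_le_mul_of_nonneg_right hS zN
  have a2 := mul_le_mul_of_nonneg_right hS zI
  have a3 := mul_le_mul_of_nonneg_right hS3 zI
  linarith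

end Pool.Agent.Lib.MP_dfd018_pr
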