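import Pool.Agent.Lib.MP_dfd018_pr.Cyc

/-!
The quadratic form of the cycle part.
-/

namespace Pool.Agent.Lib.MP_dfd018_pr

open Finset Matrix
open scoped symmDiff

variable {n : ℕ}

/-- The half of a kernel that increases the number of edges. -/
noncomputable def Up (K : Matrix (St n) (St n) ℝ) : Matrix (St n) (St n) ℝ :=
  fun t s => if t.2.card < s.2.card then K t s else if t.2.card = s.2.card then K t s / 2 else 0

lemma Up_add {K : Matrix (St n) (St n) ℝ} (hK : K.IsSymm) : K = Up K + (Up K)ᵀ := by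
  ext t s
  simp only [Up, Matrix.add_apply, transpose_apply, hK.apply t s]
  rcases lt_trichotomy t.2.card s.2.card with h | h | h
  · simp [h, h.not_gt, h.ne']
  · simp [h]
  · simp [h, h.not_gt, h.ne']

lemma dot_Up {K : Matrix (St n) (St n) ℝ} (hK : K.IsSymm) (z : St n → ℝ) :
    z ⬝ᵥ K *ᵥ z = 2 * (z ⬝ᵥ Up K *ᵥ z) := by
  conv_lhs => rw [Up_add hK]
  rw [add_mulVec, dotProduct_add, mulVec_transpose, dotProduct_comm z (z ᵥ* _),
    ← dotProduct_mulVec]
  ring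

lemma e2_nonneg (P : Par n) {e2 : ℝ} (he : 4 * (2 * (P.R : ℝ) + 1) ^ 2 ≤ e2 * P.N) : 0 ≤ e2 := by
  by_contra h
  have hN := P.one_le_N
  have : e2 * P.N < 0 := mul_neg_of_neg_of_pos (by linarith) (by linarith)
  have : 0 ≤ 4 * (2 * (P.R : ℝ) + 1) ^ 2 := by positivity
  linarith

lemma GG_row_ge (P : Par n) (hn : P.N ^ 2 ≤ n) (k : ℕ) (t : St n) (ht : t.2.card + (k + 3) ≤ P.R) :
    P.N ^ (k + 2) * ((1 - P.ε) ^ (k + 2) * (1 + if deg t.2 t.1 = 0 ∧ 2 ≤ k then 1 else 0)) *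
      wV P.N t ≤ (GG (k + 2) *ᵥ wV P.N) t := by
  have hN := P.one_le_N
  have hw := wV_pos hN t
  have hμ : 0 ≤ 1 - P.ε := by linarith [P.hε1]
  have hm : (1 - P.ε) * P.N ^ 2 + (V t).card + (k + 2 : ℕ) ≤ n := by
    have h1 : (((V t).card + (k + 2) : ℕ) : ℝ) ≤ (2 * P.R : ℕ) := by
      have := card_V_le t
      exact_mod_cast (by omega : (V t).card + (k + 2) ≤ 2 * P.R)
    have h2 := P.hR
    have h3 : P.ε * P.N ≤ P.ε * P.N ^ 2 := mul_le_mul_of_nonneg_left (by nlinarith) P.hε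
    have h4 : (0 : ℝ) ≤ P.R := by positivity
    push_cast at h1 ⊢
    linarith
  have h1 := G1_row_ge hN (by positivity) k t hm
  have e1 : wV P.N t / P.N ^ (k + 2) * ((1 - P.ε) * P.N ^ 2) ^ (k + 2) =
      P.N ^ (k + 2) * (1 - P.ε) ^ (k + 2) * wV P.N t := by
    rw [mul_pow, ← pow_mul, two_mul, pow_add P.N (k + 2)]; field_simp
  rw [e1] at h1
  unfold GG
  rw [add_mulVec, Pi.add_apply]
  split_ifs with h
  · obtain ⟨k, rfl⟩ := Nat.exists_eq_add_of_le' h.2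
    have h3 := G3_row_ge hN (by positivity) k t hm h.1
    have e3 : wV P.N t / P.N ^ (k + 2) * ((1 - P.ε) * P.N ^ 2) ^ (k + 3) =
        P.N ^ (k + 2 + 2) * (1 - P.ε) ^ (k + 3) * wV P.N t := by
      rw [mul_pow, ← pow_mul, show 2 * (k + 3) = k + 2 + (k + 2 + 2) by ring, pow_add P.N (k + 2)]
      field_simp
    rw [e3] at h3
    have h4 : (1 - P.ε) ^ (k + 2 + 2) ≤ (1 - P.ε) ^ (k + 3) :=
      pow_le_pow_of_le_one hμ (by linarith [P.hε]) (by omega)
    have h5 := mul_le_mul_of_nonneg_left h4 (show 0 ≤ P.N ^ (k + 2 + 2) * wV P.N t by positivity)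
    change _ ≤ _ + (G3 (k + 4) *ᵥ wV P.N) t
    nlinarith
  · have h3 : 0 ≤ (G3 (k + 2) *ᵥ wV P.N) t :=
      sum_nonneg fun s _ => mul_nonneg (G3_nonneg _ _ _) (wV_pos hN s).le
    linarith

lemma had_quad (P : Par n) (hg : P.g = 1) (k : ℕ) {r : ℕ} {z : St n → ℝ} (hz : LowE r z)
    (hr : r + (k + 3) ≤ P.R) {e2 : ℝ} (he : 4 * (2 * (P.R : ℝ) + 1) ^ 2 ≤ e2 * P.N) :
    |z ⬝ᵥ Had (KB n (k + 2)) *ᵥ z| ≤
      P.N ^ (k + 2) * ((1 + 5 * P.ε) ^ (k + 2) * (4 + 3 * e2) + 8) * (z ⬝ᵥ z) :=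
  schurW_symm _ (Had_KB_nonneg _) (Had_KB_symm _) _ (wV_pos P.one_le_N) z fun t ht =>
    had_row_all P hg k t (by have := (hz t ht).2; omega) he

lemma E_bound (P : Par n) (hg : P.g = 1) (hn : P.N ^ 2 ≤ n) (k : ℕ) {r : ℕ} {z : St n → ℝ}
    (hz : LowE r z) (hr : r + (k + 3) ≤ P.R) {e2 δ : ℝ}
    (he : 4 * (2 * (P.R : ℝ) + 1) ^ 2 ≤ e2 * P.N) (hδ0 : 0 < δ)
    (hδ : 2 * ((1 + P.ε) * (1 + 5 * P.ε) ^ (k + 2) - (1 - P.ε) ^ (k + 2)) +
      3 * e2 * (1 + 5 * P.ε) ^ (k + 2) ≤ δ ^ 2)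
    (hβ : (1 + 5 * P.ε) ^ (k + 2) * (4 + 3 * e2) + 8 ≤ 16) :
    |z ⬝ᵥ Had (KB n (k + 2)) *ᵥ z - 2 * (z ⬝ᵥ GG (k + 2) *ᵥ z)| ≤
      8 * δ * P.N ^ (k + 2) * (z ⬝ᵥ z) := by
  have hN := P.one_le_N
  have hK := Had_KB_nonneg (n := n) (k + 2)
  have he0 := e2_nonneg P he
  have hε := P.hε
  have hε1 := P.hε1
  set K := Had (KB n (k + 2)) with hKdef
  have hE : ∀ t s, 0 ≤ (Up K - GG (k + 2) : Matrix (St n) (St n) ℝ) t s := by
    intro t s
    rw [Matrix.sub_apply, sub_nonneg]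
    by_cases h : GG (k + 2) t s = 0
    · rw [h]; unfold Up; have := hK t s; split_ifs <;> positivity
    · unfold Up; rw [if_pos (GG_supp h).1]; exact GG_le k t s
  have hG : ∀ t s : St n, 0 ≤ GG (k + 2) t s := fun t s =>
    add_nonneg (G1_nonneg _ _ _) (G3_nonneg _ _ _)
  have h := schurW _ hE _ (wV_pos hN) z (α := P.N ^ (k + 2) * δ ^ 2) (β := P.N ^ (k + 2) * 16)
    (θ := 4 / δ) (by positivity) (fun t ht => by
      have h1 := had_row_up P hg k t (by have := (hz t ht).2; omega) he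
      have h2 := GG_row_ge P hn k t (by have := (hz t ht).2; omega)
      have h3 : (Up K *ᵥ wV P.N) t ≤
          (K *ᵥ fun s => if t.2.card ≤ s.2.card then wV P.N s else 0) t := by
        refine sum_le_sum fun s _ => ?_
        have h4 := hK t s
        have h5 := wV_pos hN s
        have h6 := mul_nonneg h4 h5.le
        unfold Up
        dsimp only
        rcases lt_trichotomy t.2.card s.2.card with h | h | h
        · simp [h, h.le]
        · simp only [h, lt_irrefl, if_false, if_true, le_refl]; linarith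
        · simp [h.not_gt, h.ne', h.not_ge]
      rw [sub_mulVec, Pi.sub_apply]
      have h4 := h3.trans h1
      refine (sub_le_sub h4 h2).trans ?_
      rw [← sub_mul, ← mul_sub]
      refine mul_le_mul_of_nonneg_right (mul_le_mul_of_nonneg_left (le_trans ?_ hδ)
        (by positivity)) (wV_pos hN t).le
      have h5 : (1 - P.ε) ^ (k + 2) ≤ (1 + 5 * P.ε) ^ (k + 2) :=
        pow_le_pow_left₀ (by linarith) (by linarith) _
      have h6 : 0 ≤ (1 + 5 * P.ε) ^ (k + 2) := by positivity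
      set Λ := (1 + 5 * P.ε) ^ (k + 2)
      have h7 : 0 ≤ P.ε * Λ := by positivity
      have h8 : P.ε * (e2 * Λ) ≤ e2 * Λ := mul_le_of_le_one_left (by positivity) hε1
      split_ifs <;> nlinarith)
    (fun s hs => by
      have h1 := had_row_all P hg k s (by have := (hz s hs).2; omega) he
      refine le_trans (sum_le_sum fun t _ => ?_) (h1.trans (mul_le_mul_of_nonneg_right
        (mul_le_mul_of_nonneg_left hβ (by positivity)) (wV_pos hN s).le))
      refine mul_le_mul_of_nonneg_right ?_ (wV_pos hN t).le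
      change Up K t s - GG (k + 2) t s ≤ K s t
      have h0 : K s t = K t s := (Had_KB_symm (k + 2)).apply t s
      rw [h0]
      have h2 := hG t s
      have h3 := hK t s
      unfold Up
      split_ifs <;> linarith)
  rw [dot_Up (Had_KB_symm _), ← mul_sub, ← dotProduct_sub, ← sub_mulVec, abs_mul, abs_two]
  have e : (4 / δ * (P.N ^ (k + 2) * δ ^ 2) + P.N ^ (k + 2) * 16 / (4 / δ)) / 2 =
      4 * δ * P.N ^ (k + 2) := by field_simp; ring
  rw [e] at h
  linarith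

lemma GG_quad (J : ℕ) (γ : ℕ → ℝ) (z : St n → ℝ) {S S3 κ : ℝ} (hκ : 0 < κ)
    (hS : ∑ k ∈ range J, γ k ^ 2 * (n : ℝ) ^ (k + 2) ≤ S)
    (hS3 : ∑ k ∈ range J, (if 2 ≤ k then γ k ^ 2 * (n : ℝ) ^ (k + 2) else 0) ≤ S3)
    (h3 : 3 * S + 4 * S3 ≤ κ ^ 2) :
    ∑ k ∈ range J, γ k * (2 * (z ⬝ᵥ GG (k + 2) *ᵥ z)) ≤
      κ * ∑ t, (if deg t.2 t.1 = 1 then 0 else z t ^ 2) + S / κ * (z ⬝ᵥ z) := by
  have h := ell_norm J γ z hS hS3
  set l : St n → ℝ := fun s => ∑ i ∈ range J ×ˢ univ, GG (i.1 + 2) i.2 s * (γ i.1 * z i.2) with hl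
  have h1 : ∑ k ∈ range J, γ k * (2 * (z ⬝ᵥ GG (k + 2) *ᵥ z)) = ∑ s, 2 * (z s * l s) := by
    simp only [hl, sum_product, dotProduct, mulVec, mul_sum]
    rw [sum_comm (s := univ)]
    refine sum_congr rfl fun k _ => ?_
    rw [sum_comm]
    exact sum_congr rfl fun _ _ => sum_congr rfl fun _ _ => by ring
  have h2 : ∀ s, 2 * (z s * l s) ≤ κ * (if deg s.2 s.1 = 2 then z s ^ 2 else 0) + l s ^ 2 / κ := by
    intro s
    split_ifs with h4
    · have : 0 ≤ (κ * z s - l s) ^ 2 / κ := by positivity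
      have e : (κ * z s - l s) ^ 2 / κ = κ * z s ^ 2 + l s ^ 2 / κ - 2 * (z s * l s) := by
        field_simp; ring
      linarith
    · have : l s = 0 := sum_eq_zero fun i _ => by
        have : GG (i.1 + 2) i.2 s = 0 := by by_contra h5; exact h4 (GG_supp h5).2
        rw [this, zero_mul]
      simp [this]
  rw [h1]
  refine (sum_le_sum fun s _ => h2 s).trans ?_
  rw [sum_add_distrib, ← mul_sum, ← sum_div]
  have h4 : z ⬝ᵥ z = ∑ t, (if deg t.2 t.1 = 0 then 0 else z t ^ 2) +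
      ∑ t, (if deg t.2 t.1 = 0 then z t ^ 2 else 0) := by
    rw [dot_self_eq, ← sum_add_distrib]
    exact sum_congr rfl fun t _ => by split_ifs <;> simp
  have h5 : ∑ t, (if deg t.2 t.1 = 2 then z t ^ 2 else 0) +
      ∑ t, (if deg t.2 t.1 = 0 then z t ^ 2 else 0) ≤
      ∑ t, (if deg t.2 t.1 = 1 then 0 else z t ^ 2) := by
    rw [← sum_add_distrib]
    refine sum_le_sum fun t _ => ?_
    have := sq_nonneg (z t)
    split_ifs <;> first | omega | linarith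
  have zI : 0 ≤ ∑ t, (if deg t.2 t.1 = 0 then z t ^ 2 else 0) :=
    sum_nonneg fun t _ => by split_ifs <;> positivity
  rw [h4]
  set a := ∑ t, (if deg t.2 t.1 = 0 then 0 else z t ^ 2)
  set b := ∑ t, (if deg t.2 t.1 = 0 then z t ^ 2 else 0)
  have h6 : (∑ s, l s ^ 2) / κ ≤ S / κ * (a + b) + κ * b := by
    rw [div_le_iff₀ hκ]
    have e : (S / κ * (a + b) + κ * b) * κ = S * (a + b) + κ ^ 2 * b := by field_simp
    rw [e]
    have := mul_le_mul_of_nonneg_right h3 zI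
    linarith
  have h7 := mul_le_mul_of_nonneg_left h5 hκ.le
  linarith

end Pool.Agent.Lib.MP_dfd018_pr
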