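import Mathlib

/-!
The plus-minus adjacency matrix of a graph and the witness matrix built from a matrix `Z`.
-/

namespace Pool.Agent.Lib.MP_dfd018_pr

open Classical in
/-- The plus-minus one adjacency matrix: zero diagonal, `1` on edges, `-1` on non-edges. -/
noncomputable def pmAdj {n : ℕ} (G : SimpleGraph (Fin n)) : Matrix (Fin n) (Fin n) ℝ :=
  fun i j => if i = j then 0 else if G.Adj i j then 1 else -1

/-- The matrix `M = A + Z/2 - D_Z/2 - (Z ∘ A)/2`, where `D_Z` is the diagonal part of `Z` and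
`∘` is the entrywise product. -/
noncomputable def witness {n : ℕ} (A Z : Matrix (Fin n) (Fin n) ℝ) : Matrix (Fin n) (Fin n) ℝ :=
  A + ((1 / 2 : ℝ) • Z - (1 / 2 : ℝ) • Matrix.diagonal (fun i => Z i i)
    - (1 / 2 : ℝ) • Matrix.hadamard Z A)

end Pool.Agent.Lib.MP_dfd018_pr
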