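import Pool.Agent.Lib.MP_dfd018_pr.Spec

/-!
The deterministic reduction.
-/

namespace Pool.Agent.Lib.MP_dfd018_pr

open Finset Matrix Polynomial

variable {n : ℕ}

lemma median {d : ℕ} {η N β : ℝ} (X : Apx d η) {A : Matrix (Fin n) (Fin n) ℝ}
    {lam : Fin n → ℝ} {v : Fin n → Fin n → ℝ} (hN : 0 < N) (hη : 0 < η)
    (hv : ∀ i j, v i ⬝ᵥ v j = if i = j then 1 else 0) (hA : ∀ i, A *ᵥ v i = lam i • v i)
    (hl : Antitone lam) (hy : ∀ i, |N⁻¹ * lam i| ≤ 5 / 2)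
    (hS : ∀ j, j + 1 ≤ d → ∀ i, |SM N A (j + 1) i i| ≤ β)
    (hr : ∀ k, aeval (N⁻¹ • A) X.r k k ≤ 5 / 2 / η)
    (hH : β * ∑ j ∈ range d, 4 / (((j + 1 : ℕ) : ℝ) + 1) ≤ η) (i : Fin n) :
    (i.val < n / 2 → -(200 * η) ≤ N⁻¹ * lam i) ∧ (¬ i.val < n / 2 → N⁻¹ * lam i ≤ 200 * η) := by
  have hn : 0 < n := i.pos
  have hA' : ∀ i, (N⁻¹ • A) *ᵥ v i = (N⁻¹ * lam i) • v i := fun i => by
    rw [smul_mulVec, hA, smul_smul]
  have tr : ∀ (P : ℝ[X]) (b : ℝ), (∀ k, aeval (N⁻¹ • A) P k k ≤ b) →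
      ∑ i, P.eval (N⁻¹ * lam i) ≤ n * b := by
    intro P b h
    rw [← GM_trace hv, ← eq_GM hv fun i => aeval_mulVec_eig (hA' i) P]
    simpa using sum_le_card_nsmul univ _ b fun k _ => h k
  have hr' := tr _ _ hr
  have hm : ∀ {i j}, i ≤ j → N⁻¹ * lam j ≤ N⁻¹ * lam i := fun h =>
    mul_le_mul_of_nonneg_left (hl h) (by positivity)
  constructor
  · intro hi
    by_contra h
    push Not at h
    have hF := tr (X.F.comp (-Polynomial.X)) (-(6 * η)) fun k => by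
      have e : ∀ j, cf (fun y => (X.F.comp (-Polynomial.X)).eval y) j =
          (-1) ^ j * cf (fun y => X.F.eval y) j := fun j => by
        rw [← cf_neg]; simp [eval_comp]
      refine (diag_le hS (natDegree_comp_le.trans (by simpa using X.dF))
        (g := fun j => 4 / (((j + 1 : ℕ) : ℝ) + 1)) (fun j => ?_) k).trans ?_
      · rw [e, abs_mul, abs_pow, abs_neg, abs_one, one_pow, one_mul]; exact X.F_cf _
      · rw [e]; linarith [X.F_zero]
    refine no_half hη X (fun i => -(N⁻¹ * lam i)) (fun i => by rw [abs_neg]; exact hy i)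
      (by simpa only [X.r_even] using hr') (by simpa [eval_comp] using hF) (Ici i) ?_ hn
      fun j hj => ?_
    · rw [Fin.card_Ici]; omega
    · linarith [hm (mem_Ici.1 hj)]
  · intro hi
    by_contra h
    push Not at h
    have hF := tr X.F (-(6 * η)) fun k =>
      (diag_le hS X.dF (fun j => X.F_cf _) k).trans (by linarith [X.F_zero])
    refine no_half hη X (fun i => N⁻¹ * lam i) hy hr' hF (Iic i) ?_ hn fun j hj => ?_
    · rw [Fin.card_Iic]; omega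
    · linarith [hm (mem_Iic.1 hj)]

lemma had_poly {e J : ℕ} {η N Θ τ : ℝ} (X : Apx (e + 2) η) {A : Matrix (Fin n) (Fin n) ℝ}
    (hN : 2 ≤ N) (hA0 : ∀ i, A i i = 0) (θ : ℕ → ℝ) (x : Fin n → ℝ) (hΘ0 : 0 ≤ Θ)
    (hW : ∀ j ≤ e, |x ⬝ᵥ hadamard (QM N A (j + 2)) A *ᵥ x| ≤ θ j * (x ⬝ᵥ x))
    (hΘ : ∀ j ≤ e, θ j ≤ Θ) (h1 : |x ⬝ᵥ hadamard A A *ᵥ x| ≤ Θ * N * (x ⬝ᵥ x)) (hJ : J ≤ e + 1)
    (hτ : ∑ j ∈ Ico J (e + 1), 22 / (((j + 2 : ℕ) : ℝ) + 1) ^ 2 * θ j ≤ τ) :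
    x ⬝ᵥ hadamard (aeval (N⁻¹ • A) X.p) A *ᵥ x ≤
      ∑ k ∈ range J, cf (fun y => X.p.eval y) (k + 2) * (x ⬝ᵥ hadamard (QM N A (k + 2)) A *ᵥ x) +
        (τ + 44 * Θ / N ^ 2) * (x ⬝ᵥ x) := by
  have hxx := dot_self_nonneg x
  have hN0 : 0 < N := by linarith
  set c := cf (fun y => X.p.eval y) with hc
  set q : ℕ → ℝ := fun j => x ⬝ᵥ hadamard (SM N A j) A *ᵥ x with hq
  set w : ℕ → ℝ := fun j => x ⬝ᵥ hadamard (QM N A j) A *ᵥ x with hw
  have hrec : ∀ j, q (j + 2) = w (j + 2) + (N ^ 2)⁻¹ * q j := fun j => by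
    simp only [hq, hw, SM_rec hN0.ne', add_hadamard, smul_hadamard, add_mulVec, smul_mulVec,
      dotProduct_add, dotProduct_smul, smul_eq_mul]
  have q0 : q 0 = 0 := by
    have : hadamard (1 : Matrix (Fin n) (Fin n) ℝ) A = 0 := by
      ext i j
      by_cases h : i = j
      · simp [h, hA0]
      · simp [h]
    simp [hq, SM_zero, this]
  have hε : (N ^ 2)⁻¹ ≤ 1 / 2 := by
    rw [inv_eq_one_div]; exact one_div_le_one_div_of_le (by norm_num) (by nlinarith)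
  have hΘx : 0 ≤ Θ * (x ⬝ᵥ x) := by positivity
  have hqb := rec_bound (a := q) (b := w) (d := e + 2) (θ := Θ * (x ⬝ᵥ x))
    (β := 2 * (Θ * (x ⬝ᵥ x))) (by positivity) hrec
    (fun j hj => (hW j (by omega)).trans (mul_le_mul_of_nonneg_right (hΘ j (by omega)) hxx))
    (by
      simp only [hq, SM_one, smul_hadamard, smul_mulVec, dotProduct_smul, smul_eq_mul]
      rw [abs_mul, abs_of_pos (by positivity), inv_mul_le_iff₀ hN0]
      nlinarith) (by rw [q0]; simp; linarith) (by nlinarith)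
  have hqb' : ∀ j ≤ e + 2, |q j| ≤ 2 * (Θ * (x ⬝ᵥ x)) := fun j hj => by
    cases j with
    | zero => rw [q0]; simpa using hΘx
    | succ j => exact hqb j hj
  have e1 : x ⬝ᵥ hadamard (aeval (N⁻¹ • A) X.p) A *ᵥ x = ∑ j ∈ range (e + 2 + 1), c j * q j := by
    rw [aeval_expand N A X.dp]
    have : ∀ (S : Finset ℕ), hadamard (∑ j ∈ S, c j • SM N A j) A =
        ∑ j ∈ S, c j • hadamard (SM N A j) A := fun S => by
      ext i k; simp [Matrix.sum_apply, sum_mul, mul_assoc]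
    rw [this]
    simp only [sum_mulVec, dotProduct_sum, smul_mulVec, dotProduct_smul, smul_eq_mul, hq]
  have c1 : c 1 = 0 := X.p_one
  rw [e1, sum_range_succ', sum_range_succ', q0, zero_add, c1, mul_zero, zero_mul, add_zero,
    add_zero]
  simp only [add_assoc, one_add_one_eq_two, hrec, mul_add, sum_add_distrib]
  rw [← sum_range_add_sum_Ico _ hJ, add_assoc, add_mul]
  refine add_le_add le_rfl (add_le_add ?_ ?_)
  · refine le_trans ?_ (mul_le_mul_of_nonneg_right hτ hxx)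
    rw [sum_mul]
    refine sum_le_sum fun j hj => (le_abs_self _).trans ?_
    rw [abs_mul, mul_assoc]
    exact mul_le_mul (X.p_cf _) (hW j (by have := (mem_Ico.1 hj).2; omega)) (abs_nonneg _)
      (by positivity)
  · have h2 : ∀ j ∈ range (e + 1), c (j + 2) * ((N ^ 2)⁻¹ * q j) ≤
        22 / (((j + 1 : ℕ) : ℝ) + 1) ^ 2 * ((N ^ 2)⁻¹ * (2 * (Θ * (x ⬝ᵥ x)))) := by
      intro j hj
      refine (le_abs_self _).trans ?_
      rw [abs_mul, abs_mul, abs_of_pos (show 0 < (N ^ 2)⁻¹ by positivity)]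
      refine mul_le_mul ((X.p_cf _).trans ?_) (mul_le_mul_of_nonneg_left
        (hqb' j (by have := mem_range.1 hj; omega)) (by positivity)) (by positivity) (by positivity)
      gcongr
      omega
    refine (sum_le_sum h2).trans ?_
    rw [← sum_mul]
    refine (mul_le_mul_of_nonneg_right (sum_inv_sq_le _) (by positivity)).trans (le_of_eq ?_)
    field_simp; ring

theorem det {e J : ℕ} {η N Θ τ μ θD : ℝ} (X : Apx (e + 2) η) {A : Matrix (Fin n) (Fin n) ℝ}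
    {lam : Fin n → ℝ} {v : Fin n → Fin n → ℝ} (hN : 2 ≤ N) (hη : 0 < η)
    (hv : ∀ i j, v i ⬝ᵥ v j = if i = j then 1 else 0) (hA : ∀ i, A *ᵥ v i = lam i • v i)
    (hl : Antitone lam) (hA0 : ∀ i, A i i = 0)
    (hB : ∀ x, |x ⬝ᵥ A *ᵥ x| ≤ 1001 / 500 * N * (x ⬝ᵥ x)) (hθD : 0 ≤ θD)
    (hD : ∀ j ≤ e, ∀ i, |QM N A (j + 2) i i| ≤ θD) (θ : ℕ → ℝ) (hΘ0 : 0 ≤ Θ)
    (hW : ∀ j ≤ e, ∀ x, |x ⬝ᵥ hadamard (QM N A (j + 2)) A *ᵥ x| ≤ θ j * (x ⬝ᵥ x))
    (hΘ : ∀ j ≤ e, θ j ≤ Θ) (h1 : ∀ x, |x ⬝ᵥ hadamard A A *ᵥ x| ≤ Θ * N * (x ⬝ᵥ x))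
    (hJ : J ≤ e + 1) (hτ : ∑ j ∈ Ico J (e + 1), 22 / (((j + 2 : ℕ) : ℝ) + 1) ^ 2 * θ j ≤ τ)
    (hM : ∀ x, -(x ⬝ᵥ aeval (N⁻¹ • A) Rp *ᵥ x) + ∑ k ∈ range J,
      cf (fun y => X.p.eval y) (k + 2) / 2 * (x ⬝ᵥ hadamard (QM N A (k + 2)) A *ᵥ x) ≤ μ * (x ⬝ᵥ x))
    (hd : ((e + 2 : ℕ) : ℝ) * (2 * θD + 2 / N ^ 2) ≤ 1 / 4)
    (hH : (2 * θD + 2 / N ^ 2) * ∑ j ∈ range (e + 2), 4 / (((j + 1 : ℕ) : ℝ) + 1) ≤ η)
    (x : Fin n → ℝ) :
    x ⬝ᵥ witness A (GM v fun i => if i.val < n / 2 then -lam i else lam i) *ᵥ x ≤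
      N * (145 / 144 + μ + 200 * η + (cf (fun y => X.p.eval y) 0 + 22 * (2 * θD + 2 / N ^ 2)) / 2
        + τ / 2 + 22 * Θ / N ^ 2 + 7 * 10 ^ 7 * (N * η ^ 2)) * (x ⬝ᵥ x) := by
  have hN0 : 0 < N := by linarith
  have hxx := dot_self_nonneg x
  set β := 2 * θD + 2 / N ^ 2 with hβ
  have hβ0 : 0 ≤ β := by positivity
  have hε : (N ^ 2)⁻¹ ≤ 1 / 2 := by
    rw [inv_eq_one_div]; exact one_div_le_one_div_of_le (by norm_num) (by nlinarith)
  have hS : ∀ j, j + 1 ≤ e + 2 → ∀ i, |SM N A (j + 1) i i| ≤ β := fun j hj i =>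
    rec_bound (a := fun j => SM N A j i i) (b := fun j => QM N A j i i) (ε := (N ^ 2)⁻¹) (θ := θD)
      (by positivity) (fun j => by simp [SM_rec hN0.ne']) (fun j hj => hD j (by omega) i)
      (by simp [SM_one, hA0, hβ0]) (by
        have : (0 : ℝ) < (N ^ 2)⁻¹ := by positivity
        simp only [SM_zero, one_apply_eq, abs_one, hβ, div_eq_mul_inv]; linarith)
      (by
        have h2 := mul_le_mul_of_nonneg_right hε hβ0
        have h3 : 0 ≤ 2 / N ^ 2 := by positivity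
        linarith) j hj
  have hA' : ∀ i, (N⁻¹ • A) *ᵥ v i = (N⁻¹ * lam i) • v i := fun i => by
    rw [smul_mulVec, hA, smul_smul]
  have hP : ∀ P : ℝ[X], aeval (N⁻¹ • A) P = GM v fun i => P.eval (N⁻¹ * lam i) := fun P =>
    eq_GM hv fun i => aeval_mulVec_eig (hA' i) P
  have hy : ∀ i, |N⁻¹ * lam i| ≤ 1001 / 500 := fun i => by
    have h2 := hB (v i)
    have h3 := hv i i
    rw [if_pos rfl] at h3
    rw [hA, dotProduct_smul, h3, smul_eq_mul, mul_one, mul_one] at h2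
    rw [abs_mul, abs_of_pos (by positivity), inv_mul_le_iff₀ hN0]
    linarith
  have hr : ∀ k, aeval (N⁻¹ • A) X.r k k ≤ 5 / 2 / η := fun k => by
    refine (diag_le hS X.dr (fun j => X.r_cf _) k).trans ?_
    have h2 := (abs_le.1 (X.r_cf 0)).2
    rw [sum_const, card_range, nsmul_eq_mul]
    have h3 := mul_le_mul_of_nonneg_right hd (show 0 ≤ 2 / η by positivity)
    have e1 : 5 / 2 / η = 2 / η + 1 / 4 * (2 / η) := by ring
    linarith
  have hmed := median X hN0 hη hv hA hl (fun i => by linarith [hy i]) hS hr hH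
  set α : Fin n → ℝ := fun i => if i.val < n / 2 then -lam i else lam i with hα
  have hlam : ∀ i, lam i = N * (N⁻¹ * lam i) := fun i => by field_simp
  have hα1 : ∀ i, α i = -(N * |N⁻¹ * lam i|) ∨
      (α i = N * |N⁻¹ * lam i| ∧ |N⁻¹ * lam i| ≤ 200 * η) := by
    intro i
    simp only [hα]
    rcases le_total 0 (N⁻¹ * lam i) with h | h
    · rw [abs_of_nonneg h, ← hlam]
      split_ifs with h2
      exacts [Or.inl rfl, Or.inr ⟨rfl, (hmed i).2 h2⟩]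
    · rw [abs_of_nonpos h, mul_neg, ← hlam, neg_neg]
      split_ifs with h2
      exacts [Or.inr ⟨rfl, by linarith [(hmed i).1 h2]⟩, Or.inl rfl]
  set f : Fin n → ℝ := fun i => α i + N * X.p.eval (N⁻¹ * lam i) with hf
  have hf0 : ∀ i, 0 ≤ f i := fun i => by
    have h2 := mul_le_mul_of_nonneg_left (X.p_ge _ (by linarith [hy i])) hN0.le
      (a := N) (b := |N⁻¹ * lam i|)
    have h3 : 0 ≤ N * |N⁻¹ * lam i| := by positivity
    simp only [hf]
    rcases hα1 i with h | h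
    · linarith
    · linarith [h.1]
  have hf1 : ∀ i, f i ≤ 25 * 10 ^ 6 * N * η ^ 3 * X.r.eval (N⁻¹ * lam i) := fun i => by
    set y := N⁻¹ * lam i with hyd
    have h2 := X.p_le y (by linarith [hy i])
    have h3 := X.r_ge y (by linarith [hy i])
    have h4 : 0 < y ^ 2 + η ^ 2 := by positivity
    have h5 : η ^ 3 / (y ^ 2 + η ^ 2) ≤ 3 / 2 * (η ^ 3 * X.r.eval y) := by
      rw [div_le_iff₀ h4]; nlinarith [pow_pos hη 3]
    have h6 : 0 ≤ η ^ 3 / (y ^ 2 + η ^ 2) := by positivity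
    have h7 : α i ≤ N * (-|y| + 16000400 * (η ^ 3 / (y ^ 2 + η ^ 2))) := by
      rcases hα1 i with h | h
      · rw [h]; nlinarith
      · rw [h.1]
        refine mul_le_mul_of_nonneg_left ?_ hN0.le
        have h8 : y ^ 2 ≤ (200 * η) ^ 2 := by rw [← sq_abs]; gcongr; exact h.2
        have h9 : 400 * η ≤ 16000400 * (η ^ 3 / (y ^ 2 + η ^ 2)) := by
          rw [← mul_div_assoc, le_div_iff₀ h4]; nlinarith
        linarith [h.2]
    rw [mul_div_assoc] at h2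
    have h8 := mul_le_mul_of_nonneg_left h2 hN0.le
    have h9 := mul_le_mul_of_nonneg_left h5 hN0.le
    have h10 := mul_nonneg hN0.le h6
    simp only [hf]
    nlinarith
  have hfd : ∀ k, GM v f k k ≤ 25 * 10 ^ 6 * N * η ^ 3 * (5 / 2 / η) := fun k => by
    refine (GM_diag_mono v hf1 k).trans ?_
    rw [GM_smul, ← hP, Matrix.smul_apply, smul_eq_mul]
    exact mul_le_mul_of_nonneg_left (hr k) (by positivity)
  have hZ : GM v α = GM v f - N • aeval (N⁻¹ • A) X.p := by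
    rw [hP, ← GM_smul, hf, GM_add]; simp
  have a1 : x ⬝ᵥ A *ᵥ x + 1 / 2 * (x ⬝ᵥ GM v α *ᵥ x) ≤
      N * ((145 / 144 + 200 * η) * (x ⬝ᵥ x) - x ⬝ᵥ aeval (N⁻¹ • A) Rp *ᵥ x) := by
    have h2 : x ⬝ᵥ x = ∑ i, (v i ⬝ᵥ x) ^ 2 := by
      have := GM_quad v (fun _ => 1) x
      simpa [GM_one hv] using this
    rw [hP, h2]
    conv_lhs => rw [eq_GM hv hA]
    simp only [GM_quad, mul_sum, ← sum_add_distrib, ← sum_sub_distrib]
    refine sum_le_sum fun i _ => ?_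
    have h3 := cert_poly (hy i)
    have h4 : Rp.eval (N⁻¹ * lam i) = (145 / 144 - N⁻¹ * lam i / 2) * (LP cu).eval (N⁻¹ * lam i) ^ 2 := by
      simp [Rp]; ring
    have h5 : lam i + 1 / 2 * α i ≤ N * (145 / 144 + 200 * η - Rp.eval (N⁻¹ * lam i)) := by
      rw [h4]
      have h6 := mul_le_mul_of_nonneg_left h3 hN0.le
      have h7 := hlam i
      have h8 : 0 ≤ N * η := by positivity
      rcases hα1 i with h | h
      · linarith
      · have := mul_le_mul_of_nonneg_left h.2 hN0.le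
        linarith [h.1]
    have := mul_le_mul_of_nonneg_right h5 (sq_nonneg (v i ⬝ᵥ x))
    linarith
  have a2 : -(x ⬝ᵥ (diagonal fun i => GM v α i i) *ᵥ x) ≤
      N * (cf (fun y => X.p.eval y) 0 + 22 * β) * (x ⬝ᵥ x) := by
    simp only [dotProduct, mulVec_diagonal, mul_sum, ← sum_neg_distrib]
    refine sum_le_sum fun k _ => ?_
    have h2 := (diag_le hS X.dp (fun j => X.p_cf _) k).trans (add_le_add le_rfl
      (mul_le_mul_of_nonneg_left (sum_inv_sq_le _) hβ0))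
    have h3 : 0 ≤ GM v f k k := by
      rw [GM_apply]; exact sum_nonneg fun i _ => mul_nonneg (hf0 i) (mul_self_nonneg _)
    have h4 : -GM v α k k ≤ N * (cf (fun y => X.p.eval y) 0 + 22 * β) := by
      rw [hZ, Matrix.sub_apply, Matrix.smul_apply, smul_eq_mul]
      have := mul_le_mul_of_nonneg_left h2 hN0.le
      linarith
    have := mul_le_mul_of_nonneg_right h4 (mul_self_nonneg (x k))
    linarith
  have a3 := (abs_le.1 (GM_schur v hf0 (by positivity) hB hfd x)).1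
  have a4 := mul_le_mul_of_nonneg_left
    (had_poly X hN hA0 θ x hΘ0 (fun j hj => hW j hj x) hΘ (h1 x) hJ hτ) hN0.le
  have a5 : x ⬝ᵥ hadamard (GM v α) A *ᵥ x = x ⬝ᵥ hadamard (GM v f) A *ᵥ x -
      N * (x ⬝ᵥ hadamard (aeval (N⁻¹ • A) X.p) A *ᵥ x) := by
    rw [hZ, sub_eq_add_neg, ← neg_smul, add_hadamard, smul_hadamard, add_mulVec, smul_mulVec,
      dotProduct_add, dotProduct_smul, smul_eq_mul]
    ring
  have a6 := mul_le_mul_of_nonneg_left (hM x) hN0.le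
  have a7 : ∑ k ∈ range J, cf (fun y => X.p.eval y) (k + 2) / 2 *
      (x ⬝ᵥ hadamard (QM N A (k + 2)) A *ᵥ x) = (∑ k ∈ range J, cf (fun y => X.p.eval y) (k + 2) *
      (x ⬝ᵥ hadamard (QM N A (k + 2)) A *ᵥ x)) / 2 := by
    rw [sum_div]; exact sum_congr rfl fun _ _ => by ring
  have a8 : 1001 / 500 * N * (25 * 10 ^ 6 * N * η ^ 3 * (5 / 2 / η)) * (x ⬝ᵥ x) =
      125125000 * (N * (N * η ^ 2) * (x ⬝ᵥ x)) := by field_simp; ring
  have a9 : 0 ≤ N * (N * η ^ 2) * (x ⬝ᵥ x) := by positivity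
  rw [a7] at a6
  rw [a8] at a3
  simp only [witness, add_mulVec, sub_mulVec, smul_mulVec, dotProduct_add, dotProduct_sub,
    dotProduct_smul, smul_eq_mul, a5]
  have e1 : N * (145 / 144 + μ + 200 * η + (cf (fun y => X.p.eval y) 0 + 22 * β) / 2
        + τ / 2 + 22 * Θ / N ^ 2 + 7 * 10 ^ 7 * (N * η ^ 2)) * (x ⬝ᵥ x) =
      N * ((145 / 144 + 200 * η) * (x ⬝ᵥ x)) + N * (μ * (x ⬝ᵥ x)) +
      N * (cf (fun y => X.p.eval y) 0 + 22 * β) * (x ⬝ᵥ x) / 2 +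
      N * ((τ + 44 * Θ / N ^ 2) * (x ⬝ᵥ x)) / 2 + 7 * 10 ^ 7 * (N * (N * η ^ 2) * (x ⬝ᵥ x)) := by
    ring
  rw [e1]
  linarith

end Pool.Agent.Lib.MP_dfd018_pr
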