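import Pool.Agent.Lib.MP_dfd018_pr.Moment

/-!
The edge step operator and its decomposition into creation, annihilation and error parts.
-/

namespace Pool.Agent.Lib.MP_dfd018_pr

open Finset Matrix
open scoped symmDiff

variable {n : ℕ}

open Classical in
lemma schur {ι : Type*} [Fintype ι] (E : Matrix ι ι ℝ) (hE : ∀ t s, 0 ≤ E t s) (P Q : ι → Prop)
    (x y : ι → ℝ) (hx : ∀ s, x s ≠ 0 → P s) (hy : ∀ t, y t ≠ 0 → Q t) {α β θ : ℝ} (hθ : 0 < θ)
    (hα : ∀ s, P s → ∑ t, (if Q t then E t s else 0) ≤ α)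
    (hβ : ∀ t, Q t → ∑ s, (if P s then E t s else 0) ≤ β) :
    |y ⬝ᵥ E *ᵥ x| ≤ (θ * α * (x ⬝ᵥ x) + β / θ * (y ⬝ᵥ y)) / 2 := by
  have h1 : |y ⬝ᵥ E *ᵥ x| ≤ ∑ t, ∑ s, ((if Q t then E t s else 0) * (θ * x s ^ 2) / 2 +
      (if P s then E t s else 0) * (y t ^ 2 / θ) / 2) := by
    unfold dotProduct mulVec dotProduct
    refine (abs_sum_le_sum_abs _ _).trans (sum_le_sum fun t _ => ?_)
    rw [mul_sum]
    refine (abs_sum_le_sum_abs _ _).trans (sum_le_sum fun s _ => ?_)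
    have hE' := hE t s
    by_cases h1 : x s = 0
    · simp only [h1]; split_ifs <;> simp <;> positivity
    by_cases h2 : y t = 0
    · simp only [h2]; split_ifs <;> simp <;> positivity
    rw [if_pos (hx s h1), if_pos (hy t h2), abs_mul, abs_mul, abs_of_nonneg hE']
    have : 2 * (|y t| * |x s|) ≤ θ * x s ^ 2 + y t ^ 2 / θ := by
      have h3 : 0 ≤ (θ * |x s| - |y t|) ^ 2 / θ := by positivity
      have h4 : (θ * |x s| - |y t|) ^ 2 / θ = θ * |x s| ^ 2 + |y t| ^ 2 / θ - 2 * (|y t| * |x s|) := by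
        field_simp; ring
      rw [h4, sq_abs, sq_abs] at h3; linarith
    nlinarith
  refine h1.trans ?_
  simp only [sum_add_distrib]
  rw [sum_comm]
  have h2 : ∑ s, ∑ t, (if Q t then E t s else 0) * (θ * x s ^ 2) / 2 ≤ θ * α * (x ⬝ᵥ x) / 2 := by
    unfold dotProduct
    rw [mul_sum, sum_div]
    refine sum_le_sum fun s _ => ?_
    rw [← sum_div, ← sum_mul]
    by_cases h1 : x s = 0
    · simp [h1]
    · have := hα s (hx s h1)
      have h5 : 0 ≤ θ * x s ^ 2 := by positivity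
      nlinarith
  have h3 : ∑ t, ∑ s, (if P s then E t s else 0) * (y t ^ 2 / θ) / 2 ≤ β / θ * (y ⬝ᵥ y) / 2 := by
    unfold dotProduct
    rw [mul_sum, sum_div]
    refine sum_le_sum fun t _ => ?_
    rw [← sum_div, ← sum_mul]
    by_cases h1 : y t = 0
    · simp [h1]
    · have := hβ t (hy t h1)
      have h5 : 0 ≤ y t ^ 2 / θ := by positivity
      have h6 : β / θ * (y t * y t) = β * (y t ^ 2 / θ) := by field_simp
      rw [h6]; nlinarith
  linarith

/-- The operator of one step along an edge. -/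
noncomputable def KA : Matrix (St n) (St n) ℝ :=
  fun t s => if t.1 ≠ s.1 ∧ s.2 = t.2 ∆ {s(t.1, s.1)} then 1 else 0

lemma rep_KA : Rep (KA (n := n)) pmAdj := by
  intro a G
  funext u
  simp only [Phi, mulVec, dotProduct, KA, Fintype.sum_prod_type]
  simp only [sum_mul]
  rw [sum_comm]
  apply sum_congr rfl
  intro v _
  by_cases h : u = v
  · subst h; simp [pmAdj_self]
  · have h1 := Phi_shift a G v {s(u, v)}
    simp only [Phi] at h1
    rw [pmAdj_eq G h]
    have h2 : chi G {s(u, v)} = sg G s(u, v) := by simp [chi]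
    rw [← h2, ← h1]
    apply sum_congr rfl
    intro O _
    rw [sum_eq_single (O ∆ {s(u, v)})]
    · simp [h]
    · intro b _ hb; simp [hb]
    · simp

lemma eq_symmDiff_comm {α : Type*} [DecidableEq α] {O O' P : Finset α} :
    O = O' ∆ P ↔ O' = O ∆ P := by
  constructor <;> rintro rfl <;> simp

lemma KA_symm : (KA (n := n)).IsSymm := by
  ext t s
  simp only [transpose_apply, KA]
  congr 1
  rw [eq_symmDiff_comm, Sym2.eq_swap, ne_comm]

lemma V_symmDiff {s t : St n} {P : Finset (Sym2 (Fin n))} (h : t.2 = s.2 ∆ P) {w : Fin n}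
    (hw : w ∈ V t) : w = t.1 ∨ w ∈ V s ∨ ∃ e ∈ P, w ∈ e := by
  rw [mem_V] at hw
  rcases hw with h1 | ⟨e, he, hw⟩
  · exact Or.inl h1
  · rw [h, mem_symmDiff] at he
    rcases he with he | he
    · exact Or.inr (Or.inl (mem_V.2 (Or.inr ⟨e, he.1, hw⟩)))
    · exact Or.inr (Or.inr ⟨e, he.1, hw⟩)

lemma self_mem_V (s : St n) : s.1 ∈ V s := mem_V.2 (Or.inl rfl)

lemma Nd_symmDiff {s t : St n} {P : Finset (Sym2 (Fin n))} (h : t.2 = s.2 ∆ P) (hs : Nd s)
    (hP : ∀ e ∈ P, ¬ e.IsDiag) : Nd t := by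
  intro e he
  rw [h, mem_symmDiff] at he
  rcases he with he | he
  · exact hs e he.1
  · exact hP e he.1

lemma V_edge {s t : St n} (h : s.2 = t.2 ∆ {s(t.1, s.1)}) : V t ⊆ insert t.1 (V s) := by
  intro w hw
  rcases V_symmDiff (eq_symmDiff_comm.1 h) hw with h1 | h1 | ⟨e, he, h1⟩
  · simp [h1]
  · simp [h1]
  · rw [mem_singleton] at he
    subst he
    rcases Sym2.mem_iff.1 h1 with h2 | h2
    · simp [h2]
    · simp [h2, self_mem_V]

lemma grow_KA : Grow 1 (KA (n := n)) := by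
  apply grow_of_entries
  intro t s h hs
  have h' : t.1 ≠ s.1 ∧ s.2 = t.2 ∆ {s(t.1, s.1)} := by
    by_contra h0; exact h (by simp only [KA, if_neg h0])
  refine ⟨Nd_symmDiff (eq_symmDiff_comm.1 h'.2) hs (by simpa using h'.1), ?_⟩
  exact (card_le_card (V_edge h'.2)).trans (card_insert_le _ _)

/-- Step from `s` to `t` along a new edge to a fresh vertex. -/
def CrRel (t s : St n) : Prop := t.1 ∉ V s ∧ s.2 = t.2 ∆ {s(t.1, s.1)}

open Classical in
noncomputable def Cr : Matrix (St n) (St n) ℝ := fun t s => if CrRel t s then 1 else 0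

def EARel (t s : St n) : Prop :=
  t.1 ≠ s.1 ∧ s.2 = t.2 ∆ {s(t.1, s.1)} ∧ t.1 ∈ V s ∧ s.1 ∈ V t

open Classical in
noncomputable def EA : Matrix (St n) (St n) ℝ := fun t s => if EARel t s then 1 else 0

lemma CrRel.ne {t s : St n} (h : CrRel t s) : t.1 ≠ s.1 := fun h' => h.1 (h' ▸ self_mem_V s)

lemma CrRel.not_mem {t s : St n} (h : CrRel t s) : s(t.1, s.1) ∉ s.2 :=
  fun h' => h.1 (mem_V.2 (Or.inr ⟨_, h', by simp⟩))

lemma CrRel.mem {t s : St n} (h : CrRel t s) : s(t.1, s.1) ∈ t.2 := by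
  rw [eq_symmDiff_comm.1 h.2, mem_symmDiff]
  exact Or.inr ⟨by simp, h.not_mem⟩

lemma CrRel.edge_eq {t s : St n} (h : CrRel t s) {e : Sym2 (Fin n)} (he : e ∈ t.2) (hv : t.1 ∈ e) :
    e = s(t.1, s.1) := by
  rw [eq_symmDiff_comm.1 h.2, mem_symmDiff] at he
  rcases he with he | he
  · exact absurd (mem_V.2 (Or.inr ⟨e, he.1, hv⟩)) h.1
  · simpa using he.1

lemma CrRel.unique {t s s' : St n} (h : CrRel t s) (h' : CrRel t s') : s = s' := by
  have h1 := h.edge_eq h'.mem (by simp)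
  have h2 : s'.1 = s.1 := Sym2.congr_right.1 h1
  exact Prod.ext h2.symm (by rw [h.2, h'.2, h2])

lemma KA_eq : KA (n := n) = Cr + Crᵀ + EA := by
  ext t s
  simp only [KA, Cr, EA, Matrix.add_apply, transpose_apply]
  by_cases h1 : CrRel t s
  · have h2 : ¬ CrRel s t := fun h => h.1 (mem_V.2 (Or.inr ⟨_, h1.mem, by simp⟩))
    have h3 : ¬ EARel t s := fun h => h1.1 h.2.2.1
    simp [h1, h2, h3, h1.ne, ← h1.2]
  by_cases h2 : CrRel s t
  · have h3 : ¬ EARel t s := fun h => h2.1 h.2.2.2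
    have h4 : s.2 = t.2 ∆ {s(t.1, s.1)} := by rw [Sym2.eq_swap]; exact eq_symmDiff_comm.1 h2.2
    simp [h1, h2, h3, h2.ne.symm, ← h4]
  by_cases h3 : EARel t s
  · simp [h1, h2, h3, h3.1, ← h3.2.1]
  · have : ¬ (t.1 ≠ s.1 ∧ s.2 = t.2 ∆ {s(t.1, s.1)}) := by
      rintro ⟨h4, h5⟩
      apply h3
      refine ⟨h4, h5, ?_, ?_⟩
      · by_contra h6; exact h1 ⟨h6, h5⟩
      · by_contra h6; exact h2 ⟨h6, by rw [Sym2.eq_swap]; exact eq_symmDiff_comm.1 h5⟩
    simp only [if_neg this, if_neg h1, if_neg h2, if_neg h3]; norm_num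

lemma EARel.symm {t s : St n} (h : EARel t s) : EARel s t :=
  ⟨h.1.symm, by rw [Sym2.eq_swap]; exact eq_symmDiff_comm.1 h.2.1, h.2.2.2, h.2.2.1⟩

open Classical in
lemma sum_ind_le {ι κ : Type*} [Fintype ι] (R : ι → Prop) (S : Finset κ) (f : ι → κ)
    (hf : ∀ i, R i → f i ∈ S) (hinj : ∀ i j, R i → R j → f i = f j → i = j) :
    ∑ i, (if R i then (1 : ℝ) else 0) ≤ S.card := by
  rw [sum_boole]
  exact_mod_cast card_le_card_of_injOn f (fun i hi => hf i (mem_filter.1 hi).2)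
    (fun i hi j hj h => hinj i j (mem_filter.1 hi).2 (mem_filter.1 hj).2 h)

lemma EA_col (s : St n) : ∑ t, EA t s ≤ (V s).card := by
  classical
  unfold EA
  convert sum_ind_le (fun t => EARel t s) (V s) (fun t => t.1) (fun t h => h.2.2.1) ?_
  intro t t' h h' he
  refine Prod.ext he ?_
  rw [eq_symmDiff_comm.1 h.2.1, eq_symmDiff_comm.1 h'.2.1, he]

lemma EA_nonneg (t s : St n) : 0 ≤ EA t s := by unfold EA; split_ifs <;> norm_num

lemma EA_symm (t s : St n) : EA t s = EA s t := by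
  unfold EA
  by_cases h : EARel t s
  · simp [h, h.symm]
  · have : ¬ EARel s t := fun h' => h h'.symm
    simp [h, this]

lemma EA_bilin {r : ℕ} {x : St n → ℝ} (hx : Low r x) (y : St n → ℝ) {θ : ℝ} (hθ : 0 < θ) :
    |y ⬝ᵥ EA *ᵥ x| ≤ (θ * r * (x ⬝ᵥ x) + r / θ * (y ⬝ᵥ y)) / 2 := by
  classical
  apply schur EA EA_nonneg (fun s => (V s).card ≤ r) (fun _ => True) x y
    (fun s h => (hx s h).2) (fun _ _ => trivial) hθ
  · intro s hs
    simp only [if_true]
    exact (EA_col s).trans (by exact_mod_cast hs)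
  · intro t _
    by_cases h : ∃ s, (V s).card ≤ r ∧ EARel t s
    · obtain ⟨s, hs, hts⟩ := h
      have h1 : V t ⊆ V s := by
        have := V_edge hts.2.1
        rwa [insert_eq_of_mem hts.2.2.1] at this
      calc _ ≤ ∑ s, EA s t := sum_le_sum fun s _ => by
              rw [EA_symm s t]; split_ifs; exacts [le_rfl, EA_nonneg _ _]
        _ ≤ (V t).card := EA_col t
        _ ≤ r := by exact_mod_cast (card_le_card h1).trans hs
    · push Not at h
      refine le_trans (le_of_eq (sum_eq_zero fun s _ => ?_)) (by positivity)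
      split_ifs with hs
      · simp [EA, h s hs]
      · rfl

lemma EA_norm {r : ℕ} {x : St n → ℝ} (hx : Low r x) (hr : 0 < r) :
    (EA *ᵥ x) ⬝ᵥ (EA *ᵥ x) ≤ (r : ℝ) ^ 2 * (x ⬝ᵥ x) := by
  have hr' : (0 : ℝ) < r := by exact_mod_cast hr
  have := (le_abs_self _).trans (EA_bilin hx (EA *ᵥ x) hr')
  rw [div_self hr'.ne'] at this
  nlinarith

lemma Cr_nonneg (t s : St n) : 0 ≤ Cr t s := by unfold Cr; split_ifs <;> norm_num

lemma Cr_col (s : St n) : ∑ t, Cr t s = n - (V s).card := by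
  classical
  unfold Cr
  rw [sum_boole]
  have : (univ.filter (fun t => CrRel t s)).card = (V s)ᶜ.card := by
    apply card_bij (fun t _ => t.1)
    · intro t ht; simpa using (mem_filter.1 ht).2.1
    · intro t ht t' ht' he
      refine Prod.ext he ?_
      rw [eq_symmDiff_comm.1 (mem_filter.1 ht).2.2, eq_symmDiff_comm.1 (mem_filter.1 ht').2.2, he]
    · intro v hv
      exact ⟨(v, s.2 ∆ {s(v, s.1)}), mem_filter.2 ⟨mem_univ _, by simpa using hv, by simp⟩, rfl⟩
  rw [this, card_compl, Nat.cast_sub (card_le_univ _)]; simp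

/-- States in which the walker sits at the end of a pendant edge. -/
def Leaf (t : St n) : Prop := ∃ s, CrRel t s

lemma Cr_sq (x : St n → ℝ) (t : St n) : (Cr *ᵥ x) t ^ 2 = ∑ s, Cr t s * x s ^ 2 := by
  classical
  by_cases h : Leaf t
  · obtain ⟨s, hs⟩ := h
    have h1 : ∀ s', s' ≠ s → Cr t s' = 0 := fun s' h' => by
      unfold Cr; exact if_neg (fun h => h' (h.unique hs))
    simp only [mulVec, dotProduct]
    rw [sum_eq_single s (fun b _ hb => by simp [h1 b hb]) (by simp),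
      sum_eq_single s (fun b _ hb => by simp [h1 b hb]) (by simp)]
    simp [Cr, hs]
  · have h1 : ∀ s', Cr t s' = 0 := fun s' => by
      unfold Cr; exact if_neg (fun h' => h ⟨s', h'⟩)
    simp [mulVec, dotProduct, h1]

lemma dot_self_eq {ι : Type*} [Fintype ι] (x : ι → ℝ) : x ⬝ᵥ x = ∑ i, x i ^ 2 := by
  simp [dotProduct, sq]

lemma Cr_norm (x : St n → ℝ) :
    (Cr *ᵥ x) ⬝ᵥ (Cr *ᵥ x) = ∑ s, ((n : ℝ) - (V s).card) * x s ^ 2 := by
  rw [dot_self_eq]
  simp only [Cr_sq]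
  rw [sum_comm]
  simp only [← sum_mul, Cr_col]

lemma Cr_norm_le (x : St n → ℝ) : (Cr *ᵥ x) ⬝ᵥ (Cr *ᵥ x) ≤ n * (x ⬝ᵥ x) := by
  rw [Cr_norm, dot_self_eq, mul_sum]
  refine sum_le_sum fun s _ => mul_le_mul_of_nonneg_right ?_ (by positivity)
  have : (0 : ℝ) ≤ (V s).card := by positivity
  linarith

lemma Cr_norm_ge {r : ℕ} {x : St n → ℝ} (hx : Low r x) :
    ((n : ℝ) - r) * (x ⬝ᵥ x) ≤ (Cr *ᵥ x) ⬝ᵥ (Cr *ᵥ x) := by
  rw [Cr_norm, dot_self_eq, mul_sum]
  refine sum_le_sum fun s _ => ?_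
  by_cases h : x s = 0
  · simp [h]
  · have : ((V s).card : ℝ) ≤ r := by exact_mod_cast (hx s h).2
    exact mul_le_mul_of_nonneg_right (by linarith) (by positivity)

open Classical in
lemma CrT_norm_le (y : St n → ℝ) :
    (Crᵀ *ᵥ y) ⬝ᵥ (Crᵀ *ᵥ y) ≤ n * ∑ t, if Leaf t then y t ^ 2 else 0 := by
  rw [dot_self_eq]
  have h1 : ∀ s, (Crᵀ *ᵥ y) s ^ 2 ≤ n * ∑ t, Cr t s * y t ^ 2 := by
    intro s
    have h2 : (Crᵀ *ᵥ y) s = ∑ t, Cr t s * (Cr t s * y t) := by
      simp only [mulVec, dotProduct, transpose_apply]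
      refine sum_congr rfl fun t _ => ?_
      unfold Cr; split_ifs <;> simp
    rw [h2]
    refine (sum_mul_sq_le_sq_mul_sq _ _ _).trans ?_
    have h3 : ∑ t, Cr t s ^ 2 ≤ n := by
      have : ∑ t, Cr t s ^ 2 = ∑ t, Cr t s := sum_congr rfl fun t _ => by
        unfold Cr; split_ifs <;> simp
      rw [this, Cr_col]
      have : (0 : ℝ) ≤ (V s).card := by positivity
      linarith
    have h4 : ∑ t, (Cr t s * y t) ^ 2 = ∑ t, Cr t s * y t ^ 2 := sum_congr rfl fun t _ => by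
      unfold Cr; split_ifs <;> simp
    rw [h4]
    exact mul_le_mul_of_nonneg_right h3 (sum_nonneg fun t _ => mul_nonneg (Cr_nonneg _ _) (by positivity))
  refine (sum_le_sum fun s _ => h1 s).trans ?_
  rw [← mul_sum, sum_comm]
  refine mul_le_mul_of_nonneg_left (sum_le_sum fun t _ => ?_) (by positivity)
  rw [← sum_mul]
  split_ifs with h
  · obtain ⟨s, hs⟩ := h
    rw [sum_eq_single s (fun b _ hb => by unfold Cr; exact if_neg (fun h => hb (h.unique hs)))
      (by simp)]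
    simp [Cr, hs]
  · have h1 : ∀ s', Cr t s' = 0 := fun s' => by
      unfold Cr; exact if_neg (fun h' => h ⟨s', h'⟩)
    simp [h1]

end Pool.Agent.Lib.MP_dfd018_pr
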