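import Pool.Agent.Lib.MP_dfd018_pr.Quad

/-!
The quadratic witness: probability bound.
-/

namespace Pool.Agent.Lib.MP_dfd018_pr

open Finset Matrix Filter Topology

variable {n : ℕ}

lemma pmAdj_isSymm (G : SimpleGraph (Fin n)) : (pmAdj G).IsSymm := by
  ext i j; simp [pmAdj_symm G i j]

lemma pmAdj_sq_diag (G : SimpleGraph (Fin n)) (i : Fin n) :
    (pmAdj G * pmAdj G) i i = n - 1 := by
  rw [mul_apply, ← add_sum_erase _ _ (mem_univ i), pmAdj_self, zero_mul, zero_add]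
  have : ∀ j ∈ univ.erase i, pmAdj G i j * pmAdj G j i = 1 := by
    intro j hj
    rw [pmAdj_symm G j i, pmAdj_eq G (ne_of_mem_erase hj).symm, sg_sq]
  rw [sum_congr rfl this]
  have h : 1 ≤ n := Nat.one_le_iff_ne_zero.2 (fun h => by subst h; exact i.elim0)
  simp [Nat.cast_sub h]

lemma witness_quad (G : SimpleGraph (Fin n)) (N : ℝ) :
    witness (pmAdj G) ((-(14 / 25 / N)) • (pmAdj G * pmAdj G)) + (3 * N) • 1 =
      pmAdj G + (-(7 / 25 / N)) • (pmAdj G * pmAdj G)
        + (7 / 25 / N) • hadamard (pmAdj G * pmAdj G) (pmAdj G)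
        + (7 / 25 / N * (n - 1) + 3 * N) • 1 := by
  ext i j
  simp only [witness, Matrix.add_apply, Matrix.sub_apply, Matrix.smul_apply, hadamard_apply,
    smul_eq_mul, diagonal_apply, one_apply, pmAdj_sq_diag]
  split_ifs <;> ring

lemma rep_KQ (N : ℝ) : Rep (KQ n N) (fun G =>
    witness (pmAdj G) ((-(14 / 25 / N)) • (pmAdj G * pmAdj G)) + (3 * N) • 1) := by
  simp only [witness_quad]
  exact ((rep_KA.add ((rep_KA.mul rep_KA).smul _)).add (rep_KW.smul _)).add (Rep.one.smul _)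

lemma KQ_symm (N : ℝ) : (KQ n N).IsSymm := by
  have h : (KA * KA : Matrix (St n) (St n) ℝ).IsSymm := by
    unfold IsSymm; rw [transpose_mul, KA_symm.eq]
  exact ((KA_symm.add (h.smul _)).add (KW_symm.smul _)).add (isSymm_one.smul _)

lemma grow_KQ (N : ℝ) : Grow 2 (KQ n N) :=
  (((grow_KA.mono (by norm_num)).add ((grow_KA.mul grow_KA).smul _)).add (grow_KW.smul _)).add
    ((Grow.one.mono (by norm_num)).smul _)

lemma witness_isSymm {A Z : Matrix (Fin n) (Fin n) ℝ} (hA : A.IsSymm) (hZ : Z.IsSymm) :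
    (witness A Z).IsSymm := by
  ext i j
  simp only [witness, transpose_apply, Matrix.add_apply, Matrix.sub_apply, Matrix.smul_apply,
    hadamard_apply, diagonal_apply, hA.apply i j, hZ.apply i j]
  by_cases h : i = j
  · subst h; rfl
  · simp [h, Ne.symm h]

/-- The fourth root used for the length of the walks. -/
def kk (n : ℕ) : ℕ := Nat.sqrt (Nat.sqrt n)

lemma kk_pow_le (n : ℕ) : kk n ^ 4 ≤ n := by
  have h1 := Nat.sqrt_le' (Nat.sqrt n)
  have h2 := Nat.sqrt_le' n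
  calc kk n ^ 4 = (kk n ^ 2) ^ 2 := by ring
    _ ≤ (Nat.sqrt n) ^ 2 := Nat.pow_le_pow_left h1 2
    _ ≤ n := h2

lemma lt_kk_pow (n : ℕ) : n < (kk n + 1) ^ 4 := by
  have h1 := Nat.lt_succ_sqrt' (Nat.sqrt n)
  have h2 := Nat.lt_succ_sqrt' n
  calc n < (Nat.sqrt n + 1) ^ 2 := h2
    _ ≤ ((kk n + 1) ^ 2) ^ 2 := Nat.pow_le_pow_left h1 2
    _ = _ := by ring

lemma tendsto_kk : Tendsto kk atTop atTop := by
  rw [tendsto_atTop]
  intro b
  filter_upwards [eventually_ge_atTop ((b + 1) ^ 4)] with n hn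
  by_contra h
  have := lt_kk_pow n
  have h2 : (kk n + 1) ^ 4 ≤ (b + 1) ^ 4 := Nat.pow_le_pow_left (by omega) 4
  omega

lemma tendsto_n_mul_pow {ρ : ℝ} (h0 : 0 ≤ ρ) (h1 : ρ < 1) :
    Tendsto (fun n : ℕ => (n : ℝ) * ρ ^ (2 * kk n)) atTop (𝓝 0) := by
  have h2 : Tendsto (fun k : ℕ => 16 * ((k : ℝ) ^ 4 * (ρ ^ 2) ^ k)) atTop (𝓝 0) := by
    have := tendsto_pow_const_mul_const_pow_of_abs_lt_one 4 (r := ρ ^ 2) (by
      rw [abs_of_nonneg (by positivity)]; nlinarith)
    simpa using this.const_mul 16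
  refine squeeze_zero' (Eventually.of_forall fun n => by positivity) ?_ (h2.comp tendsto_kk)
  filter_upwards [tendsto_kk.eventually_ge_atTop 1] with n hn
  have h3 : (n : ℝ) ≤ 16 * (kk n : ℝ) ^ 4 := by
    have h4 : (kk n + 1) ^ 4 ≤ (2 * kk n) ^ 4 := Nat.pow_le_pow_left (by omega) 4
    have h5 := (lt_kk_pow n).le.trans h4
    have h6 : (n : ℝ) ≤ ((2 * kk n) ^ 4 : ℕ) := by exact_mod_cast h5
    push_cast at h6
    linarith
  simp only [Function.comp, ← pow_mul]
  rw [← mul_assoc]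
  exact mul_le_mul_of_nonneg_right h3 (by positivity)

open Classical in
lemma tendsto_one_of_bad (P : ∀ n, SimpleGraph (Fin n) → Prop) (b : ℕ → ℝ)
    (hb : Tendsto b atTop (𝓝 0))
    (h : ∀ᶠ n in atTop, ((univ.filter (fun G => ¬ P n G)).card : ℝ) ≤
      (Fintype.card (SimpleGraph (Fin n)) : ℝ) * b n) :
    Tendsto (fun n : ℕ => (Nat.card {G : SimpleGraph (Fin n) // P n G} : ℝ) /
      (Nat.card (SimpleGraph (Fin n)) : ℝ)) atTop (𝓝 1) := by
  have h1 : Tendsto (fun n => 1 - b n) atTop (𝓝 1) := by simpa using hb.const_sub 1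
  refine tendsto_of_tendsto_of_tendsto_of_le_of_le' h1 tendsto_const_nhds ?_ ?_
  · filter_upwards [h] with n hn
    have hpos : (0 : ℝ) < Fintype.card (SimpleGraph (Fin n)) := by exact_mod_cast Fintype.card_pos
    rw [Nat.card_eq_fintype_card, Nat.card_eq_fintype_card, Fintype.card_subtype,
      le_div_iff₀ hpos]
    have h2 := card_filter_add_card_filter_not (s := (univ : Finset (SimpleGraph (Fin n)))) (P n)
    have h3 : ((univ.filter (P n)).card : ℝ) + (univ.filter (fun G => ¬ P n G)).card =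
        Fintype.card (SimpleGraph (Fin n)) := by exact_mod_cast h2
    linarith
  · refine Eventually.of_forall fun n => ?_
    have hpos : (0 : ℝ) < Fintype.card (SimpleGraph (Fin n)) := by exact_mod_cast Fintype.card_pos
    rw [Nat.card_eq_fintype_card, Nat.card_eq_fintype_card, div_le_one hpos]
    exact_mod_cast Fintype.card_subtype_le _

theorem quad_main :
    Tendsto (fun n : ℕ => (Nat.card {G : SimpleGraph (Fin n) //
      ∀ μ ∈ spectrum ℝ (witness (pmAdj G) ((-(14 / 25 / √(n : ℝ))) • (pmAdj G * pmAdj G))),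
        μ ≤ 145 / 100 * √(n : ℝ)} : ℝ) / (Nat.card (SimpleGraph (Fin n)) : ℝ)) atTop (𝓝 1) := by
  classical
  refine tendsto_one_of_bad _ _ (tendsto_n_mul_pow (ρ := 4448 / 4450) (by norm_num) (by norm_num)) ?_
  filter_upwards [tendsto_kk.eventually_ge_atTop (27 * 10 ^ 8)] with n hn
  have h4 := kk_pow_le n
  set k := kk n with hk
  have hn0 : 0 < n := lt_of_lt_of_le (by positivity) h4
  have hN : 0 < √(n : ℝ) := Real.sqrt_pos.2 (by exact_mod_cast hn0)
  have hNn : √(n : ℝ) ^ 2 = n := Real.sq_sqrt (by positivity)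
  have hR : ((3 * k : ℕ) : ℝ) ^ 3 ≤ (1 / 10000) ^ 2 * n := by
    have h5 : ((k : ℝ)) ^ 4 ≤ n := by exact_mod_cast h4
    have h6 : (27 * 10 ^ 8 : ℝ) ≤ k := by exact_mod_cast hn
    have h7 : (0 : ℝ) ≤ (k : ℝ) ^ 3 := by positivity
    push_cast
    nlinarith
  have := card_bad_le (rep_KQ (n := n) √(n : ℝ)) (KQ_symm _) (fun G =>
      (witness_isSymm (pmAdj_isSymm G) (by
        apply IsSymm.smul
        unfold IsSymm; rw [transpose_mul, (pmAdj_isSymm G).eq])).add (isSymm_one.smul _))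
    (grow_KQ _) (R := 3 * k) (L := 4448 / 1000 * √(n : ℝ)) (by positivity)
    (fun z hz => KQ_quad hN hNn (by omega) hR z hz) k (by omega) (θ := 4450 / 1000 * √(n : ℝ))
    (by positivity) (fun G => ¬ ∀ μ ∈ spectrum ℝ (witness (pmAdj G)
      ((-(14 / 25 / √(n : ℝ))) • (pmAdj G * pmAdj G))), μ ≤ 145 / 100 * √(n : ℝ)) (by
      intro G hG
      push Not at hG
      obtain ⟨μ, hμ, h1⟩ := hG
      obtain ⟨x, hx, h2⟩ := exists_eig_of_mem_spectrum hμ
      refine ⟨μ + 3 * √(n : ℝ), le_trans (by linarith) (le_abs_self _), x, hx, ?_⟩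
      rw [add_mulVec, h2, smul_mulVec, one_mulVec, add_smul])
  have h8 : 4448 / 1000 * √(n : ℝ) / (4450 / 1000 * √(n : ℝ)) = 4448 / 4450 := by
    field_simp
  rw [h8] at this
  convert this

end Pool.Agent.Lib.MP_dfd018_pr
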