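import Pool.Agent.Lib.MP_dfd018_pr.Reg
import Pool.Agent.Lib.MP_dfd018_pr.QuadMain

/-!
The spectral witness: probability bound.
-/

namespace Pool.Agent.Lib.MP_dfd018_pr

open Finset Matrix Polynomial Filter Topology

/-- The conclusion for one graph. -/
def Good (n : ℕ) (G : SimpleGraph (Fin n)) : Prop :=
  ∀ (lam : Fin n → ℝ) (v : Fin n → Fin n → ℝ), Antitone lam →
    (∀ i j, v i ⬝ᵥ v j = if i = j then 1 else 0) → (∀ i, pmAdj G *ᵥ v i = lam i • v i) →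
    ∀ μ ∈ spectrum ℝ (witness (pmAdj G)
      (∑ i, (if i.val < n / 2 then -lam i else lam i) • vecMulVec (v i) (v i))),
      μ ≤ 155 / 100 * √(n : ℝ)

noncomputable def geo (ρ : ℝ) (t : ℕ) : ℝ := 2 ^ 49 * (((t ^ 3 : ℕ) : ℝ) ^ 17 * (ρ ^ 2) ^ (t ^ 3))

lemma tendsto_geo {ρ : ℝ} (h0 : 0 ≤ ρ) (h1 : ρ < 1) : Tendsto (geo ρ) atTop (𝓝 0) := by
  have h := tendsto_pow_const_mul_const_pow_of_abs_lt_one 17 (r := ρ ^ 2) (by
    rw [abs_of_nonneg (by positivity)]; nlinarith)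
  have h3 : Tendsto (fun t : ℕ => t ^ 3) atTop atTop := tendsto_pow_atTop (by norm_num)
  have h4 := (h.comp h3).const_mul (2 ^ 49)
  rw [mul_zero] at h4
  exact h4

lemma le_geo {ρ : ℝ} (h0 : 0 ≤ ρ) {n t : ℕ} (ht : (1 : ℝ) ≤ t) (hn : (n : ℝ) ≤ 2 ^ 48 * t ^ 48)
    {a : ℝ} (ha : a ≤ 2 * t ^ 3) : a * (n * ρ ^ (2 * t ^ 3)) ≤ geo ρ t := by
  unfold geo
  rw [← pow_mul]
  push_cast
  calc _ ≤ 2 * t ^ 3 * (2 ^ 48 * t ^ 48 * ρ ^ (2 * t ^ 3)) := by gcongr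
    _ = _ := by ring

lemma tail_sum {t J e : ℕ} (ht : (3000 : ℝ) ≤ t) (hJ : 5 * 10 ^ 6 ≤ J) :
    ∑ j ∈ Ico J (e + 1), 22 / (((j + 2 : ℕ) : ℝ) + 1) ^ 2 * (if j ≤ t ^ 3 then 44 else (t : ℝ))
      ≤ 2 / 10 ^ 4 := by
  have h1 : ∀ j ∈ Ico J (e + 1), 22 / (((j + 2 : ℕ) : ℝ) + 1) ^ 2 *
      (if j ≤ t ^ 3 then 44 else (t : ℝ)) ≤ 968 * (1 / (((j + 2 : ℕ) : ℝ) + 1) ^ 2) +
      if t ^ 3 < j then 22 * t * (1 / (((j + 2 : ℕ) : ℝ) + 1) ^ 2) else 0 := by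
    intro j _
    have h2 : 0 ≤ 1 / (((j + 2 : ℕ) : ℝ) + 1) ^ 2 := by positivity
    rw [div_eq_mul_one_div]
    by_cases h : j ≤ t ^ 3
    · rw [if_pos h, if_neg (by omega)]; linarith
    · rw [if_neg h, if_pos (by omega)]; linarith
  refine (sum_le_sum h1).trans ?_
  rw [sum_add_distrib, ← sum_filter, ← mul_sum, ← mul_sum]
  have h2 := tail_le J (e + 1)
  have h3 := (sum_le_sum_of_subset_of_nonneg (s := (Ico J (e + 1)).filter (fun j => t ^ 3 < j))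
    (f := fun j => (1 : ℝ) / (((j + 2 : ℕ) : ℝ) + 1) ^ 2) (fun j hj => mem_Ico.2
      ⟨(mem_filter.1 hj).2.le, (mem_Ico.1 (mem_filter.1 hj).1).2⟩)
      fun _ _ _ => by positivity).trans (tail_le (t ^ 3) (e + 1))
  have hJ' : (5 * 10 ^ 6 : ℝ) ≤ J := by exact_mod_cast hJ
  have h4 : 1 / ((J : ℝ) + 2) ≤ 1 / (5 * 10 ^ 6) := one_div_le_one_div_of_le (by norm_num) (by linarith)
  have h5 : 22 * t * (1 / (((t ^ 3 : ℕ) : ℝ) + 2)) ≤ 5 / 10 ^ 6 := by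
    rw [mul_one_div, div_le_div_iff₀ (by positivity) (by positivity)]
    push_cast
    have : (3000 : ℝ) ^ 2 * t ≤ t ^ 2 * t := by gcongr
    nlinarith
  have h6 := mul_le_mul_of_nonneg_left h3 (show 0 ≤ 22 * (t : ℝ) by positivity)
  linarith

lemma good_of {n t k J : ℕ} {N D : ℝ} (h : Sc n t N) (hD : 1 ≤ D) (hDt : 392 * D ≤ t)
    (he : ((4 * k : ℕ) : ℝ) + 3 ≤ D * t ^ 12) (hk8 : (10 : ℝ) ^ 8 ≤ k)
    (a3 : N * (3 / k) ^ 2 ≤ 1 / 10 ^ 13) (hJ : 5 * 10 ^ 6 ≤ J) (hJe : J ≤ 4 * k + 1)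
    (X : Apx (4 * k + 2) (3 / k)) {G : SimpleGraph (Fin n)}
    (g1 : ∀ x, |x ⬝ᵥ pmAdj G *ᵥ x| ≤ 1001 / 500 * N * (x ⬝ᵥ x))
    (g2 : ∀ j < t ^ 3 + 1, ∀ x,
      |x ⬝ᵥ hadamard (QM N (pmAdj G) (j + 2)) (pmAdj G) *ᵥ x| ≤ 44 * (x ⬝ᵥ x))
    (g3 : ∀ j < 4 * k + 1, ∀ x,
      |x ⬝ᵥ hadamard (QM N (pmAdj G) (j + 2)) (pmAdj G) *ᵥ x| ≤ t * (x ⬝ᵥ x))
    (g4 : ∀ j < 4 * k + 1, ∀ i, |QM N (pmAdj G) (j + 2) i i| ≤ 1 / t ^ 14)
    (g5 : ∀ x, -(x ⬝ᵥ aeval (N⁻¹ • pmAdj G) Rp *ᵥ x) +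
      ∑ j ∈ range J, cf (fun y => X.p.eval y) (j + 2) / 2 *
        (x ⬝ᵥ hadamard (QM N (pmAdj G) (j + 2)) (pmAdj G) *ᵥ x) ≤ 11751 / 10 ^ 5 * (x ⬝ᵥ x)) :
    Good n G := by
  intro lam v hl hv hA μ hμ
  have ht := h.big
  have hNt : (t : ℝ) ≤ N := by simpa using h.pow_le_N (a := 1) (by norm_num)
  have hN2 := h.sq
  have hη : (0 : ℝ) < 3 / k := by positivity
  have hη1 : (3 : ℝ) / k ≤ 1 / 10 ^ 7 := by
    rw [div_le_div_iff₀ (by linarith) (by norm_num)]; linarith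
  have c0 := (X.coef hη hη1).1
  have hβ : 2 * (1 / (t : ℝ) ^ 14) + 2 / N ^ 2 ≤ 4 / t ^ 14 := by
    have a1 : (t : ℝ) ^ 14 ≤ N ^ 2 := by
      have := pow_le_pow_left₀ (by positivity) (h.pow_le_N (a := 7) (by norm_num)) 2
      rwa [← pow_mul] at this
    have a2 : 2 / N ^ 2 ≤ 2 / t ^ 14 := div_le_div_of_nonneg_left (by norm_num) (by positivity) a1
    have e1 : (4 : ℝ) / t ^ 14 = 2 * (1 / t ^ 14) + 2 / t ^ 14 := by ring
    linarith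
  have hd : ((4 * k + 2 : ℕ) : ℝ) * (2 * (1 / (t : ℝ) ^ 14) + 2 / N ^ 2) ≤ 1 / 4 := by
    have a1 : ((4 * k + 2 : ℕ) : ℝ) ≤ D * t ^ 12 := by push_cast at he ⊢; linarith
    refine (mul_le_mul a1 hβ (by positivity) (by positivity)).trans ?_
    rw [← mul_div_assoc, div_le_div_iff₀ (by positivity) (by norm_num)]
    have := h.mul_le (a := 12) (b := 14) (c := 16 * D) (by norm_num) (by linarith)
    linarith
  have hH : (2 * (1 / (t : ℝ) ^ 14) + 2 / N ^ 2) *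
      ∑ j ∈ range (4 * k + 2), 4 / (((j + 1 : ℕ) : ℝ) + 1) ≤ 3 / k := by
    have a1 : Real.log (((4 * k + 2 : ℕ) : ℝ) + 1) ≤ 13 * t := by
      have a2 : ((4 * k + 2 : ℕ) : ℝ) + 1 ≤ D * t ^ 12 := by push_cast at he ⊢; linarith
      refine (Real.log_le_log (by positivity) a2).trans ?_
      rw [Real.log_mul (by positivity) (by positivity), Real.log_pow]
      have a3 := Real.log_le_sub_one_of_pos (show 0 < D by linarith)
      have a4 := Real.log_le_sub_one_of_pos (show (0 : ℝ) < t by linarith)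
      push_cast
      linarith
    refine (mul_le_mul hβ ((harm_le _).trans (mul_le_mul_of_nonneg_left a1 (by norm_num)))
      (sum_nonneg fun _ _ => by positivity) (by positivity)).trans ?_
    rw [div_mul_eq_mul_div, div_le_div_iff₀ (by positivity) (by linarith)]
    have a2 := h.mul_le (a := 13) (b := 14) (c := 392 * D) (by norm_num) hDt
    have a5 : 4 * (k : ℝ) ≤ D * t ^ 12 := by push_cast at he; linarith
    have a3 := mul_le_mul_of_nonneg_left a5 (show 0 ≤ 52 * (t : ℝ) by positivity)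
    have a4 : 0 ≤ D * (t : ℝ) ^ 13 := by positivity
    have a6 : 52 * (t : ℝ) * (D * t ^ 12) = 52 * (D * t ^ 13) := by ring
    linarith
  have hs : ((n : ℝ) + 1) ≤ 2 * N * N := by nlinarith
  have hdet := det X (J := J) (N := N) (Θ := 2 * N) (θD := 1 / t ^ 14) (by linarith) hη hv hA hl
    (pmAdj_self G) g1 (by positivity) (fun j hj => g4 j (Nat.lt_succ_of_le hj))
    (fun j => if j ≤ t ^ 3 then 44 else (t : ℝ)) (by linarith)
    (fun j hj x => by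
      split_ifs with h1
      exacts [g2 j (Nat.lt_succ_of_le h1) x, g3 j (Nat.lt_succ_of_le hj) x])
    (fun j _ => by split_ifs <;> linarith)
    (fun x => (had_self_le G x).trans (mul_le_mul_of_nonneg_right (by linarith)
      (dot_self_nonneg x))) hJe (tail_sum ht hJ) g5 hd hH
  obtain ⟨x, hx, hμx⟩ := exists_eig_of_mem_spectrum hμ
  have h1 := hdet x
  change x ⬝ᵥ witness _ (∑ i, (if i.val < n / 2 then -lam i else lam i) • vecMulVec (v i) (v i))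
    *ᵥ x ≤ _ at h1
  rw [hμx, dotProduct_smul, smul_eq_mul] at h1
  have hpos : 0 < x ⬝ᵥ x := lt_of_le_of_ne (dot_self_nonneg x)
    (fun h0 => hx (dotProduct_self_eq_zero.1 h0.symm))
  refine (le_of_mul_le_mul_right h1 hpos).trans ?_
  rw [mul_comm]
  have hNn : N ≤ √(n : ℝ) := Real.le_sqrt_of_sq_le (by linarith)
  refine mul_le_mul ?_ hNn (by linarith) (by norm_num)
  have a1 : 4 / (t : ℝ) ^ 14 ≤ 1 / 10 ^ 6 := by
    rw [div_le_div_iff₀ (by positivity) (by norm_num)]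
    have := h.pow_le (a := 2) (b := 14) (by norm_num)
    have : (3000 : ℝ) ^ 2 ≤ t ^ 2 := by gcongr
    linarith
  have a2 : 22 * (2 * N) / N ^ 2 ≤ 1 / 10 ^ 5 := by
    have h2 := h.pow_le_N (a := 2) (by norm_num)
    have h3 : (3000 : ℝ) ^ 2 ≤ t ^ 2 := by gcongr
    rw [div_le_div_iff₀ (pow_pos (by linarith) 2) (by norm_num)]
    have := mul_le_mul_of_nonneg_right (h3.trans h2) (show 0 ≤ N by linarith)
    nlinarith
  linarith

lemma div_aux {n e : ℕ} {D t C u : ℝ} (hD : 1 ≤ D) (ht1 : 1 ≤ t) (hC : 0 ≤ C)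
    (hn : (n : ℝ) ≤ 2 ^ 48 * t ^ 48) (a1 : (e : ℝ) ≤ D * t ^ 12) (hu : t ^ 61 ≤ u) :
    e * (n * (C / u)) ≤ D * 2 ^ 48 * C / t := by
  have h0 : 0 < t ^ 61 := by positivity
  have h1 : C / u ≤ C / t ^ 61 := div_le_div_of_nonneg_left hC h0 hu
  have h2 : 0 ≤ C / u := div_nonneg hC (by linarith)
  calc _ ≤ D * t ^ 12 * (2 ^ 48 * t ^ 48 * (C / t ^ 61)) := by gcongr
    _ = _ := by field_simp

lemma prob_le {n t e : ℕ} {D ρ : ℝ} (hD : 1 ≤ D) (ht1 : (1 : ℝ) ≤ t) (hρ0 : 0 ≤ ρ)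
    (hn : (n : ℝ) ≤ 2 ^ 48 * t ^ 48) (a1 : (e : ℝ) ≤ D * t ^ 12) :
    n * (2001 / 2002) ^ (2 * t ^ 3) + ((t ^ 3 + 1 : ℕ) : ℝ) * (n * (1 / 2) ^ (2 * t ^ 3)) +
      e * (n * (CB D / t) ^ (2 * 31)) + e * (n * (2 * (CB D + 32 * D) / t ^ 2) ^ (2 * 16)) +
      n * ρ ^ (2 * t ^ 3) ≤ geo (2001 / 2002) t + geo (1 / 2) t + D * 2 ^ 48 * CB D ^ 62 / t +
      D * 2 ^ 48 * (2 * (CB D + 32 * D)) ^ 32 / t + geo ρ t := by
  have hCB : 0 ≤ CB D := by unfold CB; positivity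
  have e4 := one_le_pow₀ (n := 3) ht1
  have e3 : (t : ℝ) ^ 3 + 1 ≤ 2 * t ^ 3 := by linarith
  have b1 := le_geo (ρ := 2001 / 2002) (by norm_num) ht1 hn (a := 1) (by linarith)
  have b2 := le_geo (ρ := 1 / 2) (by norm_num) ht1 hn (a := ((t ^ 3 + 1 : ℕ) : ℝ))
    (by push_cast; exact e3)
  have b5 := le_geo hρ0 ht1 hn (a := 1) (by linarith)
  generalize CB D = C at *
  have b3 : e * (n * (C / t) ^ (2 * 31)) ≤ D * 2 ^ 48 * C ^ 62 / t := by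
    rw [div_pow]
    exact div_aux hD ht1 (pow_nonneg hCB _) hn a1 (pow_le_pow_right₀ ht1 (by norm_num))
  have hE : 0 ≤ 2 * (C + 32 * D) := by positivity
  generalize 2 * (C + 32 * D) = E at *
  have b4 : e * (n * (E / t ^ 2) ^ (2 * 16)) ≤ D * 2 ^ 48 * E ^ 32 / t := by
    rw [div_pow, ← pow_mul]
    exact div_aux hD ht1 (pow_nonneg hE _) hn a1 (pow_le_pow_right₀ ht1 (by norm_num))
  rw [one_mul] at b1 b5
  exact add_le_add (add_le_add (add_le_add (add_le_add b1 b2) b3) b4) b5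

lemma exists_k {L T t : ℝ} {k : ℝ} (hL : 10 ^ 8 ≤ L) (ht : 1 ≤ t) (hk : k = L * (t + 1) ^ 12)
    (hT : T ≤ (t + 1) ^ 24) : L * t ≤ k ∧ 4 * k + 3 ≤ 20480 * L * t ^ 12 ∧
      T * (3 / k) ^ 2 ≤ 1 / 10 ^ 13 := by
  have t12 : (1 : ℝ) ≤ t ^ 12 := one_le_pow₀ ht
  refine ⟨?_, ?_, ?_⟩
  · rw [hk]
    exact mul_le_mul_of_nonneg_left ((le_self_pow₀ ht (show 12 ≠ 0 by norm_num)).trans
      (pow_le_pow_left₀ (by positivity) (by linarith) 12)) (by positivity)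
  · have h1 := pow_le_pow_left₀ (by positivity) (show (t : ℝ) + 1 ≤ 2 * t by linarith) 12
    rw [mul_pow] at h1
    have h2 := mul_le_mul_of_nonneg_left h1 (show 0 ≤ L by linarith)
    have h3 : 1 ≤ L * t ^ 12 := one_le_mul_of_one_le_of_one_le (by linarith) t12
    rw [hk]; linarith
  · rw [div_pow, ← mul_div_assoc, hk, div_le_div_iff₀ (by positivity) (by norm_num),
      mul_pow, ← pow_mul]
    have a4 : (10 : ℝ) ^ 16 ≤ L ^ 2 := by nlinarith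
    have a6 : 0 ≤ ((t : ℝ) + 1) ^ (12 * 2) := by positivity
    have a5 := mul_le_mul_of_nonneg_right a4 a6
    have : (t + 1) ^ 24 = (t + 1) ^ (12 * 2) := by norm_num
    linarith

lemma final_most (J L : ℕ) (hJ : 5 * 10 ^ 6 ≤ J) (hL : 10 ^ 8 ≤ L) :
    ∃ b : ℕ → ℝ, Tendsto b atTop (𝓝 0) ∧ ∃ t0 : ℝ, ∀ n t : ℕ, (t : ℝ) ^ 48 ≤ n →
      (n : ℝ) ≤ (t + 1) ^ 48 → t0 ≤ t → Most (Good n) (b t) := by
  obtain ⟨K, hK, hmain⟩ := mainS
  have hL' : (10 : ℝ) ^ 8 ≤ L := by exact_mod_cast hL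
  obtain ⟨D, hDd⟩ : ∃ D : ℝ, D = 20480 * L := ⟨_, rfl⟩
  have hD : 1 ≤ D := by linarith
  obtain ⟨ρ, hρ⟩ : ∃ ρ : ℝ, ρ = (K + 16 * J + 11750 / 10 ^ 5) / (K + 16 * J + 11751 / 10 ^ 5) :=
    ⟨_, rfl⟩
  have hρ0 : 0 ≤ ρ := by rw [hρ]; positivity
  have hρ1 : ρ < 1 := by rw [hρ, div_lt_one (by positivity)]; linarith
  refine ⟨fun t => geo (2001 / 2002) t + geo (1 / 2) t + D * 2 ^ 48 * CB D ^ 62 / t +
    D * 2 ^ 48 * (2 * (CB D + 32 * D)) ^ 32 / t + geo ρ t, ?_,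
    3000 + (J + 56) + 10 ^ 6 * K + 10 ^ 16 * J ^ 2 + 392 * D, fun n t hlo hhi ht0 => ?_⟩
  · have := ((((tendsto_geo (ρ := 2001 / 2002) (by norm_num) (by norm_num)).add
      (tendsto_geo (ρ := 1 / 2) (by norm_num) (by norm_num))).add
      (tendsto_const_div_atTop_nhds_zero_nat (D * 2 ^ 48 * CB D ^ 62))).add
      (tendsto_const_div_atTop_nhds_zero_nat (D * 2 ^ 48 * (2 * (CB D + 32 * D)) ^ 32))).add
      (tendsto_geo hρ0 hρ1)
    simp only [add_zero] at this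
    exact this
  have z1 : (0 : ℝ) ≤ J := by positivity
  have z2 : (0 : ℝ) ≤ 10 ^ 16 * J ^ 2 := by positivity
  have ht : (3000 : ℝ) ≤ t := by linarith
  have ht1 : (1 : ℝ) ≤ t := by linarith
  have hDt : 392 * D ≤ t := by linarith
  have h48 : (3000 : ℝ) ≤ t ^ 48 := ht.trans (le_self_pow₀ ht1 (by norm_num))
  have hn : (n : ℝ) ≤ 2 ^ 48 * t ^ 48 := by
    rw [← mul_pow]; exact hhi.trans (pow_le_pow_left₀ (by positivity) (by linarith) _)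
  obtain ⟨N, hNd⟩ : ∃ N, N = √((n : ℝ) - 2) := ⟨_, rfl⟩
  have hN2 : N ^ 2 = n - 2 := by rw [hNd]; exact Real.sq_sqrt (by linarith)
  have hN0 : 0 ≤ N := by rw [hNd]; exact Real.sqrt_nonneg _
  have h : Sc n t N := ⟨hN2, (abs_le_of_sq_le_sq' (by
    rw [← pow_mul, mul_pow, hN2, show 24 * 2 = 48 from rfl]
    generalize (t : ℝ) ^ 48 = u at *
    linarith) (by positivity)).2, ht⟩
  have hNu : N ≤ (t + 1) ^ 24 := (abs_le_of_sq_le_sq' (by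
    rw [← pow_mul, hN2, show 24 * 2 = 48 from rfl]
    exact (sub_le_self _ (by norm_num)).trans hhi) (by positivity)).2
  obtain ⟨k, hk⟩ : ∃ k : ℕ, (k : ℝ) = L * (t + 1) ^ 12 := ⟨L * (t + 1) ^ 12, by
    rw [Nat.cast_mul, Nat.cast_pow, Nat.cast_add, Nat.cast_one]⟩
  obtain ⟨k1, k2, k3⟩ := exists_k hL' ht1 hk hNu
  have k4 : (t : ℝ) ≤ L * t := le_mul_of_one_le_left (by linarith) (by linarith)
  have k5 : (L : ℝ) ≤ L * t := le_mul_of_one_le_right (by linarith) ht1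
  have hk8 : (10 : ℝ) ^ 8 ≤ k := by linarith
  obtain ⟨X⟩ := exists_apx k (by exact_mod_cast (show (600 : ℝ) ≤ k by linarith))
  have he : ((4 * k : ℕ) : ℝ) + 3 ≤ D * t ^ 12 := by rw [hDd]; push_cast; exact k2
  have hJe : J ≤ 4 * k + 1 := by
    have : (J : ℝ) ≤ 4 * k + 1 := by linarith
    exact_mod_cast this
  obtain ⟨-, c1, c2⟩ := X.coef (by positivity) (by
    rw [div_le_div_iff₀ (by linarith) (by norm_num)]; linarith)
  have M1 := h.normS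
  have M2 := Most.forall (t ^ 3 + 1) fun j hj => h.hadS (Nat.lt_succ_iff.1 hj)
  have M3 := Most.forall (4 * k + 1) fun j hj => h.hadB hD he hDt (Nat.lt_succ_iff.1 hj)
  have M4 := Most.forall (4 * k + 1) fun j hj => h.dgB hD he hDt (Nat.lt_succ_iff.1 hj)
  have M5 := hmain n t J N (fun j => cf (fun y => X.p.eval y) (j + 2)) h (by omega) (by linarith)
    (by linarith) (by linarith) (fun j hj => c1 j (by omega)) (c2 J hJe).1 (c2 J hJe).2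
  rw [← hρ] at M5
  refine ((((M1.and M2).and M3).and M4).and M5).mono ?_ (prob_le hD ht1 hρ0 hn (by
    push_cast at he ⊢; linarith))
  rintro G ⟨⟨⟨⟨g1, g2⟩, g3⟩, g4⟩, g5⟩
  exact good_of h hD hDt he hk8 k3 hJ hJe X g1 g2 g3 g4 g5

theorem final_main :
    Tendsto (fun n : ℕ => (Nat.card {G : SimpleGraph (Fin n) // Good n G} : ℝ) /
      (Nat.card (SimpleGraph (Fin n)) : ℝ)) atTop (𝓝 1) := by
  obtain ⟨b, hb, t0, h⟩ := final_most _ _ le_rfl le_rfl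
  have ht : Tendsto (fun n => Nat.nthRoot 48 n) atTop atTop := by
    rw [tendsto_atTop]
    intro a
    filter_upwards [eventually_ge_atTop (a ^ 48)] with n hn
    exact (Nat.le_nthRoot_iff (by norm_num)).2 hn
  refine tendsto_one_of_bad _ _ (hb.comp ht) ?_
  filter_upwards [(tendsto_natCast_atTop_atTop.comp ht).eventually_ge_atTop t0] with n hn
  have h1 := (Nat.cast_le (α := ℝ)).2 ((Nat.pow_nthRoot_le_iff (n := 48) (a := n)).2
    (Or.inl (by norm_num)))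
  have h2 := (Nat.cast_le (α := ℝ)).2 (Nat.lt_pow_nthRoot_add_one (n := 48) (by norm_num) n).le
  rw [Nat.cast_pow] at h1
  rw [Nat.cast_pow, Nat.cast_add, Nat.cast_one] at h2
  exact h n _ h1 h2 hn

end Pool.Agent.Lib.MP_dfd018_pr
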