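import Pool.Agent.Lib.MP_dfd018_pr.Defs

/-!
Fourier side of random sign matrices: states, characters, and the transfer of walks.
-/

namespace Pool.Agent.Lib.MP_dfd018_pr

open Finset Matrix
open scoped symmDiff

variable {n : ℕ}

open Classical in
noncomputable def sg (G : SimpleGraph (Fin n)) (e : Sym2 (Fin n)) : ℝ :=
  if e ∈ G.edgeSet then 1 else -1

noncomputable def chi (G : SimpleGraph (Fin n)) (O : Finset (Sym2 (Fin n))) : ℝ :=
  ∏ e ∈ O, sg G e

lemma sg_sq (G : SimpleGraph (Fin n)) (e : Sym2 (Fin n)) : sg G e * sg G e = 1 := by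
  unfold sg; split_ifs <;> norm_num

lemma chi_sq (G : SimpleGraph (Fin n)) (O : Finset (Sym2 (Fin n))) : chi G O * chi G O = 1 := by
  unfold chi; rw [← prod_mul_distrib]; simp [sg_sq]

lemma chi_symmDiff (G : SimpleGraph (Fin n)) (O P : Finset (Sym2 (Fin n))) :
    chi G (O ∆ P) = chi G O * chi G P := by
  have h1 : chi G O = chi G (O \ P) * chi G (O ∩ P) := by
    unfold chi; rw [← prod_union (disjoint_sdiff_inter O P), sdiff_union_inter]
  have h2 : chi G P = chi G (P \ O) * chi G (O ∩ P) := by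
    unfold chi; rw [inter_comm, ← prod_union (disjoint_sdiff_inter P O), sdiff_union_inter]
  have h3 : chi G (O ∆ P) = chi G (O \ P) * chi G (P \ O) := by
    unfold chi
    rw [symmDiff_def, sup_eq_union, prod_union disjoint_sdiff_sdiff]
  rw [h3, h1, h2]
  have := chi_sq G (O ∩ P)
  linear_combination (-(chi G (O \ P) * chi G (P \ O))) * this

lemma pmAdj_eq (G : SimpleGraph (Fin n)) {u v : Fin n} (h : u ≠ v) :
    pmAdj G u v = sg G s(u, v) := by
  unfold pmAdj sg; rw [if_neg h]; by_cases h' : G.Adj u v <;> simp [h']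

lemma pmAdj_self (G : SimpleGraph (Fin n)) (u : Fin n) : pmAdj G u u = 0 := by
  unfold pmAdj; simp

lemma pmAdj_symm (G : SimpleGraph (Fin n)) (u v : Fin n) : pmAdj G u v = pmAdj G v u := by
  unfold pmAdj
  by_cases h : u = v
  · simp [h]
  · have h2 : ¬ v = u := fun h' => h h'.symm
    by_cases h' : G.Adj u v
    · simp [h, h2, h', h'.symm]
    · have : ¬ G.Adj v u := fun x => h' x.symm
      simp [h, h2, h', this]

lemma sum_chi (O : Finset (Sym2 (Fin n))) (hO : ∀ e ∈ O, ¬ e.IsDiag) (hne : O ≠ ∅) :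
    ∑ G : SimpleGraph (Fin n), chi G O = 0 := by
  obtain ⟨e, he⟩ := nonempty_iff_ne_empty.2 hne
  let H : SimpleGraph (Fin n) := SimpleGraph.fromEdgeSet {e}
  have hH : ∀ f, f ∈ H.edgeSet ↔ f = e := by
    intro f
    simp only [H, SimpleGraph.edgeSet_fromEdgeSet, Set.mem_sdiff, Set.mem_singleton_iff,
      Sym2.mem_diagSet]
    constructor
    · exact fun h => h.1
    · rintro rfl; exact ⟨rfl, hO _ he⟩
  have hsg : ∀ G : SimpleGraph (Fin n), ∀ f, sg (G ∆ H) f = if f = e then - sg G f else sg G f := by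
    intro G f
    have : f ∈ (G ∆ H).edgeSet ↔ ((f ∈ G.edgeSet ∧ f ≠ e) ∨ (f = e ∧ f ∉ G.edgeSet)) := by
      rw [symmDiff_def, SimpleGraph.edgeSet_sup, SimpleGraph.edgeSet_sdiff,
        SimpleGraph.edgeSet_sdiff]
      simp [hH]
    unfold sg
    by_cases h1 : f = e <;> by_cases h2 : f ∈ G.edgeSet <;> simp [this, h1, h2] <;> simp_all
  have hchi : ∀ G : SimpleGraph (Fin n), chi (G ∆ H) O = - chi G O := by
    intro G
    unfold chi
    rw [← mul_prod_erase O _ he, ← mul_prod_erase O (sg G) he, hsg G e, if_pos rfl]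
    have : ∏ x ∈ O.erase e, sg (G ∆ H) x = ∏ x ∈ O.erase e, sg G x := by
      apply prod_congr rfl
      intro x hx
      rw [hsg, if_neg (ne_of_mem_erase hx)]
    rw [this]; ring
  have hbij : Function.Bijective (fun G : SimpleGraph (Fin n) => G ∆ H) :=
    (symmDiff_left_involutive H).bijective
  have := hbij.sum_comp (fun G => chi G O)
  simp only [hchi, sum_neg_distrib] at this
  linarith

/-- A state: the position of the walker and the set of edges used an odd number of times. -/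
abbrev St (n : ℕ) := Fin n × Finset (Sym2 (Fin n))

/-- The vector valued function on graphs with Fourier coefficients `a`. -/
noncomputable def Phi (a : St n → ℝ) (G : SimpleGraph (Fin n)) (u : Fin n) : ℝ :=
  ∑ O : Finset (Sym2 (Fin n)), a (u, O) * chi G O

lemma sum_symmDiff_shift (P : Finset (Sym2 (Fin n))) (f : Finset (Sym2 (Fin n)) → ℝ) :
    ∑ O, f (O ∆ P) = ∑ O, f O :=
  (symmDiff_left_involutive P).bijective.sum_comp f

lemma Phi_shift (a : St n → ℝ) (G : SimpleGraph (Fin n)) (v : Fin n)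
    (P : Finset (Sym2 (Fin n))) :
    ∑ O : Finset (Sym2 (Fin n)), a (v, O ∆ P) * chi G O = chi G P * Phi a G v := by
  unfold Phi
  rw [← sum_symmDiff_shift P (fun O => a (v, O) * chi G O), mul_sum]
  apply sum_congr rfl
  intro O _
  rw [chi_symmDiff]
  have := chi_sq G P
  linear_combination (-(a (v, O ∆ P) * chi G O)) * this

/-- No loop edge is used. -/
def Nd (s : St n) : Prop := ∀ e ∈ s.2, ¬ e.IsDiag

lemma sum_Phi (a : St n → ℝ) (ha : ∀ s, a s ≠ 0 → Nd s) (u : Fin n) :
    ∑ G : SimpleGraph (Fin n), Phi a G u = (Fintype.card (SimpleGraph (Fin n)) : ℝ) * a (u, ∅) := by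
  unfold Phi
  rw [sum_comm, sum_eq_single (∅ : Finset (Sym2 (Fin n)))]
  · simp [chi, mul_comm]
  · intro O _ hO
    rw [← mul_sum]
    by_cases h : a (u, O) = 0
    · simp [h]
    · rw [sum_chi O (ha _ h) hO, mul_zero]
  · simp

/-- A linear operator on coefficient vectors represents a random matrix. -/
def Rep (K : Matrix (St n) (St n) ℝ) (M : SimpleGraph (Fin n) → Matrix (Fin n) (Fin n) ℝ) : Prop :=
  ∀ a G, Phi (K *ᵥ a) G = M G *ᵥ Phi a G

lemma Phi_add (a b : St n → ℝ) (G : SimpleGraph (Fin n)) : Phi (a + b) G = Phi a G + Phi b G := by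
  funext u; simp [Phi, add_mul, sum_add_distrib]

lemma Phi_smul (c : ℝ) (a : St n → ℝ) (G : SimpleGraph (Fin n)) :
    Phi (c • a) G = c • Phi a G := by
  funext u; simp [Phi, mul_sum, mul_assoc]

lemma Rep.add {K L : Matrix (St n) (St n) ℝ} {M N} (h : Rep K M) (h' : Rep L N) :
    Rep (K + L) (fun G => M G + N G) := by
  intro a G; rw [add_mulVec, Phi_add, h, h', add_mulVec]

lemma Rep.smul {K : Matrix (St n) (St n) ℝ} {M} (c : ℝ) (h : Rep K M) :
    Rep (c • K) (fun G => c • M G) := by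
  intro a G; rw [smul_mulVec, Phi_smul, h, smul_mulVec]

lemma Rep.mul {K L : Matrix (St n) (St n) ℝ} {M N} (h : Rep K M) (h' : Rep L N) :
    Rep (K * L) (fun G => M G * N G) := by
  intro a G; rw [← mulVec_mulVec, h, h', mulVec_mulVec]

lemma Rep.one : Rep (1 : Matrix (St n) (St n) ℝ) (fun _ => 1) := by
  intro a G; simp

lemma Rep.pow {K : Matrix (St n) (St n) ℝ} {M} (h : Rep K M) (m : ℕ) :
    Rep (K ^ m) (fun G => M G ^ m) := by
  induction m with
  | zero => simpa using Rep.one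
  | succ m ih => simpa [pow_succ] using ih.mul h

lemma Phi_single (u : Fin n) (G : SimpleGraph (Fin n)) :
    Phi (Pi.single ((u, ∅) : St n) (1 : ℝ)) G = Pi.single u 1 := by
  funext v
  unfold Phi
  rw [sum_eq_single (∅ : Finset (Sym2 (Fin n)))]
  · by_cases h : v = u
    · subst h; simp [chi]
    · simp [h]
  · intro O _ hO
    simp [hO]
  · simp

/-- The trace formula. -/
lemma Rep.sum_trace {K : Matrix (St n) (St n) ℝ} {M} (h : Rep K M)
    (hK : ∀ u : Fin n, ∀ s, (K *ᵥ Pi.single ((u, ∅) : St n) (1 : ℝ)) s ≠ 0 → Nd s) :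
    ∑ G, (M G).trace = (Fintype.card (SimpleGraph (Fin n)) : ℝ) *
      ∑ u : Fin n, (K *ᵥ Pi.single ((u, ∅) : St n) (1 : ℝ)) (u, ∅) := by
  rw [mul_sum]
  simp only [← sum_Phi _ (hK _)]
  rw [sum_comm]
  apply sum_congr rfl
  intro G _
  unfold trace
  apply sum_congr rfl
  intro u _
  rw [h, Phi_single]
  simp

end Pool.Agent.Lib.MP_dfd018_pr
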