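import Pool.Agent.Lib.MP_dfd018_pr.CycQ
import Pool.Agent.Lib.MP_dfd018_pr.Cert

/-!
The main quadratic form on the Fourier side and the counts of exceptional graphs.
-/

namespace Pool.Agent.Lib.MP_dfd018_pr

open Finset Matrix Polynomial
open scoped symmDiff

variable {n : ℕ}

lemma growE_Cr : GrowE 1 (Cr (n := n)) := by
  apply growE_of_entries
  intro t s h hs
  have h' : CrRel t s := by
    by_contra h0; exact h (by simp only [Cr, if_neg h0])
  refine ⟨Nd_symmDiff (eq_symmDiff_comm.1 h'.2) hs (by simpa using h'.ne), ?_⟩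
  rw [eq_symmDiff_comm.1 h'.2]
  exact card_symmDiff_single_le _ _

lemma CrT_Cr (z : St n → ℝ) (s : St n) :
    (Crᵀ *ᵥ (Cr *ᵥ z)) s = ((n : ℝ) - (V s).card) * z s := by
  classical
  rw [← Cr_col, sum_mul]
  simp only [mulVec, dotProduct, transpose_apply]
  refine sum_congr rfl fun t _ => ?_
  by_cases h : CrRel t s
  · rw [sum_eq_single s (fun b _ hb => by
      have : Cr t b = 0 := if_neg fun h' => hb (h'.unique h)
      simp [this]) (by simp)]
    simp [Cr, h]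
  · simp [Cr, h]

lemma CrRel.deg_one {t s : St n} (h : CrRel t s) : deg t.2 t.1 = 1 :=
  le_antisymm (card_le_one.2 fun _ he _ hf => (h.edge_eq (mem_filter.1 he).1 (mem_filter.1 he).2).trans
    (h.edge_eq (mem_filter.1 hf).1 (mem_filter.1 hf).2).symm) (deg_pos h.mem (by simp))

noncomputable def sys (P : Par n) (hn : P.N ^ 2 ≤ n) : Sys (St n) where
  c := P.N⁻¹ • Cr
  e := P.N⁻¹ • EA
  Lo := LowE
  R := P.R
  δ := P.ε
  lo_add := LowE.add
  lo_smul := LowE.smul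
  lo_mono := LowE.mono
  lo_c := fun h => (growE_Cr.smul _) _ _ h
  lo_a := fun h => by
    rw [transpose_smul, ← smul_add, ← smul_add, ← KA_eq]
    exact (growE_KA.smul _) _ _ h
  he := by
    refine IsSymm.smul ?_ _
    ext t s; simp [EA_symm s t]
  δ0 := P.hε
  δ1 := P.hε1
  hc := fun z => by
    have hN := P.one_le_N
    have hε := P.hε
    rw [smul_mulVec, nrm_smul, abs_of_pos (by positivity), inv_mul_le_iff₀ (by linarith)]
    refine nrm_le (mul_nonneg (by linarith) (mul_nonneg (by linarith) (nrm_nonneg z))) ?_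
    refine (Cr_norm_le z).trans ?_
    rw [mul_pow, mul_pow, nrm_sq, ← mul_assoc]
    refine mul_le_mul_of_nonneg_right (P.hn.trans ?_) (dot_self_nonneg z)
    exact mul_le_mul_of_nonneg_left (by nlinarith) (by positivity)
  hcc := fun z hz => by
    have hN := P.one_le_N
    have hε := P.hε
    refine nrm_le (mul_nonneg hε (nrm_nonneg z)) ?_
    rw [mul_pow, nrm_sq, dot_self_eq, dot_self_eq, mul_sum]
    refine sum_le_sum fun s _ => ?_
    have h3 : ((P.N⁻¹ • Cr)ᵀ *ᵥ (P.N⁻¹ • Cr) *ᵥ z - z) s =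
        ((n - (V s).card - P.N ^ 2) / P.N ^ 2) * z s := by
      simp only [transpose_smul, smul_mulVec, mulVec_smul, CrT_Cr, Pi.sub_apply, Pi.smul_apply,
        smul_eq_mul]
      field_simp
    by_cases h : z s = 0
    · rw [h3, h]; simp
    have h1 : ((V s).card : ℝ) ≤ 2 * P.R + 1 := by exact_mod_cast (hz.low s h).2
    have h2 : (0 : ℝ) ≤ (V s).card := by positivity
    rw [h3, mul_pow]
    refine mul_le_mul_of_nonneg_right (sq_le_sq' ?_ ?_) (by positivity)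
    · rw [le_div_iff₀ (by positivity)]
      have h4 := P.hR
      have h5 : P.ε * P.N ≤ P.ε * P.N ^ 2 := mul_le_mul_of_nonneg_left (by nlinarith) hε
      have h6 : (0 : ℝ) ≤ P.R := by positivity
      linarith
    · rw [div_le_iff₀ (by positivity)]
      have := P.hn
      linarith
  hee := fun z hz => by
    have hN := P.one_le_N
    have hε := P.hε
    rw [smul_mulVec, nrm_smul, abs_of_pos (by positivity), inv_mul_le_iff₀ (by linarith)]
    refine nrm_le (mul_nonneg (by linarith) (mul_nonneg hε (nrm_nonneg z))) ?_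
    refine (EA_norm hz.low (by omega)).trans ?_
    rw [← mul_assoc, mul_pow, nrm_sq]
    refine mul_le_mul_of_nonneg_right (pow_le_pow_left₀ (by positivity) ?_ 2) (dot_self_nonneg z)
    have h4 := P.hR
    have h6 : (0 : ℝ) ≤ P.R := by positivity
    push_cast
    linarith

lemma sys_a (P : Par n) (hn : P.N ^ 2 ≤ n) : (sys P hn).a = P.N⁻¹ • KA := by
  simp only [Sys.a, sys]
  rw [transpose_smul, ← smul_add, ← smul_add, ← KA_eq]

/-- The polynomial of the certificate. -/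
noncomputable def Rp : ℝ[X] := LP cu * (C (145 / 144) - C (1 / 2) * X) * LP cu

lemma Sys.Rp_le {ι : Type} [Fintype ι] [DecidableEq ι] (S : Sys ι) {r : ℕ} {w : ι → ℝ}
    (hw : S.Lo r w) (hr : r + 14 ≤ S.R) : w ⬝ᵥ aeval S.a Rp *ᵥ w ≤ 4 * cU cu ^ 2 * (w ⬝ᵥ w) := by
  have h4 : w ⬝ᵥ aeval S.a Rp *ᵥ w =
      145 / 144 * ((aeval S.a (LP cu) *ᵥ w) ⬝ᵥ (aeval S.a (LP cu) *ᵥ w)) -
        1 / 2 * ((aeval S.a (LP cu) *ᵥ w) ⬝ᵥ S.a *ᵥ (aeval S.a (LP cu) *ᵥ w)) := by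
    rw [Rp, map_mul, map_mul, ← mulVec_mulVec, ← mulVec_mulVec,
      dot_symm (isSymm_aeval S.a_symm _), dotProduct_comm]
    simp only [map_sub, map_mul, aeval_C, aeval_X, Algebra.algebraMap_eq_smul_one, sub_mulVec,
      smul_mul_assoc, one_mul, smul_mulVec, one_mulVec, dotProduct_sub, dotProduct_smul,
      smul_eq_mul]
  have h1 := S.UA_le hw cu (by rw [cu_length]; exact hr)
  have h2 := S.a_norm (S.lo_mono (S.UA_lo hw cu) (by rw [cu_length]; exact hr))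
  set z := aeval S.a (LP cu) *ᵥ w
  have h3 := (abs_le.1 (abs_dot_le z (S.a *ᵥ z))).1
  have h5 := pow_le_pow_left₀ (nrm_nonneg _) h1 2
  have h6 := mul_le_mul_of_nonneg_left h2 (nrm_nonneg z)
  rw [h4, ← nrm_sq, ← nrm_sq w]
  rw [mul_pow] at h5
  nlinarith [sq_nonneg (nrm z)]

lemma growE_LP {K : Matrix (St n) (St n) ℝ} (hK : GrowE 1 K) (us : List ℚ) :
    GrowE us.length (aeval K (LP us)) := by
  induction us with
  | nil => simpa [LP] using GrowE.zero
  | cons u us ih =>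
    simp only [LP, map_add, map_mul, aeval_X, aeval_C, Algebra.algebraMap_eq_smul_one]
    exact ((GrowE.one.mono (by omega)).smul _).add (hK.mul ih)

lemma growE_Rp {K : Matrix (St n) (St n) ℝ} (hK : GrowE 1 K) : GrowE 29 (aeval K Rp) := by
  have h := growE_LP hK cu
  rw [cu_length] at h
  simp only [Rp, map_sub, map_mul, aeval_X, aeval_C, Algebra.algebraMap_eq_smul_one]
  exact (h.mul (((GrowE.one.mono (by omega)).smul _).sub ((GrowE.one.smul _).mul hK))).mul h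

/-- The main operator. -/
noncomputable def KM (n : ℕ) (N T : ℝ) (J : ℕ) (c : ℕ → ℝ) : Matrix (St n) (St n) ℝ :=
  T • 1 - aeval (N⁻¹ • KA) Rp + ∑ k ∈ range J, (c k / (2 * N ^ (k + 2))) • Had (KB n (k + 2))

noncomputable def MM (N T : ℝ) (J : ℕ) (c : ℕ → ℝ) (G : SimpleGraph (Fin n)) :
    Matrix (Fin n) (Fin n) ℝ :=
  T • 1 - aeval (N⁻¹ • pmAdj G) Rp +
    ∑ k ∈ range J, (c k / (2 * N ^ (k + 2))) • hadamard (MB (k + 2) G) (pmAdj G)

lemma Rep.sum {ι : Type*} (S : Finset ι) {K : ι → Matrix (St n) (St n) ℝ}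
    {M : ι → SimpleGraph (Fin n) → Matrix (Fin n) (Fin n) ℝ}
    (h : ∀ i ∈ S, Rep (K i) (M i)) : Rep (∑ i ∈ S, K i) (fun G => ∑ i ∈ S, M i G) := by
  classical
  induction S using Finset.induction_on with
  | empty => intro a G; funext u; simp [Phi]
  | insert a S ha ih =>
    simp only [sum_insert ha]
    exact (h a (mem_insert_self _ _)).add (ih fun i hi => h i (mem_insert_of_mem hi))

lemma rep_KM (N T : ℝ) (J : ℕ) (c : ℕ → ℝ) : Rep (KM n N T J c) (MM N T J c) := by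
  have h := ((Rep.one.smul T).add (((rep_KA (n := n)).smul N⁻¹).aeval Rp |>.smul (-1))).add
    (Rep.sum (range J) fun k _ => ((rep_KB (k + 2)).had).smul (c k / (2 * N ^ (k + 2))))
  unfold KM MM
  simpa only [neg_one_smul, ← sub_eq_add_neg] using h

lemma isSymm_sum {ι κ : Type*} (S : Finset ι) {K : ι → Matrix κ κ ℝ}
    (h : ∀ i ∈ S, (K i).IsSymm) : (∑ i ∈ S, K i).IsSymm := by
  unfold IsSymm
  rw [transpose_sum]
  exact sum_congr rfl h

lemma KM_symm (N T : ℝ) (J : ℕ) (c : ℕ → ℝ) : (KM n N T J c).IsSymm :=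
  ((isSymm_one.smul _).sub (isSymm_aeval (KA_symm.smul _) _)).add
    (isSymm_sum _ fun _ _ => (Had_KB_symm _).smul _)

lemma pmAdj_isSymm' (G : SimpleGraph (Fin n)) : (pmAdj G).IsSymm := by
  ext i j; simp [pmAdj_symm G i j]

lemma hadamard_isSymm {A B : Matrix (Fin n) (Fin n) ℝ} (hA : A.IsSymm) (hB : B.IsSymm) :
    (hadamard A B).IsSymm := by
  ext i j; simp [hA.apply i j, hB.apply i j]

lemma MB_symm (j : ℕ) (G : SimpleGraph (Fin n)) : (MB j G).IsSymm :=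
  isSymm_aeval (pmAdj_isSymm' G) _

lemma MM_symm (N T : ℝ) (J : ℕ) (c : ℕ → ℝ) (G : SimpleGraph (Fin n)) : (MM N T J c G).IsSymm :=
  ((isSymm_one.smul _).sub (isSymm_aeval ((pmAdj_isSymm' G).smul _) _)).add
    (isSymm_sum _ fun _ _ => (hadamard_isSymm (MB_symm _ G) (pmAdj_isSymm' G)).smul _)

lemma growE_KM (N T : ℝ) (J : ℕ) (c : ℕ → ℝ) : GrowE (J + 29) (KM n N T J c) :=
  (((GrowE.one.mono (by omega)).smul _).sub ((growE_Rp (growE_KA.smul _)).mono (by omega))).add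
    (GrowE.sum _ fun k hk => (((growE_KB _).had).mono (by have := mem_range.1 hk; omega)).smul _)

theorem KM_quad : ∃ K : ℝ, 0 ≤ K ∧ ∀ (n : ℕ) (P : Par n) (J : ℕ) (c : ℕ → ℝ) (r : ℕ)
    (e2 δ S S3 : ℝ), P.g = 1 → P.N ^ 2 ≤ n → r + (J + 56) ≤ P.R →
    4 * (2 * (P.R : ℝ) + 1) ^ 2 ≤ e2 * P.N → 0 < δ →
    (∀ k < J, 2 * ((1 + P.ε) * (1 + 5 * P.ε) ^ (k + 2) - (1 - P.ε) ^ (k + 2)) +
      3 * e2 * (1 + 5 * P.ε) ^ (k + 2) ≤ δ ^ 2) →
    (∀ k < J, (1 + 5 * P.ε) ^ (k + 2) * (4 + 3 * e2) + 8 ≤ 16) →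
    (∀ k < J, |c k| ≤ 2) →
    (1 + P.ε) ^ (J + 2) * ∑ k ∈ range J, c k ^ 2 / 4 ≤ S →
    (1 + P.ε) ^ (J + 2) * ∑ k ∈ range J, (if 2 ≤ k then c k ^ 2 / 4 else 0) ≤ S3 →
    3 * S + 4 * S3 ≤ (595 / 1000) ^ 2 → ∀ z, LowE r z →
    |z ⬝ᵥ KM n P.N (K + 16 * J) J c *ᵥ z| ≤
      (K + 16 * J + (S / (595 / 1000) + 2 / 10 ^ 6 + K * P.ε + 8 * J * δ)) * (z ⬝ᵥ z) := by
  obtain ⟨K, hK, hv⟩ := vac_cert
  refine ⟨K + 4 * cU cu ^ 2, by positivity, ?_⟩
  intro n P J c r e2 δ S S3 hg hn hr he hδ h1 h2 hc hS hS3 h3 z hz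
  have hN := P.one_le_N
  have hε := P.hε
  have hzz := dot_self_nonneg z
  set x : St n → ℝ := fun t => if deg t.2 t.1 = 1 then 0 else z t with hx
  have hxl : LowE r x := fun s hs => hz s (by
    intro h; apply hs; simp [hx, h])
  have hxx : x ⬝ᵥ x = ∑ t, (if deg t.2 t.1 = 1 then 0 else z t ^ 2) := by
    rw [dot_self_eq]; exact sum_congr rfl fun t _ => by simp only [hx]; split_ifs <;> simp
  have a1 := hv (St n) (sys P hn) r z x hz hxl (by
      simp only [sys, transpose_smul, smul_mulVec]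
      rw [smul_eq_zero_iff_right (by positivity)]
      funext s
      refine sum_eq_zero fun t _ => ?_
      by_cases h : CrRel t s
      · simp [hx, h.deg_one]
      · simp [Cr, h])
    (sum_congr rfl fun t _ => by simp only [hx]; split_ifs <;> simp) (by change r + 56 ≤ P.R; omega)
  have a2 := (sys P hn).Rp_le hz (by change r + 14 ≤ P.R; omega)
  rw [sys_a] at a1 a2
  change _ - (_ + K * P.ε) * _ ≤ z ⬝ᵥ aeval (P.N⁻¹ • KA) Rp *ᵥ z at a1
  have hγ : ∀ k < J, (c k / (2 * P.N ^ (k + 2))) ^ 2 * (n : ℝ) ^ (k + 2) ≤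
      (1 + P.ε) ^ (J + 2) * (c k ^ 2 / 4) := by
    intro k hk
    calc _ ≤ (c k / (2 * P.N ^ (k + 2))) ^ 2 * (P.N ^ 2 * (1 + P.ε)) ^ (k + 2) :=
          mul_le_mul_of_nonneg_left (pow_le_pow_left₀ (by positivity) P.hn _) (by positivity)
      _ = (1 + P.ε) ^ (k + 2) * (c k ^ 2 / 4) := by
          rw [mul_pow, ← pow_mul, mul_comm 2 (k + 2), pow_mul]; field_simp; norm_num
      _ ≤ _ := mul_le_mul_of_nonneg_right (pow_le_pow_right₀ (by linarith) (by omega))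
          (by positivity)
  have a3 := GG_quad J (fun k => c k / (2 * P.N ^ (k + 2))) z (κ := 595 / 1000) (by norm_num)
    (le_trans (by rw [mul_sum]; exact sum_le_sum fun k hk => hγ k (mem_range.1 hk)) hS)
    (le_trans (by
      rw [mul_sum]
      refine sum_le_sum fun k hk => ?_
      split_ifs
      exacts [hγ k (mem_range.1 hk), by simp]) hS3) h3
  have hcN : ∀ k < J, ∀ y b : ℝ, |y| ≤ b * P.N ^ (k + 2) * (z ⬝ᵥ z) → 0 ≤ b →
      |c k / (2 * P.N ^ (k + 2)) * y| ≤ b * (z ⬝ᵥ z) := by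
    intro k hk y b hy hb
    rw [abs_mul, abs_div, abs_of_pos (show 0 < 2 * P.N ^ (k + 2) by positivity)]
    calc _ ≤ 2 / (2 * P.N ^ (k + 2)) * (b * P.N ^ (k + 2) * (z ⬝ᵥ z)) := by
          gcongr; exact hc k hk
      _ = _ := by field_simp
  have a4 : ∀ k ∈ range J, c k / (2 * P.N ^ (k + 2)) * (z ⬝ᵥ Had (KB n (k + 2)) *ᵥ z) ≤
      c k / (2 * P.N ^ (k + 2)) * (2 * (z ⬝ᵥ GG (k + 2) *ᵥ z)) + 8 * δ * (z ⬝ᵥ z) := by
    intro k hk
    have hk' := mem_range.1 hk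
    have := (abs_le.1 (hcN k hk' _ _ (E_bound P hg hn k hz (by omega) he hδ (h1 k hk') (h2 k hk'))
      (by positivity))).2
    linarith
  have a5 : ∀ k ∈ range J, -(16 * (z ⬝ᵥ z)) ≤
      c k / (2 * P.N ^ (k + 2)) * (z ⬝ᵥ Had (KB n (k + 2)) *ᵥ z) := by
    intro k hk
    have hk' := mem_range.1 hk
    refine (abs_le.1 (hcN k hk' _ _ ((had_quad P hg k hz (by omega) he).trans ?_) (by norm_num))).1
    rw [mul_comm 16]
    exact mul_le_mul_of_nonneg_right (mul_le_mul_of_nonneg_left (h2 k hk') (by positivity)) hzz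
  have a6 := sum_le_sum a4
  have a7 := sum_le_sum a5
  rw [sum_add_distrib, sum_const, card_range, nsmul_eq_mul] at a6
  rw [sum_const, card_range, nsmul_eq_mul] at a7
  have e : z ⬝ᵥ KM n P.N (K + 4 * cU cu ^ 2 + 16 * J) J c *ᵥ z =
      (K + 4 * cU cu ^ 2 + 16 * J) * (z ⬝ᵥ z) - z ⬝ᵥ aeval (P.N⁻¹ • KA) Rp *ᵥ z +
      ∑ k ∈ range J, c k / (2 * P.N ^ (k + 2)) * (z ⬝ᵥ Had (KB n (k + 2)) *ᵥ z) := by
    simp only [KM, add_mulVec, sub_mulVec, smul_mulVec, one_mulVec, dotProduct_add, dotProduct_sub,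
      dotProduct_smul, smul_eq_mul, sum_mulVec, dotProduct_sum]
  have hS0 : 0 ≤ S := le_trans (by positivity) hS
  have b1 : 0 ≤ K * (z ⬝ᵥ z) := by positivity
  have b2 : 0 ≤ cU cu ^ 2 * P.ε * (z ⬝ᵥ z) := by positivity
  have b3 : 0 ≤ (K + 4 * cU cu ^ 2 + 16 * J + (S / (595 / 1000) + 2 / 10 ^ 6 +
      (K + 4 * cU cu ^ 2) * P.ε + 8 * J * δ)) * (z ⬝ᵥ z) := by positivity
  rw [e, abs_le, ← hxx] at *
  constructor <;> nlinarith

end Pool.Agent.Lib.MP_dfd018_pr
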