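import Pool.Agent.Lib.MP_dfd018_pr.Fourier

/-!
The moment method on the Fourier side.
-/

namespace Pool.Agent.Lib.MP_dfd018_pr

open Finset Matrix
open scoped symmDiff

variable {n : ℕ}

open Classical in
/-- The vertices seen by a state. -/
noncomputable def V (s : St n) : Finset (Fin n) :=
  univ.filter (fun w => w = s.1 ∨ ∃ e ∈ s.2, w ∈ e)

lemma mem_V {s : St n} {w : Fin n} : w ∈ V s ↔ w = s.1 ∨ ∃ e ∈ s.2, w ∈ e := by
  simp [V]

def Low (r : ℕ) (x : St n → ℝ) : Prop := ∀ s, x s ≠ 0 → Nd s ∧ (V s).card ≤ r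

lemma Low.mono {r R : ℕ} {x : St n → ℝ} (h : Low r x) (hr : r ≤ R) : Low R x :=
  fun s hs => ⟨(h s hs).1, (h s hs).2.trans hr⟩

lemma Low.add {r : ℕ} {x y : St n → ℝ} (h : Low r x) (h' : Low r y) : Low r (x + y) := by
  intro s hs
  by_cases hx : x s = 0
  · exact h' s (by simpa [hx] using hs)
  · exact h s hx

lemma Low.smul {r : ℕ} {x : St n → ℝ} (c : ℝ) (h : Low r x) : Low r (c • x) := by
  intro s hs
  exact h s (fun h0 => hs (by simp [h0]))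

lemma Low.sub {r : ℕ} {x y : St n → ℝ} (h : Low r x) (h' : Low r y) : Low r (x - y) := by
  have := h.add (h'.smul (-1))
  simpa [sub_eq_add_neg] using this

def Grow (d : ℕ) (K : Matrix (St n) (St n) ℝ) : Prop :=
  ∀ r x, Low r x → Low (r + d) (K *ᵥ x)

lemma grow_of_entries {d : ℕ} {K : Matrix (St n) (St n) ℝ}
    (h : ∀ t s, K t s ≠ 0 → Nd s → Nd t ∧ (V t).card ≤ (V s).card + d) : Grow d K := by
  intro r x hx t ht
  obtain ⟨s, -, hs⟩ := exists_ne_zero_of_sum_ne_zero ht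
  have h1 := left_ne_zero_of_mul hs
  have h2 := hx s (right_ne_zero_of_mul hs)
  exact ⟨(h t s h1 h2.1).1, (h t s h1 h2.1).2.trans (by omega)⟩

lemma Grow.mono {d e : ℕ} {K : Matrix (St n) (St n) ℝ} (h : Grow d K) (hd : d ≤ e) : Grow e K :=
  fun r x hx => (h r x hx).mono (by omega)

lemma Grow.add {d : ℕ} {K L : Matrix (St n) (St n) ℝ} (h : Grow d K) (h' : Grow d L) :
    Grow d (K + L) := fun r x hx => by rw [add_mulVec]; exact (h r x hx).add (h' r x hx)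

lemma Grow.smul {d : ℕ} {K : Matrix (St n) (St n) ℝ} (c : ℝ) (h : Grow d K) :
    Grow d (c • K) := fun r x hx => by rw [smul_mulVec]; exact (h r x hx).smul c

lemma Grow.mul {d e : ℕ} {K L : Matrix (St n) (St n) ℝ} (h : Grow d K) (h' : Grow e L) :
    Grow (e + d) (K * L) := fun r x hx => by
  rw [← mulVec_mulVec, ← add_assoc]; exact h _ _ (h' r x hx)

lemma Grow.one : Grow 0 (1 : Matrix (St n) (St n) ℝ) := fun r x hx => by simpa using hx

lemma Grow.pow {d : ℕ} {K : Matrix (St n) (St n) ℝ} (h : Grow d K) (m : ℕ) :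
    Grow (d * m) (K ^ m) := by
  induction m with
  | zero => simpa using Grow.one
  | succ m ih => rw [pow_succ', mul_add, mul_one]; exact h.mul ih

lemma low_single (u : Fin n) : Low 1 (Pi.single ((u, ∅) : St n) (1 : ℝ)) := by
  intro s hs
  have : s = (u, ∅) := by
    by_contra h
    exact hs (by simp [h])
  subst this
  refine ⟨by simp [Nd], ?_⟩
  have : V ((u, ∅) : St n) ⊆ {u} := by
    intro w hw; simpa [mem_V] using hw
  simpa using card_le_card this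

lemma dot_symm {ι : Type*} [Fintype ι] {K : Matrix ι ι ℝ} (hK : K.IsSymm) (x y : ι → ℝ) :
    x ⬝ᵥ K *ᵥ y = y ⬝ᵥ K *ᵥ x := by
  rw [dotProduct_mulVec, dotProduct_comm, ← mulVec_transpose, hK.eq]

lemma dot_self_nonneg {ι : Type*} [Fintype ι] (x : ι → ℝ) : 0 ≤ x ⬝ᵥ x :=
  sum_nonneg fun i _ => mul_self_nonneg (x i)

lemma norm_step {K : Matrix (St n) (St n) ℝ} (hK : K.IsSymm) {d R : ℕ} (hg : Grow d K) {L : ℝ}
    (hL : 0 < L) (hq : ∀ z, Low R z → |z ⬝ᵥ K *ᵥ z| ≤ L * (z ⬝ᵥ z)) {r : ℕ} {x : St n → ℝ}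
    (hx : Low r x) (hr : r + d ≤ R) : (K *ᵥ x) ⬝ᵥ (K *ᵥ x) ≤ L ^ 2 * (x ⬝ᵥ x) := by
  set y := K *ᵥ x with hy
  have hyl : Low R y := (hg r x hx).mono hr
  have hxl : Low R (L • x) := (hx.mono (by omega)).smul L
  have h1 := (abs_le.1 (hq _ (hxl.add hyl))).2
  have h2 := (abs_le.1 (hq _ (hxl.sub hyl))).1
  have hs : x ⬝ᵥ K *ᵥ y = y ⬝ᵥ y := by rw [dot_symm hK, ← hy]
  simp only [mulVec_add, mulVec_sub, mulVec_smul, add_dotProduct, dotProduct_add, sub_dotProduct,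
    dotProduct_sub, smul_dotProduct, dotProduct_smul, smul_eq_mul, ← hy, hs] at h1 h2
  have hc : y ⬝ᵥ x = x ⬝ᵥ y := dotProduct_comm _ _
  rw [hc] at h1 h2
  have : L * (y ⬝ᵥ y) ≤ L * (L ^ 2 * (x ⬝ᵥ x)) := by nlinarith
  exact le_of_mul_le_mul_left this hL

lemma norm_pow {K : Matrix (St n) (St n) ℝ} (hK : K.IsSymm) {d R : ℕ} (hg : Grow d K) {L : ℝ}
    (hL : 0 < L) (hq : ∀ z, Low R z → |z ⬝ᵥ K *ᵥ z| ≤ L * (z ⬝ᵥ z)) {x : St n → ℝ}
    (hx : Low 1 x) (m : ℕ) (hr : 1 + d * m ≤ R) :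
    (K ^ m *ᵥ x) ⬝ᵥ (K ^ m *ᵥ x) ≤ L ^ (2 * m) * (x ⬝ᵥ x) := by
  induction m with
  | zero => simp
  | succ m ih =>
    have h1 := ih (by nlinarith)
    have h2 := norm_step hK hg hL hq ((hg.pow m) 1 x hx) (by nlinarith)
    rw [pow_succ', ← mulVec_mulVec]
    calc _ ≤ L ^ 2 * (L ^ (2 * m) * (x ⬝ᵥ x)) :=
          h2.trans (mul_le_mul_of_nonneg_left h1 (by positivity))
      _ = _ := by ring

lemma isSymm_pow {ι : Type*} [Fintype ι] [DecidableEq ι] {K : Matrix ι ι ℝ} (hK : K.IsSymm)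
    (m : ℕ) : (K ^ m).IsSymm := by
  unfold IsSymm; rw [transpose_pow, hK.eq]

lemma sum_trace_le {K : Matrix (St n) (St n) ℝ} {M} (hrep : Rep K M) (hK : K.IsSymm) {d R : ℕ}
    (hg : Grow d K) {L : ℝ} (hL : 0 < L) (hq : ∀ z, Low R z → |z ⬝ᵥ K *ᵥ z| ≤ L * (z ⬝ᵥ z))
    (k : ℕ) (hr : 1 + d * k ≤ R) :
    ∑ G, (M G ^ (2 * k)).trace ≤ (Fintype.card (SimpleGraph (Fin n)) : ℝ) * (n * L ^ (2 * k)) := by
  rw [(hrep.pow (2 * k)).sum_trace (fun u s hs => ((hg.pow _) 1 _ (low_single u) s hs).1)]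
  apply mul_le_mul_of_nonneg_left _ (by positivity)
  have : ∀ u : Fin n, (K ^ (2 * k) *ᵥ Pi.single ((u, ∅) : St n) (1 : ℝ)) (u, ∅) ≤ L ^ (2 * k) := by
    intro u
    set x : St n → ℝ := Pi.single ((u, ∅) : St n) (1 : ℝ) with hx
    have h1 := norm_pow hK hg hL hq (low_single u) k hr
    have h2 : x ⬝ᵥ x = 1 := by simp [hx]
    have h3 : (K ^ (2 * k) *ᵥ x) (u, ∅) = x ⬝ᵥ (K ^ (2 * k) *ᵥ x) := by simp [hx]
    rw [h3, two_mul, pow_add, ← mulVec_mulVec, dot_symm (isSymm_pow hK k), ← two_mul]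
    rw [← hx, h2, mul_one] at h1
    exact h1
  calc _ ≤ ∑ _u : Fin n, L ^ (2 * k) := sum_le_sum fun u _ => this u
    _ = _ := by simp

lemma trace_mul_self_eq {H : Matrix (Fin n) (Fin n) ℝ} (hH : H.IsSymm) :
    (H * H).trace = ∑ i, ∑ j, H i j ^ 2 := by
  unfold trace
  apply sum_congr rfl; intro i _
  simp only [diag_apply, mul_apply]
  apply sum_congr rfl; intro j _
  rw [hH.apply i j]; ring

lemma trace_pow_nonneg {M : Matrix (Fin n) (Fin n) ℝ} (hM : M.IsSymm) (k : ℕ) :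
    0 ≤ (M ^ (2 * k)).trace := by
  rw [two_mul, pow_add, trace_mul_self_eq (isSymm_pow hM k)]; positivity

lemma eig_pow_le_trace {M : Matrix (Fin n) (Fin n) ℝ} (hM : M.IsSymm) {μ : ℝ} {x : Fin n → ℝ}
    (hx : x ≠ 0) (hμ : M *ᵥ x = μ • x) (k : ℕ) : μ ^ (2 * k) ≤ (M ^ (2 * k)).trace := by
  have h1 : ∀ m : ℕ, M ^ m *ᵥ x = μ ^ m • x := by
    intro m
    induction m with
    | zero => simp
    | succ m ih => rw [pow_succ', ← mulVec_mulVec, ih, mulVec_smul, hμ, smul_smul, pow_succ]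
  rw [two_mul, pow_add M, trace_mul_self_eq (isSymm_pow hM k)]
  have hpos : 0 < ∑ j, x j ^ 2 := by
    obtain ⟨j, hj⟩ := Function.ne_iff.1 hx
    exact sum_pos' (fun i _ => by positivity) ⟨j, mem_univ _, by
      have : x j ≠ 0 := hj
      positivity⟩
  have h2 : ∑ i, ((M ^ k *ᵥ x) i) ^ 2 ≤ (∑ i, ∑ j, (M ^ k) i j ^ 2) * ∑ j, x j ^ 2 := by
    rw [sum_mul]
    exact sum_le_sum fun i _ => sum_mul_sq_le_sq_mul_sq univ (fun j => (M ^ k) i j) x
  rw [h1] at h2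
  simp only [Pi.smul_apply, smul_eq_mul, mul_pow, ← mul_sum] at h2
  have := le_of_mul_le_mul_right h2 hpos
  calc μ ^ (k + k) = (μ ^ k) ^ 2 := by ring
    _ ≤ _ := this

lemma exists_eig_of_mem_spectrum {M : Matrix (Fin n) (Fin n) ℝ} {μ : ℝ} (h : μ ∈ spectrum ℝ M) :
    ∃ x : Fin n → ℝ, x ≠ 0 ∧ M *ᵥ x = μ • x := by
  rw [← Matrix.spectrum_toLin', ← Module.End.hasEigenvalue_iff_mem_spectrum] at h
  obtain ⟨x, hx⟩ := h.exists_hasEigenvector
  exact ⟨x, hx.2, by simpa using hx.apply_eq_smul⟩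

open Classical in
/-- The moment bound for the number of graphs whose matrix has a large eigenvalue. -/
lemma card_bad_le {K : Matrix (St n) (St n) ℝ} {M} (hrep : Rep K M) (hK : K.IsSymm)
    (hM : ∀ G, (M G).IsSymm) {d R : ℕ}
    (hg : Grow d K) {L : ℝ} (hL : 0 < L) (hq : ∀ z, Low R z → |z ⬝ᵥ K *ᵥ z| ≤ L * (z ⬝ᵥ z))
    (k : ℕ) (hr : 1 + d * k ≤ R) {θ : ℝ} (hθ : 0 < θ) (B : SimpleGraph (Fin n) → Prop)
    (hB : ∀ G, B G → ∃ μ : ℝ, θ ≤ |μ| ∧ ∃ x : Fin n → ℝ, x ≠ 0 ∧ M G *ᵥ x = μ • x) :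
    ((univ.filter B).card : ℝ) ≤
      (Fintype.card (SimpleGraph (Fin n)) : ℝ) * (n * (L / θ) ^ (2 * k)) := by
  have h1 := sum_trace_le hrep hK hg hL hq k hr
  have h2 : ((univ.filter B).card : ℝ) * θ ^ (2 * k) ≤ ∑ G, (M G ^ (2 * k)).trace := by
    calc ((univ.filter B).card : ℝ) * θ ^ (2 * k) = ∑ _G ∈ univ.filter B, θ ^ (2 * k) := by simp
      _ ≤ ∑ G ∈ univ.filter B, (M G ^ (2 * k)).trace := by
          apply sum_le_sum
          intro G hG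
          obtain ⟨μ, h1, x, hx, hμ⟩ := hB G (mem_filter.1 hG).2
          refine le_trans ?_ (eig_pow_le_trace (hM G) hx hμ k)
          calc θ ^ (2 * k) ≤ |μ| ^ (2 * k) := pow_le_pow_left₀ hθ.le h1 _
            _ = μ ^ (2 * k) := by rw [pow_mul, sq_abs, ← pow_mul]
      _ ≤ _ := sum_le_sum_of_subset_of_nonneg (subset_univ _)
          (fun G _ _ => trace_pow_nonneg (hM G) k)
  have h3 : 0 < θ ^ (2 * k) := by positivity
  rw [div_pow]
  have := h2.trans h1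
  rw [← le_div_iff₀ h3] at this
  calc _ ≤ _ := this
    _ = _ := by field_simp

end Pool.Agent.Lib.MP_dfd018_pr
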