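import Pool.Agent.Lib.MP_dfd018_pr.Edge

/-!
The moment method on the Fourier side, with states measured by their number of edges.
-/

namespace Pool.Agent.Lib.MP_dfd018_pr

open Finset Matrix
open scoped symmDiff

variable {n : ℕ}

def LowE (r : ℕ) (x : St n → ℝ) : Prop := ∀ s, x s ≠ 0 → Nd s ∧ s.2.card ≤ r

lemma card_filter_mem_le (e : Sym2 (Fin n)) : (univ.filter (fun w => w ∈ e)).card ≤ 2 := by
  induction e using Sym2.ind with
  | h a b =>
    have : univ.filter (fun w => w ∈ s(a, b)) ⊆ {a, b} := by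
      intro w hw; simpa using hw
    exact (card_le_card this).trans card_le_two

lemma card_V_le (s : St n) : (V s).card ≤ 2 * s.2.card + 1 := by
  have h : V s ⊆ insert s.1 (s.2.biUnion (fun e => univ.filter (fun w => w ∈ e))) := by
    intro w hw
    rcases mem_V.1 hw with h | ⟨e, he, h⟩
    · simp [h]
    · exact mem_insert_of_mem (mem_biUnion.2 ⟨e, he, by simpa using h⟩)
  refine (card_le_card h).trans ((card_insert_le _ _).trans ?_)
  have := card_biUnion_le_card_mul s.2 (fun e => univ.filter (fun w => w ∈ e)) 2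
    (fun e _ => card_filter_mem_le e)
  omega

lemma LowE.low {r : ℕ} {x : St n → ℝ} (h : LowE r x) : Low (2 * r + 1) x :=
  fun s hs => ⟨(h s hs).1, (card_V_le s).trans (by have := (h s hs).2; omega)⟩

lemma LowE.mono {r R : ℕ} {x : St n → ℝ} (h : LowE r x) (hr : r ≤ R) : LowE R x :=
  fun s hs => ⟨(h s hs).1, (h s hs).2.trans hr⟩

lemma LowE.add {r : ℕ} {x y : St n → ℝ} (h : LowE r x) (h' : LowE r y) : LowE r (x + y) := by
  intro s hs
  by_cases hx : x s = 0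
  · exact h' s (by simpa [hx] using hs)
  · exact h s hx

lemma LowE.smul {r : ℕ} {x : St n → ℝ} (c : ℝ) (h : LowE r x) : LowE r (c • x) := by
  intro s hs
  exact h s (fun h0 => hs (by simp [h0]))

lemma LowE.sub {r : ℕ} {x y : St n → ℝ} (h : LowE r x) (h' : LowE r y) : LowE r (x - y) := by
  have := h.add (h'.smul (-1))
  simpa [sub_eq_add_neg] using this

lemma LowE.zero {r : ℕ} : LowE r (0 : St n → ℝ) := fun _ hs => absurd rfl hs

def GrowE (d : ℕ) (K : Matrix (St n) (St n) ℝ) : Prop :=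
  ∀ r x, LowE r x → LowE (r + d) (K *ᵥ x)

lemma growE_of_entries {d : ℕ} {K : Matrix (St n) (St n) ℝ}
    (h : ∀ t s, K t s ≠ 0 → Nd s → Nd t ∧ t.2.card ≤ s.2.card + d) : GrowE d K := by
  intro r x hx t ht
  obtain ⟨s, -, hs⟩ := exists_ne_zero_of_sum_ne_zero ht
  have h1 := left_ne_zero_of_mul hs
  have h2 := hx s (right_ne_zero_of_mul hs)
  exact ⟨(h t s h1 h2.1).1, (h t s h1 h2.1).2.trans (by omega)⟩

lemma GrowE.entries {d : ℕ} {K : Matrix (St n) (St n) ℝ} (h : GrowE d K) {t s : St n}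
    (hk : K t s ≠ 0) (hs : Nd s) : Nd t ∧ t.2.card ≤ s.2.card + d := by
  refine h s.2.card (Pi.single s 1) ?_ t (by simpa using hk)
  intro s' hs'
  have : s' = s := by
    by_contra h0; exact hs' (by simp [h0])
  subst this; exact ⟨hs, le_rfl⟩

lemma GrowE.mono {d e : ℕ} {K : Matrix (St n) (St n) ℝ} (h : GrowE d K) (hd : d ≤ e) :
    GrowE e K := fun r x hx => (h r x hx).mono (by omega)

lemma GrowE.add {d : ℕ} {K L : Matrix (St n) (St n) ℝ} (h : GrowE d K) (h' : GrowE d L) :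
    GrowE d (K + L) := fun r x hx => by rw [add_mulVec]; exact (h r x hx).add (h' r x hx)

lemma GrowE.smul {d : ℕ} {K : Matrix (St n) (St n) ℝ} (c : ℝ) (h : GrowE d K) :
    GrowE d (c • K) := fun r x hx => by rw [smul_mulVec]; exact (h r x hx).smul c

lemma GrowE.sub {d : ℕ} {K L : Matrix (St n) (St n) ℝ} (h : GrowE d K) (h' : GrowE d L) :
    GrowE d (K - L) := fun r x hx => by rw [sub_mulVec]; exact (h r x hx).sub (h' r x hx)

lemma GrowE.mul {d e : ℕ} {K L : Matrix (St n) (St n) ℝ} (h : GrowE d K) (h' : GrowE e L) :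
    GrowE (e + d) (K * L) := fun r x hx => by
  rw [← mulVec_mulVec, ← add_assoc]; exact h _ _ (h' r x hx)

lemma GrowE.one : GrowE 0 (1 : Matrix (St n) (St n) ℝ) := fun r x hx => by simpa using hx

lemma GrowE.zero {d : ℕ} : GrowE d (0 : Matrix (St n) (St n) ℝ) := fun r x _ => by
  simpa using LowE.zero

lemma GrowE.sum {ι : Type*} {d : ℕ} (S : Finset ι) {K : ι → Matrix (St n) (St n) ℝ}
    (h : ∀ i ∈ S, GrowE d (K i)) : GrowE d (∑ i ∈ S, K i) := by
  classical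
  induction S using Finset.induction_on with
  | empty => simpa using GrowE.zero
  | insert a S ha ih =>
    rw [sum_insert ha]
    exact (h a (mem_insert_self _ _)).add (ih fun i hi => h i (mem_insert_of_mem hi))

lemma GrowE.pow {d : ℕ} {K : Matrix (St n) (St n) ℝ} (h : GrowE d K) (m : ℕ) :
    GrowE (d * m) (K ^ m) := by
  induction m with
  | zero => simpa using GrowE.one
  | succ m ih => rw [pow_succ', mul_add, mul_one]; exact h.mul ih

lemma lowE_single (u : Fin n) : LowE 0 (Pi.single ((u, ∅) : St n) (1 : ℝ)) := by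
  intro s hs
  have : s = (u, ∅) := by
    by_contra h
    exact hs (by simp [h])
  subst this
  exact ⟨by simp [Nd], by simp⟩

lemma card_symmDiff_single_le (O : Finset (Sym2 (Fin n))) (e : Sym2 (Fin n)) :
    (O ∆ {e}).card ≤ O.card + 1 := by
  have : O ∆ {e} ⊆ insert e O := by
    intro f hf
    rw [mem_symmDiff] at hf
    rcases hf with h | h
    · exact mem_insert_of_mem h.1
    · simp [mem_singleton.1 h.1]
  exact (card_le_card this).trans (card_insert_le _ _)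

lemma growE_KA : GrowE 1 (KA (n := n)) := by
  apply growE_of_entries
  intro t s h hs
  have h' : t.1 ≠ s.1 ∧ s.2 = t.2 ∆ {s(t.1, s.1)} := by
    by_contra h0; exact h (by simp only [KA, if_neg h0])
  refine ⟨Nd_symmDiff (eq_symmDiff_comm.1 h'.2) hs (by simpa using h'.1), ?_⟩
  rw [eq_symmDiff_comm.1 h'.2]
  exact card_symmDiff_single_le _ _

lemma norm_stepE {K : Matrix (St n) (St n) ℝ} (hK : K.IsSymm) {d R : ℕ} (hg : GrowE d K) {L : ℝ}
    (hL : 0 < L) (hq : ∀ z, LowE R z → |z ⬝ᵥ K *ᵥ z| ≤ L * (z ⬝ᵥ z)) {r : ℕ} {x : St n → ℝ}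
    (hx : LowE r x) (hr : r + d ≤ R) : (K *ᵥ x) ⬝ᵥ (K *ᵥ x) ≤ L ^ 2 * (x ⬝ᵥ x) := by
  set y := K *ᵥ x with hy
  have hyl : LowE R y := (hg r x hx).mono hr
  have hxl : LowE R (L • x) := (hx.mono (by omega)).smul L
  have h1 := (abs_le.1 (hq _ (hxl.add hyl))).2
  have h2 := (abs_le.1 (hq _ (hxl.sub hyl))).1
  have hs : x ⬝ᵥ K *ᵥ y = y ⬝ᵥ y := by rw [dot_symm hK, ← hy]
  simp only [mulVec_add, mulVec_sub, mulVec_smul, add_dotProduct, dotProduct_add, sub_dotProduct,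
    dotProduct_sub, smul_dotProduct, dotProduct_smul, smul_eq_mul, ← hy, hs] at h1 h2
  have hc : y ⬝ᵥ x = x ⬝ᵥ y := dotProduct_comm _ _
  rw [hc] at h1 h2
  have : L * (y ⬝ᵥ y) ≤ L * (L ^ 2 * (x ⬝ᵥ x)) := by nlinarith
  exact le_of_mul_le_mul_left this hL

lemma norm_powE {K : Matrix (St n) (St n) ℝ} (hK : K.IsSymm) {d R : ℕ} (hg : GrowE d K) {L : ℝ}
    (hL : 0 < L) (hq : ∀ z, LowE R z → |z ⬝ᵥ K *ᵥ z| ≤ L * (z ⬝ᵥ z)) {x : St n → ℝ}
    (hx : LowE 0 x) (m : ℕ) (hr : d * m ≤ R) :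
    (K ^ m *ᵥ x) ⬝ᵥ (K ^ m *ᵥ x) ≤ L ^ (2 * m) * (x ⬝ᵥ x) := by
  induction m with
  | zero => simp
  | succ m ih =>
    have h1 := ih (by nlinarith)
    have h2 := norm_stepE hK hg hL hq ((hg.pow m) 0 x hx) (by nlinarith)
    rw [pow_succ', ← mulVec_mulVec]
    calc _ ≤ L ^ 2 * (L ^ (2 * m) * (x ⬝ᵥ x)) :=
          h2.trans (mul_le_mul_of_nonneg_left h1 (by positivity))
      _ = _ := by ring

lemma sum_trace_leE {K : Matrix (St n) (St n) ℝ} {M} (hrep : Rep K M) (hK : K.IsSymm) {d R : ℕ}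
    (hg : GrowE d K) {L : ℝ} (hL : 0 < L) (hq : ∀ z, LowE R z → |z ⬝ᵥ K *ᵥ z| ≤ L * (z ⬝ᵥ z))
    (k : ℕ) (hr : d * k ≤ R) :
    ∑ G, (M G ^ (2 * k)).trace ≤ (Fintype.card (SimpleGraph (Fin n)) : ℝ) * (n * L ^ (2 * k)) := by
  rw [(hrep.pow (2 * k)).sum_trace (fun u s hs => ((hg.pow _) 0 _ (lowE_single u) s hs).1)]
  apply mul_le_mul_of_nonneg_left _ (by positivity)
  have : ∀ u : Fin n, (K ^ (2 * k) *ᵥ Pi.single ((u, ∅) : St n) (1 : ℝ)) (u, ∅) ≤ L ^ (2 * k) := by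
    intro u
    set x : St n → ℝ := Pi.single ((u, ∅) : St n) (1 : ℝ) with hx
    have h1 := norm_powE hK hg hL hq (lowE_single u) k hr
    have h2 : x ⬝ᵥ x = 1 := by simp [hx]
    have h3 : (K ^ (2 * k) *ᵥ x) (u, ∅) = x ⬝ᵥ (K ^ (2 * k) *ᵥ x) := by simp [hx]
    rw [h3, two_mul, pow_add, ← mulVec_mulVec, dot_symm (isSymm_pow hK k), ← two_mul]
    rw [← hx, h2, mul_one] at h1
    exact h1
  calc _ ≤ ∑ _u : Fin n, L ^ (2 * k) := sum_le_sum fun u _ => this u
    _ = _ := by simp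

lemma exists_eig_of_quad {M : Matrix (Fin n) (Fin n) ℝ} (hM : M.IsSymm) {θ : ℝ}
    {x : Fin n → ℝ} (hx : θ * (x ⬝ᵥ x) < |x ⬝ᵥ M *ᵥ x|) :
    ∃ μ : ℝ, θ ≤ |μ| ∧ ∃ y : Fin n → ℝ, y ≠ 0 ∧ M *ᵥ y = μ • y := by
  have hH : M.IsHermitian := by simpa [IsHermitian, IsSymm] using hM
  by_contra hcon
  push Not at hcon
  have h1 : ∀ i, |hH.eigenvalues i| < θ := by
    intro i
    by_contra h
    push Not at h
    refine hcon _ h (hH.eigenvectorBasis i).ofLp ?_ (hH.mulVec_eigenvectorBasis i)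
    intro h0
    have := hH.eigenvectorBasis.orthonormal.ne_zero i
    exact this (by ext j; simpa using congrFun h0 j)
  set U : Matrix (Fin n) (Fin n) ℝ := (hH.eigenvectorUnitary : Matrix (Fin n) (Fin n) ℝ) with hU
  have h2 : M = U * diagonal hH.eigenvalues * Uᵀ := by
    have := hH.spectral_theorem
    simpa [Unitary.conjStarAlgAut_apply, hU, star_eq_conjTranspose] using this
  have h3 : U * Uᵀ = 1 := by
    have := (Unitary.mem_iff.1 hH.eigenvectorUnitary.2).2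
    simpa [hU, star_eq_conjTranspose] using this
  set y := Uᵀ *ᵥ x with hy
  have h4 : x ⬝ᵥ M *ᵥ x = ∑ i, hH.eigenvalues i * y i ^ 2 := by
    conv_lhs => rw [h2, ← mulVec_mulVec, ← mulVec_mulVec, dotProduct_mulVec, ← mulVec_transpose,
      ← hy]
    simp only [dotProduct, mulVec_diagonal]
    exact sum_congr rfl fun i _ => by ring
  have h5 : x ⬝ᵥ x = ∑ i, y i ^ 2 := by
    rw [← dot_self_eq, hy, dotProduct_mulVec (Uᵀ *ᵥ x), ← mulVec_transpose, transpose_transpose,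
      mulVec_mulVec, h3, one_mulVec]
  rw [h4, h5, mul_sum] at hx
  refine absurd hx (not_lt.2 ((abs_sum_le_sum_abs _ _).trans (sum_le_sum fun i _ => ?_)))
  rw [abs_mul, abs_of_nonneg (sq_nonneg (y i))]
  exact mul_le_mul_of_nonneg_right (h1 i).le (sq_nonneg _)

open Classical in
/-- The moment bound for the number of graphs whose matrix has a large quadratic form. -/
lemma card_bad_leE {K : Matrix (St n) (St n) ℝ} {M} (hrep : Rep K M) (hK : K.IsSymm)
    (hM : ∀ G, (M G).IsSymm) {d R : ℕ}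
    (hg : GrowE d K) {L : ℝ} (hL : 0 < L) (hq : ∀ z, LowE R z → |z ⬝ᵥ K *ᵥ z| ≤ L * (z ⬝ᵥ z))
    (k : ℕ) (hr : d * k ≤ R) {θ : ℝ} (hθ : 0 < θ) :
    ((univ.filter (fun G => ¬ ∀ x, |x ⬝ᵥ M G *ᵥ x| ≤ θ * (x ⬝ᵥ x))).card : ℝ) ≤
      (Fintype.card (SimpleGraph (Fin n)) : ℝ) * (n * (L / θ) ^ (2 * k)) := by
  set B := fun G => ¬ ∀ x, |x ⬝ᵥ M G *ᵥ x| ≤ θ * (x ⬝ᵥ x) with hB
  have h1 := sum_trace_leE hrep hK hg hL hq k hr
  have h2 : ((univ.filter B).card : ℝ) * θ ^ (2 * k) ≤ ∑ G, (M G ^ (2 * k)).trace := by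
    calc ((univ.filter B).card : ℝ) * θ ^ (2 * k) = ∑ _G ∈ univ.filter B, θ ^ (2 * k) := by simp
      _ ≤ ∑ G ∈ univ.filter B, (M G ^ (2 * k)).trace := by
          apply sum_le_sum
          intro G hG
          have hG' := (mem_filter.1 hG).2
          simp only [hB, not_forall, not_le] at hG'
          obtain ⟨z, hz⟩ := hG'
          obtain ⟨μ, h1, x, hx, hμ⟩ := exists_eig_of_quad (hM G) hz
          refine le_trans ?_ (eig_pow_le_trace (hM G) hx hμ k)
          calc θ ^ (2 * k) ≤ |μ| ^ (2 * k) := pow_le_pow_left₀ hθ.le h1 _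
            _ = μ ^ (2 * k) := by rw [pow_mul, sq_abs, ← pow_mul]
      _ ≤ _ := sum_le_sum_of_subset_of_nonneg (subset_univ _)
          (fun G _ _ => trace_pow_nonneg (hM G) k)
  have h3 : 0 < θ ^ (2 * k) := by positivity
  rw [div_pow]
  have := h2.trans h1
  rw [← le_div_iff₀ h3] at this
  calc _ ≤ _ := this
    _ = _ := by field_simp

end Pool.Agent.Lib.MP_dfd018_pr
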