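import Pool.Agent.Lib.MP_dfd018_pr.MomentE

/-!
Non-backtracking walks on the Fourier side.
-/

namespace Pool.Agent.Lib.MP_dfd018_pr

open Finset Matrix Polynomial
open scoped symmDiff

variable {n : ℕ}

/-- The state after a step to `c`. -/
def nx (s : St n) (c : Fin n) : St n := (c, s.2 ∆ {s(c, s.1)})

@[simp] lemma nx_fst (s : St n) (c : Fin n) : (nx s c).1 = c := rfl

lemma nx_snd (s : St n) (c : Fin n) : (nx s c).2 = s.2 ∆ {s(c, s.1)} := rfl

lemma nx_nx (s : St n) (c : Fin n) : nx (nx s c) s.1 = s := by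
  refine Prod.ext rfl ?_
  simp [nx, Sym2.eq_swap]

/-- Sum of `f` over the end states of the non-backtracking walks of length `k`; `p` is the
previous vertex. -/
noncomputable def W (f : St n → ℝ) : ℕ → Fin n → St n → ℝ
  | 0, _, s => f s
  | k + 1, p, s => ∑ c ∈ univ.filter (fun c => c ≠ s.1 ∧ c ≠ p), W f k s.1 (nx s c)

lemma W_mono {f g : St n → ℝ} (h : ∀ s, f s ≤ g s) (k : ℕ) (p : Fin n) (s : St n) :
    W f k p s ≤ W g k p s := by
  induction k generalizing p s with
  | zero => exact h s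
  | succ k ih => exact sum_le_sum fun c _ => ih _ _

lemma W_nonneg {f : St n → ℝ} (h : ∀ s, 0 ≤ f s) (k : ℕ) (p : Fin n) (s : St n) :
    0 ≤ W f k p s := by
  induction k generalizing p s with
  | zero => exact h s
  | succ k ih => exact sum_nonneg fun c _ => ih _ _

lemma W_shift (f : St n → ℝ) (P : Finset (Sym2 (Fin n))) (k : ℕ) (p : Fin n) (s : St n) :
    W f k p (s.1, s.2 ∆ P) = W (fun t => f (t.1, t.2 ∆ P)) k p s := by
  induction k generalizing p s with
  | zero => rfl
  | succ k ih =>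
    simp only [W]
    refine sum_congr rfl fun c _ => ?_
    rw [← ih]
    congr 1
    refine Prod.ext rfl ?_
    simp only [nx]
    rw [symmDiff_right_comm]

lemma W_self (f : St n → ℝ) (k : ℕ) (s : St n) :
    W f (k + 1) s.1 s = ∑ c ∈ univ.erase s.1, W f k s.1 (nx s c) := by
  simp only [W]
  refine sum_congr ?_ fun _ _ => rfl
  ext c; simp

lemma W_succ_ne (f : St n → ℝ) (k : ℕ) {p : Fin n} {s : St n} (hp : p ≠ s.1) :
    W f (k + 1) p s = W f (k + 1) s.1 s - W f k s.1 (nx s p) := by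
  rw [W_self, ← add_sum_erase _ _ (mem_erase.2 ⟨hp, mem_univ p⟩), add_sub_cancel_left]
  simp only [W]
  refine sum_congr ?_ fun _ _ => rfl
  ext c; simp [and_comm]

lemma KA_mulVec (g : St n → ℝ) (t : St n) :
    (KA *ᵥ g) t = ∑ c ∈ univ.erase t.1, g (nx t c) := by
  simp only [mulVec, dotProduct, KA, Fintype.sum_prod_type]
  rw [← add_sum_erase _ _ (mem_univ t.1)]
  simp only [ne_eq, not_true, false_and, if_false, zero_mul, sum_const_zero, zero_add]
  refine sum_congr rfl fun c hc => ?_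
  have h := (ne_of_mem_erase hc).symm
  rw [sum_eq_single (t.2 ∆ {s(t.1, c)})]
  · simp [h, nx, Sym2.eq_swap]
  · intro b _ hb; simp [hb]
  · simp

lemma card_erase_real (v : Fin n) : ((univ.erase v).card : ℝ) = n - 1 := by
  have h : 1 ≤ n := Nat.one_le_iff_ne_zero.2 (fun h => by subst h; exact v.elim0)
  simp [Nat.cast_sub h]

lemma W_two_step (f : St n → ℝ) (k : ℕ) (t : St n) :
    W f (k + 2) t.1 t = (KA *ᵥ fun s => W f (k + 1) s.1 s) t - ∑ c ∈ univ.erase t.1, W f k c t := by
  rw [W_self, KA_mulVec, ← sum_sub_distrib]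
  refine sum_congr rfl fun c hc => ?_
  rw [W_succ_ne f k (by simpa using (ne_of_mem_erase hc).symm), nx_nx, nx_fst]

/-- The polynomials counting non-backtracking walks. -/
noncomputable def Qp (m : ℝ) : ℕ → ℝ[X]
  | 0 => 1
  | 1 => X
  | 2 => X * X - C (m + 1)
  | k + 3 => X * Qp m (k + 2) - C m * Qp m (k + 1)

noncomputable def KB (n j : ℕ) : Matrix (St n) (St n) ℝ := aeval KA (Qp ((n : ℝ) - 2) j)

lemma KB_zero : KB n 0 = 1 := by simp [KB, Qp]
lemma KB_one : KB n 1 = KA := by simp [KB, Qp]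
lemma KB_two : KB n 2 = KA * KA - ((n : ℝ) - 1) • 1 := by
  simp only [KB, Qp, map_sub, map_mul, aeval_X, aeval_C, Algebra.algebraMap_eq_smul_one]
  congr 2; ring
lemma KB_succ (k : ℕ) : KB n (k + 3) = KA * KB n (k + 2) - ((n : ℝ) - 2) • KB n (k + 1) := by
  unfold KB
  rw [Qp, map_sub, map_mul, map_mul, aeval_X, aeval_C, Algebra.algebraMap_eq_smul_one,
    smul_mul_assoc, one_mul]

lemma KB_mulVec (f : St n → ℝ) (j : ℕ) : KB n j *ᵥ f = fun t => W f j t.1 t := by
  have h1 : KB n 1 *ᵥ f = fun t => W f 1 t.1 t := by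
    funext t; rw [KB_one, KA_mulVec, W_self]; rfl
  have key : ∀ k, (KB n (k + 1) *ᵥ f = fun t => W f (k + 1) t.1 t) ∧
      (KB n (k + 2) *ᵥ f = fun t => W f (k + 2) t.1 t) := by
    intro k
    induction k with
    | zero =>
      refine ⟨h1, ?_⟩
      funext t
      rw [W_two_step, ← h1, KB_two, KB_one, sub_mulVec, mulVec_mulVec, smul_mulVec, one_mulVec]
      simp only [W, sum_const, nsmul_eq_mul, card_erase_real, Pi.sub_apply, Pi.smul_apply,
        smul_eq_mul]
    | succ k ih =>
      refine ⟨ih.2, ?_⟩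
      funext t
      rw [W_two_step, ← ih.2, KB_succ, sub_mulVec, mulVec_mulVec, smul_mulVec, ih.1]
      have : ∑ c ∈ univ.erase t.1, W f (k + 1) c t =
          ∑ c ∈ univ.erase t.1, (W f (k + 1) t.1 t - W f k t.1 (nx t c)) :=
        sum_congr rfl fun c hc => W_succ_ne f k (ne_of_mem_erase hc)
      rw [this, sum_sub_distrib, ← W_self]
      simp only [sum_const, nsmul_eq_mul, card_erase_real, Pi.sub_apply, Pi.smul_apply,
        smul_eq_mul]
      ring
  match j with
  | 0 => funext t; simp [KB_zero, W]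
  | j + 1 => exact (key j).1

lemma KB_apply (j : ℕ) (t s : St n) : KB n j t s = W (Pi.single s 1) j t.1 t := by
  have := congrFun (KB_mulVec (Pi.single s (1 : ℝ)) j) t
  simpa using this

lemma KB_nonneg (j : ℕ) (t s : St n) : 0 ≤ KB n j t s := by
  rw [KB_apply]
  refine W_nonneg (fun x => ?_) _ _ _
  by_cases h : x = s <;> simp [h]

lemma KB_shift (j : ℕ) (t s : St n) (P : Finset (Sym2 (Fin n))) :
    KB n j (t.1, t.2 ∆ P) s = KB n j t (s.1, s.2 ∆ P) := by
  rw [KB_apply, KB_apply, W_shift]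
  congr 1
  funext x
  by_cases h : x = (s.1, s.2 ∆ P)
  · subst h; simp
  · have : (x.1, x.2 ∆ P) ≠ s := by
      rintro rfl; simp at h
    simp [h, this]

lemma Rep.aeval {K : Matrix (St n) (St n) ℝ} {M} (h : Rep K M) (P : ℝ[X]) :
    Rep (aeval K P) (fun G => aeval (M G) P) := by
  induction P using Polynomial.induction_on' with
  | add p q hp hq => simpa using hp.add hq
  | monomial k a =>
    simpa [aeval_monomial, Algebra.algebraMap_eq_smul_one] using (h.pow k).smul a

lemma isSymm_aeval {ι : Type*} [Fintype ι] [DecidableEq ι] {K : Matrix ι ι ℝ} (h : K.IsSymm)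
    (P : ℝ[X]) : (aeval K P).IsSymm := by
  induction P using Polynomial.induction_on' with
  | add p q hp hq => simpa using hp.add hq
  | monomial k a =>
    simpa [aeval_monomial, Algebra.algebraMap_eq_smul_one] using (isSymm_pow h k).smul a

lemma KB_symm (j : ℕ) : (KB n j).IsSymm := isSymm_aeval KA_symm _

/-- The matrix of non-backtracking walks of length `j`. -/
noncomputable def MB (j : ℕ) (G : SimpleGraph (Fin n)) : Matrix (Fin n) (Fin n) ℝ :=
  aeval (pmAdj G) (Qp ((n : ℝ) - 2) j)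

lemma rep_KB (j : ℕ) : Rep (KB n j) (MB j) := rep_KA.aeval _

lemma growE_KB (j : ℕ) : GrowE j (KB n j) := by
  have key : ∀ k, GrowE (k + 1) (KB n (k + 1)) ∧ GrowE (k + 2) (KB n (k + 2)) := by
    intro k
    induction k with
    | zero =>
      refine ⟨by rw [KB_one]; exact growE_KA, ?_⟩
      rw [KB_two]
      exact (growE_KA.mul growE_KA).sub ((GrowE.one.mono (by omega)).smul _)
    | succ k ih =>
      refine ⟨ih.2, ?_⟩
      rw [KB_succ]
      exact (growE_KA.mul ih.2).sub ((ih.1.mono (by omega)).smul _)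
  match j with
  | 0 => rw [KB_zero]; exact GrowE.one
  | j + 1 => exact (key j).1

/-- The entrywise product with the sign matrix, on the Fourier side. -/
noncomputable def Had (K : Matrix (St n) (St n) ℝ) : Matrix (St n) (St n) ℝ :=
  fun t s => if t.1 ≠ s.1 then K t (s.1, s.2 ∆ {s(t.1, s.1)}) else 0

/-- The diagonal part, on the Fourier side. -/
noncomputable def Dg (K : Matrix (St n) (St n) ℝ) : Matrix (St n) (St n) ℝ :=
  fun t s => if t.1 = s.1 then K t s else 0

lemma Phi_at (a : St n → ℝ) (G : SimpleGraph (Fin n)) (v : Fin n) (P : Finset (Sym2 (Fin n))) :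
    Phi (fun s : St n => if s.1 = v then a (v, s.2 ∆ P) else 0) G =
      Pi.single v (chi G P * Phi a G v) := by
  funext w
  by_cases h : w = v
  · subst h
    simp only [Phi, if_true, Pi.single_eq_same]
    exact Phi_shift a G w P
  · simp [Phi, h]

lemma Rep.had {K : Matrix (St n) (St n) ℝ} {M} (h : Rep K M) :
    Rep (Had K) (fun G => hadamard (M G) (pmAdj G)) := by
  intro a G
  funext u
  have h1 : ∀ O, (Had K *ᵥ a) (u, O) = ∑ v ∈ univ.erase u,
      (K *ᵥ fun s : St n => if s.1 = v then a (v, s.2 ∆ {s(u, v)}) else 0) (u, O) := by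
    intro O
    simp only [mulVec, dotProduct, Had, Fintype.sum_prod_type]
    rw [← add_sum_erase _ _ (mem_univ u)]
    simp only [ne_eq, not_true, if_false, zero_mul, sum_const_zero, zero_add]
    refine sum_congr rfl fun v hv => ?_
    rw [sum_eq_single v (fun b _ hb => by simp [hb]) (by simp)]
    simp only [if_pos (ne_of_mem_erase hv).symm, if_true]
    rw [← sum_symmDiff_shift {s(u, v)}]
    simp
  have h2 : Phi (Had K *ᵥ a) G u = ∑ v ∈ univ.erase u,
      Phi (K *ᵥ fun s : St n => if s.1 = v then a (v, s.2 ∆ {s(u, v)}) else 0) G u := by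
    simp only [Phi, h1, sum_mul]
    rw [sum_comm]
  rw [h2]
  simp only [h _ G, Phi_at, mulVec, dotProduct, hadamard_apply]
  rw [← add_sum_erase _ _ (mem_univ u), pmAdj_self, mul_zero, zero_mul, zero_add]
  refine sum_congr rfl fun v hv => ?_
  rw [sum_eq_single v (fun b _ hb => by simp [hb]) (by simp),
    pmAdj_eq G (ne_of_mem_erase hv).symm]
  simp [chi, mul_assoc]

lemma Rep.dg {K : Matrix (St n) (St n) ℝ} {M} (h : Rep K M) :
    Rep (Dg K) (fun G => diagonal (fun i => M G i i)) := by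
  intro a G
  funext u
  have h1 : ∀ O, (Dg K *ᵥ a) (u, O) =
      (K *ᵥ fun s : St n => if s.1 = u then a (u, s.2 ∆ ∅) else 0) (u, O) := by
    intro O
    simp only [mulVec, dotProduct, Dg, Fintype.sum_prod_type]
    refine sum_congr rfl fun v _ => sum_congr rfl fun P _ => ?_
    by_cases hv : u = v
    · subst hv
      have : P ∆ ∅ = P := symmDiff_bot P
      simp [this]
    · simp [hv, Ne.symm hv]
  have h2 : Phi (Dg K *ᵥ a) G u =
      Phi (K *ᵥ fun s : St n => if s.1 = u then a (u, s.2 ∆ ∅) else 0) G u := by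
    simp only [Phi, h1]
  rw [h2, h _ G, Phi_at, mulVec_diagonal]
  simp [chi, mulVec, dotProduct, Pi.single_apply]

lemma Had_KB_symm (j : ℕ) : (Had (KB n j)).IsSymm := by
  ext t s
  simp only [transpose_apply, Had]
  by_cases h : t.1 = s.1
  · simp [h]
  · rw [if_pos h, if_pos (Ne.symm h), ← KB_shift, (KB_symm j).apply, Sym2.eq_swap]

lemma Dg_symm {K : Matrix (St n) (St n) ℝ} (hK : K.IsSymm) : (Dg K).IsSymm := by
  ext t s
  simp only [transpose_apply, Dg]
  by_cases h : t.1 = s.1
  · rw [if_pos h, if_pos h.symm, hK.apply]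
  · rw [if_neg h, if_neg (Ne.symm h)]

lemma GrowE.had {d : ℕ} {K : Matrix (St n) (St n) ℝ} (h : GrowE d K) : GrowE (d + 1) (Had K) := by
  apply growE_of_entries
  intro t s hk hs
  unfold Had at hk
  split_ifs at hk with h1
  · have h2 := h.entries hk (Nd_symmDiff (s := s) rfl hs (by simpa using h1))
    have h3 := card_symmDiff_single_le s.2 s(t.1, s.1)
    exact ⟨h2.1, by have := h2.2; simp only at this; omega⟩
  · exact absurd rfl hk

lemma GrowE.dg {d : ℕ} {K : Matrix (St n) (St n) ℝ} (h : GrowE d K) : GrowE d (Dg K) := by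
  apply growE_of_entries
  intro t s hk hs
  unfold Dg at hk
  split_ifs at hk with h1
  · exact h.entries hk hs
  · exact absurd rfl hk

lemma Had_KB_nonneg (j : ℕ) (t s : St n) : 0 ≤ Had (KB n j) t s := by
  unfold Had; split_ifs; exacts [KB_nonneg _ _ _, le_rfl]

lemma Dg_KB_nonneg (j : ℕ) (t s : St n) : 0 ≤ Dg (KB n j) t s := by
  unfold Dg; split_ifs; exacts [KB_nonneg _ _ _, le_rfl]

lemma Had_KB_mulVec (j : ℕ) (F : St n → ℝ) (t : St n) :
    (Had (KB n j) *ᵥ F) t = ∑ u ∈ univ.erase t.1,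
      W (fun s => if s.1 = u then F s else 0) j t.1 (t.1, t.2 ∆ {s(t.1, u)}) := by
  have h1 : ∀ u, W (fun s => if s.1 = u then F s else 0) j t.1 (t.1, t.2 ∆ {s(t.1, u)}) =
      (KB n j *ᵥ fun s => if s.1 = u then F s else 0) (t.1, t.2 ∆ {s(t.1, u)}) := by
    intro u; rw [KB_mulVec]
  simp only [h1, mulVec, dotProduct, Had, Fintype.sum_prod_type]
  rw [← add_sum_erase _ _ (mem_univ t.1)]
  simp only [ne_eq, not_true, if_false, zero_mul, sum_const_zero, zero_add]
  refine sum_congr rfl fun v hv => ?_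
  rw [sum_eq_single v (fun b _ hb => by simp [hb]) (by simp)]
  simp only [if_pos (ne_of_mem_erase hv).symm, if_true, KB_shift]

lemma Dg_KB_mulVec (j : ℕ) (F : St n → ℝ) (t : St n) :
    (Dg (KB n j) *ᵥ F) t = W (fun s => if s.1 = t.1 then F s else 0) j t.1 t := by
  have h1 := congrFun (KB_mulVec (fun s => if s.1 = t.1 then F s else 0) j) t
  rw [← h1]
  simp only [mulVec, dotProduct, Dg]
  refine sum_congr rfl fun s _ => ?_
  by_cases h : t.1 = s.1
  · simp [h]
  · simp [h, Ne.symm h]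

end Pool.Agent.Lib.MP_dfd018_pr
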