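import Pool.Agent.Lib.MP_dfd018_pr.NB

/-!
Weighted counts of non-backtracking walks that end at a pinned vertex.
-/

namespace Pool.Agent.Lib.MP_dfd018_pr

open Finset Matrix
open scoped symmDiff

variable {n : ℕ}

def deg (O : Finset (Sym2 (Fin n))) (c : Fin n) : ℕ := (O.filter (fun e => c ∈ e)).card

noncomputable def VU (u : Fin n) (s : St n) : Finset (Fin n) := insert u (V s)

noncomputable def wt (a : ℝ) (u : Fin n) (s : St n) : ℝ := a⁻¹ ^ (VU u s).card

/-- A step that removes the last edge at an unpinned vertex. -/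
def Dst (u : Fin n) (s : St n) (c : Fin n) : Prop :=
  s.1 ≠ u ∧ s(c, s.1) ∈ s.2 ∧ deg s.2 s.1 = 1

def NoD (u p : Fin n) (s : St n) : Prop := ∀ c, c ≠ s.1 → c ≠ p → ¬ Dst u s c

def NoDel (p : Fin n) (s : St n) : Prop := ∀ c, c ≠ s.1 → c ≠ p → s(c, s.1) ∉ s.2

def Perf (u : Fin n) (Q : Finset (Sym2 (Fin n)) → Prop) : ℕ → St n → Prop
  | 0, s => s.1 = u ∧ Q s.2
  | k + 1, s => ∃ c, c ≠ s.1 ∧ Dst u s c ∧ Perf u Q k (nx s c)

lemma mem_symmDiff_single {O : Finset (Sym2 (Fin n))} {e f : Sym2 (Fin n)} :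
    f ∈ O ∆ {e} ↔ (f ∈ O ∧ f ≠ e) ∨ (f = e ∧ e ∉ O) := by
  rw [mem_symmDiff]
  constructor
  · rintro (h | h)
    · exact Or.inl ⟨h.1, by simpa using h.2⟩
    · have := mem_singleton.1 h.1
      exact Or.inr ⟨this, this ▸ h.2⟩
  · rintro (h | h)
    · exact Or.inl ⟨h.1, by simpa using h.2⟩
    · exact Or.inr ⟨by simp [h.1], h.1 ▸ h.2⟩

lemma symmDiff_single_of_mem {O : Finset (Sym2 (Fin n))} {e : Sym2 (Fin n)} (h : e ∈ O) :
    O ∆ {e} = O.erase e := by
  ext f; rw [mem_symmDiff_single]; simp [h, and_comm]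

lemma symmDiff_single_of_not_mem {O : Finset (Sym2 (Fin n))} {e : Sym2 (Fin n)} (h : e ∉ O) :
    O ∆ {e} = insert e O := by
  ext f; rw [mem_symmDiff_single, mem_insert]
  constructor
  · rintro (h1 | h1); exacts [Or.inr h1.1, Or.inl h1.1]
  · rintro (h1 | h1)
    · exact Or.inr ⟨h1, h⟩
    · exact Or.inl ⟨h1, fun h2 => h (h2 ▸ h1)⟩

lemma deg_insert {O : Finset (Sym2 (Fin n))} {e : Sym2 (Fin n)} (h : e ∉ O) (c : Fin n) :
    deg (insert e O) c = deg O c + if c ∈ e then 1 else 0 := by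
  unfold deg
  rw [filter_insert]
  split_ifs with h1
  · rw [card_insert_of_notMem (fun h2 => h (mem_filter.1 h2).1)]
  · rfl

lemma deg_erase {O : Finset (Sym2 (Fin n))} {e : Sym2 (Fin n)} (h : e ∈ O) (c : Fin n) :
    deg O c = deg (O.erase e) c + if c ∈ e then 1 else 0 := by
  rw [← deg_insert (notMem_erase e O), insert_erase h]

lemma deg_symmDiff_le (O : Finset (Sym2 (Fin n))) (e : Sym2 (Fin n)) (c : Fin n) :
    deg (O ∆ {e}) c ≤ deg O c + 1 := by
  by_cases h : e ∈ O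
  · rw [symmDiff_single_of_mem h, deg_erase h c]; omega
  · rw [symmDiff_single_of_not_mem h, deg_insert h]; split_ifs <;> omega

lemma deg_le_card (O : Finset (Sym2 (Fin n))) (c : Fin n) : deg O c ≤ O.card :=
  card_filter_le _ _

lemma deg_pos {O : Finset (Sym2 (Fin n))} {e : Sym2 (Fin n)} {c : Fin n} (he : e ∈ O)
    (hc : c ∈ e) : 1 ≤ deg O c := card_pos.2 ⟨e, mem_filter.2 ⟨he, hc⟩⟩

lemma eq_of_deg_le_one {O : Finset (Sym2 (Fin n))} {e f : Sym2 (Fin n)} {c : Fin n}
    (h : deg O c ≤ 1) (he : e ∈ O) (hc : c ∈ e) (hf : f ∈ O) (hc' : c ∈ f) : e = f :=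
  card_le_one.1 h e (mem_filter.2 ⟨he, hc⟩) f (mem_filter.2 ⟨hf, hc'⟩)

lemma deg_eq_zero {O : Finset (Sym2 (Fin n))} {c : Fin n} :
    deg O c = 0 ↔ ∀ e ∈ O, c ∉ e := by
  unfold deg; rw [card_eq_zero, filter_eq_empty_iff]

lemma deg_of_not_mem_V {s : St n} {c : Fin n} (h : c ∉ V s) : deg s.2 c = 0 :=
  deg_eq_zero.2 fun e he hc => h (mem_V.2 (Or.inr ⟨e, he, hc⟩))

lemma sum_deg_le (O : Finset (Sym2 (Fin n))) : ∑ c, deg O c ≤ 2 * O.card := by
  unfold deg
  simp only [card_filter]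
  rw [sum_comm]
  calc _ ≤ ∑ _e ∈ O, 2 := sum_le_sum fun e _ => by
        rw [← card_filter]; exact card_filter_mem_le e
    _ = _ := by simp [mul_comm]

lemma card_nbr_le (O : Finset (Sym2 (Fin n))) (v : Fin n) (S : Finset (Fin n))
    (h : ∀ c ∈ S, s(c, v) ∈ O) : S.card ≤ deg O v :=
  card_le_card_of_injOn (fun c => s(c, v)) (fun c hc => mem_filter.2 ⟨h c hc, by simp⟩)
    (fun _ _ _ _ h => Sym2.congr_left.1 h)

lemma card_VU_le (u : Fin n) (s : St n) : (VU u s).card ≤ 2 * s.2.card + 2 :=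
  (card_insert_le _ _).trans (by have := card_V_le s; omega)

lemma mem_V_nx {s : St n} {c w : Fin n} (hw : w ∈ V s) (h : w ≠ s.1) : w ∈ V (nx s c) := by
  rcases mem_V.1 hw with h1 | ⟨e, he, h1⟩
  · exact absurd h1 h
  · by_cases h2 : e = s(c, s.1)
    · subst h2
      rcases Sym2.mem_iff.1 h1 with h3 | h3
      · exact mem_V.2 (Or.inl h3)
      · exact absurd h3 h
    · exact mem_V.2 (Or.inr ⟨e, mem_symmDiff_single.2 (Or.inl ⟨he, h2⟩), h1⟩)

lemma mem_VU_nx {u : Fin n} {s : St n} {c : Fin n} (h : ¬ Dst u s c) : s.1 ∈ VU u (nx s c) := by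
  by_cases h1 : s.1 = u
  · simp [VU, h1]
  refine mem_insert_of_mem (mem_V.2 (Or.inr ?_))
  by_cases h2 : s(c, s.1) ∈ s.2
  · by_contra h3
    push Not at h3
    refine h ⟨h1, h2, le_antisymm (card_le_one.2 fun e he f hf => ?_) (deg_pos h2 (by simp))⟩
    have key : ∀ e ∈ s.2.filter (fun e => s.1 ∈ e), e = s(c, s.1) := by
      intro e he
      by_contra h4
      exact h3 e (mem_symmDiff_single.2 (Or.inl ⟨(mem_filter.1 he).1, h4⟩)) (mem_filter.1 he).2
    rw [key e he, key f hf]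
  · exact ⟨_, mem_symmDiff_single.2 (Or.inr ⟨rfl, h2⟩), by simp⟩

lemma VU_subset_nx {u : Fin n} {s : St n} {c : Fin n} (h : ¬ Dst u s c) :
    VU u s ⊆ VU u (nx s c) := by
  intro w hw
  rcases mem_insert.1 hw with h1 | h1
  · simp [VU, h1]
  · by_cases h2 : w = s.1
    · rw [h2]; exact mem_VU_nx h
    · exact mem_insert_of_mem (mem_V_nx h1 h2)

lemma wt_pos {a : ℝ} (ha : 1 ≤ a) (u : Fin n) (s : St n) : 0 < wt a u s := by
  unfold wt; positivity

lemma inv_pow_anti {a : ℝ} (ha : 1 ≤ a) {i j : ℕ} (h : i ≤ j) : a⁻¹ ^ j ≤ a⁻¹ ^ i :=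
  pow_le_pow_of_le_one (by positivity) (inv_le_one_of_one_le₀ ha) h

lemma wt_keep {a : ℝ} (ha : 1 ≤ a) {u : Fin n} {s : St n} {c : Fin n} (h : ¬ Dst u s c) :
    wt a u (nx s c) ≤ wt a u s := inv_pow_anti ha (card_le_card (VU_subset_nx h))

lemma not_mem_of_fresh {s : St n} {c : Fin n} (h : c ∉ V s) (v : Fin n) : s(c, v) ∉ s.2 :=
  fun h1 => h (mem_V.2 (Or.inr ⟨_, h1, by simp⟩))

lemma wt_fresh {a : ℝ} (ha : 1 ≤ a) {u : Fin n} {s : St n} {c : Fin n} (h : c ∉ VU u s) :
    wt a u (nx s c) ≤ wt a u s / a := by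
  have h1 : ¬ Dst u s c := fun h2 =>
    not_mem_of_fresh (fun h3 => h (mem_insert_of_mem h3)) _ h2.2.1
  have h2 : insert c (VU u s) ⊆ VU u (nx s c) :=
    insert_subset (mem_insert_of_mem (self_mem_V (nx s c))) (VU_subset_nx h1)
  have h3 := card_le_card h2
  rw [card_insert_of_notMem h] at h3
  refine (inv_pow_anti ha h3).trans (le_of_eq ?_)
  rw [pow_succ, wt, div_eq_mul_inv]

lemma wt_loss {a : ℝ} (ha : 1 ≤ a) (u : Fin n) (s : St n) (c : Fin n) :
    wt a u (nx s c) ≤ a * wt a u s := by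
  have h2 : VU u s ⊆ insert s.1 (VU u (nx s c)) := by
    intro w hw
    by_cases h2 : w = s.1
    · simp [h2]
    rcases mem_insert.1 hw with h1 | h1
    · simp [VU, h1]
    · exact mem_insert_of_mem (mem_insert_of_mem (mem_V_nx h1 h2))
  have h3 := inv_pow_anti ha ((card_le_card h2).trans (card_insert_le _ _))
  rw [pow_succ] at h3
  have h4 : 0 < a := by linarith
  calc wt a u (nx s c) = a * (a⁻¹ ^ (VU u (nx s c)).card * a⁻¹) := by unfold wt; field_simp
    _ ≤ _ := mul_le_mul_of_nonneg_left h3 h4.le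

lemma noDel_fresh {s : St n} {c : Fin n} (h : c ∉ V s) : NoDel s.1 (nx s c) := by
  intro d h1 h2 h3
  rcases mem_symmDiff_single.1 h3 with h4 | h4
  · exact not_mem_of_fresh h d (by simpa [Sym2.eq_swap] using h4.1)
  · have := h4.1
    rw [nx_fst, Sym2.eq_swap] at this
    exact h2 (Sym2.congr_right.1 this)

lemma noD_create {u : Fin n} {s : St n} {c : Fin n} (h : s(c, s.1) ∉ s.2) :
    NoD u s.1 (nx s c) := by
  intro d h1 h2 h3
  have := eq_of_deg_le_one h3.2.2.le h3.2.1 (by simp)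
    (mem_symmDiff_single.2 (Or.inr ⟨rfl, h⟩)) (by simp)
  rw [nx_fst, Sym2.eq_swap] at this
  exact h2 (Sym2.congr_right.1 this)

lemma NoDel.noD {u p : Fin n} {s : St n} (h : NoDel p s) : NoD u p s :=
  fun c h1 h2 h3 => h c h1 h2 h3.2.1

open Classical in
/-- The weight of an admissible end state. -/
noncomputable def fin (a : ℝ) (u : Fin n) (Q : Finset (Sym2 (Fin n)) → Prop) (s : St n) : ℝ :=
  if s.1 = u ∧ Q s.2 then wt a u s else 0

/-- The vertices reached by removing an edge. -/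
def Del (p : Fin n) (s : St n) : Finset (Fin n) :=
  univ.filter (fun c => (c ≠ s.1 ∧ c ≠ p) ∧ s(c, s.1) ∈ s.2)

lemma card_Del_le (p : Fin n) (s : St n) : (Del p s).card ≤ deg s.2 s.1 :=
  card_nbr_le _ _ _ fun _ hc => (mem_filter.1 hc).2.2

structure Par (n : ℕ) where
  N : ℝ
  g : ℝ
  a : ℝ
  ε : ℝ
  R : ℕ
  ha : 1 ≤ a
  hg : 1 ≤ g
  hN : a * g = N
  hε : 0 ≤ ε
  hε1 : ε ≤ 1
  hn : (n : ℝ) ≤ N ^ 2 * (1 + ε)
  hR : 6 * (R : ℝ) + 4 ≤ ε * N

namespace Par
variable (P : Par n)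

noncomputable def B (k : ℕ) : ℝ := (P.N * P.g * (1 + 5 * P.ε)) ^ k / P.N

lemma one_le_N : 1 ≤ P.N := by rw [← P.hN]; nlinarith [P.ha, P.hg]

lemma a_le_N : P.a ≤ P.N := by rw [← P.hN]; nlinarith [P.ha, P.hg]

lemma N_le : P.N ≤ P.N * P.g * (1 + 5 * P.ε) := by
  have h1 := P.one_le_N
  have h2 : 1 ≤ P.g * (1 + 5 * P.ε) := by nlinarith [P.hg, P.hε]
  nlinarith

lemma B_pos (k : ℕ) : 0 < P.B k := by
  have := P.one_le_N; have := P.hg; have := P.hε
  unfold B; positivity

lemma B_succ (k : ℕ) : P.B (k + 1) = P.N * P.g * (1 + 5 * P.ε) * P.B k := by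
  unfold B; ring

lemma N_mul_B_le (k : ℕ) : P.N * P.B k ≤ P.B (k + 1) := by
  rw [B_succ]; exact mul_le_mul_of_nonneg_right P.N_le (P.B_pos k).le

lemma a_pow_le (k : ℕ) : P.a ^ k ≤ P.N * P.B k := by
  have h := P.one_le_N
  have : P.N * P.B k = (P.N * P.g * (1 + 5 * P.ε)) ^ k := by unfold B; field_simp
  rw [this]
  exact pow_le_pow_left₀ (by linarith [P.ha]) (P.a_le_N.trans P.N_le) k

lemma one_le_B_one : 1 ≤ P.B 1 := by
  have h := P.one_le_N
  unfold B
  rw [pow_one, le_div_iff₀ (by linarith), one_mul]; exact P.N_le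

end Par

lemma fin_nonneg {a : ℝ} (ha : 1 ≤ a) (u : Fin n) (Q) (s : St n) : 0 ≤ fin a u Q s := by
  unfold fin; split_ifs; exacts [(wt_pos ha _ _).le, le_rfl]

lemma first_step (P : Par n) (u : Fin n) (Q) (k : ℕ) (p : Fin n) (s : St n)
    (hs : s.2.card + (k + 1) ≤ P.R)
    (hF : ∀ p s, s.2.card + k ≤ P.R → NoDel p s → W (fin P.a u Q) k p s ≤ wt P.a u s * P.B k)
    (hX : ∀ p s, s.2.card + k ≤ P.R → NoD u p s →
      W (fin P.a u Q) k p s ≤ wt P.a u s * (4 * P.B k * (1 + deg s.2 s.1))) :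
    W (fin P.a u Q) (k + 1) p s ≤ wt P.a u s * P.B (k + 1) +
      ∑ c ∈ Del p s, W (fin P.a u Q) k s.1 (nx s c) := by
  classical
  have hw := wt_pos P.ha u s
  have hB := P.B_pos k
  have ha : 0 < P.a := by linarith [P.ha]
  have hc : ∀ c, (nx s c).2.card + k ≤ P.R := fun c => by
    have := card_symmDiff_single_le s.2 s(c, s.1); rw [nx_snd]; omega
  rw [W, ← sum_filter_add_sum_filter_not _ (fun c => s(c, s.1) ∈ s.2), filter_filter, add_comm]
  refine add_le_add ?_ (le_of_eq rfl)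
  have h1 : ∀ c ∈ (univ.filter (fun c => c ≠ s.1 ∧ c ≠ p)).filter (fun c => ¬ s(c, s.1) ∈ s.2),
      W (fin P.a u Q) k s.1 (nx s c) ≤ wt P.a u s / P.a * P.B k +
        if c ∈ VU u s then wt P.a u s * (4 * P.B k * (2 + deg s.2 c)) else 0 := by
    intro c hc'
    have h2 := (mem_filter.1 hc').2
    split_ifs with h3
    · have h4 := hX _ _ (hc c) (noD_create h2)
      have h5 := wt_keep P.ha (u := u) (fun h => h2 h.2.1)
      have h6 : (deg (nx s c).2 (nx s c).1 : ℝ) ≤ deg s.2 c + 1 := by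
        exact_mod_cast deg_symmDiff_le s.2 s(c, s.1) c
      have h7 : wt P.a u (nx s c) * (4 * P.B k * (1 + deg (nx s c).2 (nx s c).1)) ≤
          wt P.a u s * (4 * P.B k * (2 + deg s.2 c)) :=
        mul_le_mul h5 (mul_le_mul_of_nonneg_left (by linarith) (by positivity)) (by positivity)
          hw.le
      have h8 : 0 ≤ wt P.a u s / P.a * P.B k := by positivity
      linarith
    · have h4 := hF _ _ (hc c) (noDel_fresh (fun h => h3 (mem_insert_of_mem h)))
      have h5 := mul_le_mul_of_nonneg_right (wt_fresh P.ha h3) hB.le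
      linarith
  refine (sum_le_sum h1).trans ((sum_le_sum_of_subset_of_nonneg (subset_univ _)
    (fun c _ _ => by split_ifs <;> positivity)).trans ?_)
  rw [sum_add_distrib, sum_const, ← sum_filter, filter_mem_eq_inter, univ_inter, ← mul_sum,
    ← mul_sum, sum_add_distrib]
  simp only [sum_const, card_univ, Fintype.card_fin, nsmul_eq_mul]
  have h2 : (∑ c ∈ VU u s, (deg s.2 c : ℝ)) ≤ 2 * s.2.card := by
    have := (sum_le_sum_of_subset (f := deg s.2) (subset_univ (VU u s))).trans (sum_deg_le s.2)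
    exact_mod_cast this
  have h3 : ((VU u s).card : ℝ) ≤ 2 * s.2.card + 2 := by exact_mod_cast card_VU_le u s
  have h4 : (s.2.card : ℝ) ≤ P.R := by exact_mod_cast (by omega : s.2.card ≤ P.R)
  have h5 : ((VU u s).card : ℝ) * 2 + ∑ c ∈ VU u s, (deg s.2 c : ℝ) ≤ P.ε * (P.N * P.g) := by
    have := P.hR
    have h6 : P.ε * P.N ≤ P.ε * (P.N * P.g) :=
      mul_le_mul_of_nonneg_left (by nlinarith [P.one_le_N, P.hg]) P.hε
    linarith
  have h6 : (n : ℝ) / P.a ≤ P.N * P.g * (1 + P.ε) := by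
    rw [div_le_iff₀ ha]
    calc (n : ℝ) ≤ P.N ^ 2 * (1 + P.ε) := P.hn
      _ = _ := by rw [sq]; nth_rewrite 2 [← P.hN]; ring
  have h7 : (n : ℝ) * (wt P.a u s / P.a * P.B k) = wt P.a u s * P.B k * (n / P.a) := by ring
  rw [h7, P.B_succ]
  have h8 := mul_le_mul_of_nonneg_left h6 (mul_pos hw hB).le
  have h9 := mul_le_mul_of_nonneg_left h5 (mul_pos hw hB).le
  nlinarith

open Classical in
theorem pin (P : Par n) (u : Fin n) (Q) (k : ℕ) : ∀ p s, s.2.card + (k + 1) ≤ P.R →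
    (NoDel p s → W (fin P.a u Q) (k + 1) p s ≤ wt P.a u s * P.B (k + 1)) ∧
    (NoD u p s → W (fin P.a u Q) (k + 1) p s ≤
      wt P.a u s * (4 * P.B (k + 1) * (1 + deg s.2 s.1))) ∧
    W (fin P.a u Q) (k + 1) p s ≤ wt P.a u s * (4 * P.B (k + 1) * (1 + P.R + (k + 1 : ℕ)) +
      if Perf u Q (k + 1) s then P.a ^ (k + 1) else 0) := by
  induction k with
  | zero =>
    intro p s hs
    have hw := wt_pos P.ha u s
    have hB := P.one_le_B_one
    have h0 : ∀ X, 0 ≤ X → (u ≠ s.1 → u ≠ p → fin P.a u Q (nx s u) ≤ X) →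
        W (fin P.a u Q) (0 + 1) p s ≤ X := by
      intro X hX h
      simp only [W]
      by_cases h1 : u ∈ univ.filter (fun c => c ≠ s.1 ∧ c ≠ p)
      · rw [sum_eq_single_of_mem u h1 (fun c _ hc => by simp [fin, hc])]
        exact h (mem_filter.1 h1).2.1 (mem_filter.1 h1).2.2
      · rw [sum_eq_zero (fun c hc => by
          have : c ≠ u := fun h2 => h1 (h2 ▸ hc)
          simp [fin, this])]
        exact hX
    have h1 : ¬ Dst u s u → fin P.a u Q (nx s u) ≤ wt P.a u s * P.B (0 + 1) := by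
      intro h
      have h2 := wt_keep P.ha h
      have h3 : wt P.a u s ≤ wt P.a u s * P.B (0 + 1) := le_mul_of_one_le_right hw.le hB
      unfold fin; split_ifs <;> linarith
    have hB' : 0 < P.B (0 + 1) := P.B_pos _
    refine ⟨fun h => h0 _ (by positivity) fun h2 h3 => h1 (h.noD u h2 h3),
      fun h => h0 _ (by positivity) fun h2 h3 => (h1 (h u h2 h3)).trans ?_,
      h0 _ (by have := P.ha; split_ifs <;> positivity) fun h2 h3 => ?_⟩
    · refine mul_le_mul_of_nonneg_left ?_ hw.le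
      have : (0 : ℝ) ≤ deg s.2 s.1 := by positivity
      nlinarith
    · have h4 : 0 ≤ 4 * P.B (0 + 1) * (1 + P.R + (0 + 1 : ℕ)) := by positivity
      by_cases hD : Dst u s u
      · unfold fin
        by_cases hQ : (nx s u).1 = u ∧ Q (nx s u).2
        · rw [if_pos hQ, if_pos (show Perf u Q (0 + 1) s from ⟨u, h2, hD, hQ⟩)]
          have := wt_loss P.ha u s u
          have h5 := mul_nonneg hw.le h4
          rw [zero_add, pow_one, mul_add] at *
          linarith
        · rw [if_neg hQ]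
          have := P.ha
          split_ifs <;> positivity
      · refine (h1 hD).trans (mul_le_mul_of_nonneg_left ?_ hw.le)
        have h5 : (0 : ℝ) ≤ P.R := by positivity
        have h6 : 0 ≤ if Perf u Q (0 + 1) s then P.a ^ (0 + 1) else 0 := by
          have := P.ha
          split_ifs <;> positivity
        push_cast
        nlinarith
  | succ k ih =>
    intro p s hs
    have hw := wt_pos P.ha u s
    have hB := P.B_pos (k + 1)
    have hB2 := P.N_mul_B_le (k + 1)
    have hN := P.one_le_N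
    have ha : 0 < P.a := by linarith [P.ha]
    have fs := first_step P u Q (k + 1) p s hs (fun p s h => (ih p s h).1)
      (fun p s h => (ih p s h).2.1)
    have hc : ∀ c, (nx s c).2.card + (k + 1) ≤ P.R := fun c => by
      have := card_symmDiff_single_le s.2 s(c, s.1); rw [nx_snd]; omega
    have hk : ((k + 1 : ℕ) : ℝ) ≤ P.R := by exact_mod_cast (by omega : k + 1 ≤ P.R)
    have hX : NoD u p s → W (fin P.a u Q) (k + 1 + 1) p s ≤
        wt P.a u s * (4 * P.B (k + 1 + 1) * (1 + deg s.2 s.1)) := by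
      intro h
      have h1 : ∀ c ∈ Del p s, W (fin P.a u Q) (k + 1) s.1 (nx s c) ≤
          wt P.a u s * (3 * P.B (k + 1 + 1)) := by
        intro c hc'
        have h2 := (mem_filter.1 hc').2.1
        refine (ih s.1 _ (hc c)).2.2.trans (mul_le_mul (wt_keep P.ha (h c h2.1 h2.2)) ?_
          (by split_ifs <;> positivity) hw.le)
        have h3 : (if Perf u Q (k + 1) (nx s c) then P.a ^ (k + 1) else 0) ≤ P.N * P.B (k + 1) := by
          split_ifs
          · exact P.a_pow_le _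
          · positivity
        have h4 : 4 * (1 + P.R + ((k + 1 : ℕ) : ℝ)) ≤ 2 * P.N := by
          have h5 := P.hR
          have h6 : P.ε * P.N ≤ P.N := by nlinarith [P.hε1]
          have h7 : (0 : ℝ) ≤ P.R := by positivity
          linarith
        nlinarith
      have h2 := (sum_le_card_nsmul _ _ _ h1)
      rw [nsmul_eq_mul] at h2
      have h3 : ((Del p s).card : ℝ) ≤ deg s.2 s.1 := by exact_mod_cast card_Del_le p s
      have h4 : 0 < wt P.a u s * P.B (k + 1 + 1) := mul_pos hw (P.B_pos _)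
      have h5 : (0 : ℝ) ≤ deg s.2 s.1 := by positivity
      nlinarith
    refine ⟨fun h => ?_, hX, ?_⟩
    · have : Del p s = ∅ := filter_eq_empty_iff.2 fun c _ hc => h c hc.1.1 hc.1.2 hc.2
      rw [this, sum_empty, add_zero] at fs
      exact fs
    · have h6 : 0 ≤ if Perf u Q (k + 1 + 1) s then P.a ^ (k + 1 + 1) else 0 := by
        split_ifs <;> positivity
      by_cases h : NoD u p s
      · refine (hX h).trans (mul_le_mul_of_nonneg_left ?_ hw.le)
        have h1 : (deg s.2 s.1 : ℝ) ≤ P.R := by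
          exact_mod_cast (deg_le_card s.2 s.1).trans (by omega)
        have h2 : (0 : ℝ) ≤ ((k + 1 + 1 : ℕ) : ℝ) := by positivity
        have h3 := P.B_pos (k + 1 + 1)
        nlinarith
      · unfold NoD at h
        push Not at h
        obtain ⟨c, h1, h2, h3⟩ := h
        have h4 : Del p s = {c} := by
          refine eq_singleton_iff_unique_mem.2 ⟨mem_filter.2 ⟨mem_univ _, ⟨h1, h2⟩, h3.2.1⟩, ?_⟩
          intro d hd
          exact Sym2.congr_left.1 (eq_of_deg_le_one h3.2.2.le (mem_filter.1 hd).2.2 (by simp)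
            h3.2.1 (by simp))
        rw [h4, sum_singleton] at fs
        have h5 := (ih s.1 _ (hc c)).2.2.trans (mul_le_mul_of_nonneg_right (wt_loss P.ha u s c)
          (by split_ifs <;> positivity))
        have h7 : P.a * (if Perf u Q (k + 1) (nx s c) then P.a ^ (k + 1) else 0) ≤
            if Perf u Q (k + 1 + 1) s then P.a ^ (k + 1 + 1) else 0 := by
          by_cases h8 : Perf u Q (k + 1) (nx s c)
          · rw [if_pos h8, if_pos (show Perf u Q (k + 1 + 1) s from ⟨c, h1, h3, h8⟩)]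
            exact le_of_eq (by ring)
          · rw [if_neg h8, mul_zero]; exact h6
        have h8 : P.a * P.B (k + 1) ≤ P.B (k + 1 + 1) :=
          (mul_le_mul_of_nonneg_right P.a_le_N hB.le).trans hB2
        have h9 : (0 : ℝ) ≤ 1 + P.R + ((k + 1 : ℕ) : ℝ) := by positivity
        have h10 := mul_le_mul_of_nonneg_right h8 h9
        have h11 := P.B_pos (k + 1 + 1)
        refine fs.trans ((add_le_add le_rfl h5).trans ?_)
        have h12 : P.B (k + 1 + 1) + P.a * (4 * P.B (k + 1) * (1 + P.R + ((k + 1 : ℕ) : ℝ)) +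
            if Perf u Q (k + 1) (nx s c) then P.a ^ (k + 1) else 0) ≤
            4 * P.B (k + 1 + 1) * (1 + P.R + ((k + 1 + 1 : ℕ) : ℝ)) +
            if Perf u Q (k + 1 + 1) s then P.a ^ (k + 1 + 1) else 0 := by
          push_cast at h10 ⊢
          nlinarith
        nlinarith

end Pool.Agent.Lib.MP_dfd018_pr
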