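import Pool.Agent.Lib.MP_dfd018_pr.Tri

/-!
The quadratic witness: sum of squares certificate and the moment bound.
-/

namespace Pool.Agent.Lib.MP_dfd018_pr

open Finset Matrix

variable {n : ℕ}

noncomputable def KQ (n : ℕ) (N : ℝ) : Matrix (St n) (St n) ℝ :=
  KA + (-(7 / 25 / N)) • (KA * KA) + (7 / 25 / N) • KW + (7 / 25 / N * (n - 1) + 3 * N) • 1

lemma dot_T (x y : St n → ℝ) (C : Matrix (St n) (St n) ℝ) : x ⬝ᵥ C *ᵥ y = y ⬝ᵥ Cᵀ *ᵥ x := by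
  rw [dotProduct_mulVec, dotProduct_comm, ← mulVec_transpose]

lemma KQ_quad {N : ℝ} (hN : 0 < N) (hn : N ^ 2 = n) {R : ℕ} (hR0 : 0 < R)
    (hR : (R : ℝ) ^ 3 ≤ (1 / 10000) ^ 2 * n) (z : St n → ℝ) (hz : Low R z) :
    |z ⬝ᵥ KQ n N *ᵥ z| ≤ 4448 / 1000 * N * (z ⬝ᵥ z) := by
  classical
  have hR1 : (1 : ℝ) ≤ R := by exact_mod_cast hR0
  have hRN : (R : ℝ) ≤ N / 10000 := by
    have : (R : ℝ) ^ 2 ≤ (N / 10000) ^ 2 := by nlinarith
    exact (pow_le_pow_iff_left₀ (by positivity) (by positivity) two_ne_zero).1 this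
  set q := z ⬝ᵥ z with hq
  have hq0 : 0 ≤ q := dot_self_nonneg z
  set a := Cr *ᵥ z with ha
  set b := Crᵀ *ᵥ z with hb
  set e := EA *ᵥ z with he
  set c := Crᵀ *ᵥ b with hc
  set L := ∑ t, if Leaf t then z t ^ 2 else 0 with hL
  set T := ∑ t, if TTop t then z t ^ 2 else 0 with hT
  set I := ∑ t, if Iso t then z t ^ 2 else 0 with hI
  have hL0 : 0 ≤ L := sum_nonneg fun t _ => by split_ifs <;> positivity
  have hT0 : 0 ≤ T := sum_nonneg fun t _ => by split_ifs <;> positivity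
  have hI0 : 0 ≤ I := sum_nonneg fun t _ => by split_ifs <;> positivity
  have hparts : L + T + I ≤ q := parts_le z
  have hKA : KA *ᵥ z = a + b + e := by rw [KA_eq, add_mulVec, add_mulVec]
  have hza : z ⬝ᵥ a = z ⬝ᵥ b := dot_T z z Cr
  have hab : a ⬝ᵥ b = z ⬝ᵥ c := by rw [dotProduct_comm, ha, dot_T]
  have haa : a ⬝ᵥ a ≤ n * q := Cr_norm_le z
  have haa' : (n - R) * q ≤ a ⬝ᵥ a := Cr_norm_ge hz
  have hbb : b ⬝ᵥ b ≤ n * L := CrT_norm_le z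
  have hbb0 : 0 ≤ b ⬝ᵥ b := dot_self_nonneg b
  have hee : e ⬝ᵥ e ≤ (R : ℝ) ^ 2 * q := EA_norm hz hR0
  have hee0 : 0 ≤ e ⬝ᵥ e := dot_self_nonneg e
  have hze : |z ⬝ᵥ e| ≤ R * q := by
    have := EA_bilin hz z one_pos
    rw [← he, ← hq] at this; linarith
  have hn0 : (0 : ℝ) ≤ n := by positivity
  have hLq : n * L ≤ n * q := mul_le_mul_of_nonneg_left (by linarith) hn0
  have habab : (a + b) ⬝ᵥ (a + b) = a ⬝ᵥ a + b ⬝ᵥ b + 2 * (z ⬝ᵥ c) := by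
    simp only [add_dotProduct, dotProduct_add]; rw [dotProduct_comm b a, hab]; ring
  have habab4 : (a + b) ⬝ᵥ (a + b) ≤ 4 * N ^ 2 * q := by
    have h1 := dot_self_nonneg (a - b)
    simp only [sub_dotProduct, dotProduct_sub] at h1
    rw [dotProduct_comm b a, hab] at h1
    rw [habab, hn]; linarith
  have habe : |(a + b) ⬝ᵥ e| ≤ 2 * N * R * q := by
    have := EA_bilin hz (a + b) (θ := 2 * N) (by positivity)
    rw [← he, ← hq] at this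
    have h2 : R / (2 * N) * ((a + b) ⬝ᵥ (a + b)) ≤ R / (2 * N) * (4 * N ^ 2 * q) :=
      mul_le_mul_of_nonneg_left habab4 (by positivity)
    have h3 : R / (2 * N) * (4 * N ^ 2 * q) = 2 * N * R * q := by field_simp; ring
    linarith
  have hKK : z ⬝ᵥ (KA * KA) *ᵥ z = (a + b) ⬝ᵥ (a + b) + 2 * ((a + b) ⬝ᵥ e) + e ⬝ᵥ e := by
    rw [← mulVec_mulVec, dot_symm KA_symm, hKA]
    generalize a + b = p
    rw [add_dotProduct, dotProduct_add, dotProduct_add, dotProduct_comm e p]; ring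
  have hsos : 2 * N * (z ⬝ᵥ b) - 2 * (7 / 25) * (z ⬝ᵥ c) ≤
      (1 / 9 + (75 / 88) ^ 2) * N ^ 2 * q + (21 / 25) ^ 2 * (b ⬝ᵥ b) := by
    set w : St n → ℝ := (-(75 / 88) : ℝ) • z + (21 / 25 / N) • b with hw
    have h1 := CrT_norm_le w
    have h2 : (∑ t, if Leaf t then w t ^ 2 else 0) ≤ w ⬝ᵥ w := by
      rw [dot_self_eq]; exact sum_ite_le_of_nonneg _ _ fun t => by positivity
    have h3 : (Crᵀ *ᵥ w) ⬝ᵥ (Crᵀ *ᵥ w) ≤ N ^ 2 * (w ⬝ᵥ w) := by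
      rw [hn]; exact h1.trans (mul_le_mul_of_nonneg_left h2 hn0)
    have h4 := dot_self_nonneg ((N / 3) • z + Crᵀ *ᵥ w)
    rw [add_dotProduct, dotProduct_add, dotProduct_add, dotProduct_comm (Crᵀ *ᵥ w) ((N / 3) • z)]
      at h4
    have h5 : ((N / 3) • z) ⬝ᵥ (Crᵀ *ᵥ w) = -(75 / 88) * (N / 3) * (z ⬝ᵥ b) + 7 / 25 * (z ⬝ᵥ c) := by
      simp only [hw, mulVec_add, mulVec_smul, ← hb, ← hc, smul_dotProduct, dotProduct_add,
        dotProduct_smul, smul_eq_mul]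
      field_simp; ring
    have h6 : N ^ 2 * (w ⬝ᵥ w) = (75 / 88) ^ 2 * N ^ 2 * q - 2 * (75 / 88) * (21 / 25) * N * (z ⬝ᵥ b)
        + (21 / 25) ^ 2 * (b ⬝ᵥ b) := by
      simp only [hw, add_dotProduct, dotProduct_add, smul_dotProduct, dotProduct_smul, smul_eq_mul,
        ← hq, dotProduct_comm b z]
      field_simp; ring
    have h7 : ((N / 3) • z) ⬝ᵥ ((N / 3) • z) = 1 / 9 * N ^ 2 * q := by
      simp only [smul_dotProduct, dotProduct_smul, smul_eq_mul, ← hq]; ring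
    rw [h5, h7] at h4
    linarith
  have hE : (1 / 10000 / R * (2 * n * R) + (R : ℝ) ^ 2 / (1 / 10000 / R)) / 2 ≤ 3 / 20000 * n := by
    have h1 : (1 / 10000 / R * (2 * n * R) : ℝ) = 2 / 10000 * n := by field_simp
    have h2 : (R : ℝ) ^ 2 / (1 / 10000 / R) = 10000 * R ^ 3 := by field_simp
    rw [h1, h2]; linarith
  have hE1 : |z ⬝ᵥ E1 *ᵥ z| ≤ 3 / 20000 * n * q :=
    (E1_quad hz (θ := 1 / 10000 / R) (by positivity)).trans (mul_le_mul_of_nonneg_right hE hq0)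
  have hE2 : |z ⬝ᵥ E2 *ᵥ z| ≤ 3 / 20000 * n * q :=
    (E2_quad hz (θ := 1 / 10000 / R) (by positivity)).trans (mul_le_mul_of_nonneg_right hE hq0)
  have hW : z ⬝ᵥ KW *ᵥ z = 2 * (z ⬝ᵥ Tr *ᵥ z) + z ⬝ᵥ E1 *ᵥ z + z ⬝ᵥ E2 *ᵥ z := by
    rw [KW_eq]
    simp only [add_mulVec, dotProduct_add]
    rw [← dot_T z z Tr]; ring
  have hTr : (Tr *ᵥ z) ⬝ᵥ (Tr *ᵥ z) ≤ (n : ℝ) ^ 2 * (q + I) := Tr_norm_le z
  have hnpos : (0 : ℝ) < n := by rw [← hn]; positivity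
  have hT1 : 2 * |z ⬝ᵥ Tr *ᵥ z| ≤ 38 / 25 * n * T + 25 / 38 * n * (q + I) := by
    have := Tr_quad z (κ := 38 / 25 * n) (by positivity)
    have h2 : (Tr *ᵥ z) ⬝ᵥ (Tr *ᵥ z) / (38 / 25 * n) ≤ 25 / 38 * n * (q + I) := by
      rw [div_le_iff₀ (by positivity)]; nlinarith
    linarith
  have hmain : N * (z ⬝ᵥ KQ n N *ᵥ z) = N * (2 * (z ⬝ᵥ b) + z ⬝ᵥ e)
      - 7 / 25 * (z ⬝ᵥ (KA * KA) *ᵥ z) + 7 / 25 * (z ⬝ᵥ KW *ᵥ z)
      + (7 / 25 * (n - 1) + 3 * N ^ 2) * q := by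
    simp only [KQ, add_mulVec, smul_mulVec, one_mulVec, dotProduct_add, dotProduct_smul,
      smul_eq_mul, hKA, hza, ← hq]
    field_simp; ring
  have hzb : 2 * N * |z ⬝ᵥ b| ≤ 2 * n * q := by
    have h1 := dot_self_nonneg (N • z - b)
    have h2 := dot_self_nonneg (N • z + b)
    simp only [sub_dotProduct, dotProduct_sub, add_dotProduct, dotProduct_add, smul_dotProduct,
      dotProduct_smul, smul_eq_mul, ← hq, dotProduct_comm b z] at h1 h2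
    have h3 : N * (N * q) = n * q := by rw [← hn]; ring
    rcases abs_cases (z ⬝ᵥ b) with h | h <;> rw [h.1] <;> linarith
  have hNR : N * R * q ≤ n / 10000 * q := by
    apply mul_le_mul_of_nonneg_right _ hq0
    rw [← hn]; nlinarith
  have hRq : R * q ≤ n / 10000 * q := by
    apply mul_le_mul_of_nonneg_right _ hq0
    rw [← hn]; nlinarith
  have hR2 : (R : ℝ) ^ 2 * q ≤ n / 10000 * q := by
    apply mul_le_mul_of_nonneg_right _ hq0
    rw [← hn]; nlinarith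
  have hNze : N * |z ⬝ᵥ e| ≤ N * (R * q) := mul_le_mul_of_nonneg_left hze hN.le
  have hnT : n * T + n * L + n * I ≤ n * q := by
    have := mul_le_mul_of_nonneg_left hparts hn0
    linarith
  have hnI : 0 ≤ n * I := by positivity
  have hnT0 : 0 ≤ n * T := by positivity
  have hnL0 : 0 ≤ n * L := by positivity
  have hnq : 0 ≤ n * q := by positivity
  have a1 := abs_le.1 habe
  have a2 := abs_le.1 hE1
  have a3 := abs_le.1 hE2
  have a4 := le_abs_self (z ⬝ᵥ Tr *ᵥ z)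
  have a5 := neg_abs_le (z ⬝ᵥ Tr *ᵥ z)
  have a6 : N * (z ⬝ᵥ e) ≤ N * |z ⬝ᵥ e| := mul_le_mul_of_nonneg_left (le_abs_self _) hN.le
  have a7 : N * -|z ⬝ᵥ e| ≤ N * (z ⬝ᵥ e) := mul_le_mul_of_nonneg_left (neg_abs_le _) hN.le
  have a8 : N * -|z ⬝ᵥ b| ≤ N * (z ⬝ᵥ b) := mul_le_mul_of_nonneg_left (neg_abs_le _) hN.le
  rw [hn] at hsos habab4 hmain
  have key : |N * (z ⬝ᵥ KQ n N *ᵥ z)| ≤ 4448 / 1000 * n * q := by
    rw [hmain, hW, hKK, abs_le]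
    constructor
    · nlinarith
    · rw [habab]; nlinarith
  rw [abs_mul, abs_of_pos hN, ← hn] at key
  have : N * |z ⬝ᵥ KQ n N *ᵥ z| ≤ N * (4448 / 1000 * N * q) := by linarith
  exact le_of_mul_le_mul_left this hN

end Pool.Agent.Lib.MP_dfd018_pr
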