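import Pool.Agent.Lib.MP_dfd018_pr.Bad

/-!
The two regimes of parameters.
-/

namespace Pool.Agent.Lib.MP_dfd018_pr

open Finset Matrix Polynomial

variable {n : ℕ}

structure Sc (n t : ℕ) (N : ℝ) : Prop where
  sq : N ^ 2 = n - 2
  lo : (t : ℝ) ^ 24 ≤ 2 * N
  big : (3000 : ℝ) ≤ t

namespace Sc
variable {t : ℕ} {N : ℝ} (h : Sc n t N)
include h

lemma one_le : (1 : ℝ) ≤ t := by linarith [h.big]

lemma pow_le {a b : ℕ} (hab : a ≤ b) : (t : ℝ) ^ a ≤ t ^ b := pow_le_pow_right₀ h.one_le hab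

lemma mul_le {a b : ℕ} (hab : a < b) {c : ℝ} (hc : c ≤ t) : c * (t : ℝ) ^ a ≤ t ^ b := by
  have h1 := h.one_le
  calc _ ≤ t * (t : ℝ) ^ a := mul_le_mul_of_nonneg_right hc (by positivity)
    _ = t ^ (a + 1) := by ring
    _ ≤ _ := h.pow_le hab

lemma pow_le_N {a : ℕ} (ha : a < 24) : (t : ℝ) ^ a ≤ N := by
  have := h.mul_le ha (c := 2) (by linarith [h.big])
  linarith [h.lo]

lemma one_le_N : 1 ≤ N := by simpa using h.pow_le_N (a := 0) (by norm_num)

noncomputable def parS : Par n := mkPar N 1 (1 / t ^ 9) (8 * t ^ 6) h.sq le_rfl h.one_le_N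
  (by rw [div_le_one (by have := h.one_le; positivity)]; simpa using h.pow_le (Nat.zero_le 9))
  (by
    have h1 := h.one_le
    have h2 := h.mul_le (a := 15) (b := 24) (c := 104) (by norm_num) (by linarith [h.big])
    have h3 := h.pow_le (a := 9) (b := 15) (by norm_num)
    rw [one_div, inv_mul_eq_div, le_div_iff₀ (by positivity)]
    push_cast
    have := h.lo
    nlinarith)

lemma parS_e2 : 4 * (2 * (h.parS.R : ℝ) + 1) ^ 2 ≤ 1 / t ^ 9 * h.parS.N := by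
  change 4 * (2 * ((8 * t ^ 6 : ℕ) : ℝ) + 1) ^ 2 ≤ 1 / t ^ 9 * N
  have h1 := h.one_le
  have h2 := h.mul_le (a := 21) (b := 24) (c := 2312) (by norm_num) (by linarith [h.big])
  have h3 := h.pow_le (a := 0) (b := 6) (by norm_num)
  have h4 : (2 * (8 * (t : ℝ) ^ 6) + 1) ^ 2 ≤ (17 * t ^ 6) ^ 2 :=
    pow_le_pow_left₀ (by positivity) (by linarith) 2
  rw [one_div, inv_mul_eq_div, le_div_iff₀ (by positivity)]
  push_cast
  have h5 := mul_le_mul_of_nonneg_right h4 (show 0 ≤ (t : ℝ) ^ 9 by positivity)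
  have := h.lo
  nlinarith

lemma eps_le {c : ℝ} (hc : 0 < c) (hct : c ≤ t) {m : ℝ} (hm : m ≤ t ^ 4) :
    m * (1 / (t : ℝ) ^ 9) ≤ 1 / c := by
  have h1 := h.one_le
  rw [mul_one_div, div_le_div_iff₀ (by positivity) hc]
  have h2 := h.mul_le (a := 4) (b := 9) (by norm_num) hct
  nlinarith

lemma lam_le {j : ℕ} (hj : j ≤ t ^ 3) : (1 + 5 * (1 / (t : ℝ) ^ 9)) ^ (j + 2) ≤ 11 / 10 := by
  have h1 := h.one_le
  have hj' : (j : ℝ) ≤ t ^ 3 := by exact_mod_cast hj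
  have h2 := h.mul_le (a := 3) (b := 4) (c := 15) (by norm_num) (by linarith [h.big])
  have h3 := h.pow_le (a := 0) (b := 3) (by norm_num)
  have h4 := h.eps_le (c := 20) (by norm_num) (by linarith [h.big]) (m := 5 * (j + 2))
    (by linarith)
  have h5 : ((j + 2 : ℕ) : ℝ) * (5 * (1 / (t : ℝ) ^ 9)) ≤ 1 / 20 := by push_cast; linarith
  exact (pow_le_one_add (by positivity) (h5.trans (by norm_num))).trans (by linarith)

lemma hadS {j : ℕ} (hj : j ≤ t ^ 3) : Most (fun G : SimpleGraph (Fin n) => ∀ x,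
    |x ⬝ᵥ hadamard (QM N (pmAdj G) (j + 2)) (pmAdj G) *ᵥ x| ≤ 44 * (x ⬝ᵥ x))
    (n * (1 / 2) ^ (2 * t ^ 3)) := by
  have h1 : 1 ≤ t := by exact_mod_cast h.one_le
  have h2 : 1 ≤ t ^ 3 := Nat.one_le_pow _ _ h1
  refine (most_had h.parS rfl h.sq j (t ^ 3) (by
    change _ ≤ 8 * t ^ 6
    nlinarith) h.parS_e2 (L := 22) (θ := 44) ?_ (by norm_num)).mono (fun _ h => h)
    (le_of_eq (by norm_num))
  change (1 + 5 * (1 / (t : ℝ) ^ 9)) ^ (j + 2) * _ + 8 ≤ 22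
  have h3 := h.lam_le hj
  have h4 := h.eps_le (c := 1) one_pos h.one_le (m := 1) (by simpa using h.pow_le (Nat.zero_le 4))
  have h5 : 0 ≤ (1 + 5 * (1 / (t : ℝ) ^ 9)) ^ (j + 2) := by positivity
  nlinarith

lemma normS : Most (fun G : SimpleGraph (Fin n) => ∀ x,
    |x ⬝ᵥ pmAdj G *ᵥ x| ≤ 1001 / 500 * N * (x ⬝ᵥ x)) (n * (2001 / 2002) ^ (2 * t ^ 3)) := by
  have h1 : 1 ≤ t := by exact_mod_cast h.one_le
  have h2 : 1 ≤ t ^ 3 := Nat.one_le_pow _ _ h1
  refine most_A h.parS (by change N ^ 2 ≤ n; linarith [h.sq]) (t ^ 3) (by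
    change _ ≤ 8 * t ^ 6
    nlinarith) ?_
  have := h.eps_le (c := 3000) (by norm_num) h.big (m := 1) (by simpa using h.pow_le (Nat.zero_le 4))
  change 1 / (t : ℝ) ^ 9 ≤ _
  linarith

end Sc

lemma mainS : ∃ K : ℝ, 0 ≤ K ∧ ∀ (n t J : ℕ) (N : ℝ) (c : ℕ → ℝ), Sc n t N → 1 ≤ J →
    (J : ℝ) + 56 ≤ t → 10 ^ 6 * K ≤ t → 10 ^ 16 * (J : ℝ) ^ 2 ≤ t → (∀ k < J, |c k| ≤ 2) →
    ∑ k ∈ range J, c k ^ 2 / 4 ≤ 6988 / 10 ^ 5 →
    ∑ k ∈ range J, (if 2 ≤ k then c k ^ 2 / 4 else 0) ≤ 1 / 100 →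
    Most (fun G : SimpleGraph (Fin n) => ∀ x, -(x ⬝ᵥ aeval (N⁻¹ • pmAdj G) Rp *ᵥ x) +
      ∑ k ∈ range J, c k / 2 * (x ⬝ᵥ hadamard (QM N (pmAdj G) (k + 2)) (pmAdj G) *ᵥ x) ≤
        11751 / 10 ^ 5 * (x ⬝ᵥ x))
      (n * ((K + 16 * J + 11750 / 10 ^ 5) / (K + 16 * J + 11751 / 10 ^ 5)) ^ (2 * t ^ 3)) := by
  obtain ⟨K, hK, hq⟩ := KM_quad
  refine ⟨K, hK, fun n t J N c h hJ hJt hKt hJ2 hc hS hS3 => ?_⟩
  have h1 := h.one_le
  have h1' : 1 ≤ t := by exact_mod_cast h1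
  have hJ' : (1 : ℝ) ≤ J := by exact_mod_cast hJ
  have hJt' : J + 56 ≤ t := by exact_mod_cast hJt
  have ht3 : t ≤ t ^ 3 := by simpa using Nat.pow_le_pow_right h1' (show 1 ≤ 3 by norm_num)
  have hN := h.one_le_N
  set ε : ℝ := 1 / (t : ℝ) ^ 9 with hε
  have hε0 : 0 ≤ ε := by positivity
  have t4 : (t : ℝ) * 100 ≤ t ^ 4 := by
    have := h.mul_le (a := 1) (b := 4) (c := 100) (by norm_num) (by linarith [h.big])
    linarith
  have hp : (1 + ε) ^ (J + 2) ≤ 1 + 1 / 10 ^ 4 := by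
    have h2 := h.eps_le (c := 20000) (by norm_num) (by nlinarith) (m := J + 2) (by linarith)
    have h3 : ((J + 2 : ℕ) : ℝ) * ε ≤ 1 / 20000 := by push_cast; exact h2
    exact (pow_le_one_add hε0 (h3.trans (by norm_num))).trans (by linarith)
  refine (most_quad (rep_KM N (K + 16 * J) J c) (KM_symm _ _ _ _) (MM_symm _ _ _ _)
    (growE_KM _ _ _ _) (L := K + 16 * J + 11750 / 10 ^ 5) (by positivity) (t ^ 3) (fun z hz => ?_)
    (θ := K + 16 * J + 11751 / 10 ^ 5) (by positivity)).mono (fun G hG x => ?_) le_rfl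
  · refine (hq n h.parS J c ((J + 29) * t ^ 3) ε (1 / (10 ^ 7 * J)) (699 / 10 ^ 4) (2 / 100) rfl
      (by change N ^ 2 ≤ n; linarith [h.sq]) (by change _ ≤ 8 * t ^ 6; nlinarith) h.parS_e2
      (by positivity) (fun k hk => ?_) (fun k hk => ?_) hc ?_ ?_ (by norm_num) z hz).trans
      (mul_le_mul_of_nonneg_right ?_ (dot_self_nonneg z))
    · change 2 * ((1 + ε) * (1 + 5 * ε) ^ (k + 2) - (1 - ε) ^ (k + 2)) +
        3 * ε * (1 + 5 * ε) ^ (k + 2) ≤ _
      have hk' : (k : ℝ) ≤ J := by exact_mod_cast hk.le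
      have h2 := h.lam_le (j := k) (by omega)
      have h3 := h.eps_le (c := 2) (by norm_num) (by linarith [h.big]) (m := 5 * (k + 2))
        (by linarith)
      have h4 := pow_le_one_add (x := 5 * ε) (m := k + 2) (by positivity) (by push_cast; linarith)
      have h5 := one_add_mul_le_pow (a := -ε) (by
        have := h.parS.hε1
        change ε ≤ 1 at this
        linarith) (k + 2)
      have h6 := h.eps_le (c := 10 ^ 16 * (J : ℝ) ^ 2) (by positivity) hJ2 (m := 22 * (k + 2) + 6)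
        (by linarith)
      have h7 : 1 / (10 ^ 16 * (J : ℝ) ^ 2) ≤ (1 / (10 ^ 7 * J)) ^ 2 := by
        rw [div_pow, one_pow, mul_pow]
        exact one_div_le_one_div_of_le (by positivity) (by nlinarith)
      have h8 := mul_le_mul_of_nonneg_left h2 hε0
      rw [← hε] at h2 h6 h8
      rw [← sub_eq_add_neg] at h5
      push_cast at h4 h5
      nlinarith
    · change (1 + 5 * ε) ^ (k + 2) * (4 + 3 * ε) + 8 ≤ 16
      have h2 := h.lam_le (j := k) (by omega)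
      have h3 := h.parS.hε1
      change ε ≤ 1 at h3
      have h5 : 0 ≤ (1 + 5 * ε) ^ (k + 2) := by positivity
      rw [← hε] at h2
      nlinarith
    · exact (mul_le_mul hp hS (sum_nonneg fun _ _ => by positivity) (by norm_num)).trans
        (by norm_num)
    · exact (mul_le_mul hp hS3 (sum_nonneg fun _ _ => by split_ifs <;> positivity)
        (by norm_num)).trans (by norm_num)
    · change K + 16 * J + (_ + _ + K * ε + _) ≤ _
      have h2 : K * ε ≤ 1 / 10 ^ 6 := by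
        have h3 := h.pow_le (a := 1) (b := 9) (by norm_num)
        rw [hε, mul_one_div, div_le_div_iff₀ (by positivity) (by positivity)]
        linarith
      have h3 : 8 * (J : ℝ) * (1 / (10 ^ 7 * J)) = 8 / 10 ^ 7 := by field_simp
      rw [h3]
      linarith
  · have h2 := (abs_le.1 (hG x)).2
    simp only [MM, add_mulVec, sub_mulVec, smul_mulVec, one_mulVec, dotProduct_add, dotProduct_sub,
      dotProduct_smul, smul_eq_mul, sum_mulVec, dotProduct_sum] at h2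
    simp only [QM_eq h.sq, smul_hadamard, smul_mulVec, dotProduct_smul, smul_eq_mul]
    have h3 : ∀ k ∈ range J, c k / 2 * (N⁻¹ ^ (k + 2) *
        (x ⬝ᵥ hadamard (MB (k + 2) G) (pmAdj G) *ᵥ x)) =
        c k / (2 * N ^ (k + 2)) * (x ⬝ᵥ hadamard (MB (k + 2) G) (pmAdj G) *ᵥ x) := fun k _ => by
      rw [inv_pow]; field_simp
    rw [sum_congr rfl h3]
    linarith

noncomputable def CB (D : ℝ) : ℝ := Real.exp (1960 * D ^ 2) * (4 + 3 * (33800 * D ^ 2)) + 8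

namespace Sc
variable {t e : ℕ} {N D : ℝ} (h : Sc n t N) (hD : 1 ≤ D) (he : (e : ℝ) + 3 ≤ D * t ^ 12)
  (hDt : 392 * D ≤ t)
include h hD he

lemma eps_B : (6 * ((32 * (e + 3) : ℕ) : ℝ) + 4) / N ≤ 392 * D / t ^ 12 := by
  have h1 := h.one_le
  have h2 := h.one_le_N
  have h3 := h.pow_le (a := 0) (b := 12) (by norm_num)
  have h4 : 6 * ((32 * (e + 3) : ℕ) : ℝ) + 4 ≤ 196 * D * t ^ 12 := by push_cast; nlinarith
  rw [div_le_div_iff₀ (by linarith) (by positivity)]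
  have h5 := mul_le_mul_of_nonneg_right h4 (show 0 ≤ (t : ℝ) ^ 12 by positivity)
  have h6 := mul_le_mul_of_nonneg_left h.lo (show 0 ≤ 196 * D by positivity)
  nlinarith

include hDt

noncomputable def parB (g : ℝ) (hg : 1 ≤ g) (hgN : g ≤ N) : Par n :=
  mkPar N g ((6 * ((32 * (e + 3) : ℕ) : ℝ) + 4) / N) (32 * (e + 3)) h.sq hg hgN
    ((h.eps_B hD he).trans (by
      have h1 := h.one_le
      rw [div_le_one (by positivity)]
      exact hDt.trans (by simpa using h.pow_le (a := 1) (b := 12) (by norm_num))))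
    (le_of_eq (by have := h.one_le_N; field_simp))

omit hDt in
lemma e2_B : 4 * (2 * ((32 * (e + 3) : ℕ) : ℝ) + 1) ^ 2 ≤ 33800 * D ^ 2 * N := by
  have h1 := h.one_le
  have h3 := h.pow_le (a := 0) (b := 12) (by norm_num)
  have h4 : 2 * ((32 * (e + 3) : ℕ) : ℝ) + 1 ≤ 65 * D * t ^ 12 := by push_cast; nlinarith
  have h5 := pow_le_pow_left₀ (by positivity) h4 2
  have h6 := mul_le_mul_of_nonneg_left h.lo (show 0 ≤ 16900 * D ^ 2 by positivity)
  nlinarith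

omit hDt in
lemma lam_B {j : ℕ} (hj : j ≤ e) :
    (1 + 5 * ((6 * ((32 * (e + 3) : ℕ) : ℝ) + 4) / N)) ^ (j + 2) ≤ Real.exp (1960 * D ^ 2) := by
  have h1 := h.one_le
  have h2 := h.one_le_N
  refine (pow_le_exp (by positivity) _).trans (Real.exp_le_exp.2 ?_)
  have hj' : ((j + 2 : ℕ) : ℝ) ≤ D * t ^ 12 := by
    have : (j : ℝ) ≤ e := by exact_mod_cast hj
    push_cast; linarith
  calc _ ≤ D * t ^ 12 * (5 * (392 * D / t ^ 12)) :=
        mul_le_mul hj' (mul_le_mul_of_nonneg_left (h.eps_B hD he) (by norm_num)) (by positivity)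
          (by positivity)
    _ = _ := by field_simp; ring

lemma hadB {j : ℕ} (hj : j ≤ e) : Most (fun G : SimpleGraph (Fin n) => ∀ x,
    |x ⬝ᵥ hadamard (QM N (pmAdj G) (j + 2)) (pmAdj G) *ᵥ x| ≤ t * (x ⬝ᵥ x))
    (n * (CB D / t) ^ (2 * 31)) :=
  most_had (h.parB hD he hDt 1 le_rfl h.one_le_N) rfl h.sq j 31 (by
    change _ ≤ 32 * (e + 3); omega) (h.e2_B hD he)
    (add_le_add (mul_le_mul_of_nonneg_right (h.lam_B hD he hj) (by positivity)) le_rfl)
    (by linarith [h.one_le])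

lemma dgB {j : ℕ} (hj : j ≤ e) : Most (fun G : SimpleGraph (Fin n) => ∀ i,
    |QM N (pmAdj G) (j + 2) i i| ≤ 1 / t ^ 14) (n * (2 * (CB D + 32 * D) / t ^ 2) ^ (2 * 16)) := by
  have h1 := h.one_le
  have h8 : (1 : ℝ) ≤ t ^ 8 := one_le_pow₀ h1
  set g : ℝ := ((t : ℝ) ^ 8) ^ (((j + 2 : ℕ) : ℝ)⁻¹) with hg
  have g1 : 1 ≤ g := Real.one_le_rpow h8 (by positivity)
  have g2 : g ^ (j + 2) = t ^ 8 := Real.rpow_inv_natCast_pow (by positivity) (by omega)
  have g3 : g ≤ N := (le_self_pow₀ g1 (show j + 2 ≠ 0 by omega)).trans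
    (g2.le.trans (h.pow_le_N (by norm_num)))
  have g4 : (t : ℝ) ^ 4 ≤ g ^ (j + 1) := by
    refine (abs_le_of_sq_le_sq' ?_ (by positivity)).2
    rw [← pow_mul, ← pow_mul, ← g2]
    exact pow_le_pow_right₀ g1 (by omega)
  refine (most_dg (h.parB hD he hDt g g1 g3) h.sq j 16 (by change _ ≤ 32 * (e + 3); omega)
    (h.e2_B hD he) (L := 2 * (CB D + 32 * D) / t ^ 16) ?_ (by positivity)).mono (fun _ h => h)
    (le_of_eq ?_)
  · change g ^ (j + 2) * (1 + 5 * ((6 * ((32 * (e + 3) : ℕ) : ℝ) + 4) / N)) ^ (j + 2) * _ +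
      ((32 * (e + 3) : ℕ) : ℝ) / g ^ (j + 1) ≤ _ * N
    have a1 : (1 + 5 * ((6 * ((32 * (e + 3) : ℕ) : ℝ) + 4) / N)) ^ (j + 2) * (1 + 33800 * D ^ 2)
        ≤ CB D := by
      refine (mul_le_mul_of_nonneg_right (h.lam_B hD he hj) (by positivity)).trans ?_
      have := Real.exp_pos (1960 * D ^ 2)
      unfold CB
      nlinarith [sq_nonneg D]
    have a2 : ((32 * (e + 3) : ℕ) : ℝ) / g ^ (j + 1) ≤ 32 * D * t ^ 8 := by
      rw [div_le_iff₀ (by positivity)]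
      have := mul_le_mul_of_nonneg_left g4 (show 0 ≤ 32 * D * t ^ 8 by positivity)
      push_cast
      nlinarith
    have a3 : 0 ≤ CB D + 32 * D := by unfold CB; positivity
    have a4 := mul_le_mul_of_nonneg_left h.lo (show 0 ≤ (CB D + 32 * D) / t ^ 16 by positivity)
    have a5 : (CB D + 32 * D) / t ^ 16 * t ^ 24 = (CB D + 32 * D) * t ^ 8 := by field_simp
    have a6 := mul_le_mul_of_nonneg_left a1 (show 0 ≤ (t : ℝ) ^ 8 by positivity)
    rw [g2, mul_assoc]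
    have a7 : 2 * (CB D + 32 * D) / t ^ 16 * N = (CB D + 32 * D) / t ^ 16 * (2 * N) := by ring
    rw [a7]
    nlinarith
  · congr 2; field_simp

end Sc

end Pool.Agent.Lib.MP_dfd018_pr
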