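import Pool.Agent.Lib.MP_dfd018_pr.Pin

/-!
Weighted row sums of the kernels built from non-backtracking walks.
-/

namespace Pool.Agent.Lib.MP_dfd018_pr

open Finset Matrix
open scoped symmDiff

variable {n : ℕ}

lemma schurW {ι : Type*} [Fintype ι] (E : Matrix ι ι ℝ) (hE : ∀ t s, 0 ≤ E t s) (w : ι → ℝ)
    (hw : ∀ s, 0 < w s) (z : ι → ℝ) {α β θ : ℝ} (hθ : 0 < θ)
    (hα : ∀ t, z t ≠ 0 → (E *ᵥ w) t ≤ α * w t) (hβ : ∀ s, z s ≠ 0 → (Eᵀ *ᵥ w) s ≤ β * w s) :
    |z ⬝ᵥ E *ᵥ z| ≤ (θ * α + β / θ) / 2 * (z ⬝ᵥ z) := by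
  have h1 : |z ⬝ᵥ E *ᵥ z| ≤ ∑ t, ∑ s, (E t s * w s * (θ * z t ^ 2 / w t) / 2 +
      E t s * w t * (z s ^ 2 / θ / w s) / 2) := by
    unfold dotProduct mulVec dotProduct
    refine (abs_sum_le_sum_abs _ _).trans (sum_le_sum fun t _ => ?_)
    rw [mul_sum]
    refine (abs_sum_le_sum_abs _ _).trans (sum_le_sum fun s _ => ?_)
    have hE' := hE t s
    have h1 := hw s
    have h2 := hw t
    rw [abs_mul, abs_mul, abs_of_nonneg hE']
    have : 2 * (|z t| * |z s|) ≤ w s * (θ * z t ^ 2 / w t) + w t * (z s ^ 2 / θ / w s) := by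
      have h3 : 0 ≤ (θ * w s * |z t| - w t * |z s|) ^ 2 / (θ * w s * w t) := by positivity
      have h4 : (θ * w s * |z t| - w t * |z s|) ^ 2 / (θ * w s * w t) =
          w s * (θ * |z t| ^ 2 / w t) + w t * (|z s| ^ 2 / θ / w s) - 2 * (|z t| * |z s|) := by
        field_simp; ring
      rw [h4, sq_abs, sq_abs] at h3; linarith
    nlinarith
  refine h1.trans ?_
  simp only [sum_add_distrib]
  rw [sum_comm (f := fun t s => E t s * w t * (z s ^ 2 / θ / w s) / 2)]
  have h2 : ∑ t, ∑ s, E t s * w s * (θ * z t ^ 2 / w t) / 2 ≤ θ * α / 2 * (z ⬝ᵥ z) := by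
    unfold dotProduct
    rw [mul_sum]
    refine sum_le_sum fun t _ => ?_
    rw [← sum_div, ← sum_mul]
    by_cases h1 : z t = 0
    · simp [h1]
    · have h5 := hw t
      have := mul_le_mul_of_nonneg_right (hα t h1) (show 0 ≤ θ * z t ^ 2 / w t by positivity)
      have h6 : α * w t * (θ * z t ^ 2 / w t) = θ * α * (z t * z t) := by field_simp
      rw [h6] at this
      change (E *ᵥ w) t * _ / 2 ≤ _
      linarith
  have h3 : ∑ s, ∑ t, E t s * w t * (z s ^ 2 / θ / w s) / 2 ≤ β / θ / 2 * (z ⬝ᵥ z) := by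
    unfold dotProduct
    rw [mul_sum]
    refine sum_le_sum fun s _ => ?_
    rw [← sum_div, ← sum_mul]
    by_cases h1 : z s = 0
    · simp [h1]
    · have h5 := hw s
      have := mul_le_mul_of_nonneg_right (hβ s h1) (show 0 ≤ z s ^ 2 / θ / w s by positivity)
      have h6 : β * w s * (z s ^ 2 / θ / w s) = β / θ * (z s * z s) := by field_simp
      rw [h6] at this
      change (Eᵀ *ᵥ w) s * _ / 2 ≤ _
      linarith
  linarith

lemma schurW_symm {ι : Type*} [Fintype ι] (E : Matrix ι ι ℝ) (hE : ∀ t s, 0 ≤ E t s)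
    (hs : E.IsSymm) (w : ι → ℝ) (hw : ∀ s, 0 < w s) (z : ι → ℝ) {α : ℝ}
    (hα : ∀ t, z t ≠ 0 → (E *ᵥ w) t ≤ α * w t) : |z ⬝ᵥ E *ᵥ z| ≤ α * (z ⬝ᵥ z) := by
  have := schurW E hE w hw z one_pos hα (by rw [hs.eq]; exact hα)
  calc _ ≤ _ := this
    _ = _ := by ring

lemma perf_ne {u : Fin n} {Q} {k : ℕ} {s : St n} (h : Perf u Q (k + 1) s) : s.1 ≠ u := by
  obtain ⟨c, -, h, -⟩ := h; exact h.1

lemma perf_card {u : Fin n} {m k : ℕ} {s : St n} (h : Perf u (fun O => m ≤ O.card) k s) :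
    m + k ≤ s.2.card := by
  induction k generalizing s with
  | zero => exact h.2
  | succ k ih =>
    obtain ⟨c, -, h1, h2⟩ := h
    have h3 := ih h2
    rw [nx_snd, symmDiff_single_of_mem h1.2.1, card_erase_of_mem h1.2.1] at h3
    have := card_pos.2 ⟨_, h1.2.1⟩
    omega

lemma perf_last {u : Fin n} {Q} {k : ℕ} {s : St n} (h : Perf u Q (k + 1) s) :
    ∃ y, s(y, u) ∈ s.2 ∧ deg s.2 y ≤ if y = s.1 then 1 else 2 := by
  induction k generalizing s with
  | zero =>
    obtain ⟨c, -, h1, h2⟩ := h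
    have h3 : c = u := h2.1
    subst h3
    exact ⟨s.1, by rw [Sym2.eq_swap]; exact h1.2.1, by simp [h1.2.2]⟩
  | succ k ih =>
    obtain ⟨c, -, h1, h2⟩ := h
    obtain ⟨y, h3, h4⟩ := ih h2
    rw [nx_snd, symmDiff_single_of_mem h1.2.1] at h3 h4
    have h5 : y ≠ s.1 := by
      rintro rfl
      have h6 := deg_erase h1.2.1 s.1
      have h7 := deg_pos h3 (c := s.1) (by simp)
      rw [h1.2.2, if_pos (by simp)] at h6
      omega
    refine ⟨y, mem_of_mem_erase h3, ?_⟩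
    rw [if_neg h5, deg_erase h1.2.1 y]
    by_cases h6 : y = c
    · rw [nx_fst, if_pos h6] at h4
      split_ifs <;> omega
    · rw [nx_fst, if_neg h6] at h4
      rw [if_neg (by simp [h5, h6])]
      omega

noncomputable def wV (a : ℝ) (s : St n) : ℝ := a⁻¹ ^ (V s).card

lemma wV_pos {a : ℝ} (ha : 1 ≤ a) (s : St n) : 0 < wV a s := by unfold wV; positivity

lemma wt_self (a : ℝ) (s : St n) : wt a s.1 s = wV a s := by
  unfold wt wV VU; rw [insert_eq_of_mem (self_mem_V s)]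

open Classical in
lemma fin_eq (a : ℝ) (u : Fin n) (Q : Finset (Sym2 (Fin n)) → Prop) :
    (fun s : St n => if s.1 = u then (if Q s.2 then wV a s else 0) else 0) = fin a u Q := by
  funext s
  unfold fin
  by_cases h : s.1 = u
  · subst h; simp [wt_self]
  · simp [h]

/-- The state with the closing edge switched first. -/
def tg (t : St n) (u : Fin n) : St n := (t.1, t.2 ∆ {s(t.1, u)})

lemma V_subset_tg (t : St n) (u : Fin n) : insert u (V t) ⊆ VU u (tg t u) := by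
  refine insert_subset (mem_insert_self _ _) fun w hw => ?_
  by_cases h : w = u
  · simp [VU, h]
  refine mem_insert_of_mem ?_
  rcases mem_V.1 hw with h1 | ⟨e, he, h1⟩
  · exact mem_V.2 (Or.inl h1)
  · by_cases h2 : e = s(t.1, u)
    · subst h2
      rcases Sym2.mem_iff.1 h1 with h3 | h3
      · exact mem_V.2 (Or.inl h3)
      · exact absurd h3 h
    · exact mem_V.2 (Or.inr ⟨e, mem_symmDiff_single.2 (Or.inl ⟨he, h2⟩), h1⟩)

lemma wt_tg {a : ℝ} (ha : 1 ≤ a) (t : St n) (u : Fin n) : wt a u (tg t u) ≤ wV a t :=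
  inv_pow_anti ha (card_le_card ((subset_insert _ _).trans (V_subset_tg t u)))

lemma wt_tg_fresh {a : ℝ} (ha : 1 ≤ a) {t : St n} {u : Fin n} (h : u ∉ V t) :
    wt a u (tg t u) ≤ wV a t / a := by
  have h3 := card_le_card (V_subset_tg t u)
  rw [card_insert_of_notMem h] at h3
  refine (inv_pow_anti ha h3).trans (le_of_eq ?_)
  rw [pow_succ, wV, div_eq_mul_inv]

lemma tg_fresh {t : St n} {u : Fin n} (h : u ∉ V t) : (tg t u).2 = insert s(t.1, u) t.2 :=
  symmDiff_single_of_not_mem (by rw [Sym2.eq_swap]; exact not_mem_of_fresh h _)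

lemma card_tg_le (t : St n) (u : Fin n) : (tg t u).2.card ≤ t.2.card + 1 :=
  card_symmDiff_single_le _ _

lemma W_fin_short (a : ℝ) (u : Fin n) (Q) {k : ℕ} (hk : k < 2) (p : Fin n) (s : St n)
    (hs : s.1 = u) : W (fin a u Q) (k + 1) p s = 0 := by
  subst hs
  interval_cases k
  · exact sum_eq_zero fun c hc => by simp [W, fin, (mem_filter.1 hc).2.1]
  · refine sum_eq_zero fun c _ => sum_eq_zero fun d hd => ?_
    simp [W, fin, (mem_filter.1 hd).2.2]

open Classical in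
lemma fresh_term (P : Par n) (Q) (k : ℕ) (t : St n) (ht : t.2.card + (k + 3) ≤ P.R) {e2 P1 : ℝ}
    (he : 4 * (2 * (P.R : ℝ) + 1) ^ 2 ≤ e2 * P.N) (hP : 0 ≤ P1) {u : Fin n} (hu : u ∉ V t)
    (h1 : (((Del t.1 (tg t u)).filter (fun c => Perf u Q (k + 1) (nx (tg t u) c))).card : ℝ) ≤ P1) :
    W (fin P.a u Q) (k + 2) t.1 (tg t u) ≤ wV P.a t / P.a *
      (P.B (k + 2) * (1 + (if deg t.2 t.1 = 0 ∧ 2 ≤ k then 1 else 0) + e2) + P1 * P.a ^ (k + 1)) := by
  have hc := card_tg_le t u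
  have hcc : ∀ c, (nx (tg t u) c).2.card + (k + 1) ≤ P.R := fun c => by
    have := card_symmDiff_single_le (tg t u).2 s(c, (tg t u).1); rw [nx_snd]; omega
  have fs := first_step P u Q (k + 1) t.1 (tg t u) (by omega) (fun p s h => (pin P u Q k p s h).1)
    (fun p s h => (pin P u Q k p s h).2.1)
  have ha : 0 < P.a := by linarith [P.ha]
  have hN := P.one_le_N
  have hw := wt_tg_fresh P.ha hu
  have hw0 : 0 < wV P.a t / P.a := div_pos (wV_pos P.ha t) ha
  have hB := P.B_pos (k + 1)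
  have hB2 := P.N_mul_B_le (k + 1)
  have hB3 := P.B_pos (k + 2)
  have he0 : 0 ≤ e2 := by
    by_contra h
    have : e2 * P.N < 0 := mul_neg_of_neg_of_pos (by linarith) (by linarith)
    have : 0 ≤ 4 * (2 * (P.R : ℝ) + 1) ^ 2 := by positivity
    linarith
  have hfs : wt P.a u (tg t u) * P.B (k + 1 + 1) ≤ wV P.a t / P.a * P.B (k + 2) :=
    mul_le_mul_of_nonneg_right hw hB3.le
  have hp : 0 ≤ P1 * P.a ^ (k + 1) := by positivity
  suffices h : ∑ c ∈ Del t.1 (tg t u), W (fin P.a u Q) (k + 1) (tg t u).1 (nx (tg t u) c) ≤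
      wV P.a t / P.a * (P.B (k + 2) * ((if deg t.2 t.1 = 0 ∧ 2 ≤ k then 1 else 0) + e2)
        + P1 * P.a ^ (k + 1)) by
    refine fs.trans ((add_le_add hfs h).trans (le_of_eq (by ring)))
  have hne : s(t.1, u) ∉ t.2 := by rw [Sym2.eq_swap]; exact not_mem_of_fresh hu _
  by_cases hd : deg t.2 t.1 = 0
  · have h2 : Del t.1 (tg t u) ⊆ {u} := by
      intro c hc
      have h3 := (mem_filter.1 hc).2.2
      rw [tg_fresh hu, mem_insert] at h3
      rcases h3 with h3 | h3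
      · rw [Sym2.eq_swap] at h3; simpa using Sym2.congr_right.1 h3
      · exact absurd (by simp [tg]) (deg_eq_zero.1 hd _ h3)
    refine (sum_le_sum_of_subset_of_nonneg h2 fun c _ _ =>
      W_nonneg (fin_nonneg P.ha u Q) _ _ _).trans ?_
    rw [sum_singleton]
    by_cases hk : 2 ≤ k
    · rw [if_pos ⟨hd, hk⟩]
      have h3 : NoDel (tg t u).1 (nx (tg t u) u) := by
        intro c _ _ h4
        have h5 : (nx (tg t u) u).2 = t.2 := by simp [nx, tg, Sym2.eq_swap]
        rw [h5, Sym2.eq_swap] at h4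
        exact not_mem_of_fresh hu _ h4
      have h4 := (pin P u Q k _ _ (hcc u)).1 h3
      have h5 := (wt_loss P.ha u (tg t u) u).trans (mul_le_mul_of_nonneg_left hw ha.le)
      have h6 := mul_le_mul_of_nonneg_right h5 hB.le
      have h7 : P.a * P.B (k + 1) ≤ P.B (k + 2) :=
        (mul_le_mul_of_nonneg_right P.a_le_N hB.le).trans hB2
      have h8 := mul_le_mul_of_nonneg_left h7 hw0.le
      have h9 : 0 ≤ wV P.a t / P.a * (P.B (k + 2) * e2 + P1 * P.a ^ (k + 1)) := by positivity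
      nlinarith
    · rw [W_fin_short P.a u Q (k := k) (by omega) _ (nx (tg t u) u) rfl]
      split_ifs <;> positivity
  · rw [if_neg (fun h => hd h.1), zero_add]
    have h2 : ∀ c ∈ Del t.1 (tg t u), W (fin P.a u Q) (k + 1) (tg t u).1 (nx (tg t u) c) ≤
        wV P.a t / P.a * (4 * P.B (k + 1) * (2 * P.R + 1) +
          if Perf u Q (k + 1) (nx (tg t u) c) then P.a ^ (k + 1) else 0) := by
      intro c _
      have h3 : ¬ Dst u (tg t u) c := by
        intro h4
        have h5 := h4.2.2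
        rw [tg_fresh hu, deg_insert hne, if_pos (by simp [tg])] at h5
        exact hd (by simpa [tg] using h5)
      refine (pin P u Q k _ _ (hcc c)).2.2.trans (mul_le_mul ((wt_keep P.ha h3).trans hw) ?_
        (by split_ifs <;> positivity) hw0.le)
      have h4 : ((k + 1 : ℕ) : ℝ) ≤ P.R := by exact_mod_cast (by omega : k + 1 ≤ P.R)
      nlinarith
    refine (sum_le_sum h2).trans ?_
    rw [← mul_sum, sum_add_distrib, sum_const, ← sum_filter, sum_const, nsmul_eq_mul,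
      nsmul_eq_mul]
    refine mul_le_mul_of_nonneg_left (add_le_add ?_
      (mul_le_mul_of_nonneg_right h1 (by positivity))) hw0.le
    have h3 : ((Del t.1 (tg t u)).card : ℝ) ≤ 2 * P.R + 1 := by
      have := (card_Del_le t.1 (tg t u)).trans (deg_le_card _ _)
      exact_mod_cast (by omega : (Del t.1 (tg t u)).card ≤ 2 * P.R + 1)
    calc _ ≤ (2 * P.R + 1) * (4 * P.B (k + 1) * (2 * P.R + 1)) :=
          mul_le_mul_of_nonneg_right h3 (by positivity)
      _ = 4 * (2 * (P.R : ℝ) + 1) ^ 2 * P.B (k + 1) := by ring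
      _ ≤ e2 * P.N * P.B (k + 1) := mul_le_mul_of_nonneg_right he hB.le
      _ ≤ _ := by nlinarith

open Classical in
lemma had_row (P : Par n) (hg : P.g = 1) (Q : Finset (Sym2 (Fin n)) → Prop) (k : ℕ) (t : St n)
    (ht : t.2.card + (k + 3) ≤ P.R) {e2 P1 P2 : ℝ}
    (he : 4 * (2 * (P.R : ℝ) + 1) ^ 2 ≤ e2 * P.N) (hP : 0 ≤ P1)
    (h1 : ∀ u, u ∉ V t →
      (((Del t.1 (tg t u)).filter (fun c => Perf u Q (k + 1) (nx (tg t u) c))).card : ℝ) ≤ P1)
    (h2 : ((univ.filter (fun u => Perf u Q (k + 2) (tg t u))).card : ℝ) ≤ P2) :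
    (Had (KB n (k + 2)) *ᵥ fun s => if Q s.2 then wV P.N s else 0) t ≤
      P.N ^ (k + 2) * ((1 + P.ε) * ((1 + 5 * P.ε) ^ (k + 2) *
        (1 + (if deg t.2 t.1 = 0 ∧ 2 ≤ k then 1 else 0) + e2) + P1)
        + e2 * (1 + 5 * P.ε) ^ (k + 2) + P2) * wV P.N t := by
  have ha : P.a = P.N := by rw [← P.hN, hg, mul_one]
  have hN := P.one_le_N
  have hε := P.hε
  have hw := wV_pos hN t
  have hB := P.B_pos (k + 2)
  have hB2 : P.N * P.B (k + 2) = P.N ^ (k + 2) * (1 + 5 * P.ε) ^ (k + 2) := by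
    unfold Par.B; rw [hg, mul_one, mul_pow]; field_simp
  have he0 : 0 ≤ e2 := by
    by_contra h
    have : e2 * P.N < 0 := mul_neg_of_neg_of_pos (by linarith) (by linarith)
    have : 0 ≤ 4 * (2 * (P.R : ℝ) + 1) ^ 2 := by positivity
    linarith
  set I : ℝ := if deg t.2 t.1 = 0 ∧ 2 ≤ k then 1 else 0 with hI
  have hI0 : 0 ≤ I := by rw [hI]; split_ifs <;> norm_num
  rw [Had_KB_mulVec]
  simp only [fin_eq]
  have h3 : ∀ u ∈ univ.erase t.1, W (fin P.N u Q) (k + 2) t.1 (t.1, t.2 ∆ {s(t.1, u)}) ≤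
      wV P.N t / P.N * (P.B (k + 2) * (1 + I + e2) + P1 * P.N ^ (k + 1)) +
      ((if u ∈ V t then wV P.N t * (4 * P.B (k + 2) * (2 * P.R + 1)) else 0) +
        if Perf u Q (k + 2) (tg t u) then wV P.N t * P.N ^ (k + 2) else 0) := by
    intro u _
    by_cases hu : u ∈ V t
    · have h4 := (pin P u Q (k + 1) t.1 (tg t u) (by have := card_tg_le t u; omega)).2.2
      rw [ha] at h4
      have h5 := h4.trans (mul_le_mul_of_nonneg_right (wt_tg hN t u) (by split_ifs <;> positivity))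
      have h6 : ((k + 1 + 1 : ℕ) : ℝ) ≤ P.R := by exact_mod_cast (by omega : k + 1 + 1 ≤ P.R)
      have h7 : 0 ≤ wV P.N t / P.N * (P.B (k + 2) * (1 + I + e2) + P1 * P.N ^ (k + 1)) := by
        positivity
      have h8 : wV P.N t * (4 * P.B (k + 1 + 1) * (1 + P.R + ((k + 1 + 1 : ℕ) : ℝ))) ≤
          wV P.N t * (4 * P.B (k + 2) * (2 * P.R + 1)) :=
        mul_le_mul_of_nonneg_left (mul_le_mul_of_nonneg_left (by linarith) (by positivity)) hw.le
      rw [if_pos hu]
      rw [mul_add, mul_ite, mul_zero] at h5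
      exact h5.trans (by linarith)
    · have h4 := fresh_term P Q k t ht he hP hu (h1 u hu)
      rw [ha] at h4
      rw [if_neg hu]
      refine h4.trans (le_add_of_nonneg_right ?_)
      split_ifs <;> positivity
  refine (sum_le_sum h3).trans ((sum_le_sum_of_subset_of_nonneg (subset_univ _)
    (fun c _ _ => by split_ifs <;> positivity)).trans ?_)
  rw [sum_add_distrib, sum_add_distrib, sum_const, ← sum_filter, ← sum_filter,
    filter_mem_eq_inter, univ_inter, sum_const, sum_const]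
  simp only [card_univ, Fintype.card_fin, nsmul_eq_mul]
  have h4 : ((V t).card : ℝ) ≤ 2 * P.R + 1 := by
    have := card_V_le t
    exact_mod_cast (by omega : (V t).card ≤ 2 * P.R + 1)
  have h5 : (n : ℝ) * (wV P.N t / P.N * (P.B (k + 2) * (1 + I + e2) + P1 * P.N ^ (k + 1))) ≤
      P.N ^ (k + 2) * ((1 + P.ε) * ((1 + 5 * P.ε) ^ (k + 2) * (1 + I + e2) + P1)) * wV P.N t := by
    refine (mul_le_mul_of_nonneg_right P.hn (by positivity)).trans (le_of_eq ?_)
    have : P.N ^ 2 * (1 + P.ε) * (wV P.N t / P.N * (P.B (k + 2) * (1 + I + e2)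
        + P1 * P.N ^ (k + 1))) = (1 + P.ε) * wV P.N t * (P.N * P.B (k + 2) * (1 + I + e2)
        + P1 * P.N ^ (k + 2)) := by field_simp; ring
    rw [this, hB2]; ring
  have h6 : ((V t).card : ℝ) * (wV P.N t * (4 * P.B (k + 2) * (2 * P.R + 1))) ≤
      P.N ^ (k + 2) * (e2 * (1 + 5 * P.ε) ^ (k + 2)) * wV P.N t := by
    calc _ ≤ (2 * P.R + 1) * (wV P.N t * (4 * P.B (k + 2) * (2 * P.R + 1))) :=
          mul_le_mul_of_nonneg_right h4 (by positivity)
      _ = 4 * (2 * (P.R : ℝ) + 1) ^ 2 * (P.B (k + 2) * wV P.N t) := by ring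
      _ ≤ e2 * P.N * (P.B (k + 2) * wV P.N t) := mul_le_mul_of_nonneg_right he (by positivity)
      _ = e2 * (P.N * P.B (k + 2)) * wV P.N t := by ring
      _ = _ := by rw [hB2]; ring
  have h7 := mul_le_mul_of_nonneg_right h2 (show 0 ≤ wV P.N t * P.N ^ (k + 2) by positivity)
  nlinarith

open Classical in
lemma count_one {Q} {k : ℕ} {t : St n} {u : Fin n} (hu : u ∉ V t) :
    ((Del t.1 (tg t u)).filter (fun c => Perf u Q (k + 1) (nx (tg t u) c))).card ≤ 3 := by
  by_cases h : ((Del t.1 (tg t u)).filter (fun c => Perf u Q (k + 1) (nx (tg t u) c))).Nonempty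
  · obtain ⟨c, hc⟩ := h
    obtain ⟨h1, h2⟩ := mem_filter.1 hc
    obtain ⟨y, h3, h4⟩ := perf_last h2
    have h5 := (mem_filter.1 h1).2.2
    rw [nx_snd, symmDiff_single_of_mem h5] at h3 h4
    have h6 : y = t.1 := by
      have h7 := mem_of_mem_erase h3
      rw [tg_fresh hu, mem_insert] at h7
      rcases h7 with h7 | h7
      · exact Sym2.congr_left.1 h7
      · rw [Sym2.eq_swap] at h7; exact absurd h7 (not_mem_of_fresh hu _)
    subst h6
    have h7 := deg_erase h5 t.1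
    refine (card_filter_le _ _).trans ((card_Del_le _ _).trans ?_)
    change deg (tg t u).2 t.1 ≤ 3
    split_ifs at h4 h7 <;> omega
  · rw [not_nonempty_iff_eq_empty.1 h]; simp

open Classical in
lemma count_two {Q} {k : ℕ} {t : St n} :
    (univ.filter (fun u => Perf u Q (k + 2) (tg t u))).card ≤ 2 := by
  have key : ∀ u, Perf u Q (k + 2) (tg t u) → s(u, t.1) ∈ t.2 ∧ deg t.2 t.1 = 2 := by
    rintro u ⟨c, -, h1, h2⟩
    have h3 : c ≠ u := perf_ne h2
    have h4 : s(t.1, u) ∈ t.2 := by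
      by_contra h4
      have h5 : s(t.1, u) ∈ (tg t u).2 := mem_symmDiff_single.2 (Or.inr ⟨rfl, h4⟩)
      have := eq_of_deg_le_one h1.2.2.le h1.2.1 (by simp) h5 (by simp [tg])
      rw [Sym2.eq_swap] at this
      exact h3 (Sym2.congr_right.1 this)
    refine ⟨by rw [Sym2.eq_swap]; exact h4, ?_⟩
    have h5 := h1.2.2
    simp only [tg, symmDiff_single_of_mem h4] at h5
    rw [deg_erase h4, h5]; simp
  by_cases h : (univ.filter (fun u => Perf u Q (k + 2) (tg t u))).Nonempty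
  · obtain ⟨u, hu⟩ := h
    exact (card_nbr_le _ _ _ fun c hc => (key c (mem_filter.1 hc).2).1).trans
      (key u (mem_filter.1 hu).2).2.le
  · rw [not_nonempty_iff_eq_empty.1 h]; simp

lemma had_row_all (P : Par n) (hg : P.g = 1) (k : ℕ) (t : St n)
    (ht : t.2.card + (k + 3) ≤ P.R) {e2 : ℝ} (he : 4 * (2 * (P.R : ℝ) + 1) ^ 2 ≤ e2 * P.N) :
    (Had (KB n (k + 2)) *ᵥ wV P.N) t ≤
      P.N ^ (k + 2) * ((1 + 5 * P.ε) ^ (k + 2) * (4 + 3 * e2) + 8) * wV P.N t := by
  classical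
  have h := had_row P hg (fun _ => True) k t ht he (P1 := 3) (P2 := 2) (by norm_num)
    (fun u hu => by exact_mod_cast count_one hu) (by exact_mod_cast count_two)
  simp only [if_true] at h
  have hN := P.one_le_N
  have hε := P.hε
  have hε1 := P.hε1
  have he0 : 0 ≤ e2 := by
    by_contra h
    have : e2 * P.N < 0 := mul_neg_of_neg_of_pos (by linarith) (by linarith)
    have : 0 ≤ 4 * (2 * (P.R : ℝ) + 1) ^ 2 := by positivity
    linarith
  refine h.trans (mul_le_mul_of_nonneg_right (mul_le_mul_of_nonneg_left ?_ (by positivity))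
    (wV_pos hN t).le)
  have h1 : (if deg t.2 t.1 = 0 ∧ 2 ≤ k then (1 : ℝ) else 0) ≤ 1 := by split_ifs <;> norm_num
  have h0 : (0 : ℝ) ≤ if deg t.2 t.1 = 0 ∧ 2 ≤ k then (1 : ℝ) else 0 := by split_ifs <;> norm_num
  set I := if deg t.2 t.1 = 0 ∧ 2 ≤ k then (1 : ℝ) else 0
  have h2 : 0 ≤ (1 + 5 * P.ε) ^ (k + 2) := by positivity
  set Λ := (1 + 5 * P.ε) ^ (k + 2)
  have h3 : Λ * (1 + I + e2) + 3 ≤ Λ * (2 + e2) + 3 := by nlinarith
  have h4 : (1 + P.ε) * (Λ * (1 + I + e2) + 3) ≤ 2 * (Λ * (2 + e2) + 3) :=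
    mul_le_mul (by linarith) h3 (by positivity) (by norm_num)
  nlinarith

open Classical in
lemma had_row_up (P : Par n) (hg : P.g = 1) (k : ℕ) (t : St n)
    (ht : t.2.card + (k + 3) ≤ P.R) {e2 : ℝ} (he : 4 * (2 * (P.R : ℝ) + 1) ^ 2 ≤ e2 * P.N) :
    (Had (KB n (k + 2)) *ᵥ fun s => if t.2.card ≤ s.2.card then wV P.N s else 0) t ≤
      P.N ^ (k + 2) * ((1 + P.ε) * ((1 + 5 * P.ε) ^ (k + 2) *
        (1 + (if deg t.2 t.1 = 0 ∧ 2 ≤ k then 1 else 0) + e2))
        + e2 * (1 + 5 * P.ε) ^ (k + 2)) * wV P.N t := by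
  have h := had_row P hg (fun O => t.2.card ≤ O.card) k t ht he (P1 := 0) (P2 := 0) le_rfl
    (fun u _ => by
      rw [filter_eq_empty_iff.2, card_empty, Nat.cast_zero]
      intro c hc h1
      have h2 := perf_card h1
      have h3 := (mem_filter.1 hc).2.2
      rw [nx_snd, symmDiff_single_of_mem h3, card_erase_of_mem h3] at h2
      have := card_tg_le t u
      omega)
    (by
      rw [filter_eq_empty_iff.2, card_empty, Nat.cast_zero]
      intro u _ h1
      have h2 := perf_card h1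
      have := card_tg_le t u
      omega)
  simp only [add_zero] at h
  convert h

lemma dg_row (P : Par n) (k : ℕ) (t : St n) (ht : t.2.card + (k + 2) ≤ P.R) {e2 : ℝ}
    (he : 4 * (2 * (P.R : ℝ) + 1) ^ 2 ≤ e2 * P.N) :
    (Dg (KB n (k + 2)) *ᵥ wV P.a) t ≤
      (P.B (k + 2) * (1 + e2) + P.R * P.a ^ (k + 1)) * wV P.a t := by
  classical
  have h0 := fin_eq P.a t.1 (fun _ => True)
  simp only [if_true] at h0
  rw [Dg_KB_mulVec, h0]
  have fs := first_step P t.1 (fun _ => True) (k + 1) t.1 t ht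
    (fun p s h => (pin P _ _ k p s h).1) (fun p s h => (pin P _ _ k p s h).2.1)
  have hcc : ∀ c, (nx t c).2.card + (k + 1) ≤ P.R := fun c => by
    have := card_symmDiff_single_le t.2 s(c, t.1); rw [nx_snd]; omega
  have ha : 0 < P.a := by linarith [P.ha]
  have hN := P.one_le_N
  have hw := wV_pos P.ha t
  have hB := P.B_pos (k + 1)
  have hB2 := P.N_mul_B_le (k + 1)
  have he0 : 0 ≤ e2 := by
    by_contra h
    have : e2 * P.N < 0 := mul_neg_of_neg_of_pos (by linarith) (by linarith)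
    have : 0 ≤ 4 * (2 * (P.R : ℝ) + 1) ^ 2 := by positivity
    linarith
  have h2 : ∀ c ∈ Del t.1 t, W (fin P.a t.1 fun _ => True) (k + 1) t.1 (nx t c) ≤
      wV P.a t * (4 * P.B (k + 1) * (2 * P.R + 1) + P.a ^ (k + 1)) := by
    intro c _
    have h3 := wt_keep P.ha (u := t.1) (s := t) (c := c) (fun h => h.1 rfl)
    rw [wt_self] at h3
    refine (pin P _ _ k _ _ (hcc c)).2.2.trans (mul_le_mul h3 ?_
      (by split_ifs <;> positivity) hw.le)
    have h4 : ((k + 1 : ℕ) : ℝ) ≤ P.R := by exact_mod_cast (by omega : k + 1 ≤ P.R)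
    have h5 : (if Perf t.1 (fun _ => True) (k + 1) (nx t c) then P.a ^ (k + 1) else 0) ≤
        P.a ^ (k + 1) := by split_ifs; exacts [le_rfl, by positivity]
    nlinarith
  have h3 := sum_le_card_nsmul _ _ _ h2
  rw [nsmul_eq_mul] at h3
  have h4 : ((Del t.1 t).card : ℝ) ≤ P.R := by
    have := (card_Del_le t.1 t).trans (deg_le_card _ _)
    exact_mod_cast (by omega : (Del t.1 t).card ≤ P.R)
  have h5 := h3.trans (mul_le_mul_of_nonneg_right h4 (by positivity))
  rw [wt_self] at fs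
  have h6 : (P.R : ℝ) * (4 * P.B (k + 1) * (2 * P.R + 1)) ≤ P.B (k + 2) * e2 := by
    have h7 : (0 : ℝ) ≤ P.R := by positivity
    calc _ ≤ (2 * P.R + 1) * (4 * P.B (k + 1) * (2 * P.R + 1)) :=
          mul_le_mul_of_nonneg_right (by linarith) (by positivity)
      _ = 4 * (2 * (P.R : ℝ) + 1) ^ 2 * P.B (k + 1) := by ring
      _ ≤ e2 * P.N * P.B (k + 1) := mul_le_mul_of_nonneg_right he hB.le
      _ ≤ _ := by nlinarith
  have h7 := mul_le_mul_of_nonneg_left h6 hw.le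
  refine fs.trans ?_
  nlinarith

end Pool.Agent.Lib.MP_dfd018_pr
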