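import Pool.Agent.Lib.MP_dfd018_pr.Approx
import Pool.Agent.Lib.MP_dfd018_pr.MainQ

/-!
Spectral calculus and the deterministic reduction.
-/

namespace Pool.Agent.Lib.MP_dfd018_pr

open Finset Matrix Polynomial

variable {n : ℕ}

noncomputable def GM (v : Fin n → Fin n → ℝ) (f : Fin n → ℝ) : Matrix (Fin n) (Fin n) ℝ :=
  ∑ i, f i • vecMulVec (v i) (v i)

lemma GM_apply (v : Fin n → Fin n → ℝ) (f : Fin n → ℝ) (k l : Fin n) :
    GM v f k l = ∑ i, f i * (v i k * v i l) := by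
  simp [GM, Matrix.sum_apply, vecMulVec_apply]

lemma GM_one {v : Fin n → Fin n → ℝ} (hv : ∀ i j, v i ⬝ᵥ v j = if i = j then 1 else 0) :
    GM v (fun _ => 1) = 1 := by
  have h1 : (Matrix.of v) * (Matrix.of v)ᵀ = 1 := by
    ext i j
    rw [mul_apply, one_apply, ← hv i j]; rfl
  have h2 := mul_eq_one_comm.1 h1
  ext k l
  rw [← h2, GM_apply, mul_apply]
  simp

lemma GM_add (v : Fin n → Fin n → ℝ) (f g : Fin n → ℝ) :
    GM v (fun i => f i + g i) = GM v f + GM v g := by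
  simp [GM, add_smul, sum_add_distrib]

lemma GM_smul (v : Fin n → Fin n → ℝ) (c : ℝ) (f : Fin n → ℝ) :
    GM v (fun i => c * f i) = c • GM v f := by
  simp [GM, smul_sum, smul_smul]

lemma GM_quad (v : Fin n → Fin n → ℝ) (f : Fin n → ℝ) (x : Fin n → ℝ) :
    x ⬝ᵥ GM v f *ᵥ x = ∑ i, f i * (v i ⬝ᵥ x) ^ 2 := by
  simp only [GM, sum_mulVec, dotProduct_sum, smul_mulVec, dotProduct_smul, smul_eq_mul,
    vecMulVec_mulVec]
  refine sum_congr rfl fun i _ => ?_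
  simp [dotProduct_comm x, sq]

lemma aeval_mulVec_eig {A : Matrix (Fin n) (Fin n) ℝ} {x : Fin n → ℝ} {μ : ℝ}
    (h : A *ᵥ x = μ • x) (P : ℝ[X]) : aeval A P *ᵥ x = P.eval μ • x := by
  have h1 : ∀ m : ℕ, A ^ m *ᵥ x = μ ^ m • x := by
    intro m
    induction m with
    | zero => simp
    | succ m ih => rw [pow_succ', ← mulVec_mulVec, ih, mulVec_smul, h, smul_smul, pow_succ]
  induction P using Polynomial.induction_on' with
  | add p q hp hq => simp [add_mulVec, hp, hq, add_smul]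
  | monomial k a =>
    simp [aeval_monomial, Algebra.algebraMap_eq_smul_one, smul_mulVec, h1, smul_smul]

lemma eq_GM {v : Fin n → Fin n → ℝ} (hv : ∀ i j, v i ⬝ᵥ v j = if i = j then 1 else 0)
    {B : Matrix (Fin n) (Fin n) ℝ} {f : Fin n → ℝ} (h : ∀ i, B *ᵥ v i = f i • v i) :
    B = GM v f := by
  conv_lhs => rw [← Matrix.mul_one B, ← GM_one hv]
  simp only [GM, Matrix.mul_sum, one_smul, mul_vecMulVec, h, smul_vecMulVec]

lemma GM_trace {v : Fin n → Fin n → ℝ} (hv : ∀ i j, v i ⬝ᵥ v j = if i = j then 1 else 0)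
    (f : Fin n → ℝ) : ∑ k, GM v f k k = ∑ i, f i := by
  simp only [GM_apply]
  rw [sum_comm]
  refine sum_congr rfl fun i _ => ?_
  have := hv i i
  rw [if_pos rfl] at this
  rw [← mul_sum]
  change f i * (v i ⬝ᵥ v i) = _
  rw [this, mul_one]

lemma GM_diag_mono (v : Fin n → Fin n → ℝ) {f g : Fin n → ℝ} (h : ∀ i, f i ≤ g i) (k : Fin n) :
    GM v f k k ≤ GM v g k k := by
  simp only [GM_apply]
  exact sum_le_sum fun i _ => mul_le_mul_of_nonneg_right (h i) (mul_self_nonneg _)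

lemma GM_schur (v : Fin n → Fin n → ℝ) {f : Fin n → ℝ} (hf : ∀ i, 0 ≤ f i)
    {A : Matrix (Fin n) (Fin n) ℝ} {B D : ℝ} (hB0 : 0 ≤ B)
    (hB : ∀ x, |x ⬝ᵥ A *ᵥ x| ≤ B * (x ⬝ᵥ x)) (hD : ∀ k, GM v f k k ≤ D) (x : Fin n → ℝ) :
    |x ⬝ᵥ hadamard (GM v f) A *ᵥ x| ≤ B * D * (x ⬝ᵥ x) := by
  have h1 : x ⬝ᵥ hadamard (GM v f) A *ᵥ x =
      ∑ i, f i * ((fun k => x k * v i k) ⬝ᵥ A *ᵥ (fun k => x k * v i k)) := by
    simp only [dotProduct, mulVec, hadamard_apply, GM_apply, mul_sum, sum_mul]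
    rw [sum_congr rfl fun k _ => sum_comm, sum_comm]
    exact sum_congr rfl fun _ _ => sum_congr rfl fun _ _ => sum_congr rfl fun _ _ => by ring
  rw [h1]
  refine (abs_sum_le_sum_abs _ _).trans ((sum_le_sum (g := fun i =>
    f i * (B * ((fun k => x k * v i k) ⬝ᵥ (fun k => x k * v i k)))) fun i _ => by
    rw [abs_mul, abs_of_nonneg (hf i)]
    exact mul_le_mul_of_nonneg_left (hB _) (hf i)).trans ?_)
  have h2 : ∑ i, f i * (B * ((fun k => x k * v i k) ⬝ᵥ (fun k => x k * v i k))) =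
      B * ∑ k, GM v f k k * (x k * x k) := by
    simp only [dotProduct, GM_apply, mul_sum, sum_mul]
    rw [sum_comm]
    exact sum_congr rfl fun _ _ => sum_congr rfl fun _ _ => by ring
  rw [h2, mul_assoc]
  refine mul_le_mul_of_nonneg_left ?_ hB0
  unfold dotProduct
  rw [mul_sum]
  exact sum_le_sum fun k _ => mul_le_mul_of_nonneg_right (hD k) (mul_self_nonneg _)

noncomputable def SM (N : ℝ) (A : Matrix (Fin n) (Fin n) ℝ) (j : ℕ) : Matrix (Fin n) (Fin n) ℝ :=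
  aeval (N⁻¹ • A) (Sp j)

noncomputable def QM (N : ℝ) (A : Matrix (Fin n) (Fin n) ℝ) (j : ℕ) : Matrix (Fin n) (Fin n) ℝ :=
  N⁻¹ ^ j • aeval A (Qp (N ^ 2) j)

lemma SM_zero (N : ℝ) (A : Matrix (Fin n) (Fin n) ℝ) : SM N A 0 = 1 := by simp [SM, Sp_zero]
lemma SM_one (N : ℝ) (A : Matrix (Fin n) (Fin n) ℝ) : SM N A 1 = N⁻¹ • A := by simp [SM, Sp_one]
lemma SM_add_two (N : ℝ) (A : Matrix (Fin n) (Fin n) ℝ) (j : ℕ) :
    SM N A (j + 2) = N⁻¹ • (A * SM N A (j + 1)) - SM N A j := by simp [SM, Sp_add_two]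

lemma QM_succ {N : ℝ} (hN : N ≠ 0) (A : Matrix (Fin n) (Fin n) ℝ) (j : ℕ) :
    QM N A (j + 3) = N⁻¹ • (A * QM N A (j + 2)) - QM N A (j + 1) := by
  unfold QM
  rw [Qp, map_sub, map_mul, map_mul, aeval_X, aeval_C, Algebra.algebraMap_eq_smul_one,
    smul_mul_assoc, one_mul, smul_sub, smul_smul, mul_smul_comm, smul_smul]
  congr 2
  · ring
  · rw [show j + 2 + 1 = j + 1 + 2 by ring, pow_add, mul_assoc, ← mul_pow, inv_mul_cancel₀ hN]
    simp

lemma SM_rec {N : ℝ} (hN : N ≠ 0) (A : Matrix (Fin n) (Fin n) ℝ) (j : ℕ) :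
    SM N A (j + 2) = QM N A (j + 2) + (N ^ 2)⁻¹ • SM N A j := by
  have h0 : SM N A (0 + 2) = QM N A (0 + 2) + (N ^ 2)⁻¹ • SM N A 0 := by
    rw [SM_add_two, SM_zero, SM_one, QM, Qp, map_sub, map_mul, aeval_X, aeval_C,
      Algebra.algebraMap_eq_smul_one, smul_sub, smul_smul, mul_smul_comm, smul_smul]
    have e : N⁻¹ ^ (0 + 2) * (N ^ 2 + 1) = 1 + (N ^ 2)⁻¹ := by rw [zero_add]; field_simp
    rw [e, add_smul, one_smul, zero_add, sq N⁻¹]; abel
  have key : ∀ j, SM N A (j + 2) = QM N A (j + 2) + (N ^ 2)⁻¹ • SM N A j ∧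
      SM N A (j + 3) = QM N A (j + 3) + (N ^ 2)⁻¹ • SM N A (j + 1) := by
    intro j
    induction j with
    | zero =>
      refine ⟨h0, ?_⟩
      have h1 : QM N A (0 + 1) = N⁻¹ • A := by simp [QM, Qp]
      rw [QM_succ hN, SM_add_two N A 1, h0, h1, SM_zero, SM_one, mul_add, smul_add, mul_smul_comm,
        mul_one, smul_comm N⁻¹]
      abel
    | succ j ih =>
      refine ⟨ih.2, ?_⟩
      rw [QM_succ hN A (j + 1), SM_add_two N A (j + 2), ih.2, SM_add_two N A j, smul_sub,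
        mul_add, smul_add, mul_smul_comm, smul_comm N⁻¹]
      have := ih.1
      rw [SM_add_two N A j] at this
      rw [this]
      abel
  exact (key j).1

lemma aeval_expand (N : ℝ) (A : Matrix (Fin n) (Fin n) ℝ) {d : ℕ} {P : ℝ[X]}
    (hP : P.natDegree ≤ d) :
    aeval (N⁻¹ • A) P = ∑ j ∈ range (d + 1), cf (fun y => P.eval y) j • SM N A j := by
  conv_lhs => rw [expand hP, map_sum]
  refine sum_congr rfl fun j _ => ?_
  rw [map_mul, aeval_C, Algebra.algebraMap_eq_smul_one, smul_mul_assoc, one_mul, SM]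

lemma rec_bound {a b : ℕ → ℝ} {ε θ β : ℝ} {d : ℕ} (hε : 0 ≤ ε)
    (h : ∀ j, a (j + 2) = b (j + 2) + ε * a j) (hb : ∀ j, j + 2 ≤ d → |b (j + 2)| ≤ θ)
    (h1 : |a 1| ≤ β) (h0 : θ + ε * |a 0| ≤ β) (hβ : θ + ε * β ≤ β) :
    ∀ j, j + 1 ≤ d → |a (j + 1)| ≤ β := by
  intro j
  induction j using Nat.strong_induction_on with
  | _ j ih =>
    intro hj
    match j with
    | 0 => exact h1
    | 1 =>
      rw [h 0]
      refine (abs_add_le _ _).trans ?_
      rw [abs_mul, abs_of_nonneg hε]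
      linarith [hb 0 hj]
    | j + 2 =>
      rw [h (j + 1)]
      refine (abs_add_le _ _).trans ?_
      rw [abs_mul, abs_of_nonneg hε]
      have := mul_le_mul_of_nonneg_left (ih j (by omega) (by omega)) hε
      linarith [hb (j + 1) hj]

lemma diag_le {N β : ℝ} {A : Matrix (Fin n) (Fin n) ℝ} {d : ℕ}
    (hS : ∀ j, j + 1 ≤ d → ∀ i, |SM N A (j + 1) i i| ≤ β) {P : ℝ[X]} (hP : P.natDegree ≤ d)
    {g : ℕ → ℝ} (hg : ∀ j, |cf (fun y => P.eval y) (j + 1)| ≤ g j) (k : Fin n) :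
    aeval (N⁻¹ • A) P k k ≤ cf (fun y => P.eval y) 0 + β * ∑ j ∈ range d, g j := by
  rw [aeval_expand N A hP, sum_range_succ', Matrix.add_apply, Matrix.sum_apply, add_comm, SM_zero,
    mul_sum]
  refine add_le_add (by simp) (sum_le_sum fun j hj => ?_)
  rw [Matrix.smul_apply, smul_eq_mul, mul_comm β]
  refine (le_abs_self _).trans ?_
  rw [abs_mul]
  exact mul_le_mul (hg j) (hS j (mem_range.1 hj) k) (abs_nonneg _) ((abs_nonneg _).trans (hg j))

lemma sum_inv_sq_le (m : ℕ) : ∑ j ∈ range m, (22 : ℝ) / (((j + 1 : ℕ) : ℝ) + 1) ^ 2 ≤ 22 := by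
  have : ∑ j ∈ range m, (22 : ℝ) / (((j + 1 : ℕ) : ℝ) + 1) ^ 2 ≤ 22 - 22 / ((m : ℝ) + 1) := by
    induction m with
    | zero => simp
    | succ m ih =>
      rw [sum_range_succ]
      have h : (22 : ℝ) / (((m + 1 : ℕ) : ℝ) + 1) ^ 2 ≤ 22 / (m + 1) - 22 / ((m + 1 : ℕ) + 1) := by
        push_cast
        rw [div_sub_div _ _ (by positivity) (by positivity), div_le_div_iff₀ (by positivity)
          (by positivity)]
        have : (0 : ℝ) ≤ m := by positivity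
        nlinarith
      linarith
  have h : (0 : ℝ) ≤ 22 / (m + 1) := by positivity
  linarith

lemma no_half {d : ℕ} {η : ℝ} (hη : 0 < η) (X : Apx d η) (y : Fin n → ℝ) (hy : ∀ i, |y i| ≤ 5 / 2)
    (hr : ∑ i, X.r.eval (y i) ≤ n * (5 / 2 / η)) (hF : ∑ i, X.F.eval (y i) ≤ n * (-(6 * η)))
    (S : Finset (Fin n)) (hS : n ≤ 2 * S.card) (hn : 0 < n) : ¬ ∀ i ∈ S, 200 * η ≤ y i := by
  intro h
  have hr0 : ∀ i, 0 ≤ X.r.eval (y i) := fun i => by
    have h1 := X.r_ge (y i) (by linarith [hy i])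
    by_contra h2; push Not at h2
    have := mul_nonpos_of_nonpos_of_nonneg h2.le (show 0 ≤ y i ^ 2 + η ^ 2 by positivity)
    linarith
  have h1 : ∀ i, (if i ∈ S then (2 : ℝ) else 0) - 1 - 2 * η ^ 2 * X.r.eval (y i) ≤ X.F.eval (y i) := by
    intro i
    split_ifs with h2
    · linarith [X.F_big (y i) (h i h2) (abs_le.1 (hy i)).2]
    · have := mul_nonneg (show 0 ≤ 2 * η ^ 2 by positivity) (hr0 i)
      linarith [X.F_ge (y i) (hy i)]
  have h2 := (sum_le_sum fun i (_ : i ∈ univ) => h1 i).trans hF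
  rw [sum_sub_distrib, sum_sub_distrib, ← sum_filter, filter_mem_eq_inter, univ_inter,
    ← mul_sum] at h2
  simp only [sum_const, nsmul_eq_mul, card_univ, Fintype.card_fin] at h2
  have h3 : (n : ℝ) ≤ 2 * S.card := by exact_mod_cast hS
  have h4 := mul_le_mul_of_nonneg_left hr (show 0 ≤ 2 * η ^ 2 by positivity)
  have e : 2 * η ^ 2 * (n * (5 / 2 / η)) = 5 * (n * η) := by field_simp
  have h5 : 0 < (n : ℝ) * η := by positivity
  rw [e] at h4
  nlinarith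

end Pool.Agent.Lib.MP_dfd018_pr
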