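import Pool.Agent.Lib.MP_dfd018_pr.Edge

/-!
The triangle step operator, representing the entrywise product of `A * A` and `A`.
-/

namespace Pool.Agent.Lib.MP_dfd018_pr

open Finset Matrix
open scoped symmDiff

variable {n : ℕ}

def tri (a b l : Fin n) : Finset (Sym2 (Fin n)) := {s(a, b), s(a, l), s(b, l)}

lemma tri_comm (a b l : Fin n) : tri a b l = tri b a l := by
  unfold tri; rw [Sym2.eq_swap (a := a) (b := b), pair_comm]

lemma tri_comm' (a b l : Fin n) : tri a b l = tri a l b := by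
  unfold tri; rw [Sym2.eq_swap (a := b) (b := l), insert_comm]

def TRel (t s : St n) (l : Fin n) : Prop :=
  t.1 ≠ s.1 ∧ l ≠ t.1 ∧ l ≠ s.1 ∧ s.2 = t.2 ∆ tri t.1 s.1 l

lemma TRel.symm {t s : St n} {l : Fin n} (h : TRel t s l) : TRel s t l :=
  ⟨h.1.symm, h.2.2.1, h.2.1, by rw [tri_comm]; exact eq_symmDiff_comm.1 h.2.2.2⟩

open Classical in
noncomputable def KW : Matrix (St n) (St n) ℝ := fun t s => ∑ l, if TRel t s l then 1 else 0

lemma chi_tri (G : SimpleGraph (Fin n)) {a b l : Fin n} (h1 : a ≠ b) (h2 : l ≠ a) (h3 : l ≠ b) :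
    chi G (tri a b l) = pmAdj G a l * pmAdj G l b * pmAdj G a b := by
  unfold chi tri
  rw [prod_insert (by simp; tauto), prod_insert (by simp; tauto), prod_singleton,
    pmAdj_eq G h1, pmAdj_eq G h2.symm, pmAdj_eq G h3, Sym2.eq_swap (a := l)]
  ring

lemma rep_KW : Rep (KW (n := n)) (fun G => hadamard (pmAdj G * pmAdj G) (pmAdj G)) := by
  classical
  intro a G
  funext u
  simp only [Phi, mulVec, dotProduct, KW, Fintype.sum_prod_type, hadamard_apply, mul_apply]
  simp only [sum_mul]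
  rw [sum_comm]
  apply sum_congr rfl
  intro v _
  have : ∀ O : Finset (Sym2 (Fin n)), ∑ O' : Finset (Sym2 (Fin n)), ∑ l,
      (if TRel (u, O) (v, O') l then (1 : ℝ) else 0) * a (v, O') * chi G O =
      ∑ l, if u ≠ v ∧ l ≠ u ∧ l ≠ v then a (v, O ∆ tri u v l) * chi G O else 0 := by
    intro O
    rw [sum_comm]
    refine sum_congr rfl fun l _ => ?_
    rw [sum_eq_single (O ∆ tri u v l)]
    · by_cases h : u ≠ v ∧ l ≠ u ∧ l ≠ v
      · rw [if_pos h, if_pos ⟨h.1, h.2.1, h.2.2, rfl⟩, one_mul]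
      · rw [if_neg h, if_neg (fun h' => h ⟨h'.1, h'.2.1, h'.2.2.1⟩)]; simp
    · intro b _ hb
      rw [if_neg (fun h' => hb h'.2.2.2)]; simp
    · simp
  simp only [this]
  rw [sum_comm]
  refine sum_congr rfl fun l _ => ?_
  by_cases h : u ≠ v ∧ l ≠ u ∧ l ≠ v
  · simp only [if_pos h]
    rw [Phi_shift, chi_tri G h.1 h.2.1 h.2.2]; rfl
  · simp only [if_neg h, sum_const_zero]
    by_cases h1 : u = v
    · simp [h1, pmAdj_self]
    by_cases h2 : l = u
    · simp [h2, pmAdj_self]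
    have h3 : l = v := by tauto
    simp [h3, pmAdj_self]

lemma KW_symm : (KW (n := n)).IsSymm := by
  classical
  ext t s
  simp only [transpose_apply, KW]
  refine sum_congr rfl fun l _ => ?_
  by_cases h : TRel t s l
  · simp [h, h.symm]
  · have : ¬ TRel s t l := fun h' => h h'.symm
    simp [h, this]

lemma grow_KW : Grow 2 (KW (n := n)) := by
  classical
  apply grow_of_entries
  intro t s h hs
  obtain ⟨l, -, hl⟩ := exists_ne_zero_of_sum_ne_zero h
  have h' : TRel t s l := by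
    by_contra h0; exact hl (by simp only [if_neg h0])
  obtain ⟨h1, h2, h3, h4⟩ := h'
  refine ⟨Nd_symmDiff (eq_symmDiff_comm.1 h4) hs ?_, ?_⟩
  · intro e he
    simp only [tri, mem_insert, mem_singleton] at he
    rcases he with rfl | rfl | rfl
    · simpa using h1
    · simpa using h2.symm
    · simpa using h3.symm
  · have : V t ⊆ insert t.1 (insert l (V s)) := by
      intro w hw
      rcases V_symmDiff (eq_symmDiff_comm.1 h4) hw with h5 | h5 | ⟨e, he, h5⟩
      · simp [h5]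
      · simp [h5]
      · simp only [tri, mem_insert, mem_singleton] at he
        have := self_mem_V s
        rcases he with rfl | rfl | rfl <;> rcases Sym2.mem_iff.1 h5 with h6 | h6 <;> simp [h6, this]
    exact (card_le_card this).trans ((card_insert_le _ _).trans (by
      have := card_insert_le l (V s); omega))

lemma TRel.mem_of_not_mem {t s : St n} {l : Fin n} (h : TRel t s l) {e : Sym2 (Fin n)}
    (he : e ∈ tri t.1 s.1 l) {w : Fin n} (hw : w ∈ e) (hv : w ∉ V s) : e ∈ t.2 := by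
  rw [eq_symmDiff_comm.1 h.2.2.2, mem_symmDiff]
  exact Or.inr ⟨he, fun h' => hv (mem_V.2 (Or.inr ⟨e, h', hw⟩))⟩

lemma TRel.old_of_new {t s : St n} {l : Fin n} (h : TRel t s l) (hv : t.1 ∉ V s ∨ l ∉ V s) :
    s.1 ∈ V t ∧ l ∈ V t := by
  rcases hv with hv | hv
  · exact ⟨mem_V.2 (Or.inr ⟨s(t.1, s.1), h.mem_of_not_mem (by simp [tri]) (by simp) hv, by simp⟩),
      mem_V.2 (Or.inr ⟨s(t.1, l), h.mem_of_not_mem (by simp [tri]) (by simp) hv, by simp⟩)⟩
  · exact ⟨mem_V.2 (Or.inr ⟨s(s.1, l), h.mem_of_not_mem (by simp [tri]) (by simp) hv, by simp⟩),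
      mem_V.2 (Or.inr ⟨s(t.1, l), h.mem_of_not_mem (by simp [tri]) (by simp) hv, by simp⟩)⟩

/-- Step along a fresh triangle. -/
def TC (t s : St n) (l : Fin n) : Prop := TRel t s l ∧ t.1 ∉ V s ∧ l ∉ V s

open Classical in
noncomputable def Tr : Matrix (St n) (St n) ℝ := fun t s => ∑ l, if TC t s l then 1 else 0

def E1Rel (t s : St n) (l : Fin n) : Prop := TRel t s l ∧ ¬ TC t s l ∧ s.1 ∈ V t ∧ l ∈ V t

def E2Rel (t s : St n) (l : Fin n) : Prop := TRel t s l ∧ ¬ TC s t l ∧ ¬ (s.1 ∈ V t ∧ l ∈ V t)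

open Classical in
noncomputable def E1 : Matrix (St n) (St n) ℝ := fun t s => ∑ l, if E1Rel t s l then 1 else 0

open Classical in
noncomputable def E2 : Matrix (St n) (St n) ℝ := fun t s => ∑ l, if E2Rel t s l then 1 else 0

lemma KW_eq : KW (n := n) = Tr + Trᵀ + E1 + E2 := by
  classical
  ext t s
  simp only [KW, Tr, E1, E2, Matrix.add_apply, transpose_apply, ← sum_add_distrib]
  refine sum_congr rfl fun l _ => ?_
  by_cases h : TRel t s l
  · by_cases h1 : TC t s l
    · have h2 := h.old_of_new (Or.inl h1.2.1)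
      have h3 : ¬ TC s t l := fun h' => h'.2.1 h2.1
      simp [h, h1, h3, E1Rel, E2Rel, h2]
    · by_cases h3 : TC s t l
      · simp [h, h1, h3, E1Rel, E2Rel, h3.2.1]
      · by_cases h4 : s.1 ∈ V t ∧ l ∈ V t
        · simp [h, h1, h3, E1Rel, E2Rel, h4]
        · simp only [h, h1, h3, E1Rel, E2Rel, h4]; simp
  · have h1 : ¬ TRel s t l := fun h' => h h'.symm
    simp [h, h1, TC, E1Rel, E2Rel]

open Classical in
lemma tri_count (s : St n) (R : St n → Fin n → Prop) (hR : ∀ t l, R t l → TRel t s l)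
    (S : Finset (Fin n × Fin n)) (hS : ∀ t l, R t l → (t.1, l) ∈ S) :
    ∑ t, ∑ l, (if R t l then (1 : ℝ) else 0) ≤ S.card := by
  rw [← Fintype.sum_prod_type' (f := fun t l => if R t l then (1 : ℝ) else 0)]
  convert sum_ind_le (fun p : St n × Fin n => R p.1 p.2) S (fun p => (p.1.1, p.2))
    (fun p h => hS _ _ h) ?_
  rintro ⟨t, l⟩ ⟨t', l'⟩ h h' he
  simp only [Prod.mk.injEq] at he
  obtain ⟨h1, rfl⟩ := he
  refine Prod.ext (Prod.ext h1 ?_) rfl
  simp only
  rw [eq_symmDiff_comm.1 (hR _ _ h).2.2.2, eq_symmDiff_comm.1 (hR _ _ h').2.2.2]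
  rw [h1]

open Classical in
lemma count_one_old (s : St n) (R : St n → Fin n → Prop)
    (hR : ∀ t l, R t l → TRel t s l ∧ ¬ TC t s l) :
    ∑ t, ∑ l, (if R t l then (1 : ℝ) else 0) ≤ 2 * n * (V s).card := by
  classical
  have := tri_count s R (fun t l h => (hR t l h).1) ((V s ×ˢ univ) ∪ (univ ×ˢ V s)) (by
    intro t l h
    have h1 := hR t l h
    by_cases h2 : t.1 ∈ V s
    · simp [h2]
    · have : l ∈ V s := by
        by_contra h3; exact h1.2 ⟨h1.1, h2, h3⟩
      simp [this])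
  have h2 : (((V s ×ˢ univ) ∪ (univ ×ˢ V s) : Finset (Fin n × Fin n)).card : ℝ)
      ≤ 2 * n * (V s).card := by
    have := card_union_le (V s ×ˢ (univ : Finset (Fin n))) (univ ×ˢ V s)
    simp only [card_product, card_univ, Fintype.card_fin] at this
    have h3 : (((V s ×ˢ univ) ∪ (univ ×ˢ V s) : Finset (Fin n × Fin n)).card : ℝ)
      ≤ ((V s).card * n + n * (V s).card : ℕ) := by exact_mod_cast this
    push_cast at h3
    linarith
  exact this.trans h2

open Classical in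
lemma count_two_old (s : St n) (R : St n → Fin n → Prop)
    (hR : ∀ t l, R t l → TRel t s l ∧ t.1 ∈ V s ∧ l ∈ V s) :
    ∑ t, ∑ l, (if R t l then (1 : ℝ) else 0) ≤ ((V s).card : ℝ) ^ 2 := by
  classical
  have := tri_count s R (fun t l h => (hR t l h).1) (V s ×ˢ V s) (by
    intro t l h
    simp [(hR t l h).2])
  rw [card_product] at this
  push_cast at this
  exact this.trans (le_of_eq (sq _).symm)

lemma sum_ite_le_of_nonneg {ι : Type*} [Fintype ι] (Q : ι → Prop) {_ : DecidablePred Q} (f : ι → ℝ)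
    (hf : ∀ i, 0 ≤ f i) : ∑ i, (if Q i then f i else 0) ≤ ∑ i, f i :=
  sum_le_sum fun i _ => by split_ifs; exacts [le_rfl, hf i]

lemma E1_quad {r : ℕ} {x : St n → ℝ} (hx : Low r x) {θ : ℝ} (hθ : 0 < θ) :
    |x ⬝ᵥ E1 *ᵥ x| ≤ (θ * (2 * n * r) + r ^ 2 / θ) / 2 * (x ⬝ᵥ x) := by
  classical
  have h0 : ∀ t s : St n, 0 ≤ E1 t s := fun t s => sum_nonneg fun l _ => by
    split_ifs <;> norm_num
  have := schur E1 h0 (fun s => (V s).card ≤ r) (fun s => (V s).card ≤ r) x x
    (fun s h => (hx s h).2) (fun s h => (hx s h).2) hθ (α := 2 * n * r) (β := r ^ 2) ?_ ?_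
  · linarith
  · intro s hs
    refine (sum_ite_le_of_nonneg _ _ (fun t => h0 t s)).trans ?_
    refine (count_one_old s (fun t l => E1Rel t s l) (fun t l h => ⟨h.1, h.2.1⟩)).trans ?_
    have : ((V s).card : ℝ) ≤ r := by exact_mod_cast hs
    gcongr
  · intro t ht
    refine (sum_ite_le_of_nonneg _ _ (fun s => h0 t s)).trans ?_
    refine (count_two_old t (fun s l => E1Rel t s l) (fun s l h => ⟨h.1.symm, h.2.2⟩)).trans ?_
    have : ((V t).card : ℝ) ≤ r := by exact_mod_cast ht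
    gcongr

lemma E2_quad {r : ℕ} {x : St n → ℝ} (hx : Low r x) {θ : ℝ} (hθ : 0 < θ) :
    |x ⬝ᵥ E2 *ᵥ x| ≤ (θ * (2 * n * r) + r ^ 2 / θ) / 2 * (x ⬝ᵥ x) := by
  classical
  have h0 : ∀ t s : St n, 0 ≤ E2 t s := fun t s => sum_nonneg fun l _ => by
    split_ifs <;> norm_num
  have := schur E2 h0 (fun s => (V s).card ≤ r) (fun s => (V s).card ≤ r) x x
    (fun s h => (hx s h).2) (fun s h => (hx s h).2) (inv_pos.2 hθ) (α := r ^ 2)
    (β := 2 * n * r) ?_ ?_
  · refine this.trans (le_of_eq ?_)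
    field_simp; ring
  · intro s hs
    refine (sum_ite_le_of_nonneg _ _ (fun t => h0 t s)).trans ?_
    refine (count_two_old s (fun t l => E2Rel t s l) (fun t l h => ⟨h.1, ?_⟩)).trans ?_
    · exact h.1.symm.old_of_new (by have := h.2.2; tauto)
    have : ((V s).card : ℝ) ≤ r := by exact_mod_cast hs
    gcongr
  · intro t ht
    refine (sum_ite_le_of_nonneg _ _ (fun s => h0 t s)).trans ?_
    refine (count_one_old t (fun s l => E2Rel t s l) (fun s l h => ⟨h.1.symm, h.2.1⟩)).trans ?_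
    have : ((V t).card : ℝ) ≤ r := by exact_mod_cast ht
    gcongr

/-- The walker is isolated. -/
def Iso (s : St n) : Prop := ∀ e ∈ s.2, s.1 ∉ e

/-- The walker sits on a fresh triangle. -/
def TTop (t : St n) : Prop := ∃ s l, TC t s l

lemma TC.mem1 {t s : St n} {l : Fin n} (h : TC t s l) : s(t.1, s.1) ∈ t.2 :=
  h.1.mem_of_not_mem (by simp [tri]) (by simp) h.2.1

lemma TC.mem2 {t s : St n} {l : Fin n} (h : TC t s l) : s(t.1, l) ∈ t.2 :=
  h.1.mem_of_not_mem (by simp [tri]) (by simp) h.2.1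

lemma TC.edge {t s : St n} {l : Fin n} (h : TC t s l) {w : Fin n} (he : s(t.1, w) ∈ t.2) :
    w = s.1 ∨ w = l := by
  rw [eq_symmDiff_comm.1 h.1.2.2.2, mem_symmDiff] at he
  rcases he with he | he
  · exact absurd (mem_V.2 (Or.inr ⟨_, he.1, by simp⟩)) h.2.1
  · have h1 := he.1
    obtain ⟨h2, h3, h4, -⟩ := h.1
    simp only [tri, mem_insert, mem_singleton, Sym2.eq_iff] at h1
    rcases h1 with (h1 | h1) | (h1 | h1) | (h1 | h1)
    · exact Or.inl h1.2
    · exact absurd h1.1 h2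
    · exact Or.inr h1.2
    · exact absurd h1.1.symm h3
    · exact absurd h1.1 h2
    · exact absurd h1.1.symm h3

lemma TC.cases {t s s' : St n} {l l' : Fin n} (h : TC t s l) (h' : TC t s' l') :
    (s', l') = (s, l) ∨ ((s', l') = ((l, s.2), s.1) ∧ Iso s) := by
  have h1 := h.edge h'.mem1
  have h2 := h.edge h'.mem2
  have h3 := h'.1.2.2.1
  rcases h1 with h1 | h1
  · have h4 : l' = l := by
      rcases h2 with h2 | h2
      · exact absurd (h2.trans h1.symm) h3
      · exact h2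
    left
    refine Prod.ext (Prod.ext h1 ?_) h4
    simp only
    rw [h.1.2.2.2, h'.1.2.2.2, h1, h4]
  · have h4 : l' = s.1 := by
      rcases h2 with h2 | h2
      · exact h2
      · exact absurd (h2.trans h1.symm) h3
    have h5 : s'.2 = s.2 := by rw [h.1.2.2.2, h'.1.2.2.2, h1, h4, tri_comm']
    right
    refine ⟨Prod.ext (Prod.ext h1 h5) h4, fun e he hv => h'.2.2 ?_⟩
    exact mem_V.2 (Or.inr ⟨e, h5 ▸ he, h4 ▸ hv⟩)

open Classical in
lemma Tr_sq (x : St n → ℝ) (t : St n) :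
    (Tr *ᵥ x) t ^ 2 ≤ ∑ s, Tr t s * ((if Iso s then 2 else 1) * x s ^ 2) := by
  set F : Finset (St n × Fin n) := univ.filter (fun p => TC t p.1 p.2) with hF
  have h1 : ∀ g : St n → ℝ, ∑ s, Tr t s * g s = ∑ p ∈ F, g p.1 := by
    intro g
    simp only [Tr, sum_mul, hF, sum_filter, Fintype.sum_prod_type (α₁ := St n)]
    refine sum_congr rfl fun s _ => sum_congr rfl fun l _ => ?_
    split_ifs <;> simp
  have h2 : (Tr *ᵥ x) t = ∑ p ∈ F, x p.1 := h1 x
  rw [h2, h1]
  refine sq_sum_le_card_mul_sum_sq.trans ?_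
  rw [mul_sum]
  refine sum_le_sum fun p hp => mul_le_mul_of_nonneg_right ?_ (by positivity)
  have hp' : TC t p.1 p.2 := (mem_filter.1 hp).2
  split_ifs with hI
  · have : F ⊆ {p, ((p.2, p.1.2), p.1.1)} := by
      intro q hq
      rcases hp'.cases (mem_filter.1 hq).2 with h | h
      · simp only [mem_insert]; exact Or.inl h
      · simp only [mem_insert, mem_singleton]; exact Or.inr h.1
    exact_mod_cast (card_le_card this).trans card_le_two
  · have : F ⊆ {p} := by
      intro q hq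
      rcases hp'.cases (mem_filter.1 hq).2 with h | h
      · simpa using h
      · exact absurd h.2 hI
    exact_mod_cast (card_le_card this).trans (by simp)

open Classical in
lemma Tr_norm_le (x : St n → ℝ) :
    (Tr *ᵥ x) ⬝ᵥ (Tr *ᵥ x) ≤ (n : ℝ) ^ 2 * (x ⬝ᵥ x + ∑ s, if Iso s then x s ^ 2 else 0) := by
  rw [dot_self_eq, dot_self_eq]
  refine (sum_le_sum fun t _ => Tr_sq x t).trans ?_
  rw [sum_comm, ← sum_add_distrib, mul_sum]
  refine sum_le_sum fun s _ => ?_
  rw [← sum_mul]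
  have h1 : ∑ t, Tr t s ≤ (n : ℝ) ^ 2 := by
    have := tri_count s (fun t l => TC t s l) (fun t l h => h.1) univ (by simp)
    simp only [card_univ, Fintype.card_prod, Fintype.card_fin] at this
    push_cast at this
    rw [sq]; exact this
  have h2 : (if Iso s then 2 else 1) * x s ^ 2 = x s ^ 2 + if Iso s then x s ^ 2 else 0 := by
    split_ifs <;> ring
  rw [← h2]
  exact mul_le_mul_of_nonneg_right h1 (by split_ifs <;> positivity)

open Classical in
lemma Tr_quad (x : St n → ℝ) {κ : ℝ} (hκ : 0 < κ) :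
    2 * |x ⬝ᵥ Tr *ᵥ x| ≤ κ * (∑ t, if TTop t then x t ^ 2 else 0) +
      (Tr *ᵥ x) ⬝ᵥ (Tr *ᵥ x) / κ := by
  rw [dot_self_eq, sum_div, mul_sum, ← sum_add_distrib]
  unfold dotProduct
  refine (mul_le_mul_of_nonneg_left (abs_sum_le_sum_abs _ _) (by norm_num)).trans ?_
  rw [mul_sum]
  refine sum_le_sum fun t _ => ?_
  split_ifs with h
  · have h3 : 0 ≤ (κ * |x t| - |(Tr *ᵥ x) t|) ^ 2 / κ := by positivity
    have h4 : (κ * |x t| - |(Tr *ᵥ x) t|) ^ 2 / κ =
        κ * |x t| ^ 2 + |(Tr *ᵥ x) t| ^ 2 / κ - 2 * (|x t| * |(Tr *ᵥ x) t|) := by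
      field_simp; ring
    rw [h4, sq_abs, sq_abs, ← abs_mul] at h3
    linarith
  · have : (Tr *ᵥ x) t = 0 := by
      refine sum_eq_zero fun s _ => ?_
      have : Tr t s = 0 := sum_eq_zero fun l _ => if_neg (fun h' => h ⟨s, l, h'⟩)
      simp [this]
    simp only [mulVec, dotProduct] at this
    simp [mulVec, dotProduct, this]

open Classical in
lemma parts_le (x : St n → ℝ) :
    (∑ t, if Leaf t then x t ^ 2 else 0) + (∑ t, if TTop t then x t ^ 2 else 0) +
      (∑ t, if Iso t then x t ^ 2 else 0) ≤ x ⬝ᵥ x := by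
  rw [dot_self_eq, ← sum_add_distrib, ← sum_add_distrib]
  refine sum_le_sum fun t _ => ?_
  have h0 : 0 ≤ x t ^ 2 := by positivity
  have h1 : Leaf t → ¬ TTop t := by
    rintro ⟨s, hs⟩ ⟨s', l, h⟩
    have e1 := Sym2.congr_right.1 (hs.edge_eq h.mem1 (by simp))
    have e2 := Sym2.congr_right.1 (hs.edge_eq h.mem2 (by simp))
    exact h.1.2.2.1 (e2.trans e1.symm)
  have h2 : Leaf t → ¬ Iso t := by
    rintro ⟨s, hs⟩ h; exact h _ hs.mem (by simp)
  have h3 : TTop t → ¬ Iso t := by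
    rintro ⟨s, l, hs⟩ h; exact h _ hs.mem1 (by simp)
  split_ifs <;> first | linarith | tauto

end Pool.Agent.Lib.MP_dfd018_pr
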