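import Pool.Agent.Lib.MP_dfd018_pr.NB

/-!
An approximate isometry with a vacuum vector: lower bound for a polynomial in `c + cᵀ`.
-/

namespace Pool.Agent.Lib.MP_dfd018_pr

open Finset Matrix Polynomial

section nrm
variable {ι : Type} [Fintype ι]

noncomputable def nrm (z : ι → ℝ) : ℝ := √(z ⬝ᵥ z)

lemma nrm_nonneg (z : ι → ℝ) : 0 ≤ nrm z := Real.sqrt_nonneg _

lemma nrm_sq (z : ι → ℝ) : nrm z ^ 2 = z ⬝ᵥ z := Real.sq_sqrt (dot_self_nonneg z)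

lemma nrm_le {z : ι → ℝ} {a : ℝ} (ha : 0 ≤ a) (h : z ⬝ᵥ z ≤ a ^ 2) : nrm z ≤ a :=
  Real.sqrt_le_iff.2 ⟨ha, h⟩

lemma abs_dot_le (x y : ι → ℝ) : |x ⬝ᵥ y| ≤ nrm x * nrm y := by
  refine abs_le_of_sq_le_sq' ?_ (mul_nonneg (nrm_nonneg _) (nrm_nonneg _)) |> abs_le.2
  rw [mul_pow, nrm_sq, nrm_sq, dot_self_eq, dot_self_eq]
  exact sum_mul_sq_le_sq_mul_sq univ x y

lemma nrm_add_le (x y : ι → ℝ) : nrm (x + y) ≤ nrm x + nrm y := by
  refine nrm_le (add_nonneg (nrm_nonneg _) (nrm_nonneg _)) ?_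
  have := (abs_le.1 (abs_dot_le x y)).2
  rw [add_dotProduct, dotProduct_add, dotProduct_add, dotProduct_comm y x, ← nrm_sq, ← nrm_sq]
  nlinarith

lemma nrm_smul (a : ℝ) (x : ι → ℝ) : nrm (a • x) = |a| * nrm x := by
  unfold nrm
  rw [smul_dotProduct, dotProduct_smul, smul_eq_mul, smul_eq_mul, ← mul_assoc,
    Real.sqrt_mul (mul_self_nonneg a), Real.sqrt_mul_self_eq_abs]

lemma nrm_zero : nrm (0 : ι → ℝ) = 0 := by simp [nrm]

end nrm

def ladd : List ℚ → List ℚ → List ℚ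
  | [], m => m
  | a :: l, [] => a :: l
  | a :: l, b :: m => (a + b) :: ladd l m

def lsm (q : ℚ) (l : List ℚ) : List ℚ := l.map (q * ·)

def lJ (l : List ℚ) : List ℚ := ladd (0 :: l) l.tail

def lU : List ℚ → List ℚ → List ℚ
  | [], _ => []
  | u :: us, β => ladd (lsm u β) (lJ (lU us β))

def ssq : List ℚ → ℚ
  | [] => 0
  | b :: l => b * b + ssq l

noncomputable def LP : List ℚ → ℝ[X]
  | [] => 0
  | u :: us => C (u : ℝ) + X * LP us

lemma length_ladd (l m : List ℚ) : (ladd l m).length = max l.length m.length := by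
  induction l generalizing m with
  | nil => simp [ladd]
  | cons a l ih => cases m with
    | nil => simp [ladd]
    | cons b m => simp [ladd, ih]

lemma length_lU (us β : List ℚ) : (lU us β).length ≤ β.length + us.length := by
  induction us with
  | nil => simp [lU]
  | cons u us ih => simp only [lU, lJ, lsm, length_ladd, List.length_map, List.length_cons,
      List.length_tail]; omega

lemma ssq_nonneg (l : List ℚ) : (0 : ℝ) ≤ ssq l := by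
  induction l with
  | nil => simp [ssq]
  | cons b l ih => simp only [ssq]; push_cast; nlinarith [mul_self_nonneg (b : ℝ)]

noncomputable def cH : List ℚ → ℝ
  | [] => 0
  | b :: l => |(b : ℝ)| + 2 * cH l

noncomputable def cU : List ℚ → ℝ
  | [] => 0
  | b :: l => |(b : ℝ)| + 5 * cU l

noncomputable def cE (β : List ℚ) : List ℚ → ℝ
  | [] => 0
  | _ :: us => 5 * cE β us + (cH (lU us β).tail + cH (lU us β))

lemma cH_nonneg (l : List ℚ) : 0 ≤ cH l := by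
  induction l with
  | nil => exact le_rfl
  | cons b l ih => simp only [cH]; positivity

lemma cU_nonneg (l : List ℚ) : 0 ≤ cU l := by
  induction l with
  | nil => exact le_rfl
  | cons b l ih => simp only [cU]; positivity

lemma cE_nonneg (β l : List ℚ) : 0 ≤ cE β l := by
  induction l with
  | nil => exact le_rfl
  | cons b l ih =>
    have := cH_nonneg (lU l β).tail
    have := cH_nonneg (lU l β)
    simp only [cE]; positivity

lemma one_add_pow_le {δ : ℝ} (h0 : 0 ≤ δ) (h1 : δ ≤ 1) (m : ℕ) : (1 + δ) ^ m ≤ 1 + δ * 3 ^ m := by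
  induction m with
  | zero => simpa using h0
  | succ m ih =>
    have h2 : (1 : ℝ) ≤ 3 ^ m := one_le_pow₀ (by norm_num)
    have h3 := mul_le_mul_of_nonneg_right ih (show 0 ≤ 1 + δ by linarith)
    have h4 : δ * (δ * 3 ^ m) ≤ δ * 3 ^ m := mul_le_of_le_one_left (by positivity) h1
    have h5 : δ ≤ δ * 3 ^ m := le_mul_of_one_le_right h0 h2
    rw [pow_succ, pow_succ]
    nlinarith

structure Sys (ι : Type) [Fintype ι] where
  c : Matrix ι ι ℝ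
  e : Matrix ι ι ℝ
  Lo : ℕ → (ι → ℝ) → Prop
  R : ℕ
  δ : ℝ
  lo_add : ∀ {r x y}, Lo r x → Lo r y → Lo r (x + y)
  lo_smul : ∀ {r x} (a : ℝ), Lo r x → Lo r (a • x)
  lo_mono : ∀ {r r' x}, Lo r x → r ≤ r' → Lo r' x
  lo_c : ∀ {r x}, Lo r x → Lo (r + 1) (c *ᵥ x)
  lo_a : ∀ {r x}, Lo r x → Lo (r + 1) ((c + cᵀ + e) *ᵥ x)
  he : e.IsSymm
  δ0 : 0 ≤ δ
  δ1 : δ ≤ 1
  hc : ∀ z, nrm (c *ᵥ z) ≤ (1 + δ) * nrm z
  hcc : ∀ z, Lo R z → nrm (cᵀ *ᵥ (c *ᵥ z) - z) ≤ δ * nrm z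
  hee : ∀ z, Lo R z → nrm (e *ᵥ z) ≤ δ * nrm z

namespace Sys
variable {ι : Type} [Fintype ι] [DecidableEq ι] (S : Sys ι)

def a : Matrix ι ι ℝ := S.c + S.cᵀ + S.e

omit [DecidableEq ι] in
lemma a_symm : S.a.IsSymm := by
  unfold a IsSymm
  rw [transpose_add, transpose_add, transpose_transpose, S.he.eq, add_comm S.cᵀ]

omit [DecidableEq ι] in
lemma dot_c (x y : ι → ℝ) : x ⬝ᵥ S.c *ᵥ y = (S.cᵀ *ᵥ x) ⬝ᵥ y := by
  rw [dotProduct_mulVec, mulVec_transpose]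

omit [DecidableEq ι] in
lemma hct (z : ι → ℝ) : nrm (S.cᵀ *ᵥ z) ≤ (1 + δ S) * nrm z := by
  have h1 := (abs_le.1 (abs_dot_le z (S.c *ᵥ (S.cᵀ *ᵥ z)))).2
  rw [dot_c, ← nrm_sq] at h1
  have h2 := mul_le_mul_of_nonneg_left (S.hc (S.cᵀ *ᵥ z)) (nrm_nonneg z)
  have h3 := nrm_nonneg (S.cᵀ *ᵥ z)
  have h4 : 0 ≤ (1 + δ S) * nrm z := mul_nonneg (by linarith [S.δ0]) (nrm_nonneg z)
  by_contra h
  push Not at h
  nlinarith

omit [DecidableEq ι] in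
lemma a_norm {z : ι → ℝ} (hz : S.Lo S.R z) : nrm (S.a *ᵥ z) ≤ 5 * nrm z := by
  unfold a
  rw [add_mulVec, add_mulVec]
  have h1 := nrm_add_le (S.c *ᵥ z + S.cᵀ *ᵥ z) (S.e *ᵥ z)
  have h2 := nrm_add_le (S.c *ᵥ z) (S.cᵀ *ᵥ z)
  have h3 := S.hc z
  have h4 := S.hct z
  have h5 := S.hee z hz
  have h6 := mul_le_mul_of_nonneg_right S.δ1 (nrm_nonneg z)
  linarith

noncomputable def Hn (x : ι → ℝ) : List ℚ → (ι → ℝ)
  | [] => 0
  | b :: l => (b : ℝ) • x + S.c *ᵥ Hn x l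

omit [DecidableEq ι] in
lemma Hn_add (x : ι → ℝ) (l m : List ℚ) : S.Hn x (ladd l m) = S.Hn x l + S.Hn x m := by
  induction l generalizing m with
  | nil => simp [ladd, Hn]
  | cons a l ih => cases m with
    | nil => simp [ladd, Hn]
    | cons b m => simp only [ladd, Hn, ih, mulVec_add]; push_cast; rw [add_smul]; abel

omit [DecidableEq ι] in
lemma Hn_smul (x : ι → ℝ) (q : ℚ) (l : List ℚ) : S.Hn x (lsm q l) = (q : ℝ) • S.Hn x l := by
  induction l with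
  | nil => simp [lsm, Hn]
  | cons a l ih =>
    unfold lsm at ih ⊢
    simp only [List.map_cons, Hn, ih, mulVec_smul, smul_add, smul_smul]; push_cast; rfl

omit [DecidableEq ι] in
lemma Hn_lo {r : ℕ} {x : ι → ℝ} (hx : S.Lo r x) (l : List ℚ) : S.Lo (r + l.length) (S.Hn x l) := by
  induction l with
  | nil => simpa [Hn] using S.lo_smul 0 hx
  | cons a l ih => exact S.lo_add (S.lo_smul _ (S.lo_mono hx (by omega))) (S.lo_c ih)

omit [DecidableEq ι] in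
lemma Hn_le (x : ι → ℝ) (l : List ℚ) : nrm (S.Hn x l) ≤ cH l * nrm x := by
  induction l with
  | nil => simp [Hn, cH, nrm_zero]
  | cons a l ih =>
    simp only [Hn, cH]
    have h1 := nrm_add_le ((a : ℝ) • x) (S.c *ᵥ S.Hn x l)
    rw [nrm_smul] at h1
    have h2 := S.hc (S.Hn x l)
    have h3 := mul_le_mul_of_nonneg_right S.δ1 (nrm_nonneg (S.Hn x l))
    linarith

omit [DecidableEq ι] in
lemma Hn_sq {x : ι → ℝ} (hx : S.cᵀ *ᵥ x = 0) (l : List ℚ) :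
    nrm (S.Hn x l) ^ 2 ≤ ((1 + S.δ) ^ l.length) ^ 2 * ssq l * nrm x ^ 2 := by
  induction l with
  | nil => simp [Hn, ssq, nrm_zero]
  | cons b l ih =>
    have h0 := S.δ0
    have h1 : x ⬝ᵥ S.c *ᵥ S.Hn x l = 0 := by rw [dot_c, hx, zero_dotProduct]
    have h2 := pow_le_pow_left₀ (nrm_nonneg _) (S.hc (S.Hn x l)) 2
    have h3 : nrm (S.Hn x (b :: l)) ^ 2 = b * b * nrm x ^ 2 + nrm (S.c *ᵥ S.Hn x l) ^ 2 := by
      simp only [nrm_sq, Hn, add_dotProduct, dotProduct_add, smul_dotProduct, dotProduct_smul,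
        smul_eq_mul, h1, dotProduct_comm (S.c *ᵥ S.Hn x l) x]
      ring
    have h4 : (1 : ℝ) ≤ ((1 + S.δ) ^ (l.length + 1)) ^ 2 :=
      one_le_pow₀ (one_le_pow₀ (by linarith))
    have h5 := mul_le_mul_of_nonneg_right h4 (show (0 : ℝ) ≤ b * b * nrm x ^ 2 by
      have := mul_self_nonneg (b : ℝ); positivity)
    have h6 := mul_le_mul_of_nonneg_left ih (show 0 ≤ (1 + S.δ) ^ 2 by positivity)
    rw [h3]
    simp only [ssq, List.length_cons]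
    push_cast
    rw [mul_pow] at h2
    calc _ ≤ ((1 + S.δ) ^ (l.length + 1)) ^ 2 * (b * b * nrm x ^ 2) +
          (1 + S.δ) ^ 2 * (((1 + S.δ) ^ l.length) ^ 2 * ssq l * nrm x ^ 2) := by linarith
      _ = _ := by ring

omit [DecidableEq ι] in
lemma ct_Hn {r : ℕ} {x : ι → ℝ} (hl : S.Lo r x) (hx : S.cᵀ *ᵥ x = 0) (l : List ℚ)
    (hr : r + l.length ≤ S.R) :
    nrm (S.cᵀ *ᵥ S.Hn x l - S.Hn x l.tail) ≤ S.δ * (cH l.tail * nrm x) := by
  cases l with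
  | nil => simp [Hn, cH, nrm_zero]
  | cons b l =>
    simp only [Hn, List.tail_cons, mulVec_add, mulVec_smul, hx, smul_zero, zero_add]
    exact (S.hcc _ (S.lo_mono (S.Hn_lo hl l) (by simp at hr; omega))).trans
      (mul_le_mul_of_nonneg_left (S.Hn_le x l) S.δ0)

omit [DecidableEq ι] in
lemma a_Hn {r : ℕ} {x : ι → ℝ} (hl : S.Lo r x) (hx : S.cᵀ *ᵥ x = 0) (l : List ℚ)
    (hr : r + l.length ≤ S.R) :
    nrm (S.a *ᵥ S.Hn x l - S.Hn x (lJ l)) ≤ S.δ * ((cH l.tail + cH l) * nrm x) := by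
  have h1 : S.a *ᵥ S.Hn x l - S.Hn x (lJ l) =
      (S.cᵀ *ᵥ S.Hn x l - S.Hn x l.tail) + S.e *ᵥ S.Hn x l := by
    simp only [a, lJ, Hn_add, Hn, add_mulVec, Rat.cast_zero, zero_smul]; abel
  rw [h1]
  have h2 := S.ct_Hn hl hx l hr
  have h3 := (S.hee _ (S.lo_mono (S.Hn_lo hl l) hr)).trans
    (mul_le_mul_of_nonneg_left (S.Hn_le x l) S.δ0)
  refine (nrm_add_le _ _).trans ?_
  linarith

lemma UA_cons (u : ℚ) (us : List ℚ) (z : ι → ℝ) :
    aeval S.a (LP (u :: us)) *ᵥ z = (u : ℝ) • z + S.a *ᵥ (aeval S.a (LP us) *ᵥ z) := by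
  simp only [LP, map_add, map_mul, aeval_X, aeval_C, Algebra.algebraMap_eq_smul_one, add_mulVec,
    smul_mulVec, one_mulVec, mulVec_mulVec]

lemma UA_lo {r : ℕ} {z : ι → ℝ} (hz : S.Lo r z) (us : List ℚ) :
    S.Lo (r + us.length) (aeval S.a (LP us) *ᵥ z) := by
  induction us with
  | nil => simpa [LP] using S.lo_smul 0 hz
  | cons u us ih =>
    rw [UA_cons]; exact S.lo_add (S.lo_smul _ (S.lo_mono hz (by omega))) (S.lo_a ih)

lemma UA_le {r : ℕ} {z : ι → ℝ} (hz : S.Lo r z) (us : List ℚ) (hr : r + us.length ≤ S.R) :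
    nrm (aeval S.a (LP us) *ᵥ z) ≤ cU us * nrm z := by
  induction us with
  | nil => simp [LP, cU, nrm_zero]
  | cons u us ih =>
    rw [List.length_cons] at hr
    rw [UA_cons]
    have h1 := S.a_norm (S.lo_mono (S.UA_lo hz us) (by omega))
    have h2 := ih (by omega)
    refine (nrm_add_le _ _).trans ?_
    rw [nrm_smul, cU]
    linarith

lemma UA_Hn {r : ℕ} {x : ι → ℝ} (hl : S.Lo r x) (hx : S.cᵀ *ᵥ x = 0) (β us : List ℚ)
    (hr : r + β.length + us.length ≤ S.R) :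
    nrm (aeval S.a (LP us) *ᵥ S.Hn x β - S.Hn x (lU us β)) ≤ S.δ * (cE β us * nrm x) := by
  induction us with
  | nil => simp [LP, lU, Hn, cE, nrm_zero]
  | cons u us ih =>
    rw [List.length_cons] at hr
    have h0 := length_lU us β
    have h1 : aeval S.a (LP (u :: us)) *ᵥ S.Hn x β - S.Hn x (lU (u :: us) β) =
        S.a *ᵥ (aeval S.a (LP us) *ᵥ S.Hn x β + (-1 : ℝ) • S.Hn x (lU us β)) +
          (S.a *ᵥ S.Hn x (lU us β) - S.Hn x (lJ (lU us β))) := by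
      rw [UA_cons, lU, Hn_add, Hn_smul, mulVec_add, mulVec_smul, neg_one_smul]; abel
    have h2 := S.a_norm (S.lo_add (S.lo_mono (S.UA_lo (S.Hn_lo hl β) us) (by omega))
      (S.lo_smul (-1) (S.lo_mono (S.Hn_lo hl (lU us β)) (by omega))))
    have h3 := ih (by omega)
    have h4 := S.a_Hn hl hx (lU us β) (by omega)
    rw [h1]
    rw [sub_eq_add_neg, ← neg_one_smul ℝ] at h3
    refine (nrm_add_le _ _).trans ?_
    rw [cE]
    linarith

end Sys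

theorem vac (ρ ω g0 : ℚ) (us β' gt : List ℚ) (hρ0 : 0 < ρ) (hρ1 : ρ ≤ 1) (hω : 0 ≤ ω)
    (hg : lU us (ladd β' (lsm (-ρ) β'.tail)) = g0 :: gt) (hgt : ssq gt ≤ ω * ω) :
    ∃ K : ℝ, 0 ≤ K ∧ ∀ (ι : Type) [Fintype ι] [DecidableEq ι] (S : Sys ι) (r : ℕ) (w x : ι → ℝ),
      S.Lo r w → S.Lo r x → S.cᵀ *ᵥ x = 0 → x ⬝ᵥ w = x ⬝ᵥ x → r + β'.length + us.length ≤ S.R →
      ((2 * g0 - ssq β' : ℚ) : ℝ) * (x ⬝ᵥ x) - 2 * ω * (w ⬝ᵥ w) - K * S.δ * (w ⬝ᵥ w) ≤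
        ρ * ((ρ + 1 / ρ) * ((aeval S.a (LP us) *ᵥ w) ⬝ᵥ (aeval S.a (LP us) *ᵥ w)) -
          (aeval S.a (LP us) *ᵥ w) ⬝ᵥ S.a *ᵥ (aeval S.a (LP us) *ᵥ w)) := by
  set β := ladd β' (lsm (-ρ) β'.tail) with hβ
  have c1 := cU_nonneg us
  have c2 := cH_nonneg β'.tail
  have c3 := cE_nonneg β us
  have c4 := ssq_nonneg β'
  have hω' : (0 : ℝ) ≤ ω := by exact_mod_cast hω
  refine ⟨4 * cU us ^ 2 + 3 ^ (2 * β'.length) * ssq β' + 2 * (cH β'.tail * cU us) + 2 * cE β us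
    + 2 * (3 ^ (gt.length + 1) * ω), by positivity, ?_⟩
  intro ι _ _ S r w x hw hx hc hxw hr
  have hρ0' : (0 : ℝ) < ρ := by exact_mod_cast hρ0
  have hρ1' : (ρ : ℝ) ≤ 1 := by exact_mod_cast hρ1
  have δ0 := S.δ0
  have δ1 := S.δ1
  set U := aeval S.a (LP us) with hU
  set z := U *ᵥ w with hz
  set y := S.Hn x β' with hy
  have nw := nrm_nonneg w
  have nx := nrm_nonneg x
  have nz := nrm_nonneg z
  have hxw' : nrm x ≤ nrm w := by
    have h1 := (abs_le.1 (abs_dot_le x w)).2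
    rw [hxw, ← nrm_sq] at h1
    by_contra h
    push Not at h
    nlinarith
  have hzl : S.Lo S.R z := S.lo_mono (S.UA_lo hw us) (by omega)
  have hzn : nrm z ≤ cU us * nrm w := S.UA_le hw us (by omega)
  -- the factorisation
  have h1 : z ⬝ᵥ S.a *ᵥ z = 2 * (z ⬝ᵥ S.c *ᵥ z) + z ⬝ᵥ S.e *ᵥ z := by
    unfold Sys.a
    rw [add_mulVec, add_mulVec, dotProduct_add, dotProduct_add, dotProduct_comm z (S.cᵀ *ᵥ z),
      ← S.dot_c]
    ring
  have h2 : z ⬝ᵥ S.e *ᵥ z ≤ S.δ * nrm z ^ 2 := by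
    have h3 := (abs_le.1 (abs_dot_le z (S.e *ᵥ z))).2
    have h4 := mul_le_mul_of_nonneg_left (S.hee z hzl) nz
    nlinarith
  have h3 : (S.c *ᵥ z) ⬝ᵥ (S.c *ᵥ z) ≤ (1 + 3 * S.δ) * nrm z ^ 2 := by
    have h4 := pow_le_pow_left₀ (nrm_nonneg _) (S.hc z) 2
    rw [nrm_sq, mul_pow] at h4
    refine h4.trans (mul_le_mul_of_nonneg_right (by nlinarith) (by positivity))
  set T := z - (ρ : ℝ) • S.c *ᵥ z with hT
  have h4 : T ⬝ᵥ T = nrm z ^ 2 - 2 * ρ * (z ⬝ᵥ S.c *ᵥ z) + ρ ^ 2 * ((S.c *ᵥ z) ⬝ᵥ (S.c *ᵥ z)) := by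
    simp only [hT, nrm_sq, sub_dotProduct, dotProduct_sub, smul_dotProduct, dotProduct_smul,
      smul_eq_mul, dotProduct_comm (S.c *ᵥ z) z]
    ring
  have h5 : T ⬝ᵥ T - 4 * S.δ * nrm z ^ 2 ≤ ρ * ((ρ + 1 / ρ) * (z ⬝ᵥ z) - z ⬝ᵥ S.a *ᵥ z) := by
    have e : (ρ : ℝ) * ((ρ + 1 / ρ) * (z ⬝ᵥ z) - z ⬝ᵥ S.a *ᵥ z) =
        (ρ ^ 2 + 1) * nrm z ^ 2 - ρ * (z ⬝ᵥ S.a *ᵥ z) := by rw [nrm_sq]; field_simp
    rw [e, h1, h4]
    have a1 := mul_le_mul_of_nonneg_left h2 hρ0'.le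
    have a2 := mul_le_mul_of_nonneg_left h3 (sq_nonneg (ρ : ℝ))
    have a3 : 0 ≤ S.δ * nrm z ^ 2 := by positivity
    have a4 : (ρ : ℝ) * (S.δ * nrm z ^ 2) ≤ S.δ * nrm z ^ 2 := mul_le_of_le_one_left a3 hρ1'
    have a5 : (ρ : ℝ) ^ 2 * (S.δ * nrm z ^ 2) ≤ S.δ * nrm z ^ 2 :=
      mul_le_of_le_one_left a3 (by nlinarith)
    nlinarith
  have h6 : 2 * (y ⬝ᵥ T) - y ⬝ᵥ y ≤ T ⬝ᵥ T := by
    have := dot_self_nonneg (T - y)
    simp only [sub_dotProduct, dotProduct_sub, dotProduct_comm T y] at this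
    linarith
  have h7 : y ⬝ᵥ y ≤ ssq β' * (x ⬝ᵥ x) + S.δ * (3 ^ (2 * β'.length) * ssq β') * nrm w ^ 2 := by
    have a1 := S.Hn_sq hc β'
    have a2 := one_add_pow_le δ0 δ1 (2 * β'.length)
    rw [← pow_mul, mul_comm β'.length, nrm_sq] at a1
    have a3 := mul_le_mul_of_nonneg_right a2 (show 0 ≤ (ssq β' : ℝ) * nrm x ^ 2 by positivity)
    have a4 := mul_le_mul_of_nonneg_left (pow_le_pow_left₀ nx hxw' 2)
      (show 0 ≤ S.δ * (3 ^ (2 * β'.length) * ssq β') by positivity)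
    rw [← nrm_sq x]
    nlinarith
  have h8 : y ⬝ᵥ T = S.Hn x β ⬝ᵥ z - ρ * ((S.cᵀ *ᵥ y - S.Hn x β'.tail) ⬝ᵥ z) := by
    simp only [hT, hβ, S.Hn_add, S.Hn_smul, ← hy, dotProduct_sub, dotProduct_smul, S.dot_c,
      add_dotProduct, smul_dotProduct, sub_dotProduct, smul_eq_mul]
    push_cast
    ring
  have h9 : ρ * ((S.cᵀ *ᵥ y - S.Hn x β'.tail) ⬝ᵥ z) ≤ S.δ * (cH β'.tail * cU us) * nrm w ^ 2 := by
    have a1 := (abs_le.1 (abs_dot_le (S.cᵀ *ᵥ y - S.Hn x β'.tail) z)).2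
    have a2 := (S.ct_Hn hx hc β' (by omega)).trans (mul_le_mul_of_nonneg_left
      (mul_le_mul_of_nonneg_left hxw' c2) δ0)
    have a3 := a1.trans (mul_le_mul a2 hzn nz (by positivity))
    calc _ ≤ ρ * (S.δ * (cH β'.tail * nrm w) * (cU us * nrm w)) :=
          mul_le_mul_of_nonneg_left a3 hρ0'.le
      _ ≤ S.δ * (cH β'.tail * nrm w) * (cU us * nrm w) := mul_le_of_le_one_left (by positivity) hρ1'
      _ = _ := by ring
  have h10 : S.Hn x β ⬝ᵥ z = g0 * (x ⬝ᵥ x) + (S.c *ᵥ S.Hn x gt) ⬝ᵥ w +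
      (U *ᵥ S.Hn x β - S.Hn x (lU us β)) ⬝ᵥ w := by
    rw [hz, dot_symm (isSymm_aeval S.a_symm _), dotProduct_comm w, sub_dotProduct, hg, Sys.Hn,
      add_dotProduct, smul_dotProduct, hxw, smul_eq_mul]
    ring
  have hlen : β.length ≤ β'.length := by
    simp only [hβ, lsm, length_ladd, List.length_map, List.length_tail]; omega
  have h11 : -(S.δ * cE β us * nrm w ^ 2) ≤ (U *ᵥ S.Hn x β - S.Hn x (lU us β)) ⬝ᵥ w := by
    have a1 := (abs_le.1 (abs_dot_le (U *ᵥ S.Hn x β - S.Hn x (lU us β)) w)).1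
    have a2 := (S.UA_Hn hx hc β us (by omega)).trans (mul_le_mul_of_nonneg_left
      (mul_le_mul_of_nonneg_left hxw' c3) δ0)
    have a3 := mul_le_mul_of_nonneg_right a2 nw
    nlinarith
  have h12 : -(ω * nrm w ^ 2 + S.δ * (3 ^ (gt.length + 1) * ω) * nrm w ^ 2) ≤
      (S.c *ᵥ S.Hn x gt) ⬝ᵥ w := by
    have a1 := (abs_le.1 (abs_dot_le (S.c *ᵥ S.Hn x gt) w)).1
    have a2 : nrm (S.Hn x gt) ≤ (1 + S.δ) ^ gt.length * ω * nrm x := by
      refine nrm_le (by positivity) ?_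
      rw [← nrm_sq]
      refine (S.Hn_sq hc gt).trans ?_
      have a3 : (ssq gt : ℝ) ≤ ω * ω := by exact_mod_cast hgt
      calc _ ≤ ((1 + S.δ) ^ gt.length) ^ 2 * (ω * ω) * nrm x ^ 2 := by gcongr
        _ = _ := by ring
    have a3 : nrm (S.c *ᵥ S.Hn x gt) ≤ (1 + S.δ * 3 ^ (gt.length + 1)) * ω * nrm w := by
      calc _ ≤ (1 + S.δ) * ((1 + S.δ) ^ gt.length * ω * nrm x) :=
            (S.hc _).trans (mul_le_mul_of_nonneg_left a2 (by linarith))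
        _ = (1 + S.δ) ^ (gt.length + 1) * ω * nrm x := by ring
        _ ≤ _ := by gcongr; exact one_add_pow_le δ0 δ1 _
    have a4 := mul_le_mul_of_nonneg_right a3 nw
    nlinarith
  have h13 : S.δ * nrm z ^ 2 ≤ S.δ * cU us ^ 2 * nrm w ^ 2 := by
    rw [mul_assoc, ← mul_pow]
    exact mul_le_mul_of_nonneg_left (pow_le_pow_left₀ nz hzn 2) δ0
  rw [← nrm_sq w]
  push_cast
  nlinarith

end Pool.Agent.Lib.MP_dfd018_pr
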